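import Mathlib

set_option linter.all false

/-!
# Graphs of treewidth three embed into `ℓ₁` with bounded distortion: definitions

Everything is built from cuts.  A cut of a finite set `V` is a function `S : V → Bool`; a
measure is a function `μ : (V → Bool) → ℝ`.  A *bag* is a triple of vertices `(a, b, c)`.  The cut
semimetric of `μ` on the bag is a star with legs `m₁ = leg μ a b c` (mass of the cuts `a | b c`), `m₂`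
(mass of `b | a c`) and `m₃` (mass of `c | a b`): `ρ(b, c) = m₂ + m₃` etc.  The true lengths of
the bag are `l₁ = d(b, c)`, `l₂ = d(a, c)`, `l₃ = d(a, b)`.  A new vertex `x` with distances
`d₁, d₂, d₃` to the bag joins the minority side of a cut of type `i` with probability `Tᵢ`
(independently), and there is a new cut `{x}` with mass `n`.
-/

noncomputable section

namespace TW3

/-! ## Near level (statements about real numbers) -/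

/-- the potential of a star with legs `m₁, m₂, m₃` -/
def SS (m₁ m₂ m₃ : ℝ) : ℝ :=
  min m₁ (4 * min m₂ m₃) + min m₂ (4 * min m₁ m₃) + min m₃ (4 * min m₁ m₂)

/-- Condition (Z) of a vertex `u` and the opposite edge `vw`: `p = ρ(u,v)`, `q = ρ(u,w)`,
`a = d(u,v)`, `b = d(u,w)`, `L = d(v,w)`, `s = L - ρ(v,w)`. -/
def Zc (p q a b L s : ℝ) : Prop :=
  L / 10000000 ≤ s / 100 ∨ (b + 2 * L) / 10000000 ≤ p + s / 100 ∨
    (a + 2 * L) / 10000000 ≤ q + s / 100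

/-- Condition (A) of a vertex `u` and the opposite edge `vw`: `s₁` is the slack of the
edge `vw`, `s₂, s₃` are the slacks of `uv, uw`, and `p, q` are the legs of `v, w`. -/
def Ac (S s₁ s₂ s₃ p q : ℝ) : Prop := S / 100 ≤ s₂ + s₃ ∨ 8 * min p q + S / 100 ≤ s₁

/-- the basic invariants of a bag with legs `mᵢ` and lengths `lᵢ` (`l₁` is the length of the edge
`23`, etc.) -/
structure NB (m₁ m₂ m₃ l₁ l₂ l₃ : ℝ) : Prop where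
  m1 : 0 ≤ m₁
  m2 : 0 ≤ m₂
  m3 : 0 ≤ m₃
  ub1 : m₂ + m₃ ≤ l₁
  ub2 : m₁ + m₃ ≤ l₂
  ub3 : m₁ + m₂ ≤ l₃
  lb1 : l₁ / 10000000 ≤ m₂ + m₃
  lb2 : l₂ / 10000000 ≤ m₁ + m₃
  lb3 : l₃ / 10000000 ≤ m₁ + m₂

/-- the conditions (Z) of a bag -/
structure Z3 (m₁ m₂ m₃ l₁ l₂ l₃ : ℝ) : Prop where
  z1 : Zc (m₁ + m₂) (m₁ + m₃) l₃ l₂ l₁ (l₁ - m₂ - m₃)
  z2 : Zc (m₂ + m₁) (m₂ + m₃) l₃ l₁ l₂ (l₂ - m₁ - m₃)
  z3 : Zc (m₃ + m₁) (m₃ + m₂) l₂ l₁ l₃ (l₃ - m₁ - m₂)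

/-- the conditions (A) of a bag -/
structure A3 (m₁ m₂ m₃ l₁ l₂ l₃ : ℝ) : Prop where
  a1 : Ac (SS m₁ m₂ m₃) (l₁ - m₂ - m₃) (l₂ - m₁ - m₃) (l₃ - m₁ - m₂) m₂ m₃
  a2 : Ac (SS m₁ m₂ m₃) (l₂ - m₁ - m₃) (l₁ - m₂ - m₃) (l₃ - m₁ - m₂) m₁ m₃
  a3 : Ac (SS m₁ m₂ m₃) (l₃ - m₁ - m₂) (l₁ - m₂ - m₃) (l₂ - m₁ - m₃) m₁ m₂

/-- the near invariants of a bag -/
structure NInv (m₁ m₂ m₃ l₁ l₂ l₃ : ℝ) : Prop where
  B : NB m₁ m₂ m₃ l₁ l₂ l₃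
  Z : Z3 m₁ m₂ m₃ l₁ l₂ l₃
  A : A3 m₁ m₂ m₃ l₁ l₂ l₃

/-- the sides of a nondegenerate triangle -/
structure Tri3 (l₁ l₂ l₃ : ℝ) : Prop where
  p1 : 0 < l₁
  p2 : 0 < l₂
  p3 : 0 < l₃
  t1 : l₁ ≤ l₂ + l₃
  t2 : l₂ ≤ l₁ + l₃
  t3 : l₃ ≤ l₁ + l₂

/-- a bag and a new vertex `x` at distances `dᵢ` -/
structure Tri4 (l₁ l₂ l₃ d₁ d₂ d₃ : ℝ) : Prop where
  base : Tri3 l₁ l₂ l₃
  f1 : Tri3 l₁ d₂ d₃
  f2 : Tri3 l₂ d₁ d₃
  f3 : Tri3 l₃ d₁ d₂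

/-- A good step, in terms of `sᵢ = Tᵢ mᵢ`: upper and lower bounds for the distances of `x`,
the condition (SC), and the invariants of the three new bags `(x,2,3)`, `(1,x,3)`, `(1,2,x)`. -/
structure StepS (m₁ m₂ m₃ l₁ l₂ l₃ d₁ d₂ d₃ s₁ s₂ s₃ n : ℝ) : Prop where
  u1 : n + m₁ - s₁ + s₂ + s₃ ≤ d₁
  u2 : n + m₂ + s₁ - s₂ + s₃ ≤ d₂
  u3 : n + m₃ + s₁ + s₂ - s₃ ≤ d₃
  v1 : d₁ / 10000000 ≤ n + m₁ - s₁ + s₂ + s₃
  v2 : d₂ / 10000000 ≤ n + m₂ + s₁ - s₂ + s₃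
  v3 : d₃ / 10000000 ≤ n + m₃ + s₁ + s₂ - s₃
  c1 : m₁ + d₁ / 10000000 ≤ s₁ + n + 100000 * (s₂ + s₃) ∨
    m₂ + d₂ / 10000000 ≤ s₁ + n + 100000 * (s₂ + s₃) ∨
    m₃ + d₃ / 10000000 ≤ s₁ + n + 100000 * (s₂ + s₃)
  c2 : m₁ + d₁ / 10000000 ≤ s₂ + n + 100000 * (s₁ + s₃) ∨
    m₂ + d₂ / 10000000 ≤ s₂ + n + 100000 * (s₁ + s₃) ∨
    m₃ + d₃ / 10000000 ≤ s₂ + n + 100000 * (s₁ + s₃)
  c3 : m₁ + d₁ / 10000000 ≤ s₃ + n + 100000 * (s₁ + s₂) ∨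
    m₂ + d₂ / 10000000 ≤ s₃ + n + 100000 * (s₁ + s₂) ∨
    m₃ + d₃ / 10000000 ≤ s₃ + n + 100000 * (s₁ + s₂)
  b1 : NInv (s₁ + n) (m₂ - s₂ + s₃) (m₃ - s₃ + s₂) l₁ d₃ d₂
  b2 : NInv (m₁ - s₁ + s₃) (s₂ + n) (m₃ - s₃ + s₁) d₃ l₂ d₁
  b3 : NInv (m₁ - s₁ + s₂) (m₂ - s₂ + s₁) (s₃ + n) d₂ d₁ l₃

/-- a good step -/
structure StepOK (m₁ m₂ m₃ l₁ l₂ l₃ d₁ d₂ d₃ T₁ T₂ T₃ n : ℝ) : Prop where
  T1 : 0 ≤ T₁
  T2 : 0 ≤ T₂
  T3 : 0 ≤ T₃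
  sum : T₁ + T₂ + T₃ ≤ 1
  n0 : 0 ≤ n
  S : StepS m₁ m₂ m₃ l₁ l₂ l₃ d₁ d₂ d₃ (T₁ * m₁) (T₂ * m₂) (T₃ * m₃) n

/-- there is a good step -/
def HasStep (m₁ m₂ m₃ l₁ l₂ l₃ d₁ d₂ d₃ : ℝ) : Prop :=
  ∃ T₁ T₂ T₃ n, StepOK m₁ m₂ m₃ l₁ l₂ l₃ d₁ d₂ d₃ T₁ T₂ T₃ n

/-! ## Far level (statements about real numbers) -/

/-- the potential of the centre of the star -/
def Rc (M m₁ m₂ m₃ r₁ r₂ r₃ : ℝ) : ℝ := max (r₁ - M * m₁) (max (r₂ - M * m₂) (r₃ - M * m₃))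

/-- the bound from the gate `i` with leg `m`, coordinate `y`; `S = ∑ yᵥ mᵥ` -/
def Lg (K r m S y : ℝ) : ℝ := r + K * (S + m * (1 - 2 * y))

/-- the minimum of the bounds from the four gates, at the point `y` -/
def Lmin (M K m₁ m₂ m₃ r₁ r₂ r₃ y₁ y₂ y₃ : ℝ) : ℝ :=
  min (min (Lg K r₁ m₁ (y₁ * m₁ + y₂ * m₂ + y₃ * m₃) y₁)
      (Lg K r₂ m₂ (y₁ * m₁ + y₂ * m₂ + y₃ * m₃) y₂))
    (min (Lg K r₃ m₃ (y₁ * m₁ + y₂ * m₂ + y₃ * m₃) y₃)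
      (Rc M m₁ m₂ m₃ r₁ r₂ r₃ + K * (y₁ * m₁ + y₂ * m₂ + y₃ * m₃)))

/-- the common part of the potentials of the origin: `β₁, β₂, β₃` are the masses of the cuts
of type `i` where the origin is on the minority side, `ν` the mass of the cuts which
separate the origin from the bag -/
def phi (ν m₁ m₂ m₃ β₁ β₂ β₃ y₁ y₂ y₃ : ℝ) : ℝ :=
  5 * (ν + β₁ + β₂ + β₃) + y₁ * (m₁ - 6 * β₁) + y₂ * (m₂ - 6 * β₂) + y₃ * (m₃ - 6 * β₃)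

/-- the invariant INV4 -/
def Inv4 (M K c ν m₁ m₂ m₃ β₁ β₂ β₃ r₁ r₂ r₃ : ℝ) : Prop :=
  ∀ y₁ y₂ y₃ : ℝ, 0 ≤ y₁ → 0 ≤ y₂ → 0 ≤ y₃ → y₁ + y₂ + y₃ ≤ 1 →
    (y₁ = 0 → c * Lmin M K m₁ m₂ m₃ r₁ r₂ r₃ y₁ y₂ y₃ ≤
      phi ν m₁ m₂ m₃ β₁ β₂ β₃ y₁ y₂ y₃ - 4 * β₁) ∧
    (y₂ = 0 → c * Lmin M K m₁ m₂ m₃ r₁ r₂ r₃ y₁ y₂ y₃ ≤
      phi ν m₁ m₂ m₃ β₁ β₂ β₃ y₁ y₂ y₃ - 4 * β₂) ∧
    (y₃ = 0 → c * Lmin M K m₁ m₂ m₃ r₁ r₂ r₃ y₁ y₂ y₃ ≤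
      phi ν m₁ m₂ m₃ β₁ β₂ β₃ y₁ y₂ y₃ - 4 * β₃)

/-- the basic conditions on the constants and on an origin at a bag -/
structure Org (M K c ν m₁ m₂ m₃ β₁ β₂ β₃ r₁ r₂ r₃ : ℝ) : Prop where
  M0 : 0 < M
  K0 : 4 * M ≤ K
  c0 : 0 < c
  c1 : 1000 * (c * K) ≤ 1
  ν0 : 0 ≤ ν
  β1 : 0 ≤ β₁
  β2 : 0 ≤ β₂
  β3 : 0 ≤ β₃
  μ1 : β₁ ≤ m₁
  μ2 : β₂ ≤ m₂
  μ3 : β₃ ≤ m₃
  lip1 : |r₂ - r₃| ≤ M * (m₂ + m₃)
  lip2 : |r₁ - r₃| ≤ M * (m₁ + m₃)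
  lip3 : |r₁ - r₂| ≤ M * (m₁ + m₂)

/-- the conditions on a step, for the new bag `(x,2,3)`; `r` is the potential of `x` and `dᵢ` its
distances -/
structure Stp (M K m₁ m₂ m₃ T₁ T₂ T₃ n r₁ r₂ r₃ r d₁ d₂ d₃ : ℝ) : Prop where
  T1 : 0 ≤ T₁
  T2 : 0 ≤ T₂
  T3 : 0 ≤ T₃
  sum : T₁ + T₂ + T₃ ≤ 1
  n0 : 0 ≤ n
  r1 : r ≤ r₁ + d₁
  r2 : r ≤ r₂ + d₂
  r3 : r ≤ r₃ + d₃
  v1 : d₁ ≤ M * (n + m₁ - T₁ * m₁ + T₂ * m₂ + T₃ * m₃)
  c1 : M * m₁ + d₁ ≤ M * (T₁ * m₁ + n) + K * (T₂ * m₂ + T₃ * m₃) ∨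
    M * m₂ + d₂ ≤ M * (T₁ * m₁ + n) + K * (T₂ * m₂ + T₃ * m₃) ∨
    M * m₃ + d₃ ≤ M * (T₁ * m₁ + n) + K * (T₂ * m₂ + T₃ * m₃)

/-! ## Cut measures -/

section cuts

variable {V : Type} [Fintype V] [DecidableEq V]

/-- the integral of `f` -/
def II (μ f : (V → Bool) → ℝ) : ℝ := ∑ S, μ S * f S

/-- the cut semimetric -/
def sep (μ : (V → Bool) → ℝ) (u v : V) : ℝ := II μ fun S => if S u = S v then 0 else 1

/-- the mass of the cuts `a | b c` -/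
def leg (μ : (V → Bool) → ℝ) (a b c : V) : ℝ :=
  II μ fun S => if S a ≠ S b ∧ S b = S c then 1 else 0

/-- the mass of the cuts `a | b c` with `o` on the side of `a` -/
def bet (μ : (V → Bool) → ℝ) (o a b c : V) : ℝ :=
  II μ fun S => if S a ≠ S b ∧ S b = S c ∧ S o = S a then 1 else 0

/-- the mass of the cuts which separate `o` from `a, b, c` -/
def out (μ : (V → Bool) → ℝ) (o a b c : V) : ℝ :=
  II μ fun S => if S a = S b ∧ S b = S c ∧ S o ≠ S a then 1 else 0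

/-- the majority side of the bag -/
def maj (S : V → Bool) (a b c : V) : Bool := (S a && S b) || (S a && S c) || (S b && S c)

/-- the probability that `x` joins the minority side -/
def prb (T₁ T₂ T₃ : ℝ) (S : V → Bool) (a b c : V) : ℝ :=
  if S a ≠ S b ∧ S b = S c then T₁ else if S b ≠ S a ∧ S a = S c then T₂ else
    if S c ≠ S a ∧ S a = S b then T₃ else 0

/-- the new measure after adding the vertex `x` -/
def addV (μ : (V → Bool) → ℝ) (x a b c : V) (T₁ T₂ T₃ n : ℝ) : (V → Bool) → ℝ := fun S' =>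
  (∑ S, μ S * (prb T₁ T₂ T₃ S a b c * (if S' = Function.update S x (!maj S a b c) then 1 else 0) +
    (1 - prb T₁ T₂ T₃ S a b c) * (if S' = Function.update S x (maj S a b c) then 1 else 0))) +
  n * (if S' = Function.update (fun _ => false) x true then 1 else 0)

/-- the near invariants of a bag -/
def NAt (d : V → V → ℝ) (μ : (V → Bool) → ℝ) (a b c : V) : Prop :=
  NInv (leg μ a b c) (leg μ b a c) (leg μ c a b) (d b c) (d a c) (d a b)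

/-- the invariant INV4 of the origin `o` at a bag -/
def FAt (M K k : ℝ) (d : V → V → ℝ) (μ : (V → Bool) → ℝ) (o a b c : V) : Prop :=
  Inv4 M K k (out μ o a b c) (leg μ a b c) (leg μ b a c) (leg μ c a b)
    (bet μ o a b c) (bet μ o b a c) (bet μ o c a b) (d o a) (d o b) (d o c)

/-! ## Constants of the two levels -/

def M₁ : ℝ := 10000000
def K₁ : ℝ := 100000 * M₁
def k₁ : ℝ := 1 / (1000 * K₁)
def M₂ : ℝ := 5 / k₁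
def K₂ : ℝ := 100000 * M₂
def k₂ : ℝ := 1 / (1000 * K₂)

/-! ## The state of the construction -/

/-- `d` is a metric -/
structure Dst (d : V → V → ℝ) : Prop where
  self : ∀ x, d x x = 0
  comm : ∀ x y, d x y = d y x
  tri : ∀ x y z, d x z ≤ d x y + d y z
  pos : ∀ x y, x ≠ y → 0 < d x y

/-- a bag of the current state; `A` is the set of the present vertices -/
structure Bag (d : V → V → ℝ) (μ : (V → Bool) → ℝ) (A : Finset V) (a b c : V) : Prop where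
  ha : a ∈ A
  hb : b ∈ A
  hc : c ∈ A
  ab : a ≠ b
  ac : a ≠ c
  bc : b ≠ c
  near : NAt d μ a b c
  far : ∀ o ∈ A, FAt M₂ K₂ k₂ d μ o a b c

/-- the vertices of the bags of a stack -/
def vs : List (V × V × V) → Finset V
  | [] => ∅
  | (a, b, c) :: st => {a, b, c} ∪ vs st

/-- the invariants of a stack of bags -/
def Stk (d : V → V → ℝ) (μ : (V → Bool) → ℝ) (A : Finset V) : List (V × V × V) → Prop
  | [] => True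
  | (a, b, c) :: st => Bag d μ A a b c ∧
      (∀ o ∈ vs ((a, b, c) :: st), FAt M₁ K₁ k₁ d μ o a b c) ∧ Stk d μ A st

/-- the state: `A` is the set of the present vertices, `E` the relation of the present edges -/
structure Sta (d : V → V → ℝ) (μ : (V → Bool) → ℝ) (A : Finset V) (E : V → V → Prop)
    (st : List (V × V × V)) : Prop where
  nn : ∀ S, 0 ≤ μ S
  up : ∀ u v, E u v → u ∈ A ∧ v ∈ A ∧ sep μ u v ≤ d u v
  lo : ∀ u ∈ A, ∀ v ∈ A, k₂ * d u v ≤ 5 * sep μ u v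
  stk : Stk d μ A st

/-- `Seq st L E`: from a stack `st` of bags one can build the vertices `L` (each new vertex is
attached to the first bag of the stack, which is replaced by itself and the three new
bags; bags can be dropped); `E` is the relation between each new vertex and its bag. -/
inductive Seq : List (V × V × V) → Finset V → (V → V → Prop) → Prop
  | nil (st : List (V × V × V)) : Seq st ∅ (fun _ _ => False)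
  | skip {B : V × V × V} {st : List (V × V × V)} {L : Finset V} {E : V → V → Prop} :
      Seq st L E → Seq (B :: st) L E
  | add {a b c x : V} {st : List (V × V × V)} {L : Finset V} {E : V → V → Prop} (hx : x ∉ L)
      (h : Seq ((x, b, c) :: (a, x, c) :: (a, b, x) :: (a, b, c) :: st) L E) :
      Seq ((a, b, c) :: st) (insert x L) (fun u v => E u v ∨ (u = x ∧ (v = a ∨ v = b ∨ v = c)))

end cuts

end TW3
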