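import Pool.Agent.Lib.MP_2eab14_co.TwoSum.Defs
import Pool.Agent.Lib.MP_2eab14_co.TW3.Defs

set_option linter.all false

/-!
# Treewidth three: definitions of the graph part
-/

noncomputable section

namespace TW3

open KSum52 TwoSum

/-- the graphs with at most four vertices -/
def Le4 : Family := fun n _ => n ≤ 4

/-- `RT B L E`: starting from the bag `B` (a set with three elements) one can attach the new
vertices `L`, each one to a bag, such that every pair in the relation `E` is inside `B` or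
consists of a new vertex and a member of the bag it was attached to.  In `cons` the vertex `x` is
attached to `B`, the trees `RT (insert x (B.erase i)) (f i) (g i)` hang at the three new bags, and
`RT B Lr Er` is the rest of the tree at `B`. -/
inductive RT {V : Type} [DecidableEq V] : Finset V → Finset V → (V → V → Prop) → Prop
  | nil {B : Finset V} {E : V → V → Prop} (hE : ∀ u v, E u v → u ∈ B ∧ v ∈ B) : RT B ∅ E
  | cons {B L : Finset V} {E : V → V → Prop} {x : V} {f : V → Finset V} {g : V → V → V → Prop}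
      {Lr : Finset V} {Er : V → V → Prop} (hx : x ∉ B)
      (h : ∀ i ∈ B, RT (insert x (B.erase i)) (f i) (g i)) (hr : RT B Lr Er)
      (d1 : ∀ i ∈ B, x ∉ f i) (d2 : x ∉ Lr) (d3 : ∀ i ∈ B, ∀ j ∈ B, i ≠ j → Disjoint (f i) (f j))
      (d4 : ∀ i ∈ B, Disjoint (f i) Lr) (d5 : ∀ i ∈ B, Disjoint (f i) B) (d6 : Disjoint Lr B)
      (hL : L = insert x (B.biUnion f ∪ Lr))
      (hE : ∀ u v, E u v → (u ∈ B ∧ v ∈ B) ∨ (u = x ∧ v ∈ B) ∨ (v = x ∧ u ∈ B) ∨
        (∃ i ∈ B, g i u v) ∨ Er u v) : RT B L E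

/-- the adjacency of `G` moved to `V` -/
def mapAdj {n : ℕ} {V : Type} (G : SimpleGraph (Fin n)) (φ : Fin n ↪ V) : V → V → Prop :=
  fun u v => ∃ a b, G.Adj a b ∧ φ a = u ∧ φ b = v

/-- `G` can be attached to every bag which meets it in a clique -/
def Good {n : ℕ} (G : SimpleGraph (Fin n)) : Prop :=
  ∀ (V : Type) [Fintype V] [DecidableEq V] (φ : Fin n ↪ V) (K : Finset (Fin n)) (B : Finset V),
    (∀ a ∈ K, ∀ b ∈ K, a ≠ b → G.Adj a b) → B.card = 3 →
    (∀ a, φ a ∈ B ↔ a ∈ K) → RT B ((Finset.univ \ K).map φ) (mapAdj G φ)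

end TW3
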