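import Pool.Agent.Lib.MP_2eab14_co.TwoSum.Defs

set_option linter.all false

/-!
# Treewidth
-/

noncomputable section

namespace TW3

open KSum52 TwoSum

/-- The list of bags has the running intersection property: for every bag `β` of the list which
is not the last one there is a bag `s` behind it which contains all vertices of `β` that
occur in the bags behind it (so the bags form a tree decomposition, `s` is the parent of `β`). -/
def RI {V : Type} : List (Finset V) → Prop
  | [] => True
  | β :: l => RI l ∧ (l = [] ∨ ∃ s ∈ l, ∀ v ∈ β, (∃ r ∈ l, v ∈ r) → v ∈ s)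

/-- The graphs of treewidth at most `k`: there is a list of bags with at most `k + 1` vertices, with
the running intersection property, which covers all vertices and edges. -/
def Tw (k : ℕ) : Family := fun n G => ∃ l : List (Finset (Fin n)), RI l ∧
  (∀ β ∈ l, β.card ≤ k + 1) ∧ (∀ v, ∃ β ∈ l, v ∈ β) ∧
  (∀ u v, G.Adj u v → ∃ β ∈ l, u ∈ β ∧ v ∈ β)

end TW3
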