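import Pool.Agent.Lib.MP_2eab14_co.TW3.Defs

set_option linter.all false

/-!
# Near level: common lemmas
-/

noncomputable section

namespace TW3

/-! ## The potential `SS` -/

lemma SS_comm12 (m₁ m₂ m₃ : ℝ) : SS m₁ m₂ m₃ = SS m₂ m₁ m₃ := by
  unfold SS
  rw [min_comm m₁ m₂]
  ring

lemma SS_comm23 (m₁ m₂ m₃ : ℝ) : SS m₁ m₂ m₃ = SS m₁ m₃ m₂ := by
  unfold SS
  rw [min_comm m₂ m₃]
  ring

lemma SS_nonneg {m₁ m₂ m₃ : ℝ} (h1 : 0 ≤ m₁) (h2 : 0 ≤ m₂) (h3 : 0 ≤ m₃) : 0 ≤ SS m₁ m₂ m₃ := by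
  unfold SS
  have a : 0 ≤ min m₁ (4 * min m₂ m₃) := le_min h1 (mul_nonneg (by norm_num) (le_min h2 h3))
  have b : 0 ≤ min m₂ (4 * min m₁ m₃) := le_min h2 (mul_nonneg (by norm_num) (le_min h1 h3))
  have c : 0 ≤ min m₃ (4 * min m₁ m₂) := le_min h3 (mul_nonneg (by norm_num) (le_min h1 h2))
  linarith

lemma SS_mono {m₁ m₂ m₃ k₁ k₂ k₃ : ℝ} (h1 : m₁ ≤ k₁) (h2 : m₂ ≤ k₂) (h3 : m₃ ≤ k₃) :
    SS m₁ m₂ m₃ ≤ SS k₁ k₂ k₃ := by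
  unfold SS
  have a := min_le_min h1 (mul_le_mul_of_nonneg_left (min_le_min h2 h3) (by norm_num : (0:ℝ) ≤ 4))
  have b := min_le_min h2 (mul_le_mul_of_nonneg_left (min_le_min h1 h3) (by norm_num : (0:ℝ) ≤ 4))
  have c := min_le_min h3 (mul_le_mul_of_nonneg_left (min_le_min h1 h2) (by norm_num : (0:ℝ) ≤ 4))
  linarith

lemma SS_le1 (m₁ m₂ m₃ : ℝ) : SS m₁ m₂ m₃ ≤ 9 * m₁ := by
  unfold SS
  have a := min_le_left m₁ (4 * min m₂ m₃)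
  have b := min_le_right m₂ (4 * min m₁ m₃)
  have b' := min_le_left m₁ m₃
  have c := min_le_right m₃ (4 * min m₁ m₂)
  have c' := min_le_left m₁ m₂
  linarith

lemma SS_le2 (m₁ m₂ m₃ : ℝ) : SS m₁ m₂ m₃ ≤ 9 * m₂ := by
  rw [SS_comm12]; exact SS_le1 _ _ _

lemma SS_le3 (m₁ m₂ m₃ : ℝ) : SS m₁ m₂ m₃ ≤ 9 * m₃ := by
  rw [SS_comm23]; exact SS_le2 _ _ _

/-- `SS` is at least three times every lower bound of the legs -/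
lemma le_SS {m₁ m₂ m₃ a : ℝ} (h0 : 0 ≤ a) (h1 : a ≤ m₁) (h2 : a ≤ m₂) (h3 : a ≤ m₃) :
    3 * a ≤ SS m₁ m₂ m₃ := by
  unfold SS
  have k1 : a ≤ min m₁ (4 * min m₂ m₃) := le_min h1 (by
    have := le_min h2 h3
    linarith)
  have k2 : a ≤ min m₂ (4 * min m₁ m₃) := le_min h2 (by
    have := le_min h1 h3
    linarith)
  have k3 : a ≤ min m₃ (4 * min m₁ m₂) := le_min h3 (by
    have := le_min h1 h2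
    linarith)
  linarith

/-- `SS` grows by at most `12 s` if every leg grows by at most `s` -/
lemma SS_add {m₁ m₂ m₃ s : ℝ} (hs : 0 ≤ s) :
    SS (m₁ + s) (m₂ + s) (m₃ + s) ≤ SS m₁ m₂ m₃ + 12 * s := by
  unfold SS
  have key : ∀ a b c : ℝ, min (a + s) (4 * min (b + s) (c + s)) ≤ min a (4 * min b c) + 4 * s := by
    intro a b c
    rcases le_total a (4 * min b c) with h | h
    · rw [min_eq_left h]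
      exact (min_le_left _ _).trans (by linarith)
    · rw [min_eq_right h]
      refine (min_le_right _ _).trans ?_
      rcases le_total b c with h' | h'
      · rw [min_eq_left h']
        have := min_le_left (b + s) (c + s)
        linarith
      · rw [min_eq_right h']
        have := min_le_right (b + s) (c + s)
        linarith
  have a := key m₁ m₂ m₃
  have b := key m₂ m₁ m₃
  have c := key m₃ m₁ m₂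
  linarith

/-! ## Permutations -/

lemma Zc.symm {p q a b L s : ℝ} (h : Zc p q a b L s) : Zc q p b a L s := by
  rcases h with h | h | h
  · exact Or.inl h
  · exact Or.inr (Or.inr h)
  · exact Or.inr (Or.inl h)

lemma Ac.symm {S s₁ s₂ s₃ p q : ℝ} (h : Ac S s₁ s₂ s₃ p q) : Ac S s₁ s₃ s₂ q p := by
  rcases h with h | h
  · exact Or.inl (by linarith)
  · exact Or.inr (by rw [min_comm]; exact h)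

lemma Tri3.swap12 {a b c : ℝ} (h : Tri3 a b c) : Tri3 b a c :=
  ⟨h.p2, h.p1, h.p3, h.t2, h.t1, by linarith [h.t3]⟩

lemma Tri3.swap23 {a b c : ℝ} (h : Tri3 a b c) : Tri3 a c b :=
  ⟨h.p1, h.p3, h.p2, by linarith [h.t1], h.t3, h.t2⟩

lemma Tri4.swap12 {l₁ l₂ l₃ d₁ d₂ d₃ : ℝ} (h : Tri4 l₁ l₂ l₃ d₁ d₂ d₃) :
    Tri4 l₂ l₁ l₃ d₂ d₁ d₃ :=
  ⟨h.base.swap12, h.f2, h.f1, h.f3.swap23⟩

lemma Tri4.swap23 {l₁ l₂ l₃ d₁ d₂ d₃ : ℝ} (h : Tri4 l₁ l₂ l₃ d₁ d₂ d₃) :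
    Tri4 l₁ l₃ l₂ d₁ d₃ d₂ :=
  ⟨h.base.swap23, h.f1.swap23, h.f3, h.f2⟩

lemma NB.swap12 {m₁ m₂ m₃ l₁ l₂ l₃ : ℝ} (h : NB m₁ m₂ m₃ l₁ l₂ l₃) : NB m₂ m₁ m₃ l₂ l₁ l₃ :=
  ⟨h.m2, h.m1, h.m3, h.ub2, h.ub1, by linarith [h.ub3], h.lb2, h.lb1, by linarith [h.lb3]⟩

lemma NB.swap23 {m₁ m₂ m₃ l₁ l₂ l₃ : ℝ} (h : NB m₁ m₂ m₃ l₁ l₂ l₃) : NB m₁ m₃ m₂ l₁ l₃ l₂ :=
  ⟨h.m1, h.m3, h.m2, by linarith [h.ub1], h.ub3, h.ub2, by linarith [h.lb1], h.lb3, h.lb2⟩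

lemma Z3.swap12 {m₁ m₂ m₃ l₁ l₂ l₃ : ℝ} (h : Z3 m₁ m₂ m₃ l₁ l₂ l₃) : Z3 m₂ m₁ m₃ l₂ l₁ l₃ := by
  refine ⟨h.z2, h.z1, ?_⟩
  have := h.z3.symm
  rw [sub_right_comm] at this
  exact this

lemma Z3.swap23 {m₁ m₂ m₃ l₁ l₂ l₃ : ℝ} (h : Z3 m₁ m₂ m₃ l₁ l₂ l₃) : Z3 m₁ m₃ m₂ l₁ l₃ l₂ := by
  refine ⟨?_, h.z3, h.z2⟩
  have := h.z1.symm
  rw [sub_right_comm] at this
  exact this

lemma A3.swap12 {m₁ m₂ m₃ l₁ l₂ l₃ : ℝ} (h : A3 m₁ m₂ m₃ l₁ l₂ l₃) : A3 m₂ m₁ m₃ l₂ l₁ l₃ := by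
  obtain ⟨a1, a2, a3⟩ := h
  rw [SS_comm12] at a1 a2 a3
  refine ⟨?_, ?_, ?_⟩
  · rw [sub_right_comm l₃ m₂ m₁]; exact a2
  · rw [sub_right_comm l₃ m₂ m₁]; exact a1
  · rw [sub_right_comm l₃ m₂ m₁]; exact a3.symm

lemma A3.swap23 {m₁ m₂ m₃ l₁ l₂ l₃ : ℝ} (h : A3 m₁ m₂ m₃ l₁ l₂ l₃) : A3 m₁ m₃ m₂ l₁ l₃ l₂ := by
  obtain ⟨a1, a2, a3⟩ := h
  rw [SS_comm23] at a1 a2 a3
  refine ⟨?_, ?_, ?_⟩
  · rw [sub_right_comm l₁ m₃ m₂]; exact a1.symm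
  · rw [sub_right_comm l₁ m₃ m₂]; exact a3
  · rw [sub_right_comm l₁ m₃ m₂]; exact a2

lemma NInv.swap12 {m₁ m₂ m₃ l₁ l₂ l₃ : ℝ} (h : NInv m₁ m₂ m₃ l₁ l₂ l₃) :
    NInv m₂ m₁ m₃ l₂ l₁ l₃ := ⟨h.B.swap12, h.Z.swap12, h.A.swap12⟩

lemma NInv.swap23 {m₁ m₂ m₃ l₁ l₂ l₃ : ℝ} (h : NInv m₁ m₂ m₃ l₁ l₂ l₃) :
    NInv m₁ m₃ m₂ l₁ l₃ l₂ := ⟨h.B.swap23, h.Z.swap23, h.A.swap23⟩

lemma NInv.swap13 {m₁ m₂ m₃ l₁ l₂ l₃ : ℝ} (h : NInv m₁ m₂ m₃ l₁ l₂ l₃) :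
    NInv m₃ m₂ m₁ l₃ l₂ l₁ := h.swap12.swap23.swap12

lemma StepS.swap12 {m₁ m₂ m₃ l₁ l₂ l₃ d₁ d₂ d₃ s₁ s₂ s₃ n : ℝ}
    (h : StepS m₁ m₂ m₃ l₁ l₂ l₃ d₁ d₂ d₃ s₁ s₂ s₃ n) :
    StepS m₂ m₁ m₃ l₂ l₁ l₃ d₂ d₁ d₃ s₂ s₁ s₃ n where
  u1 := by linarith [h.u2]
  u2 := by linarith [h.u1]
  u3 := by linarith [h.u3]
  v1 := by linarith [h.v2]
  v2 := by linarith [h.v1]
  v3 := by linarith [h.v3]
  c1 := by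
    rcases h.c2 with h | h | h
    · exact Or.inr (Or.inl h)
    · exact Or.inl h
    · exact Or.inr (Or.inr h)
  c2 := by
    rcases h.c1 with h | h | h
    · exact Or.inr (Or.inl h)
    · exact Or.inl h
    · exact Or.inr (Or.inr h)
  c3 := by
    rcases h.c3 with h | h | h
    · exact Or.inr (Or.inl (by rw [add_comm s₂ s₁]; exact h))
    · exact Or.inl (by rw [add_comm s₂ s₁]; exact h)
    · exact Or.inr (Or.inr (by rw [add_comm s₂ s₁]; exact h))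
  b1 := h.b2.swap12
  b2 := h.b1.swap12
  b3 := h.b3.swap12

lemma StepS.swap23 {m₁ m₂ m₃ l₁ l₂ l₃ d₁ d₂ d₃ s₁ s₂ s₃ n : ℝ}
    (h : StepS m₁ m₂ m₃ l₁ l₂ l₃ d₁ d₂ d₃ s₁ s₂ s₃ n) :
    StepS m₁ m₃ m₂ l₁ l₃ l₂ d₁ d₃ d₂ s₁ s₃ s₂ n where
  u1 := by linarith [h.u1]
  u2 := by linarith [h.u3]
  u3 := by linarith [h.u2]
  v1 := by linarith [h.v1]
  v2 := by linarith [h.v3]
  v3 := by linarith [h.v2]
  c1 := by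
    rw [add_comm s₃ s₂]
    rcases h.c1 with h | h | h
    · exact Or.inl h
    · exact Or.inr (Or.inr h)
    · exact Or.inr (Or.inl h)
  c2 := by
    rcases h.c3 with h | h | h
    · exact Or.inl h
    · exact Or.inr (Or.inr h)
    · exact Or.inr (Or.inl h)
  c3 := by
    rcases h.c2 with h | h | h
    · exact Or.inl h
    · exact Or.inr (Or.inr h)
    · exact Or.inr (Or.inl h)
  b1 := h.b1.swap23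
  b2 := h.b3.swap23
  b3 := h.b2.swap23

lemma HasStep.swap12 {m₁ m₂ m₃ l₁ l₂ l₃ d₁ d₂ d₃ : ℝ} (h : HasStep m₁ m₂ m₃ l₁ l₂ l₃ d₁ d₂ d₃) :
    HasStep m₂ m₁ m₃ l₂ l₁ l₃ d₂ d₁ d₃ := by
  obtain ⟨T₁, T₂, T₃, n, h⟩ := h
  exact ⟨T₂, T₁, T₃, n, h.T2, h.T1, h.T3, by linarith [h.sum], h.n0, h.S.swap12⟩

lemma HasStep.swap23 {m₁ m₂ m₃ l₁ l₂ l₃ d₁ d₂ d₃ : ℝ} (h : HasStep m₁ m₂ m₃ l₁ l₂ l₃ d₁ d₂ d₃) :
    HasStep m₁ m₃ m₂ l₁ l₃ l₂ d₁ d₃ d₂ := by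
  obtain ⟨T₁, T₂, T₃, n, h⟩ := h
  exact ⟨T₁, T₃, T₂, n, h.T1, h.T3, h.T2, by linarith [h.sum], h.n0, h.S.swap23⟩

/-- from `StepS` to `HasStep` -/
lemma HasStep.of {m₁ m₂ m₃ l₁ l₂ l₃ d₁ d₂ d₃ s₁ s₂ s₃ n T₁ T₂ T₃ : ℝ} (e1 : T₁ * m₁ = s₁)
    (e2 : T₂ * m₂ = s₂) (e3 : T₃ * m₃ = s₃) (h1 : 0 ≤ T₁) (h2 : 0 ≤ T₂) (h3 : 0 ≤ T₃)
    (hs : T₁ + T₂ + T₃ ≤ 1) (hn : 0 ≤ n) (h : StepS m₁ m₂ m₃ l₁ l₂ l₃ d₁ d₂ d₃ s₁ s₂ s₃ n) :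
    HasStep m₁ m₂ m₃ l₁ l₂ l₃ d₁ d₂ d₃ := by
  subst e1 e2 e3
  exact ⟨T₁, T₂, T₃, n, h1, h2, h3, hs, hn, h⟩

/-- from `StepS` to `HasStep`: `s₃ = 0`, and `s₁ ≤ t₁ m₁`, `s₂ ≤ t₂ m₂` with `t₁ + t₂ ≤ 1` -/
lemma HasStep.of2 {m₁ m₂ m₃ l₁ l₂ l₃ d₁ d₂ d₃ s₁ s₂ n t₁ t₂ : ℝ} (hm1 : 0 ≤ m₁) (hm2 : 0 ≤ m₂)
    (h1 : 0 ≤ s₁) (h2 : 0 ≤ s₂) (ht1 : 0 ≤ t₁) (ht2 : 0 ≤ t₂)
    (e1 : s₁ ≤ t₁ * m₁) (e2 : s₂ ≤ t₂ * m₂)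
    (hs : t₁ + t₂ ≤ 1) (hn : 0 ≤ n) (h : StepS m₁ m₂ m₃ l₁ l₂ l₃ d₁ d₂ d₃ s₁ s₂ 0 n) :
    HasStep m₁ m₂ m₃ l₁ l₂ l₃ d₁ d₂ d₃ := by
  have key : ∀ m s t : ℝ, 0 ≤ m → 0 ≤ s → 0 ≤ t → s ≤ t * m → ∃ T, T * m = s ∧ 0 ≤ T ∧ T ≤ t := by
    intro m s t hm hs ht h
    rcases hm.eq_or_lt with h0 | h0
    · refine ⟨0, ?_, le_rfl, ht⟩
      subst h0
      have : s = 0 := le_antisymm (by linarith) hs
      rw [this, zero_mul]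
    · refine ⟨s / m, div_mul_cancel₀ _ h0.ne', div_nonneg hs hm, ?_⟩
      rw [div_le_iff₀ h0]
      exact h
  obtain ⟨T₁, a1, b1, c1⟩ := key m₁ s₁ t₁ hm1 h1 ht1 e1
  obtain ⟨T₂, a2, b2, c2⟩ := key m₂ s₂ t₂ hm2 h2 ht2 e2
  exact HasStep.of a1 a2 (zero_mul m₃) b1 b2 le_rfl (by linarith) hn h

/-! ## Conditions (A) -/

/-- a zero leg -/
lemma A3.of_zero1 {m₁ m₂ m₃ l₁ l₂ l₃ : ℝ} (h1 : m₁ ≤ 0) (u1 : m₂ + m₃ ≤ l₁)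
    (u2 : m₁ + m₃ ≤ l₂) (u3 : m₁ + m₂ ≤ l₃) : A3 m₁ m₂ m₃ l₁ l₂ l₃ := by
  have := SS_le1 m₁ m₂ m₃
  exact ⟨Or.inl (by linarith), Or.inl (by linarith), Or.inl (by linarith)⟩

lemma A3.of_zero2 {m₁ m₂ m₃ l₁ l₂ l₃ : ℝ} (h1 : m₂ ≤ 0) (u1 : m₂ + m₃ ≤ l₁)
    (u2 : m₁ + m₃ ≤ l₂) (u3 : m₁ + m₂ ≤ l₃) : A3 m₁ m₂ m₃ l₁ l₂ l₃ := by
  have := SS_le2 m₁ m₂ m₃
  exact ⟨Or.inl (by linarith), Or.inl (by linarith), Or.inl (by linarith)⟩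

lemma A3.of_zero3 {m₁ m₂ m₃ l₁ l₂ l₃ : ℝ} (h1 : m₃ ≤ 0) (u1 : m₂ + m₃ ≤ l₁)
    (u2 : m₁ + m₃ ≤ l₂) (u3 : m₁ + m₂ ≤ l₃) : A3 m₁ m₂ m₃ l₁ l₂ l₃ := by
  have := SS_le3 m₁ m₂ m₃
  exact ⟨Or.inl (by linarith), Or.inl (by linarith), Or.inl (by linarith)⟩

/-- one edge (here `12`) with a large slack gives all three conditions (A) -/
lemma A3.of_edge12 {m₁ m₂ m₃ l₁ l₂ l₃ t : ℝ} (h1 : 0 ≤ m₁) (h2 : 0 ≤ m₂)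
    (u1 : m₂ + m₃ ≤ l₁) (u2 : m₁ + m₃ ≤ l₂) (ht : m₁ ≤ t ∨ m₂ ≤ t) (h : 9 * t ≤ l₃ - m₁ - m₂) :
    A3 m₁ m₂ m₃ l₁ l₂ l₃ := by
  have k1 := SS_le1 m₁ m₂ m₃
  have k2 := SS_le2 m₁ m₂ m₃
  have k3 := min_le_left m₁ m₂
  have k4 := min_le_right m₁ m₂
  rcases ht with ht | ht
  · exact ⟨Or.inl (by linarith), Or.inl (by linarith), Or.inr (by linarith)⟩
  · exact ⟨Or.inl (by linarith), Or.inl (by linarith), Or.inr (by linarith)⟩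

lemma A3.of_edge13 {m₁ m₂ m₃ l₁ l₂ l₃ t : ℝ} (h1 : 0 ≤ m₁) (h2 : 0 ≤ m₃)
    (u1 : m₂ + m₃ ≤ l₁) (u3 : m₁ + m₂ ≤ l₃) (ht : m₁ ≤ t ∨ m₃ ≤ t) (h : 9 * t ≤ l₂ - m₁ - m₃) :
    A3 m₁ m₂ m₃ l₁ l₂ l₃ :=
  (A3.of_edge12 h1 h2 (by linarith) u3 ht h).swap23

lemma A3.of_edge23 {m₁ m₂ m₃ l₁ l₂ l₃ t : ℝ} (h1 : 0 ≤ m₂) (h2 : 0 ≤ m₃)
    (u2 : m₁ + m₃ ≤ l₂) (u3 : m₁ + m₂ ≤ l₃) (ht : m₂ ≤ t ∨ m₃ ≤ t) (h : 9 * t ≤ l₁ - m₂ - m₃) :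
    A3 m₁ m₂ m₃ l₁ l₂ l₃ :=
  (A3.of_edge13 (m₂ := m₁) h1 h2 u2 (by linarith) ht h).swap12

/-- two edges (here `12`, `13`) with a slack `≥ m₁ / 10` give all three conditions (A) -/
lemma A3.of_two1 {m₁ m₂ m₃ l₁ l₂ l₃ : ℝ} (h1 : 0 ≤ m₁) (u1 : m₂ + m₃ ≤ l₁)
    (h2 : m₁ / 10 ≤ l₂ - m₁ - m₃) (h3 : m₁ / 10 ≤ l₃ - m₁ - m₂) :
    A3 m₁ m₂ m₃ l₁ l₂ l₃ := by
  have k1 := SS_le1 m₁ m₂ m₃
  exact ⟨Or.inl (by linarith), Or.inl (by linarith), Or.inl (by linarith)⟩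

/-! ## Conditions (Z) -/

/-- (Z) holds if the opposite edge is not very short -/
lemma Zc.of_len {p q a b L s : ℝ} (hL : 0 < L) (hs : 0 ≤ s) (ha : 3 * a ≤ 10000000 * L)
    (hb : 3 * b ≤ 10000000 * L) (h : L - s ≤ p + q) : Zc p q a b L s := by
  by_contra hc
  unfold Zc at hc
  push Not at hc
  obtain ⟨h1, h2, h3⟩ := hc
  linarith

/-- (Z) holds for the opposite edge `vw` if the slack of `vw` is large -/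
lemma Zc.of_slack {p q a b L s : ℝ} (h : L ≤ 100000 * s) : Zc p q a b L s :=
  Or.inl (by linarith)

/-- (Z) for `x` and an old edge, if the distances of `x` are good -/
lemma Zc.of_apex {p q a b L s : ℝ} (hp : 5 * a / 10000000 ≤ p) (hq : 5 * b / 10000000 ≤ q)
    (hL : L ≤ a + b) (hs : 0 ≤ s) : Zc p q a b L s := by
  rcases le_total a b with h | h
  · exact Or.inr (Or.inr (by linarith))
  · exact Or.inr (Or.inl (by linarith))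

/-- (Z) for an old vertex `j` and the new edge `xk`, where `p = ρ(j,x)`, `q = ρ(j,k)`,
`a = d(j,x)`, `b = d(j,k)`, `L = d(x,k)`, if the distance `ρ(j,x)` is good -/
lemma Zc.of_side {p q a b L s : ℝ} (hp : 5 * a / 10000000 ≤ p) (hb : b ≤ a + L) (hs : 0 ≤ s)
    (hL : 0 < L) (ha : 0 ≤ a) (h : L - s ≤ p + q) : Zc p q a b L s := by
  rcases le_total (3 * L) (4 * a) with h' | h'
  · exact Or.inr (Or.inl (by linarith))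
  · exact Zc.of_len hL hs (by linarith) (by linarith) h

/-- all conditions (Z) of a new bag `(x,2,3)` if the distances of `x` are good -/
lemma Z3.auto1 {m₁ m₂ m₃ l₁ l₂ l₃ : ℝ} (m1 : 0 ≤ m₁) (m2 : 0 ≤ m₂) (m3 : 0 ≤ m₃)
    (u1 : m₂ + m₃ ≤ l₁) (u2 : m₁ + m₃ ≤ l₂)
    (u3 : m₁ + m₂ ≤ l₃) (v2 : 5 * l₂ / 10000000 ≤ m₁ + m₃) (v3 : 5 * l₃ / 10000000 ≤ m₁ + m₂)
    (h : Tri3 l₁ l₂ l₃) : Z3 m₁ m₂ m₃ l₁ l₂ l₃ := by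
  have := h.p1
  have := h.p2
  have := h.p3
  have := h.t1
  have := h.t2
  have := h.t3
  refine ⟨?_, ?_, ?_⟩
  · exact Zc.of_apex (by linarith) (by linarith) (by linarith) (by linarith)
  · exact Zc.of_side (by linarith) (by linarith) (by linarith) (by linarith) (by linarith)
      (by linarith)
  · exact Zc.of_side (by linarith) (by linarith) (by linarith) (by linarith) (by linarith)
      (by linarith)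

/-- A step with `5 dᵢ / 10⁷ ≤ ρ(x,i)`: the invariants of the new bags follow from the conditions
(A) and the nonnegativity of the new legs. -/
lemma StepS.auto {m₁ m₂ m₃ l₁ l₂ l₃ d₁ d₂ d₃ s₁ s₂ s₃ n : ℝ} (hN : NInv m₁ m₂ m₃ l₁ l₂ l₃)
    (hT : Tri4 l₁ l₂ l₃ d₁ d₂ d₃) (s1 : 0 ≤ s₁) (s2 : 0 ≤ s₂) (s3 : 0 ≤ s₃) (n0 : 0 ≤ n)
    (t1 : s₁ ≤ m₁) (t2 : s₂ ≤ m₂) (t3 : s₃ ≤ m₃)
    (u1 : n + m₁ - s₁ + s₂ + s₃ ≤ d₁)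
    (u2 : n + m₂ + s₁ - s₂ + s₃ ≤ d₂)
    (u3 : n + m₃ + s₁ + s₂ - s₃ ≤ d₃)
    (v1 : 5 * d₁ / 10000000 ≤ n + m₁ - s₁ + s₂ + s₃)
    (v2 : 5 * d₂ / 10000000 ≤ n + m₂ + s₁ - s₂ + s₃)
    (v3 : 5 * d₃ / 10000000 ≤ n + m₃ + s₁ + s₂ - s₃)
    (c1 : m₁ + d₁ / 10000000 ≤ s₁ + n + 100000 * (s₂ + s₃) ∨
      m₂ + d₂ / 10000000 ≤ s₁ + n + 100000 * (s₂ + s₃) ∨
      m₃ + d₃ / 10000000 ≤ s₁ + n + 100000 * (s₂ + s₃))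
    (c2 : m₁ + d₁ / 10000000 ≤ s₂ + n + 100000 * (s₁ + s₃) ∨
      m₂ + d₂ / 10000000 ≤ s₂ + n + 100000 * (s₁ + s₃) ∨
      m₃ + d₃ / 10000000 ≤ s₂ + n + 100000 * (s₁ + s₃))
    (c3 : m₁ + d₁ / 10000000 ≤ s₃ + n + 100000 * (s₁ + s₂) ∨
      m₂ + d₂ / 10000000 ≤ s₃ + n + 100000 * (s₁ + s₂) ∨
      m₃ + d₃ / 10000000 ≤ s₃ + n + 100000 * (s₁ + s₂))
    (a1 : A3 (s₁ + n) (m₂ - s₂ + s₃) (m₃ - s₃ + s₂) l₁ d₃ d₂)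
    (a2 : A3 (m₁ - s₁ + s₃) (s₂ + n) (m₃ - s₃ + s₁) d₃ l₂ d₁)
    (a3 : A3 (m₁ - s₁ + s₂) (m₂ - s₂ + s₁) (s₃ + n) d₂ d₁ l₃) :
    StepS m₁ m₂ m₃ l₁ l₂ l₃ d₁ d₂ d₃ s₁ s₂ s₃ n := by
  have q1 := hT.f1.p2
  have q2 := hT.f1.p3
  have q3 := hT.f2.p2
  have w1 := hN.B.ub1
  have w2 := hN.B.ub2
  have w3 := hN.B.ub3
  have x1 := hN.B.lb1
  have x2 := hN.B.lb2
  have x3 := hN.B.lb3
  refine ⟨u1, u2, u3, by linarith, by linarith, by linarith, c1, c2, c3, ⟨?_, ?_, a1⟩,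
    ⟨?_, ?_, a2⟩, ⟨?_, ?_, a3⟩⟩
  · exact ⟨by linarith, by linarith, by linarith, by linarith, by linarith, by linarith,
      by linarith, by linarith, by linarith⟩
  · exact Z3.auto1 (by linarith) (by linarith) (by linarith) (by linarith) (by linarith)
      (by linarith) (by linarith) (by linarith) hT.f1.swap23
  · exact ⟨by linarith, by linarith, by linarith, by linarith, by linarith, by linarith,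
      by linarith, by linarith, by linarith⟩
  · exact (Z3.auto1 (m₁ := s₂ + n) (by linarith) (by linarith) (by linarith) (by linarith)
      (by linarith) (by linarith) (by linarith) (by linarith) hT.f2.swap23).swap12
  · exact ⟨by linarith, by linarith, by linarith, by linarith, by linarith, by linarith,
      by linarith, by linarith, by linarith⟩
  · exact (Z3.auto1 (m₁ := s₃ + n) (l₁ := l₃) (m₂ := m₁ - s₁ + s₂) (m₃ := m₂ - s₂ + s₁)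
      (by linarith) (by linarith) (by linarith) (by linarith) (by linarith) (by linarith)
      (by linarith) (by linarith) hT.f3.swap23).swap12.swap23

end TW3
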