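import Pool.Agent.Lib.MP_2eab14_co.TW3.SpecR

set_option linter.all false

/-!
# Treewidth three: specifications, part M (cut measures and the construction)
-/

noncomputable section

namespace TW3

/-! ## Cut measures -/

/-- [EXT] The integral with respect to the new measure, and nonnegativity.

Proof: unfold, `Finset.sum_add_distrib`, `Finset.sum_mul`, `Finset.sum_comm`, `Finset.sum_ite_eq`.
Nonnegativity: `0 ≤ prb ≤ 1`. -/
def SpecEXT : Prop := ∀ (V : Type) [Fintype V] [DecidableEq V] (μ : (V → Bool) → ℝ) (x a b c : V)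
  (T₁ T₂ T₃ n : ℝ),
  (∀ f : (V → Bool) → ℝ, II (addV μ x a b c T₁ T₂ T₃ n) f =
    (∑ S, μ S * (prb T₁ T₂ T₃ S a b c * f (Function.update S x (!maj S a b c)) +
      (1 - prb T₁ T₂ T₃ S a b c) * f (Function.update S x (maj S a b c)))) +
    n * f (Function.update (fun _ => false) x true)) ∧
  ((∀ S, 0 ≤ μ S) → 0 ≤ T₁ → 0 ≤ T₂ → 0 ≤ T₃ → T₁ + T₂ + T₃ ≤ 1 → 0 ≤ n →
    ∀ S, 0 ≤ addV μ x a b c T₁ T₂ T₃ n S)

/-- [UPD] The new measure: (1) it is symmetric in the bag; (2) nothing changes for the old vertices;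
(3) the masses of the bag `(x, b, c)`; (4) the state of an old origin at the bag `(x,b,c)`.

Proof.  (1) `maj` and `prb` are symmetric (`prb T₁ T₂ T₃ S a b c = prb T₂ T₁ T₃ S b a c`, etc.; cases on
the three Booleans).  (2)-(4): use `specEXT` with the defining function `f`; `f` of an update at
`x` is computed by `Function.update_self`, `Function.update_of_ne`; then the sums are
compared termwise after writing the right side as one sum (`Finset.mul_sum`,
`Finset.sum_add_distrib`), by cases on the Booleans `S a, S b, S c, S o`.  The private cut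
(`update (fun _ => false) x true`) contributes `n` exactly to `leg _ x b c`. -/
def SpecUPD : Prop := ∀ (V : Type) [Fintype V] [DecidableEq V] (μ : (V → Bool) → ℝ) (x a b c : V)
  (T₁ T₂ T₃ n : ℝ), x ≠ a → x ≠ b → x ≠ c →
  addV μ x a b c T₁ T₂ T₃ n = addV μ x b a c T₂ T₁ T₃ n ∧
  addV μ x a b c T₁ T₂ T₃ n = addV μ x a c b T₁ T₃ T₂ n ∧
  (∀ u v, u ≠ x → v ≠ x → sep (addV μ x a b c T₁ T₂ T₃ n) u v = sep μ u v) ∧
  (∀ u v w, u ≠ x → v ≠ x → w ≠ x → leg (addV μ x a b c T₁ T₂ T₃ n) u v w = leg μ u v w) ∧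
  (∀ o u v w, o ≠ x → u ≠ x → v ≠ x → w ≠ x →
    bet (addV μ x a b c T₁ T₂ T₃ n) o u v w = bet μ o u v w) ∧
  (∀ o u v w, o ≠ x → u ≠ x → v ≠ x → w ≠ x →
    out (addV μ x a b c T₁ T₂ T₃ n) o u v w = out μ o u v w) ∧
  leg (addV μ x a b c T₁ T₂ T₃ n) x b c = T₁ * leg μ a b c + n ∧
  leg (addV μ x a b c T₁ T₂ T₃ n) b x c = leg μ b a c - T₂ * leg μ b a c + T₃ * leg μ c a b ∧
  leg (addV μ x a b c T₁ T₂ T₃ n) c x b = leg μ c a b - T₃ * leg μ c a b + T₂ * leg μ b a c ∧
  (∀ o, o ≠ x →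
    out (addV μ x a b c T₁ T₂ T₃ n) o x b c = out μ o a b c + (1 - T₁) * bet μ o a b c ∧
    bet (addV μ x a b c T₁ T₂ T₃ n) o x b c = T₁ * bet μ o a b c ∧
    bet (addV μ x a b c T₁ T₂ T₃ n) o b x c =
      (1 - T₂) * bet μ o b a c + T₃ * (leg μ c a b - bet μ o c a b) ∧
    bet (addV μ x a b c T₁ T₂ T₃ n) o c x b =
      (1 - T₃) * bet μ o c a b + T₂ * (leg μ b a c - bet μ o b a c))

/-- [IDS] Identities of a cut measure.  All are termwise, by cases on Booleans.  The last: `sep μ`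
is an `ℓ₁` semimetric: `f u S = μ S * (if S u then 1 else 0)`, reindexed by
`Fintype.equivFin (V → Bool)`. -/
def SpecIDS : Prop := ∀ (V : Type) [Fintype V] [DecidableEq V] (μ : (V → Bool) → ℝ)
  (_ : ∀ S, 0 ≤ μ S),
  (∀ a b c, leg μ a b c = leg μ a c b) ∧
  (∀ o a b c, bet μ o a b c = bet μ o a c b) ∧
  (∀ o a b c, out μ o a b c = out μ o b a c ∧ out μ o a b c = out μ o a c b) ∧
  (∀ a b c, 0 ≤ leg μ a b c) ∧
  (∀ o a b c, 0 ≤ bet μ o a b c ∧ bet μ o a b c ≤ leg μ a b c ∧ 0 ≤ out μ o a b c) ∧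
  (∀ a b c, sep μ a b = leg μ a b c + leg μ b a c) ∧
  (∀ o a b c, sep μ o a =
    out μ o a b c + bet μ o b a c + bet μ o c a b + (leg μ a b c - bet μ o a b c)) ∧
  (∀ a b c, out μ a a b c = 0 ∧ bet μ a a b c = leg μ a b c ∧ bet μ a b a c = 0 ∧
    bet μ a c a b = 0) ∧
  (∀ u v, sep μ u v = sep μ v u) ∧ (∀ u, sep μ u u = 0) ∧
  (∃ m : ℕ, ∃ f : V → Fin m → ℝ, ∀ u v, sep μ u v = ∑ i, |f u i - f v i|)

/-! ## The construction -/

/-- [SYM] permutations of a bag in `NAt` and `FAt` (`NInv.swap12`, `NInv.swap23`, PER, IDS) -/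
def SpecSYM : Prop := ∀ (V : Type) [Fintype V] [DecidableEq V] (μ : (V → Bool) → ℝ)
  (d : V → V → ℝ), (∀ S, 0 ≤ μ S) → (∀ u v, d u v = d v u) →
  (∀ a b c, NAt d μ a b c → NAt d μ b a c) ∧ (∀ a b c, NAt d μ a b c → NAt d μ a c b) ∧
  (∀ M K k o a b c, FAt M K k d μ o a b c → FAt M K k d μ o b a c) ∧
  (∀ M K k o a b c, FAt M K k d μ o a b c → FAt M K k d μ o a c b)

/-- the conditions on a step at the bag `(a,b,c)`, on the level of measures -/
def GoodStep {V : Type} [Fintype V] [DecidableEq V] (d : V → V → ℝ) (μ : (V → Bool) → ℝ)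
    (x a b c : V) (T₁ T₂ T₃ n : ℝ) : Prop :=
  StepOK (leg μ a b c) (leg μ b a c) (leg μ c a b) (d b c) (d a c) (d a b) (d x a) (d x b) (d x c)
    T₁ T₂ T₃ n

/-- [STP] One step, one origin: with `μ' = addV μ x a b c T₁ T₂ T₃ n` for a good step,
(1) the near invariants of the three new bags and of the old bag, `μ' ≥ 0`;
(2) for an old origin `o` (level constants `M, K, k`) the invariant at the three new bags and at
the old bag;
(3) for the origin `x` the invariant at the three new bags;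
(4) the distances of `x` to the bag: `10⁻⁷ d ≤ sep μ' ≤ d`.

Proof.  (1) The bag `(x,b,c)`: `UPD`, `StepOK.S.b1`, `d` symmetric.  The bag `(a,x,c)`: apply UPD to
`addV μ x a b c T₁ T₂ T₃ n = addV μ x b a c T₂ T₁ T₃ n` (the bag `(x,a,c)`), `StepOK.S.b2`, then SYM;
the bag `(a,b,x)` similarly.  (2) The bag `(x,b,c)`: `UPD` and CLO with `rᵢ = d o a, d o b, d o c`,
`r = d o x`, `dᵢ = d x a, d x b, d x c`; `Org` from IDS (`|d o b - d o c| ≤ d b c ≤ M (m₂+m₃)` by the
`lb` fields, as `M ≥ 10⁷`); `Stp`: `v1` and `c1` of StepOK multiplied by `M` (as `M ≥ 10⁷`,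
`K = 10⁵ M`: from `m_g + d_g/10⁷ ≤ s₁ + n + 10⁵ (s₂+s₃)` we get `M m_g + d_g ≤ M (s₁+n) + K (s₂+s₃)`).
The other bags by the permutations as in (1) (with `FAt` of the permuted old bag by SYM).
(3) IDS (state of `x` at a bag whose first vertex is `x`) and INI (1), permuted by SYM for the bags
`(a,x,c)`, `(a,b,x)`.  (4) `sep μ' x b = leg x b c + leg b x c`, etc., `StepOK.S.u2, v2`. -/
def SpecSTP : Prop := ∀ (V : Type) [Fintype V] [DecidableEq V] (d : V → V → ℝ)
  (μ : (V → Bool) → ℝ) (x a b c : V) (T₁ T₂ T₃ n : ℝ), Dst d → (∀ S, 0 ≤ μ S) →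
  x ≠ a → x ≠ b → x ≠ c → a ≠ b → a ≠ c → b ≠ c → NAt d μ a b c →
  GoodStep d μ x a b c T₁ T₂ T₃ n →
  (∀ S, 0 ≤ addV μ x a b c T₁ T₂ T₃ n S) ∧
  (NAt d (addV μ x a b c T₁ T₂ T₃ n) x b c ∧ NAt d (addV μ x a b c T₁ T₂ T₃ n) a x c ∧
    NAt d (addV μ x a b c T₁ T₂ T₃ n) a b x ∧ NAt d (addV μ x a b c T₁ T₂ T₃ n) a b c) ∧
  (∀ M K k : ℝ, 10000000 ≤ M → K = 100000 * M → 0 < k → 1000 * (k * K) ≤ 1 →
    (∀ o, o ≠ x → FAt M K k d μ o a b c →
      FAt M K k d (addV μ x a b c T₁ T₂ T₃ n) o x b c ∧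
      FAt M K k d (addV μ x a b c T₁ T₂ T₃ n) o a x c ∧
      FAt M K k d (addV μ x a b c T₁ T₂ T₃ n) o a b x) ∧
    FAt M K k d (addV μ x a b c T₁ T₂ T₃ n) x x b c ∧
    FAt M K k d (addV μ x a b c T₁ T₂ T₃ n) x a x c ∧
    FAt M K k d (addV μ x a b c T₁ T₂ T₃ n) x a b x) ∧
  (∀ g, g = a ∨ g = b ∨ g = c → sep (addV μ x a b c T₁ T₂ T₃ n) x g ≤ d x g ∧
    d x g / 10000000 ≤ sep (addV μ x a b c T₁ T₂ T₃ n) x g)

/-- [STA] the assembly of STP -/
def SpecSTA : Prop := SpecCLO → SpecINI → SpecEXT → SpecUPD → SpecIDS → SpecSYM → SpecSTP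

/-- [FBD] The final bound and the level 2 initial invariant on the level of measures: for a measure
`μ ≥ 0`, a metric `d`, and a bag of distinct vertices with the near invariants:
(1) `FAt M K k d μ o a b c → k * d o g ≤ 5 * sep μ o g` for `g = a, b, c` (INI (3), IDS, SYM);
(2) if `d o g ≤ M * sep μ o g` for `g = a, b, c` then `FAt M K k d μ o a b c` (INI (2), IDS). -/
def SpecFBD : Prop := ∀ (V : Type) [Fintype V] [DecidableEq V] (d : V → V → ℝ)
  (μ : (V → Bool) → ℝ) (a b c : V), Dst d → (∀ S, 0 ≤ μ S) → NAt d μ a b c →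
  ∀ M K k : ℝ, 10000000 ≤ M → K = 100000 * M → 0 < k → 1000 * (k * K) ≤ 1 →
  (∀ o, FAt M K k d μ o a b c → k * d o a ≤ 5 * sep μ o a ∧ k * d o b ≤ 5 * sep μ o b ∧
    k * d o c ≤ 5 * sep μ o c) ∧
  (∀ o, d o a ≤ M * sep μ o a → d o b ≤ M * sep μ o b → d o c ≤ M * sep μ o c →
    FAt M K k d μ o a b c)

/-- [ONE] One step of the construction.

Proof.  NL at the bag `(a,b,c)` with `dᵢ = d x a, d x b, d x c` (`Tri4` from `Dst`; `NAt` from `Sta.stk`)
gives a `GoodStep`; let `μ'` be the new measure.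
`nn`: STP.  `up`: old pairs unchanged (UPD), new pairs by STP (4).
The stack.  Level 1: the new head `(x,b,c)`: the origins are `x` and the members of
`vs ((a,b,c) :: st)`, for which STP (2), (3) apply; the same for `(a,x,c)`, `(a,b,x)`.  For the
old bag `(a,b,c)` and the bags of `st` the level 1 origins are old vertices and nothing
changes (UPD (2): `FAt` and `NAt` of old vertices are unchanged).  Level 2 (all origins in
`insert x A`): at the three new bags STP (2), (3); at an old bag `(a', b', c')` (the bag `(a,b,c)` or a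
bag of `st`) the old origins are unchanged, and for the origin `x` use FBD (2): it needs
`d x g ≤ M₂ * sep μ' x g` for `g` in the bag; such `g` is in `vs ((a,b,c) :: st)`, so
`FAt M₁ K₁ k₁ d μ' g x b c` by STP (2), hence `k₁ * d g x ≤ 5 * sep μ' g x` by FBD (1), and
`M₂ = 5 / k₁`.
`lo`: old pairs unchanged; `(u, x)` with `u ∈ A`: level 2 of `u` at `(x,b,c)` and FBD (1);
`(x,x)`: both sides are 0; `(x,u)` by symmetry.
(`x` is different from all vertices of `A`.  It is convenient to prove by induction on `st` a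
lemma: `Stk d μ A st → (the facts about x for all g ∈ vs st) → Stk d μ' (insert x A) st`.) -/
def SpecONE : Prop := ∀ (V : Type) [Fintype V] [DecidableEq V] (d : V → V → ℝ)
  (μ : (V → Bool) → ℝ) (A : Finset V) (E : V → V → Prop) (st : List (V × V × V)) (x a b c : V),
  Dst d → Sta d μ A E ((a, b, c) :: st) → x ∉ A →
  ∃ μ' : (V → Bool) → ℝ, Sta d μ' (insert x A)
    (fun u v => E u v ∨ (u = x ∧ (v = a ∨ v = b ∨ v = c)))
    ((x, b, c) :: (a, x, c) :: (a, b, x) :: (a, b, c) :: st)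

/-- [ONA] the assembly of ONE -/
def SpecONA : Prop := SpecNL → SpecUPD → SpecIDS → SpecSTP → SpecFBD → SpecONE

/-- [MET] The metric theorem.

Proof.  By induction on `Seq st L E` (generalizing `μ, A, E₀`): if `Sta d μ A E₀ st` and `A`, `L` are
disjoint, there is `μ'` with `Sta d μ' (A ∪ L) (fun u v => E₀ u v ∨ E u v) []` (in the step
`add` apply ONE and the induction hypothesis to `insert x A`; the relations agree up to
`or_assoc`, use `Sta` monotone in `E`).  Start: `A = {a,b,c}`, `μ = W/4` on each of the three cuts `{a}`, `{b}`,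
`{c}` (sum of three functions `if S = update (fun _ => false) a true then W/4 else 0`), so
`leg = W/4` for each leg, `sep = W/2`, and the near invariants hold (`SS = 3W/4`; (A) and (Z): first
alternatives); level 1 and level 2 invariants of the origins `a, b, c` by INI (1) with IDS and SYM
(or FBD (2): `d o g ≤ M * sep μ o g`); `lo`: `k₂ W ≤ 5 W/2`.
Conclusion with `ρ = sep μ'` (IDS gives `f`), and `d u v ≤ (5/k₂) * sep μ' u v`. -/
def SpecMET : Prop := ∃ D : ℝ, 0 < D ∧ ∀ (V : Type) [Fintype V] [DecidableEq V] (d : V → V → ℝ)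
  (W : ℝ) (a b c : V) (L : Finset V) (E : V → V → Prop), Dst d → 0 < W → a ≠ b → a ≠ c → b ≠ c →
  d a b = W → d a c = W → d b c = W → a ∉ L → b ∉ L → c ∉ L → Seq [(a, b, c)] L E →
  ∃ m : ℕ, ∃ f : V → Fin m → ℝ, (∀ u v, E u v → ∑ i, |f u i - f v i| ≤ d u v) ∧
    ∀ u ∈ L, ∀ v ∈ L, d u v ≤ D * ∑ i, |f u i - f v i|

/-- [MEA] the assembly of MET -/
def SpecMEA : Prop := SpecONE → SpecINI → SpecIDS → SpecSYM → SpecFBD → SpecMET

end TW3
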