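import Pool.Agent.Lib.MP_2eab14_co.TwoSum.Base
import Pool.Agent.Lib.MP_2eab14_co.TW3.DefsG
import Pool.Agent.Lib.MP_2eab14_co.TW3.SpecM

set_option linter.all false

/-!
# Treewidth three: specifications, part G (graphs)
-/

noncomputable section

namespace TW3

open KSum52 TwoSum

/-- [RTB] Basic operations with `RT`.
(1) monotonicity in `E` (cases); (2) pairs of `E` are in `B ∪ L` (induction); (3) merging two
trees at the same bag (induction on the first: append to the rest `hr`); (4) one more step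
below a bag (`cons` with `f j = if j = i then L else ∅`, rest `nil`; `RT.nil` for the other children).
In (3), (4) `E` may be any relation covered by the two. -/
def SpecRTB : Prop := ∀ (V : Type) [Fintype V] [DecidableEq V],
  (∀ (B L : Finset V) (E F : V → V → Prop), RT B L E → (∀ u v, F u v → E u v) → RT B L F) ∧
  (∀ (B L : Finset V) (E : V → V → Prop), RT B L E → ∀ u v, E u v → u ∈ B ∪ L ∧ v ∈ B ∪ L) ∧
  (∀ (B L M : Finset V) (E F : V → V → Prop), RT B L E → RT B M F → Disjoint B L → Disjoint B M →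
    Disjoint L M → RT B (L ∪ M) (fun u v => E u v ∨ F u v)) ∧
  (∀ (B L : Finset V) (E : V → V → Prop) (x i : V), i ∈ B → x ∉ B → x ∉ L → Disjoint B L →
    RT (insert x (B.erase i)) L E →
    RT B (insert x L) (fun u v => E u v ∨ (u = x ∧ v ∈ B) ∨ (v = x ∧ u ∈ B) ∨ (u ∈ B ∧ v ∈ B)))

/-- [PIE] A complete graph on at most four vertices.

Induction on `(S \ K).card`.  If `S = K`: `RT.nil`.  Otherwise pick `y ∈ S \ K`.  If `K.card = 3` then
`K = B` and `S = insert y K`: RTB (4) with any `i ∈ B` and `RT.nil` (relation: pairs inside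
`insert y (B.erase i)`; the remaining pairs are `(y, b)` and pairs in `B`).  If `K.card ≤ 2`: pick
`i ∈ B \ K`, put `B₁ = insert y (B.erase i)`, `K₁ = insert y K = B₁ ∩ S`; the induction hypothesis
gives `RT B₁ (S \ K₁) _`, and RTB (4).  (Card: `i ∉ S`, since `B ∩ S = K`.) -/
def SpecPIE : Prop := ∀ (V : Type) [Fintype V] [DecidableEq V] (S K B : Finset V), K ⊆ S →
  S.card ≤ 4 → B.card = 3 → (∀ a ∈ S, a ∈ B ↔ a ∈ K) → K ⊆ B →
  RT B (S \ K) (fun u v => u ∈ S ∧ v ∈ S ∧ u ≠ v)

/-- [GRF] Grafting a tree at a clique.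

Induction on `RT B L E` (generalizing `K`).  If `K ⊆ B`: `h B` and RTB (3).  Otherwise we are in the
case `cons` (in the case `nil`, `K ⊆ B ∪ ∅`).  Every pair of different elements of `K` is in
`B × B`, or is `{x, b}` with `b ∈ B`, or in some `g i` or in `Er` (in one of the orders).
* If `K` contains an element `k ∈ f i` for some `i ∈ B`: the pairs of `g j` are in `insert x (B.erase j) ∪ f j`,
those of `Er` in `B ∪ Lr` (RTB (2)), so (by the disjointness conditions) every pair `k, k'` is in `g i`, hence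
`K ⊆ insert x (B.erase i) ∪ f i`, and all pairs of `K` are in `g i` or inside `insert x (B.erase i)`:
apply the induction hypothesis to the `i`-th child (with the same `Q`), and rebuild with `cons`.
(`f' = Function.update f i (f i ∪ Q)`, `g' = Function.update g i _`.)
* If `K` contains an element of `Lr`: the same with the rest.
* Otherwise `K ⊆ insert x B`, `x ∈ K` (as `K ⊄ B`), and `K.card ≤ 3`, so some `i ∈ B` is not in `K`, and
`K ⊆ insert x (B.erase i)`, which has three elements: apply the induction hypothesis to the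
`i`-th child (or `h` and RTB (3)). -/
def SpecGRF : Prop := ∀ (V : Type) [Fintype V] [DecidableEq V] (B L : Finset V)
  (E : V → V → Prop), B.card = 3 → Disjoint B L → RT B L E →
  ∀ (K Q : Finset V) (F : V → V → Prop), K.card ≤ 3 → K ⊆ B ∪ L →
  (∀ u ∈ K, ∀ v ∈ K, u ≠ v → E u v ∨ E v u ∨ (u ∈ B ∧ v ∈ B)) → Disjoint Q (B ∪ L) →
  (∀ B' : Finset V, B'.card = 3 → K ⊆ B' → Disjoint B' Q → RT B' Q F) →
  RT B (L ∪ Q) (fun u v => E u v ∨ F u v)

/-- [GOD] Every graph in the closure is good.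

Induction on `Clos 3 Le4 n G`.
`piece`: PIE with `S = univ.map φ`, `K := K.map φ` (`n ≤ 4`), RTB (1).
`glue`: let `R₁, R₂` be the ranges of `φ₁, φ₂`, `K₀ = R₁ ∩ R₂` (`IsSum.card`: at most 3 elements,
`IsSum.clique`).  Let `K` be a clique of `G ≤ G₁.map φ₁ ⊔ G₂.map φ₂`.  Every edge of the
union has both ends in `R₁` or both ends in `R₂`, so `K ⊆ R₁` or `K ⊆ R₂` (if `k ∈ K \ R₁` then every
`k' ∈ K` is in `R₂`).  By symmetry assume `K ⊆ R₁`.  `K₁ = φ₁⁻¹(K)` is a clique of `G₁` (a pair of `K`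
adjacent in `G₂.map φ₂` is in `K₀`, hence adjacent in `G₁.map φ₁`).  Apply the induction
hypothesis of `G₁` to `φ₁.trans φ`, `K₁`, `B`: `RT B ((R₁ \ K).map φ) _`.  Graft (GRF) at the clique `K₀.map φ`
with `Q = (R₂ \ R₁).map φ` and `F = mapAdj G₂ (φ₂.trans φ)`; the last hypothesis of GRF is the induction
hypothesis of `G₂` with `φ₂.trans φ` and `φ₂⁻¹(K₀)`.  Finally RTB (1) (`hle`). -/
def SpecGOD : Prop := ∀ (n : ℕ) (G : SimpleGraph (Fin n)), Clos 3 Le4 n G → Good G

/-- [GOA] the assembly of GOD -/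
def SpecGOA : Prop := SpecRTB → SpecPIE → SpecGRF → SpecGOD

/-- [CNV] From `RT` to `Seq`.

First the append lemma: `Seq s₁ L₁ E₁ → Seq s₂ L₂ E₂ → Disjoint L₁ L₂ → ∃ E', Seq (s₁ ++ s₂) (L₁ ∪ L₂) E' ∧ (E₁ ∨
E₂ ⇒ E')` (induction on the first; for `nil st` skip the members of `st`).  Then induction on `RT`:
for `nil`: `Seq.nil`; for `cons`: `Seq.add` and the append lemma for the bags `(x,b,c)`, `(a,x,c)`, `(a,b,x)`,
`(a,b,c)` (the children of `i = a, b, c` and the rest; `{a,b,c}.erase a = {b,c}` etc.). -/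
def SpecCNV : Prop := ∀ (V : Type) [Fintype V] [DecidableEq V] (B L : Finset V)
  (E : V → V → Prop), RT B L E → Disjoint B L → ∀ a b c, a ≠ b → a ≠ c → b ≠ c → B = {a, b, c} →
  ∃ E' : V → V → Prop, Seq [(a, b, c)] L E' ∧
    ∀ u v, u ≠ v → E u v → (u ∈ B ∧ v ∈ B) ∨ E' u v ∨ E' v u

/-- [FIN] The theorem: bounded distortion for `⊕₃` of the graphs with at most four vertices.

Proof.  Let `G` on `Fin n` be in the closure, with weights `w`.  `V = Fin n ⊕ Fin 3`, `φ = inl`,
`B = {inr 0, inr 1, inr 2}`, `K = ∅`: `GOD` and `CNV` give `Seq [(inr 0, inr 1, inr 2)] (univ.map inl) E'`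
with `G.Adj u v → E' (inl u) (inl v) ∨ E' (inl v) (inl u)`.  Let `W > gd G w u v` for all `u, v`
(`gd_bound`), `W > 0`, and `d x x = 0`, `d (inl u) (inl v) = gd G w u v` if `G.Reachable u v` (for `u ≠ v`), `d = W` in
all other cases; this is a metric (`gd_tri`, `gd_comm`, `gd_nonneg`; positivity for `u ≠ v`
reachable: `exists_gd`, a walk between different vertices has an edge of positive weight).
`MET` gives `f`; scale it by `D`: `D ‖f (inl u) - f (inl v)‖ ≤ D gd G w u v ≤ D w(uv)` on edges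
(`gd_adj`), and `≥ d = gd G w u v` for reachable pairs (`exists_gd`). -/
def SpecFIN : Prop := ∃ D : ℝ, Embeds (Clos 3 Le4) D

/-- [FIA] the assembly of FIN -/
def SpecFIA : Prop := SpecGOD → SpecCNV → SpecMET → SpecFIN

/-- [COR] Corollaries with the 2-sum theorem (`TwoSum.main` in `TwoSum/All.lean`):
`Clos 2 (Clos 3 Le4) ≤ Clos 3 Le4` (a sum along at most 2 vertices is a sum along at most 3
vertices: `Clos` is monotone in `k` and idempotent), so `Clos 3 Le4` is root-exact and for
every `F` with `c₁(⊕₂ F) < ∞` also `c₁(⊕₂ (F ∪ ⊕₃ Le4)) < ∞`. -/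
def SpecCOR : Prop := SpecFIN → (∃ D, RootExact (Clos 3 Le4) D) ∧
  ∀ F : Family, (∃ D, Embeds (Clos 2 F) D) → ∃ D, Embeds (Clos 2 (FUnion F (Clos 3 Le4))) D

end TW3
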