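import Pool.Agent.Lib.MP_2eab14_co.TW3.Near

set_option linter.all false

/-!
# Treewidth three: specifications, part R (statements about real numbers)

THEOREM (the whole project).  There is a constant `D` such that every finite weighted graph of
treewidth `≤ 3` (equivalently: every graph built from graphs with at most four vertices by
clique-sums along cliques with at most three vertices) embeds into `ℓ₁` with distortion `≤ D`.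

Every module `X.lean` (in this folder, namespace `TW3`) imports `SpecR` (or `SpecM`, `SpecG`) and
proves `theorem specX : SpecX`; if it uses other modules it takes their specifications as
hypotheses.  You may state and use any private lemma (put them in a namespace `XM`).

NEAR LEVEL.  Everything here is linear arithmetic after the right products are introduced
(`linarith` with explicit facts; `nlinarith` only for the products named in the docstrings).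
`Near.lean` has the common lemmas: `SS_*`, `Zc.{symm, of_len, of_slack, of_apex, of_side}`,
`A3.{of_zero1,2,3, of_edge12,13,23, of_two1}`, `Z3.auto1`, `StepS.auto` (a step whose distances
satisfy `5 dᵢ / 10⁷ ≤ ρ(x,i)`: only (A) and the bounds are needed), `HasStep.{of, of2, swap12,
swap23}`, `NInv.{swap12, swap23, swap13}`, `Tri4.{swap12, swap23}`.
In all these statements `x` is a new vertex at distances `d₁, d₂, d₃` from the bag.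
-/

noncomputable section

namespace TW3

/-! ## Near level -/

/-- [PEND] `2` is the nearest vertex; the edge `12` is long and nearly collapsed (`D₁`), and `3` is
of type P.

Step: `T = (0, 1, 0)`, `n = d₂ / 80`, i.e. `s = (0, m₂, 0)` (use `HasStep.of`).
* `u1`: `m₁ + m₂ ≤ l₃/100 ≤ (d₁ + d₂)/100`.  `u3`: (i) `m₂ + m₃ < l₁/100 ≤ (d₂ + d₃)/100`; (ii)
`m₂ + m₃ < d₂/20`; (iii) `m₂ + m₃ ≤ l₁ < d₃ - d₂/5`.  `v1, v3`: `d₁ ≤ l₃ + d₂`, `d₃ ≤ l₁ + d₂` and the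
old `lb`.  `c1, c2, c3`: the alternative `2`.
* `b1` (legs `(n, 0, m₂ + m₃)`, lengths `(l₁, d₃, d₂)`): `z1`: third alternative, as
`n + ρ₂₃ + (l₁ - ρ₂₃)/100 ≥ n + l₁/100`; `z2`: `Zc.of_len`; `z3`: `Zc.of_slack`; (A): `A3.of_zero2`.
* `b3` (legs `(m₁ + m₂, 0, n)`, lengths `(d₂, d₁, l₃)`): the same with the roles of `1`, `3`
exchanged: `z1` slack, `z2` len, `z3` second alternative, `A3.of_zero2`.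
* `b2` (legs `(m₁, m₂ + n, m₃)`, lengths `(d₃, l₂, d₁)`): `z3`: `Zc.of_slack` (`d₁ - m₁ - m₂ - n ≥ d₁/2`).
`z2`: from the old `z2`, alternative by alternative (`d₃ ≤ l₁ + d₂`, `d₁ ≤ l₃ + d₂`, `n ≥ d₂/10⁷`).
`z1`: in the cases (i), (ii) of P: `Zc.of_slack`, as `d₃ - n - (m₂ + m₃) ≥ d₃/2`.  In the case (iii), put
`δ = d₃ - l₁ ∈ (d₂/5, d₂]`; the new slack is the old one plus `δ - n`, and each alternative of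
the old `z1` gives the same alternative of the new one.  (A): `A3.of_edge12` with `t = m₁`
(`9 m₁ ≤ 9 l₃/100` and `l₃ ≤ 2 d₁`). -/
def SpecPEND : Prop := ∀ m₁ m₂ m₃ l₁ l₂ l₃ d₁ d₂ d₃ : ℝ, NInv m₁ m₂ m₃ l₁ l₂ l₃ →
  Tri4 l₁ l₂ l₃ d₁ d₂ d₃ → d₂ ≤ d₁ → d₂ ≤ d₃ → 100 * (m₁ + m₂) < l₃ → 100 * d₂ ≤ l₃ →
  ((100 * (m₂ + m₃) < l₁ ∧ 100 * d₂ ≤ l₁) ∨ m₂ + m₃ < d₂ / 20 ∨ d₂ / 5 < d₃ - l₁) →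
  HasStep m₁ m₂ m₃ l₁ l₂ l₃ d₁ d₂ d₃

/-- [CH1] `2` is the nearest vertex, `D₁` holds, `3` is not of type P, and the chord `23` is tight.

Put `R = m₂ + m₃`, `L = l₁`, `σ = L - R` (so `0 ≤ σ < L/10⁵`), `G = (d₂ + d₃ - L)/2`,
`t = (d₂ - G)/L`, so `t L = d₂ - G`, `(1 - t) L = d₃ - G`, `0 ≤ G ≤ 0.6 d₂`, `0 < t ≤ 1/2`, `L ≥ 0.8 d₂`.
Step: `T = (0, 1 - t, t)`, `n = G/2`, `s = (0, (1-t) m₂, t m₃)` (use `HasStep.of`).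
Introduce the products `t m₂, t m₃, t m₁, t σ, t l₂, t l₃` (all with `0 ≤ t·y ≤ y/2`), and
`t R = d₂ - G - t σ ≥ (1 - 10⁻⁵)(d₂ - G)`, and the products of the old `lb2, lb3` and of the
alternative of the old `z1` by `t` and `1 - t`; then everything is linear:
`ρ(x,2) = n + t R`, `ρ(x,3) = n + (1-t) R`, `ρ(x,1) = n + (1-t)(m₁+m₂) + t (m₁+m₃)`.
`u1`: `ρ(x,1) ≤ n + (m₁ + m₂) + t R ≤ l₃/100 + d₂` and `d₁ ≥ l₃ - d₂ ≥ 0.99 l₃`.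
The first alternative of the old `z1` is excluded by the hypothesis; the second says
`(l₂ + 2 l₁)/10⁷ ≤ (m₁+m₂) + σ/100` (b), the third `(l₃ + 2 l₁)/10⁷ ≤ (m₁+m₃) + σ/100` (c), and
`σ/100 < l₁/10⁷`.
`v1`: (b): `ρ(x,1) ≥ G/2 + (l₂ + (1-t) l₁)/10⁷ ≥ (l₂ + d₃)/10⁷`; (c): `≥ G/2 + (l₃ + t l₁)/10⁷ ≥ (l₃+d₂)/10⁷`.
`c1`: alternative 2 (`(1-t) m₂ ≥ m₂/2` and `(1-t) m₂ + t m₃ ≥ t R`).  `c3`: alternative 2.  `c2`: if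
`m₃ ≤ m₂/4`: alternative 3, `m₃ + d₃/10⁷ ≤ (1-t) m₂ + G/2`; otherwise alternative 2 (`t m₂ ≤ 4 t m₃`,
`t L ≤ 1.1 t R ≤ 6 t m₃`).
* `b1` (legs `(G/2, t R, (1-t) R)`, lengths `(l₁, d₃, d₂)`): `z1`: `Zc.of_len`; `z2`: `Zc.of_len`; `z3`:
second alternative (`(1-t) R ≥ R/2`, `d₂ ≤ 1.25 L`); (A): `A3.of_two1` (slacks `≥ G/2`).
* `b2` (legs `(m₁ + t m₃, (1-t) m₂ + n, (1-t) m₃)`, lengths `(d₃, l₂, d₁)`): `z1` (the new slack is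
`G/2 + (1-t) σ`): (b) gives the second alternative, (c) the third (`d₁ ≤ l₃ + d₂`, and
`t (σ/100 - L/10⁷) ≤ 0`).  `z2`: if `l₃ ≤ 10⁶ R` the third alternative (`ρ(x,3) ≥ R/2`, `d₁ ≤ l₃ + d₂`,
`l₂ ≤ l₃ + l₁`, `l₁ ≤ 2 R`), otherwise `Zc.of_slack` (`l₂ ≥ l₃ - l₁`,
`m₁ + m₃ ≤ (m₁+m₂) + (m₂+m₃) ≤ l₃/100 + l₁`).  `z3`: `Zc.of_slack`.  (A): `A3.of_edge12` with
`t := m₁ + t m₃ ≤ l₃/100 + d₂ ≤ l₃/50`.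
* `b3` (legs `(m₁ + (1-t) m₂, t m₂, t m₃ + n)`, lengths `(d₂, d₁, l₃)`): `z1` (new slack
`G/2 + t σ`): (b) gives the second alternative (`d₁ ≤ l₂ + d₃`,
`(1-t)(σ/100 - L/10⁷) ≤ 0`), (c) the third.  `z2`, `z3`: `Zc.of_slack`.  (A): `A3.of_edge13` with
`t := t m₃ + n ≤ d₂ ≤ l₃/100`. -/
def SpecCH1 : Prop := ∀ m₁ m₂ m₃ l₁ l₂ l₃ d₁ d₂ d₃ : ℝ, NInv m₁ m₂ m₃ l₁ l₂ l₃ →
  Tri4 l₁ l₂ l₃ d₁ d₂ d₃ → d₂ ≤ d₁ → d₂ ≤ d₃ → 100 * (m₁ + m₂) < l₃ → 100 * d₂ ≤ l₃ →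
  (l₁ < 100 * d₂ ∨ l₁ ≤ 100 * (m₂ + m₃)) → d₂ / 20 ≤ m₂ + m₃ → d₃ - l₁ ≤ d₂ / 5 →
  (l₁ - m₂ - m₃) / 100 < l₁ / 10000000 →
  HasStep m₁ m₂ m₃ l₁ l₂ l₃ d₁ d₂ d₃

/-- [CH3] As CH1, but the chord `23` has a slack.

Put `R = m₂ + m₃`, `L = l₁`, `σ = L - R ≥ L/10⁵`, `G = (d₂ + d₃ - L)/2`, `t₀ = (d₂ - G)/L`, so
`t₀ L = d₂ - G`, `(1 - t₀) L = d₃ - G`, `0 ≤ G ≤ 0.6 d₂`, `0 < t₀ ≤ 1/2`, `L ≥ 0.8 d₂`; `n = 4 d₂/10⁷`,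
`δ = n/R`, `t = t₀ + δ`.  As `R ≥ d₂/20` we have `δ ≤ 8·10⁻⁶`, so `0 < t ≤ 0.51`; and `R ≥ L/2000`, so
`δ L ≤ 2000 n`, `t L ≤ d₂ + 2000 n`.
Step: `T = (0, 1 - t, t)`, `n`, `s = (0, (1-t) m₂, t m₃)` (use `HasStep.of`).  Introduce `t₀ σ`, `t₀ R`,
`t m₂`, `t m₃`, `t l₂, t l₃`, with `t R = t₀ R + n`, `t₀ σ ≥ t₀ L/10⁵ = (d₂ - G)/10⁵`, `(1-t₀) σ ≥
(d₃ - G)/10⁵`.  Then `ρ(x,2) = n + t R = 2 n + t₀ R = d₂ - G - t₀ σ + 2 n`, `ρ(x,3) = n + (1-t) R =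
(1-t₀) R = d₃ - G - (1-t₀) σ`, `ρ(x,1) = n + (1-t)(m₁+m₂) + t (m₁+m₃) ≤ n + (m₁+m₂) + t R`.
The slack of `x2` is `G + t₀ σ - 2 n ≥ 9·10⁻⁶ d₂ ≥ 20 n`, that of `x3` is `G + (1-t₀) σ ≥ 10 n`.
`v1` in the strong form `ρ(x,1) ≥ (l₃ + 2.9 d₂)/10⁷`: `(1-t) l₃ + t l₂ ≥ l₃ - t L` (as
`l₃ ≤ l₂ + l₁`), and `n = 4 d₂/10⁷`.  `v3`: `(1-t₀) R ≥ R/2`, `d₃ ≤ L + d₂/5 ≤ 2004 R`.
`c1`, `c3`: alternative 2.  `c2`: if `m₃ ≤ m₂/4`: alternative 3; otherwise alternative 2.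
* `b1` (legs `(n, t R, (1-t) R)`, lengths `(l₁, d₃, d₂)`): `z1`: first alternative; `z2`: `Zc.of_len`; `z3`:
second alternative (`ρ(x,3) ≥ R/2`, `l₁ ≤ 2000 R`, `d₂ ≤ 20 R`); (A): `A3.of_two1`.
* `b2` (legs `(m₁ + t m₃, (1-t) m₂ + n, (1-t) m₃)`, lengths `(d₃, l₂, d₁)`): `z1`: first alternative
(`d₃ = G + (1-t₀) L`).  `z2`: if `l₃ ≤ 10⁶ R` the third alternative, otherwise `Zc.of_slack` (see CH1; now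
`l₁ ≤ 2000 R ≤ l₃/500`).  `z3`: `Zc.of_slack`.  (A): `A3.of_edge12` with `t := m₁ + t m₃`.
* `b3` (legs `(m₁ + (1-t) m₂, t m₂, t m₃ + n)`, lengths `(d₂, d₁, l₃)`): `z1`: third alternative, by the
strong form of `v1`.  `z2`, `z3`: `Zc.of_slack`.  (A): `A3.of_edge13` with `t := t m₃ + n ≤ d₂`. -/
def SpecCH3 : Prop := ∀ m₁ m₂ m₃ l₁ l₂ l₃ d₁ d₂ d₃ : ℝ, NInv m₁ m₂ m₃ l₁ l₂ l₃ →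
  Tri4 l₁ l₂ l₃ d₁ d₂ d₃ → d₂ ≤ d₁ → d₂ ≤ d₃ → 100 * (m₁ + m₂) < l₃ → 100 * d₂ ≤ l₃ →
  (l₁ < 100 * d₂ ∨ l₁ ≤ 100 * (m₂ + m₃)) → d₂ / 20 ≤ m₂ + m₃ → d₃ - l₁ ≤ d₂ / 5 →
  l₁ / 10000000 ≤ (l₁ - m₂ - m₃) / 100 →
  HasStep m₁ m₂ m₃ l₁ l₂ l₃ d₁ d₂ d₃

/-- [T1] The case where `x` is not below the centre of any leg.  `Δ` is a lower bound of the
distances (in the application the smallest one).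

Put `aᵢ = dᵢ - mᵢ ≥ 0`.
(TS) Common sub-lemma: if `0 < s`, `2 s ≤ m₁`, `2 s ≤ m₂`, `16 s ≤ a₃`, `5 d₁/10⁷ ≤ m₁`, `5 d₂/10⁷ ≤ m₂`,
`5 d₃/10⁷ ≤ m₃ + 2 s` and `m_g + d_g/10⁷ ≤ 10⁵ s` for some `g ∈ {1,2,3}`, then there is a step:
`s = (s, s, 0)`, `n = 0`, by `StepS.auto` and `HasStep.of2` (`t₁ = t₂ = 1/2`).  (A): `a1` (legs
`(s, m₂ - s, m₃ + s)`, lengths `(l₁, d₃, d₂)`): `A3.of_edge13` with `t = s` (slack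
`a₃ - 2 s ≥ 14 s`); `a2` (legs `(m₁ - s, s, m₃ + s)`, lengths `(d₃, l₂, d₁)`): `A3.of_edge23`; `a3`: `A3.of_zero3`.
Case 1: all `mᵢ > Δ/1000`.  By symmetry (`swap12`, `swap23`) `a₃ ≥ a₁, a₂`.  Note
`dᵢ ≤ 101 Δ + 100 mᵢ ≤ 101100 mᵢ`.  The condition (A) of the index 3 gives (using
`l₁ - m₂ - m₃ ≤ a₂ + a₃`, etc.) in both alternatives `4 a₃ ≥ SS/100`, and `SS ≥ 3 min mᵢ` (`le_SS`), so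
`a₃ ≥ 0.0075 min mᵢ`.  Use (TS) with `s = min (a₃/16) (min (m₁/2) (m₂/2))`: if `s = a₃/16` take
for `g` the smallest leg; if `s = m₁/2` take `g = 1`, if `s = m₂/2` take `g = 2`.
Case 2: some leg is `≤ Δ/1000`, by symmetry `m₃`.  Then `a₃ ≥ 0.999 Δ`, `d₃ ≤ 101.1 Δ`.
 2a: `a₁, a₂ ≥ Δ/2`: `s = (0,0,0)`, `n = Δ/80`, by `StepS.auto`; `c`: alternative 3; (A): `a1` by
 `A3.of_edge12` with `t = n` (slack `a₂ - n ≥ 9 n`), `a2` by `A3.of_edge12` with `t = n`, `a3` by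
 `A3.of_edge13`.
 2b: otherwise by symmetry `a₁ < Δ/2`, so `m₁ > Δ/2`.  If `m₂ > Δ/1000`: (TS) with
 `s = min (Δ/32) (min (m₁/2) (m₂/2)) ≥ Δ/2000` and `g = 3`.  If `m₂ ≤ Δ/1000`: `s = (Δ/20, 0, 0)`, `n = 0`, by
 `StepS.auto`; (A): `a1` by `A3.of_edge12` with `t = Δ/1000`, `a2`, `a3` by `of_zero`. -/
def SpecT1 : Prop := ∀ m₁ m₂ m₃ l₁ l₂ l₃ d₁ d₂ d₃ Δ : ℝ, NInv m₁ m₂ m₃ l₁ l₂ l₃ →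
  Tri4 l₁ l₂ l₃ d₁ d₂ d₃ → 0 < Δ → Δ ≤ d₁ → Δ ≤ d₂ → Δ ≤ d₃ → m₁ ≤ d₁ → m₂ ≤ d₂ → m₃ ≤ d₃ →
  d₁ ≤ 101 * Δ + 100 * m₁ → d₂ ≤ 101 * Δ + 100 * m₂ → d₃ ≤ 101 * Δ + 100 * m₃ →
  HasStep m₁ m₂ m₃ l₁ l₂ l₃ d₁ d₂ d₃

/-- [T21] `x` is on the leg `1` (up to the slack), near the centre: `e = m₁ - d₁ ∈ (0, 3Δ/1000]`, and the
leg `3` is tiny.

Put `b₂ = d₂ - m₂ - e`, `b₃ = d₃ - m₃ - e`; `b₂ = d₁ + d₂ - m₁ - m₂ ≥ l₃ - m₁ - m₂ ≥ 0`, `b₃ ≥ 0.996 Δ`.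
If `b₂ ≥ Δ/2`: `s = (e + Δ/10, 0, 0)`, `n = 0` (`HasStep.of2` with `t₁ = 1`, `t₂ = 0`, `StepS.auto`); `c`:
alternative 3; (A): `a1` by `A3.of_edge13` with `t = Δ/1000`, `a2`, `a3` by `of_zero`.
If `b₂ < Δ/2` (so `m₂ ≥ 0.49 Δ`): `s = (e + Δ/50, Δ/50, 0)`, `n = 0` (`HasStep.of2` with
`t₁ = t₂ = 1/2`); `c`: alternative 3; (A): `a1` (legs `(e + Δ/50, m₂ - Δ/50, m₃ + Δ/50)`, lengths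
`(l₁, d₃, d₂)`) by `A3.of_edge13` with `t = 0.021 Δ`; `a2` (legs `(d₁ - Δ/50, Δ/50, m₃ + e + Δ/50)`, lengths
`(d₃, l₂, d₁)`) by `A3.of_edge23` with `t = Δ/50`; `a3` by `A3.of_zero3`. -/
def SpecT21 : Prop := ∀ m₁ m₂ m₃ l₁ l₂ l₃ d₁ d₂ d₃ Δ : ℝ, NInv m₁ m₂ m₃ l₁ l₂ l₃ →
  Tri4 l₁ l₂ l₃ d₁ d₂ d₃ → 0 < Δ → Δ ≤ d₁ → Δ ≤ d₂ → Δ ≤ d₃ → d₁ < m₁ →
  d₂ ≤ 101 * Δ + 100 * (m₁ - d₁ + m₂) → d₃ ≤ 101 * Δ + 100 * (m₁ - d₁ + m₃) →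
  m₃ ≤ Δ / 1000 → m₁ - d₁ ≤ 3 * Δ / 1000 →
  HasStep m₁ m₂ m₃ l₁ l₂ l₃ d₁ d₂ d₃

/-- [LEG] `x` is on the leg `1`, far from the centre compared with the leg `2` (or `3`).

`e = m₁ - d₁`, `s = (e, 0, 0)`, `n = 0` (`HasStep.of2` with `t₁ = 1`, `t₂ = 0`, `StepS.auto`).
`u2`: `d₂ - m₂ - e = d₁ + d₂ - m₁ - m₂ ≥ l₃ - m₁ - m₂ ≥ 0`.  `v2`: `d₂ ≤ 101 Δ + 100 (e + m₂) ≤
101100 (e + m₂)`.  `c1, c2, c3`: alternative 2 (resp. 3).  (A): `a2`, `a3` by `of_zero`.  `a1` (legs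
`(e, m₂, m₃)`, lengths `(l₁, d₃, d₂)`): from the old (A), alternative by alternative: the legs
decrease (`SS_mono`), the slacks of `x2`, `x3` are at least the old slacks of `12`, `13`, the slack
of `23` is unchanged. -/
def SpecLEG : Prop := ∀ m₁ m₂ m₃ l₁ l₂ l₃ d₁ d₂ d₃ Δ : ℝ, NInv m₁ m₂ m₃ l₁ l₂ l₃ →
  Tri4 l₁ l₂ l₃ d₁ d₂ d₃ → 0 < Δ → Δ ≤ d₁ → Δ ≤ d₂ → Δ ≤ d₃ → d₁ < m₁ →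
  d₂ ≤ 101 * Δ + 100 * (m₁ - d₁ + m₂) → d₃ ≤ 101 * Δ + 100 * (m₁ - d₁ + m₃) →
  Δ / 1000 ≤ m₂ + (m₁ - d₁) → Δ / 1000 ≤ m₃ + (m₁ - d₁) →
  (2 * (m₂ + d₂ / 10000000) ≤ m₁ - d₁ ∨ 2 * (m₃ + d₃ / 10000000) ≤ m₁ - d₁) →
  HasStep m₁ m₂ m₃ l₁ l₂ l₃ d₁ d₂ d₃

/-- [T20] `x` is on the leg `1`, near the centre, and no leg is tiny.

`e = m₁ - d₁ > 0`, `b₂ = d₂ - m₂ - e ≤ b₃ = d₃ - m₃ - e`; `b₂ ≥ l₃ - m₁ - m₂`, `b₃ ≥ l₂ - m₁ - m₃`.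
`ω = min d₁ (min m₂ m₃) > 0`, `s = ω/10000`.  Note `d_g/10⁷ ≤ 0.0101 m_g + 10⁻⁵ (e + m_g)` for `g = 2, 3`, so
`e ≤ 2.05 m_g`.
Claim: `b₃ ≥ 20 s`.  By the old `a1`: in the first alternative `SS/100 ≤ (l₂-m₁-m₃) + (l₃-m₁-m₂) ≤ 2 b₃` and
`SS ≥ 3 ω` (`le_SS`; `m₁ ≥ d₁ ≥ ω`).  In the second, `8 min m₂ m₃ ≤ l₁ - m₂ - m₃`, and
`b₂ + b₃ = d₂ + d₃ - m₂ - m₃ - 2 e ≥ (l₁ - m₂ - m₃) - 2 e ≥ 8 min m₂ m₃ - 4.1 min m₂ m₃`.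
Step: `s = (e + s, s, 0)`, `n = 0` (`HasStep.of` with `T₁ = (e+s)/m₁`, `T₂ = s/m₂`; `T₁ + T₂ ≤ 1` because
`s m₁ ≤ (d₁ - s) m₂`, as `s ≤ d₁/10⁴`, `s ≤ m₂/10⁴`, `e ≤ 2.05 m₂`), by `StepS.auto`.
`u1`: equality; `u2`: `b₂ ≥ 0`; `u3`: `b₃ ≥ 2 s`.  `c1, c2, c3`: alternative 1 if `ω = d₁`, 2 if `ω = m₂`, 3 if
`ω = m₃` (`10⁵ s = 10 ω`).
(A): `a3` by `A3.of_zero3`; `a2` (legs `(d₁ - s, s, m₃ + e + s)`, lengths `(d₃, l₂, d₁)`) by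
`A3.of_edge23` with `t = s` (slack `b₃ - 2 s ≥ 18 s`).  `a1` (legs `(e + s, m₂ - s, m₃ + s)`, lengths
`(l₁, d₃, d₂)`): with `SS' = SS (e+s) (m₂-s) (m₃+s)`:
`SS' ≤ SS (e+s) (m₂+s) (m₃+s) ≤ SS e m₂ m₃ + 12 s` (`SS_mono`, `SS_add`) and
`SS m₁ m₂ m₃ ≥ SS e m₂ m₃ + ω` (in the first term: `e ≤ 3 min m₂ m₃`, so `min e (4 min m₂ m₃) = e` and
`min (e + d₁) (4 min m₂ m₃) ≥ e + ω`; the other two terms are monotone).  So `SS' ≤ SS - 9988 s`.  The new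
slacks are: `23` unchanged, `x2`: `b₂ ≥ l₃ - m₁ - m₂`, `x3`: `b₃ - 2 s ≥ l₂ - m₁ - m₃ - 2 s`; the minima of two
legs grow by at most `s`.  So each alternative of the old (A) gives the same alternative of the
new one. -/
def SpecT20 : Prop := ∀ m₁ m₂ m₃ l₁ l₂ l₃ d₁ d₂ d₃ Δ : ℝ, NInv m₁ m₂ m₃ l₁ l₂ l₃ →
  Tri4 l₁ l₂ l₃ d₁ d₂ d₃ → 0 < Δ → Δ ≤ d₁ → Δ ≤ d₂ → Δ ≤ d₃ → d₁ < m₁ →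
  d₂ ≤ 101 * Δ + 100 * (m₁ - d₁ + m₂) → d₃ ≤ 101 * Δ + 100 * (m₁ - d₁ + m₃) →
  Δ / 1000 < m₂ → Δ / 1000 < m₃ →
  m₁ - d₁ < 2 * (m₂ + d₂ / 10000000) → m₁ - d₁ < 2 * (m₃ + d₃ / 10000000) →
  d₂ - m₂ ≤ d₃ - m₃ →
  HasStep m₁ m₂ m₃ l₁ l₂ l₃ d₁ d₂ d₃

/-- [NL] The near level theorem.

By symmetry (`HasStep.swap12`, `swap23`) `2` is the nearest vertex; `Δ := d₂`.
`D₁ : 100 (m₁+m₂) < l₃ ∧ 100 d₂ ≤ l₃`, `D₃ : 100 (m₂+m₃) < l₁ ∧ 100 d₂ ≤ l₁`,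
`P₁ : D₁ ∨ m₁+m₂ < d₂/20 ∨ d₂/5 < d₁ - l₃`, `P₃ : D₃ ∨ m₂+m₃ < d₂/20 ∨ d₂/5 < d₃ - l₁`.
If `D₁` or `D₃` (by the symmetry exchanging `1` and `3`, assume `D₁`): if `P₃`, use PEND; otherwise
CH1 or CH3.
If neither: `l₃ < 100 d₂ ∨ l₃ ≤ 100 (m₁+m₂)` and `l₁ < 100 d₂ ∨ l₁ ≤ 100 (m₂+m₃)`.
 (T1) If `mᵢ ≤ dᵢ` for all `i`: T1 with `Δ = d₂`: `d₁ ≤ l₃ + d₂ ≤ 101 d₂ + 100 m₁` since `m₂ ≤ d₂`, etc.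
 (T2) If `dᵢ < mᵢ` for some `i`; put `e = mᵢ - dᵢ`.  For `j ≠ i`, `m_j + e ≤ d_j` (because `mᵢ + m_j ≤ l ≤
 dᵢ + d_j`), and `d_j ≤ 101 d₂ + 100 (e + m_j)`: if `i = 2`, `d_j ≤ l_{2j} + d₂` and `m₂ = d₂ + e`; if
 `i = 1`: trivial for `j = 2`, and `d₃ ≤ l₁ + d₂` with `m₂ ≤ d₂` for `j = 3`; `i = 3` the same.  Move `i` to the
 position 1 by symmetry, keeping `Δ = d₂` as a name.  (Prove this as a lemma with `i = 1` and an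
 abstract `Δ` as in T21, LEG, T20.)  If (`m₂ ≤ Δ/1000` or `m₃ ≤ Δ/1000`) and `e ≤ 3Δ/1000`:
 T21 (after `swap23` if necessary).  Otherwise `Δ/1000 ≤ m_j + e` for `j = 2, 3`.  If
 `2 (m_j + d_j/10⁷) ≤ e` for `j = 2` or `3`: LEG.  Otherwise `m₂, m₃ > Δ/1000`: if `m_j ≤ Δ/1000` then
 `e > 3Δ/1000`, but `e < 2 (m_j + d_j/10⁷) ≤ 2 m_j + 2 (101 Δ + 100 (e + m_j))/10⁷ < 3Δ/1000`.  Then T20 (after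
 `swap23` if necessary). -/
def SpecNL : Prop := ∀ m₁ m₂ m₃ l₁ l₂ l₃ d₁ d₂ d₃ : ℝ, NInv m₁ m₂ m₃ l₁ l₂ l₃ →
  Tri4 l₁ l₂ l₃ d₁ d₂ d₃ → HasStep m₁ m₂ m₃ l₁ l₂ l₃ d₁ d₂ d₃

/-- [NLA] the assembly of NL -/
def SpecNLA : Prop := SpecPEND → SpecCH1 → SpecCH3 → SpecT1 → SpecT21 → SpecLEG → SpecT20 → SpecNL

/-! ## Far level

Notation: for `y = (y₁, y₂, y₃)` in the simplex `Δ = {yᵢ ≥ 0, ∑ yᵢ ≤ 1}` put `S(y) = ∑ yᵥ mᵥ`,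
`L_g(y) = Lg K r_g m_g S(y) y_g = r_g + K (S(y) + m_g (1 - 2 y_g))` for `g = 1, 2, 3`, and
`L_c(y) = R + K S(y)`, `R = Rc M m₁ m₂ m₃ r₁ r₂ r₃`; `Lmin` is the minimum of the four, and
`F_u(y) = phi(y) - 4 β_u + 4 m_u y_u`.  All these are affine functions of `y`.
Basic facts, for `Org`: (1) `r_g - M m_g ≤ R ≤ r_g + M m_g`.  (2) If `L_g(y) < L_c(y)` then
`y_g > 3/8` (because `K m_g (2 y_g - 1) > r_g - R ≥ -M m_g`).  (3) If `L_c(y) < L_h(y)`, or `L_g(y) < L_h(y)`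
for some other `g`, then `y_h < 5/8`.  (For `g`: `m_g (K (1 - 2 y_g) - M) < m_h (K (1 - 2 y_h) + M)`; if
`y_h ≥ 5/8` the right side is `≤ 0` and, as `y_g ≤ 3/8`, the left side is `≥ 0`.)  -/

/-- the permutation `1 ↔ 2` of the invariant (`ring`/`min_comm`/`max_comm`) -/
def SpecPER : Prop :=
  (∀ M K c ν m₁ m₂ m₃ β₁ β₂ β₃ r₁ r₂ r₃ : ℝ, Inv4 M K c ν m₁ m₂ m₃ β₁ β₂ β₃ r₁ r₂ r₃ →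
    Inv4 M K c ν m₂ m₁ m₃ β₂ β₁ β₃ r₂ r₁ r₃) ∧
  (∀ M K c ν m₁ m₂ m₃ β₁ β₂ β₃ r₁ r₂ r₃ : ℝ, Inv4 M K c ν m₁ m₂ m₃ β₁ β₂ β₃ r₁ r₂ r₃ →
    Inv4 M K c ν m₁ m₃ m₂ β₁ β₃ β₂ r₁ r₃ r₂)

/-- [LG] Lemma G: the invariant for all points of the simplex, with a gain if the gate `1` is not
minimal.

Proof.  Put `κ₀ = 1/10 + cK ≤ 0.101`.
Good case `5 m₁ - 6 β₁ ≥ κ₀ m₁`: let `y⁰ = (0, y₂, y₃)`.  `F₁(y) - F₁(y⁰) = y₁ (5 m₁ - 6 β₁) ≥ κ₀ y₁ m₁`, and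
`L_g(y) ≤ L_g(y⁰) + K y₁ m₁` for every gate (`g ≠ 1`: equality; `g = 1`: `L₁(y) = L₁(y⁰) - K y₁ m₁`).  So
`c Lmin(y) + y₁ m₁/10 ≤ F₁(y)` in this case.
Bad case `β₁ > (5 - κ₀) m₁/6`.  The invariant for `u = 2` and `u = 3` at the point `δ₁ = (1,0,0)`,
where `Lmin(δ₁) = r₁` (Lipschitz, `K ≥ M`), gives `E := phi(δ₁) - c r₁ ≥ 4 β₂, 4 β₃`.  One computes
`F₁(y) - c L₁(y) = E + (1-y₁)(6 β₁ - 5 m₁) + 4 (m₁ - β₁) + y₂ (m₂ - 6 β₂) + y₃ (m₃ - 6 β₃)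
  - cK [(1-y₁) m₁ + y₂ m₂ + y₃ m₃]
 ≥ E (1 - 1.5 Y) + (1-y₁)((2-κ₀)/3 - cK) m₁ + (1 - cK)(y₂ m₂ + y₃ m₃)`, `Y = y₂ + y₃`   (*)
(use `4 (m₁-β₁) ≥ 4 (1-y₁)(m₁-β₁)`).
If `Y ≤ 2/3`: `F₁(y) ≥ c L₁(y)`; and if `Lmin(y) < L₁(y)` then `y₁ < 5/8` by (3), so the second term of (*)
is `≥ 0.2 m₁ ≥ y₁ m₁/10`, and `c L₁(y) ≥ c Lmin(y)`.
If `Y > 2/3` (so `y₁ < 1/3`): let `ỹ = (0, y₂, y₃)/(1-y₁)`, so `y = (1-y₁) ỹ + y₁ δ₁`.  Let `g` be a gate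
with `L_g(ỹ) = Lmin(ỹ)`; by (2) we may take `g = c`, or `g ∈ {2,3}` with `ỹ_g > 3/8` (hence
`y_g ≥ 1/4`); (`g = 1` is impossible unless `c` is also minimal, as `ỹ₁ = 0`).  By the invariant `F₁(ỹ) ≥ c L_g(ỹ)`;
`F₁(δ₁) = phi(δ₁) + 4 (m₁ - β₁) ≥ c r₁ + E`, and `L_g(δ₁) ≤ r₁ + (M+K) ρ` where `ρ = m₁` if `g = c` and
`ρ = m₁ + m_g` otherwise.  So by affinity
`F₁(y) ≥ c L_g(y) + y₁ (E - c (M+K) ρ)`.  If `E ≥ c (M+K) ρ + m₁/10` we are done (both claims).  Otherwise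
`E < 0.0013 ρ + m₁/10` and (*) gives (`1.5 Y - 1 ≤ 1/2`, `1 - y₁ ≥ 2/3`)
`F₁(y) ≥ c L₁(y) - (0.0013 ρ + m₁/10)/2 + 0.4 m₁ + 0.999 y_g m_g ≥ c L₁(y) + y₁ m₁/10` (if `g ≠ c` use
`y_g ≥ 1/4`). -/
def SpecLG : Prop := ∀ M K c ν m₁ m₂ m₃ β₁ β₂ β₃ r₁ r₂ r₃ : ℝ,
  Org M K c ν m₁ m₂ m₃ β₁ β₂ β₃ r₁ r₂ r₃ → Inv4 M K c ν m₁ m₂ m₃ β₁ β₂ β₃ r₁ r₂ r₃ →
  ∀ y₁ y₂ y₃ : ℝ, 0 ≤ y₁ → 0 ≤ y₂ → 0 ≤ y₃ → y₁ + y₂ + y₃ ≤ 1 →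
    c * Lmin M K m₁ m₂ m₃ r₁ r₂ r₃ y₁ y₂ y₃ ≤
      phi ν m₁ m₂ m₃ β₁ β₂ β₃ y₁ y₂ y₃ - 4 * β₁ + 4 * m₁ * y₁ ∧
    (Lmin M K m₁ m₂ m₃ r₁ r₂ r₃ y₁ y₂ y₃ <
        Lg K r₁ m₁ (y₁ * m₁ + y₂ * m₂ + y₃ * m₃) y₁ →
      c * Lmin M K m₁ m₂ m₃ r₁ r₂ r₃ y₁ y₂ y₃ + y₁ * m₁ / 10 ≤
        phi ν m₁ m₂ m₃ β₁ β₂ β₃ y₁ y₂ y₃ - 4 * β₁ + 4 * m₁ * y₁)

/-- [WJ] The world `2` of the new bag `(x,2,3)`.  The point `(p, 0, q)` of the new bag corresponds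
to the point `y⁰ = (p T₁, (1-q) T₂, q + (1-q) T₃)` of the old bag.

Notation: `sᵢ = Tᵢ mᵢ`; new legs `m'_x = s₁ + n`, `m'₂ = m₂ - s₂ + s₃`, `m'₃ = m₃ - s₃ + s₂`; the new `F`
of the world 2 at `(p,0,q)` is `phi'(p,0,q) - 4 β'₂`.  Identities (`ring`): `y⁰ ∈ Δ`;
`phi'(p,0,q) - 4 β'₂ = F₂(y⁰) + p n` where `F₂(y⁰) = phi(y⁰) - 4 β₂ + 4 m₂ y⁰₂`;
`L'₂(p,0,q) = L₂(y⁰) + K p n`; `L'₃(p,0,q) = L₃(y⁰) + K p n`;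
`S'(p,0,q) = S(y⁰) + p n + (2q - 1) s₂ - s₃`.
By LG (with the indices `1, 2` exchanged, via PER or by stating it for the index 2):
`F₂(y⁰) ≥ c Lmin(y⁰)`, and `≥ c Lmin(y⁰) + y⁰₂ m₂/10` with `y⁰₂ m₂ = (1-q) s₂` if
`Lmin(y⁰) < L₂(y⁰)`.  Cases for a minimal gate of `Lmin(y⁰)`:
* gate 2 or gate 3 is minimal: use the same gate (`cK ≤ 1`).
* gate `c` is minimal and strictly smaller than the gates 2 and 3: then `y⁰₃ < 5/8` (fact (3)), so `q < 5/8`.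
By `c1` of `Stp` and `r ≤ r_g + d_g`, `r_g ≤ R + M m_g`: `r - M m'_x ≤ R + K (s₂ + s₃)`;
`r₂ - M m'₂ ≤ R + M s₂`, `r₃ - M m'₃ ≤ R + M s₃`; so the new `R' ≤ R + K (s₂ + s₃)` and
`L'_c(p,0,q) ≤ L_c(y⁰) + K (p n + 2 q s₂)`.  The gain `(1-q) s₂/10 ≥ 0.0375 s₂` pays for `2 c K q s₂ ≤ 0.002 s₂`, and
`p n` for `c K p n`.
* gate 1 is minimal and strictly smaller than the others: `y⁰₁ = p T₁ > 3/8` (fact (2)), so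
`p, T₁ > 3/8`, `q ≤ 1 - p < 5/8`.  With `r ≤ r₁ + d₁ ≤ r₁ + M (n + m₁ - s₁ + s₂ + s₃)`:
`L'_x(p,0,q) - L₁(y⁰) ≤ (M + K (1-p)) n - (K - M)((1-T₁) m₁ + s₃) + (M + K (2q-1)) s₂ ≤ (M+K) n + K s₂/2`, and
the gains `p n ≥ 3n/8` and `(1-q) s₂/10 ≥ 0.0375 s₂` pay for it. -/
def SpecWJ : Prop := ∀ M K c ν m₁ m₂ m₃ β₁ β₂ β₃ r₁ r₂ r₃ T₁ T₂ T₃ n r d₁ d₂ d₃ : ℝ,
  Org M K c ν m₁ m₂ m₃ β₁ β₂ β₃ r₁ r₂ r₃ → Inv4 M K c ν m₁ m₂ m₃ β₁ β₂ β₃ r₁ r₂ r₃ →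
  Stp M K m₁ m₂ m₃ T₁ T₂ T₃ n r₁ r₂ r₃ r d₁ d₂ d₃ →
  ∀ p q : ℝ, 0 ≤ p → 0 ≤ q → p + q ≤ 1 →
    c * Lmin M K (T₁ * m₁ + n) (m₂ - T₂ * m₂ + T₃ * m₃) (m₃ - T₃ * m₃ + T₂ * m₂) r r₂ r₃ p 0 q ≤
      phi (ν + (1 - T₁) * β₁) (T₁ * m₁ + n) (m₂ - T₂ * m₂ + T₃ * m₃) (m₃ - T₃ * m₃ + T₂ * m₂)
        (T₁ * β₁) ((1 - T₂) * β₂ + T₃ * (m₃ - β₃)) ((1 - T₃) * β₃ + T₂ * (m₂ - β₂)) p 0 q -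
      4 * ((1 - T₂) * β₂ + T₃ * (m₃ - β₃))

/-- [WX] The world `x` of the new bag `(x,2,3)`.  The point `(0, p, q)` of the new bag corresponds
to `y⁰ = (0, p + T₂ a, q + T₃ a)`, `a = 1 - p - q`, of the old bag.

Identities (`ring`), with `T₀ = 1 - T₁ - T₂ - T₃`, `F_u(y⁰) = phi(y⁰) - 4 β_u + 4 m_u y⁰_u`:
`phi'(0,p,q) - 4 β'_x = T₀ phi(y⁰) + T₁ F₁(y⁰) + T₂ F₂(y⁰) + T₃ F₃(y⁰)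
  + 4 a [T₂ (1-T₂) m₂ + T₃ (1-T₃) m₃]`;
`L'₂(0,p,q) = L₂(y⁰)`, `L'₃(0,p,q) = L₃(y⁰)`, `S'(0,p,q) = S(y⁰) + (2q-1) s₂ + (2p-1) s₃`.
`phi(y⁰) ≥ F₁(y⁰) ≥ c Lmin(y⁰)` by the invariant (`y⁰₁ = 0`), `F₂, F₃` by LG.
* If the gate 2 or 3 is minimal at `y⁰`: same gate, all four `F`'s are `≥ c Lmin(y⁰)`.
* The gate 1 is never strictly smaller than `c`, as `y⁰₁ = 0` (fact (2)).
* Otherwise `c` is minimal and strictly smaller than the gates 2, 3, so `y⁰₂, y⁰₃ < 5/8`, hence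
`p, q < 5/8`.  As in WJ `R' ≤ R + K (s₂ + s₃)`, so
`L'_c(0,p,q) ≤ L_c(y⁰) + 2 K (q s₂ + p s₃) ≤ L_c(y⁰) + 2 K (s₂ + s₃)`.  The gains are
`T₂ y⁰₂ m₂/10 + 4 a (1-T₂) s₂ ≥ s₂ (p + T₂ a + a (1-T₂))/10 = s₂ (1-q)/10 ≥ 0.0375 s₂`, and the same for `s₃`. -/
def SpecWX : Prop := ∀ M K c ν m₁ m₂ m₃ β₁ β₂ β₃ r₁ r₂ r₃ T₁ T₂ T₃ n r d₁ d₂ d₃ : ℝ,
  Org M K c ν m₁ m₂ m₃ β₁ β₂ β₃ r₁ r₂ r₃ → Inv4 M K c ν m₁ m₂ m₃ β₁ β₂ β₃ r₁ r₂ r₃ →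
  Stp M K m₁ m₂ m₃ T₁ T₂ T₃ n r₁ r₂ r₃ r d₁ d₂ d₃ →
  ∀ p q : ℝ, 0 ≤ p → 0 ≤ q → p + q ≤ 1 →
    c * Lmin M K (T₁ * m₁ + n) (m₂ - T₂ * m₂ + T₃ * m₃) (m₃ - T₃ * m₃ + T₂ * m₂) r r₂ r₃ 0 p q ≤
      phi (ν + (1 - T₁) * β₁) (T₁ * m₁ + n) (m₂ - T₂ * m₂ + T₃ * m₃) (m₃ - T₃ * m₃ + T₂ * m₂)
        (T₁ * β₁) ((1 - T₂) * β₂ + T₃ * (m₃ - β₃)) ((1 - T₃) * β₃ + T₂ * (m₂ - β₂)) 0 p q -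
      4 * (T₁ * β₁)

/-- [CLO] One step of the far level, for the new bag `(x,2,3)`. -/
def SpecCLO : Prop := ∀ M K c ν m₁ m₂ m₃ β₁ β₂ β₃ r₁ r₂ r₃ T₁ T₂ T₃ n r d₁ d₂ d₃ : ℝ,
  Org M K c ν m₁ m₂ m₃ β₁ β₂ β₃ r₁ r₂ r₃ → Inv4 M K c ν m₁ m₂ m₃ β₁ β₂ β₃ r₁ r₂ r₃ →
  Stp M K m₁ m₂ m₃ T₁ T₂ T₃ n r₁ r₂ r₃ r d₁ d₂ d₃ →
  Inv4 M K c (ν + (1 - T₁) * β₁) (T₁ * m₁ + n) (m₂ - T₂ * m₂ + T₃ * m₃)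
    (m₃ - T₃ * m₃ + T₂ * m₂) (T₁ * β₁) ((1 - T₂) * β₂ + T₃ * (m₃ - β₃))
    ((1 - T₃) * β₃ + T₂ * (m₂ - β₂)) r r₂ r₃

/-- [CLA] The assembly of CLO: the world `x` is WX; the world 2 is WJ; the world 3 is WJ applied with
the indices 2, 3 exchanged (`Org`, `Stp`, `Inv4` are symmetric; PER). -/
def SpecCLA : Prop := SpecPER → SpecWJ → SpecWX → SpecCLO

/-- [INI] Initial invariants, and the final bound.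

(1) The origin is the vertex 1 of the bag (`ν = 0`, `β = (m₁, 0, 0)`, `r₁ = 0`): use the gate 1: for
`u = 1` (`y₁ = 0`): `F = m₁ + y₂ m₂ + y₃ m₃ = ρ₁(y)`, `L₁ = K ρ₁(y)`; for `u = 2` (`y₂ = 0`):
`F = 5 m₁ (1-y₁) + y₃ m₃ ≥ ρ₁(y) = m₁ (1-y₁) + y₃ m₃`.
(2) An arbitrary origin whose distances `ρ(z,g) = ν + ∑_{h≠g} β_h + m_g - β_g` satisfy `r_g ≤ M ρ(z,g)`:
put `P(y) = ν + ∑ᵥ [βᵥ (1-yᵥ) + (mᵥ-βᵥ) yᵥ]`; `F_u(y) ≥ P(y)` if `y_u = 0`.  If some `y_g > 1/2` use the gate `g`: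
`ρ_g(y) = (1-y_g) m_g + ∑_{h≠g} y_h m_h ≤ P(y)` and `r_g ≤ M ρ(z,g) ≤ M (P(y) + ρ_g(y))`, so
`L_g(y) ≤ (2M+K) P(y)`.  If all `yᵥ ≤ 1/2` use `c`: `R ≤ M (ν + ∑β) ≤ M (P(y) + S(y))`, `S(y) ≤ P(y)`, so
`L_c(y) ≤ (2M+K) P(y)`.
(3) The final bound: the invariant for `u = 2` at `(1,0,0)`, where `Lmin = r₁`; and
`5 (ν + β₂ + β₃ + m₁ - β₁) - F = 4 (m₁ - β₁) + 4 β₂ ≥ 0`. -/
def SpecINI : Prop :=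
  (∀ M K c m₁ m₂ m₃ r₂ r₃ : ℝ, 0 < M → 0 < K → 0 < c → c * K ≤ 1 → 0 ≤ m₁ → 0 ≤ m₂ → 0 ≤ m₃ →
    Inv4 M K c 0 m₁ m₂ m₃ m₁ 0 0 0 r₂ r₃) ∧
  (∀ M K c ν m₁ m₂ m₃ β₁ β₂ β₃ r₁ r₂ r₃ : ℝ, 0 < M → 0 < K → 0 < c → c * (2 * M + K) ≤ 1 →
    0 ≤ ν → 0 ≤ β₁ → 0 ≤ β₂ → 0 ≤ β₃ → β₁ ≤ m₁ → β₂ ≤ m₂ → β₃ ≤ m₃ →
    r₁ ≤ M * (ν + β₂ + β₃ + (m₁ - β₁)) → r₂ ≤ M * (ν + β₁ + β₃ + (m₂ - β₂)) →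
    r₃ ≤ M * (ν + β₁ + β₂ + (m₃ - β₃)) → Inv4 M K c ν m₁ m₂ m₃ β₁ β₂ β₃ r₁ r₂ r₃) ∧
  (∀ M K c ν m₁ m₂ m₃ β₁ β₂ β₃ r₁ r₂ r₃ : ℝ, Org M K c ν m₁ m₂ m₃ β₁ β₂ β₃ r₁ r₂ r₃ →
    Inv4 M K c ν m₁ m₂ m₃ β₁ β₂ β₃ r₁ r₂ r₃ → c * r₁ ≤ 5 * (ν + β₂ + β₃ + (m₁ - β₁)))

end TW3
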