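import Pool.Agent.Lib.MP_2eab14_co.TW3.SpecG
import Pool.Agent.Lib.MP_2eab14_co.TW3.DefsT

section
set_option linter.all false

/-!
# Treewidth three, module CNV (helper28)

From `RT` to `Seq`.
-/

noncomputable section

namespace TW3

namespace CNVM

variable {V : Type} [Fintype V] [DecidableEq V]

/-- skipping the bags of `st` -/
theorem skips {s₂ : List (V × V × V)} {L : Finset V} {E : V → V → Prop} (h : Seq s₂ L E) :
    ∀ st : List (V × V × V), Seq (st ++ s₂) L E
  | [] => h
  | B :: st => Seq.skip (skips h st)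

/-- the append lemma -/
theorem append {s₁ s₂ : List (V × V × V)} {L₁ L₂ : Finset V} {E₁ E₂ : V → V → Prop}
    (h₁ : Seq s₁ L₁ E₁) (h₂ : Seq s₂ L₂ E₂) (hd : Disjoint L₁ L₂) :
    ∃ E' : V → V → Prop, Seq (s₁ ++ s₂) (L₁ ∪ L₂) E' ∧ ∀ u v, E₁ u v ∨ E₂ u v → E' u v := by
  induction h₁ with
  | nil st =>
    refine ⟨E₂, ?_, ?_⟩
    · rw [Finset.empty_union]
      exact skips h₂ st
    · rintro u v (h | h)
      · exact absurd h id
      · exact h
  | skip h ih =>
    obtain ⟨E', h1, h2⟩ := ih hd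
    exact ⟨E', Seq.skip h1, h2⟩
  | @add a b c x st L E hx h ih =>
    have hd' : Disjoint L L₂ := Finset.disjoint_of_subset_left (Finset.subset_insert _ _) hd
    have hx2 : x ∉ L₂ := Finset.disjoint_left.mp hd (Finset.mem_insert_self _ _)
    obtain ⟨E', h1, h2⟩ := ih hd'
    refine ⟨fun u v => E' u v ∨ (u = x ∧ (v = a ∨ v = b ∨ v = c)), ?_, ?_⟩
    · rw [Finset.insert_union]
      refine Seq.add ?_ h1
      intro hmem
      rcases Finset.mem_union.mp hmem with h' | h'
      · exact hx h'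
      · exact hx2 h'
    · rintro u v ((h | h) | h)
      · exact Or.inl (h2 u v (Or.inl h))
      · exact Or.inr h
      · exact Or.inl (h2 u v (Or.inr h))

end CNVM

theorem specCNV : SpecCNV := by
  intro V _ _ B L E h
  induction h with
  | @nil B E hE =>
    intro _ a b c _ _ _ hB
    refine ⟨fun _ _ => False, Seq.nil _, ?_⟩
    intro u v _ huv
    exact Or.inl (hE u v huv)
  | @cons B L E x f g Lr Er hx h hr d1 d2 d3 d4 d5 d6 hL hE ih ihr =>
    intro _ a b c hab hac hbc hB
    have haB : a ∈ B := by rw [hB]; simp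
    have hbB : b ∈ B := by rw [hB]; simp
    have hcB : c ∈ B := by rw [hB]; simp
    have hxa : x ≠ a := fun h => hx (h ▸ haB)
    have hxb : x ≠ b := fun h => hx (h ▸ hbB)
    have hxc : x ≠ c := fun h => hx (h ▸ hcB)
    have hdis : ∀ i ∈ B, Disjoint (insert x (B.erase i)) (f i) := by
      intro i hi
      rw [Finset.disjoint_left]
      intro z hz hz'
      rcases Finset.mem_insert.mp hz with h1 | h1
      · exact d1 i hi (h1 ▸ hz')
      · exact Finset.disjoint_left.mp (d5 i hi) hz' (Finset.mem_of_mem_erase h1)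
    -- the three children
    have ea : insert x (B.erase a) = {x, b, c} := by
      rw [hB]
      ext z
      simp only [Finset.mem_insert, Finset.mem_erase, Finset.mem_singleton]
      constructor
      · rintro (h1 | ⟨h1, h2 | h2 | h2⟩)
        · exact Or.inl h1
        · exact absurd h2 h1
        · exact Or.inr (Or.inl h2)
        · exact Or.inr (Or.inr h2)
      · rintro (h1 | h1 | h1)
        · exact Or.inl h1
        · exact Or.inr ⟨by rw [h1]; exact hab.symm, Or.inr (Or.inl h1)⟩
        · exact Or.inr ⟨by rw [h1]; exact hac.symm, Or.inr (Or.inr h1)⟩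
    have eb : insert x (B.erase b) = {a, x, c} := by
      rw [hB]
      ext z
      simp only [Finset.mem_insert, Finset.mem_erase, Finset.mem_singleton]
      constructor
      · rintro (h1 | ⟨h1, h2 | h2 | h2⟩)
        · exact Or.inr (Or.inl h1)
        · exact Or.inl h2
        · exact absurd h2 h1
        · exact Or.inr (Or.inr h2)
      · rintro (h1 | h1 | h1)
        · exact Or.inr ⟨by rw [h1]; exact hab, Or.inl h1⟩
        · exact Or.inl h1
        · exact Or.inr ⟨by rw [h1]; exact hbc.symm, Or.inr (Or.inr h1)⟩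
    have ec : insert x (B.erase c) = {a, b, x} := by
      rw [hB]
      ext z
      simp only [Finset.mem_insert, Finset.mem_erase, Finset.mem_singleton]
      constructor
      · rintro (h1 | ⟨h1, h2 | h2 | h2⟩)
        · exact Or.inr (Or.inr h1)
        · exact Or.inl h2
        · exact Or.inr (Or.inl h2)
        · exact absurd h2 h1
      · rintro (h1 | h1 | h1)
        · exact Or.inr ⟨by rw [h1]; exact hac, Or.inl h1⟩
        · exact Or.inr ⟨by rw [h1]; exact hbc, Or.inr (Or.inl h1)⟩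
        · exact Or.inl h1
    obtain ⟨Ea, sa, pa⟩ := ih a haB (hdis a haB) x b c hxb hxc hbc ea
    obtain ⟨Eb, sb, pb⟩ := ih b hbB (hdis b hbB) a x c hxa.symm hac hxc eb
    obtain ⟨Ec, sc, pc⟩ := ih c hcB (hdis c hcB) a b x hab hxa.symm hxb.symm ec
    obtain ⟨Er', sr, pr⟩ := ihr d6.symm a b c hab hac hbc hB
    obtain ⟨E1, s1, q1⟩ := CNVM.append sc sr (d4 c hcB)
    obtain ⟨E2, s2, q2⟩ := CNVM.append sb s1 (by
      rw [Finset.disjoint_union_right]
      exact ⟨d3 b hbB c hcB hbc, d4 b hbB⟩)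
    obtain ⟨E3, s3, q3⟩ := CNVM.append sa s2 (by
      rw [Finset.disjoint_union_right, Finset.disjoint_union_right]
      exact ⟨d3 a haB b hbB hab, d3 a haB c hcB hac, d4 a haB⟩)
    have hL' : L = insert x (f a ∪ (f b ∪ (f c ∪ Lr))) := by
      rw [hL, hB]
      congr 1
      ext z
      simp only [Finset.mem_union, Finset.mem_biUnion, Finset.mem_insert, Finset.mem_singleton]
      constructor
      · rintro (⟨i, h1 | h1 | h1, h2⟩ | h1)
        · rw [h1] at h2
          exact Or.inl h2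
        · rw [h1] at h2
          exact Or.inr (Or.inl h2)
        · rw [h1] at h2
          exact Or.inr (Or.inr (Or.inl h2))
        · exact Or.inr (Or.inr (Or.inr h1))
      · rintro (h1 | h1 | h1 | h1)
        · exact Or.inl ⟨a, Or.inl rfl, h1⟩
        · exact Or.inl ⟨b, Or.inr (Or.inl rfl), h1⟩
        · exact Or.inl ⟨c, Or.inr (Or.inr rfl), h1⟩
        · exact Or.inr h1
    have hxL : x ∉ f a ∪ (f b ∪ (f c ∪ Lr)) := by
      simp only [Finset.mem_union, not_or]
      exact ⟨d1 a haB, d1 b hbB, d1 c hcB, d2⟩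
    refine ⟨fun u v => E3 u v ∨ (u = x ∧ (v = a ∨ v = b ∨ v = c)), ?_, ?_⟩
    · rw [hL']
      exact Seq.add hxL s3
    · -- the pairs
      have memB : ∀ v, v ∈ B → v = a ∨ v = b ∨ v = c := by
        intro v hv
        rw [hB] at hv
        simpa using hv
      have hxB : ∀ u v, u = x → v ∈ B → (u ∈ B ∧ v ∈ B) ∨
          (E3 u v ∨ (u = x ∧ (v = a ∨ v = b ∨ v = c))) ∨
          (E3 v u ∨ (v = x ∧ (u = a ∨ u = b ∨ u = c))) := fun u v hu hv =>
        Or.inr (Or.inl (Or.inr ⟨hu, memB v hv⟩))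
      have hBx : ∀ u v, v = x → u ∈ B → (u ∈ B ∧ v ∈ B) ∨
          (E3 u v ∨ (u = x ∧ (v = a ∨ v = b ∨ v = c))) ∨
          (E3 v u ∨ (v = x ∧ (u = a ∨ u = b ∨ u = c))) := fun u v hv hu =>
        Or.inr (Or.inr (Or.inr ⟨hv, memB u hu⟩))
      have hins : ∀ i ∈ B, ∀ u v, u ≠ v → u ∈ insert x (B.erase i) → v ∈ insert x (B.erase i) →
          (u ∈ B ∧ v ∈ B) ∨
          (E3 u v ∨ (u = x ∧ (v = a ∨ v = b ∨ v = c))) ∨
          (E3 v u ∨ (v = x ∧ (u = a ∨ u = b ∨ u = c))) := by
        intro i _ u v huv hu hv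
        rcases Finset.mem_insert.mp hu with h1 | h1
        · rcases Finset.mem_insert.mp hv with h2 | h2
          · exact absurd (h1.trans h2.symm) huv
          · exact hxB u v h1 (Finset.mem_of_mem_erase h2)
        · rcases Finset.mem_insert.mp hv with h2 | h2
          · exact hBx u v h2 (Finset.mem_of_mem_erase h1)
          · exact Or.inl ⟨Finset.mem_of_mem_erase h1, Finset.mem_of_mem_erase h2⟩
      have ra : ∀ u v, Ea u v → E3 u v := fun u v h => q3 u v (Or.inl h)
      have rb : ∀ u v, Eb u v → E3 u v := fun u v h => q3 u v (Or.inr (q2 u v (Or.inl h)))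
      have rc : ∀ u v, Ec u v → E3 u v := fun u v h =>
        q3 u v (Or.inr (q2 u v (Or.inr (q1 u v (Or.inl h)))))
      have rr : ∀ u v, Er' u v → E3 u v := fun u v h =>
        q3 u v (Or.inr (q2 u v (Or.inr (q1 u v (Or.inr h)))))
      intro u v huv hEuv
      rcases hE u v hEuv with h1 | h1 | h1 | ⟨i, hi, h1⟩ | h1
      · exact Or.inl h1
      · exact hxB u v h1.1 h1.2
      · exact hBx u v h1.1 h1.2
      · rcases memB i hi with h2 | h2 | h2
        · subst h2
          rcases pa u v huv h1 with h3 | h3 | h3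
          · exact hins i hi u v huv h3.1 h3.2
          · exact Or.inr (Or.inl (Or.inl (ra u v h3)))
          · exact Or.inr (Or.inr (Or.inl (ra v u h3)))
        · subst h2
          rcases pb u v huv h1 with h3 | h3 | h3
          · exact hins i hi u v huv h3.1 h3.2
          · exact Or.inr (Or.inl (Or.inl (rb u v h3)))
          · exact Or.inr (Or.inr (Or.inl (rb v u h3)))
        · subst h2
          rcases pc u v huv h1 with h3 | h3 | h3
          · exact hins i hi u v huv h3.1 h3.2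
          · exact Or.inr (Or.inl (Or.inl (rc u v h3)))
          · exact Or.inr (Or.inr (Or.inl (rc v u h3)))
      · rcases pr u v huv h1 with h3 | h3 | h3
        · exact Or.inl h3
        · exact Or.inr (Or.inl (Or.inl (rr u v h3)))
        · exact Or.inr (Or.inr (Or.inl (rr v u h3)))

end TW3
end
end

section
set_option linter.all false

noncomputable section

namespace TW3

open KSum52 TwoSum

open Classical in
/-- the metric on `Fin n ⊕ Fin 3`: path distances inside the components, `W` otherwise -/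
def fiaD {n : ℕ} (G : SimpleGraph (Fin n)) (w : Sym2 (Fin n) → ℝ) (W : ℝ) :
    Fin n ⊕ Fin 3 → Fin n ⊕ Fin 3 → ℝ
  | Sum.inl u, Sum.inl v => if G.Reachable u v then gd G w u v else W
  | Sum.inl _, Sum.inr _ => W
  | Sum.inr _, Sum.inl _ => W
  | Sum.inr i, Sum.inr j => if i = j then 0 else W

section
variable {n : ℕ} {G : SimpleGraph (Fin n)} {w : Sym2 (Fin n) → ℝ} {W : ℝ}

lemma fiaD_reach {u v : Fin n} (h : G.Reachable u v) :
    fiaD G w W (Sum.inl u) (Sum.inl v) = gd G w u v := by
  simp only [fiaD, if_pos h]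

lemma fiaD_not {u v : Fin n} (h : ¬ G.Reachable u v) :
    fiaD G w W (Sum.inl u) (Sum.inl v) = W := by
  simp only [fiaD, if_neg h]

lemma fiaD_nonneg (hw : Pos G w) (hW : 0 < W) (x y : Fin n ⊕ Fin 3) : 0 ≤ fiaD G w W x y := by
  rcases x with u | i <;> rcases y with v | j
  · by_cases h : G.Reachable u v
    · rw [fiaD_reach h]; exact gd_nonneg hw u v
    · rw [fiaD_not h]; exact hW.le
  · exact hW.le
  · exact hW.le
  · by_cases h : i = j
    · simp only [fiaD, if_pos h]; exact le_rfl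
    · simp only [fiaD, if_neg h]; exact hW.le

lemma fiaD_le (hw : Pos G w) (hW : 0 < W) (hM : ∀ u v, gd G w u v < W) (x y : Fin n ⊕ Fin 3) :
    fiaD G w W x y ≤ W := by
  rcases x with u | i <;> rcases y with v | j
  · by_cases h : G.Reachable u v
    · rw [fiaD_reach h]; exact (hM u v).le
    · rw [fiaD_not h]
  · exact le_rfl
  · exact le_rfl
  · by_cases h : i = j
    · simp only [fiaD, if_pos h]; exact hW.le
    · simp only [fiaD, if_neg h]; exact le_rfl

lemma fiaD_dst (hw : Pos G w) (hW : 0 < W) (hM : ∀ u v, gd G w u v < W) : Dst (fiaD G w W) := by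
  have hn := fiaD_nonneg (W := W) hw hW
  have hl := fiaD_le hw hW hM
  refine ⟨?_, ?_, ?_, ?_⟩
  · intro x
    rcases x with u | i
    · rw [fiaD_reach (SimpleGraph.Reachable.refl u)]; exact gd_self hw u
    · simp only [fiaD, if_true]
  · intro x y
    rcases x with u | i <;> rcases y with v | j
    · by_cases h : G.Reachable u v
      · rw [fiaD_reach h, fiaD_reach h.symm]; exact gd_comm hw u v
      · rw [fiaD_not h, fiaD_not (fun h' => h h'.symm)]
    · rfl
    · rfl
    · by_cases h : i = j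
      · simp only [fiaD, if_pos h, if_pos h.symm]
      · simp only [fiaD, if_neg h, if_neg (fun h' : j = i => h h'.symm)]
  · intro x y z
    rcases x with u | i <;> rcases y with v | j <;> rcases z with t | k
    · by_cases h : G.Reachable u v
      · by_cases h' : G.Reachable v t
        · rw [fiaD_reach h, fiaD_reach h', fiaD_reach (h.trans h')]
          exact gd_tri hw h h'
        · have h1 := hl (Sum.inl u) (Sum.inl t)
          have h2 := hn (Sum.inl u) (Sum.inl v)
          rw [fiaD_not h']; linarith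
      · have h1 := hl (Sum.inl u) (Sum.inl t)
        have h2 := hn (Sum.inl v) (Sum.inl t)
        rw [fiaD_not h]; linarith
    · have h2 := hn (Sum.inl u) (Sum.inl v)
      change W ≤ fiaD G w W (Sum.inl u) (Sum.inl v) + W
      linarith
    · have h1 := hl (Sum.inl u) (Sum.inl t)
      change fiaD G w W (Sum.inl u) (Sum.inl t) ≤ W + W
      linarith
    · have h2 := hn (Sum.inr j) (Sum.inr k)
      change W ≤ W + fiaD G w W (Sum.inr j) (Sum.inr k)
      linarith
    · have h2 := hn (Sum.inl v) (Sum.inl t)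
      change W ≤ W + fiaD G w W (Sum.inl v) (Sum.inl t)
      linarith
    · have h1 := hl (Sum.inr i) (Sum.inr k)
      change fiaD G w W (Sum.inr i) (Sum.inr k) ≤ W + W
      linarith
    · have h2 := hn (Sum.inr i) (Sum.inr j)
      change W ≤ fiaD G w W (Sum.inr i) (Sum.inr j) + W
      linarith
    · by_cases h : i = j
      · rw [h]
        have h2 := hn (Sum.inr j) (Sum.inr j)
        linarith
      · have h1 := hl (Sum.inr i) (Sum.inr k)
        have h2 := hn (Sum.inr j) (Sum.inr k)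
        have h3 : fiaD G w W (Sum.inr i) (Sum.inr j) = W := by simp only [fiaD, if_neg h]
        rw [h3]; linarith
  · intro x y hxy
    rcases x with u | i <;> rcases y with v | j
    · by_cases h : G.Reachable u v
      · rw [fiaD_reach h]
        exact gd_pos hw h (fun h' => hxy (by rw [h']))
      · rw [fiaD_not h]; exact hW
    · exact hW
    · exact hW
    · have h : i ≠ j := fun h' => hxy (by rw [h'])
      simp only [fiaD, if_neg h]; exact hW

end

theorem specFIA : SpecFIA := by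
  classical
  intro hGOD hCNV hMET
  obtain ⟨D, hD, hMET⟩ := hMET
  refine ⟨D, ?_⟩
  intro n G hG w hw0
  have hw : Pos G w := hw0
  obtain ⟨W, hW, hM⟩ := gd_bound hw
  obtain ⟨a, ha⟩ : ∃ a : Fin n ⊕ Fin 3, a = Sum.inr 0 := ⟨_, rfl⟩
  obtain ⟨b, hb⟩ : ∃ b : Fin n ⊕ Fin 3, b = Sum.inr 1 := ⟨_, rfl⟩
  obtain ⟨c, hc⟩ : ∃ c : Fin n ⊕ Fin 3, c = Sum.inr 2 := ⟨_, rfl⟩
  have hab : a ≠ b := by rw [ha, hb]; intro h; exact absurd (Sum.inr.inj h) (by decide)
  have hac : a ≠ c := by rw [ha, hc]; intro h; exact absurd (Sum.inr.inj h) (by decide)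
  have hbc : b ≠ c := by rw [hb, hc]; intro h; exact absurd (Sum.inr.inj h) (by decide)
  have hBin : ∀ u : Fin n, (Sum.inl u : Fin n ⊕ Fin 3) ∉ ({a, b, c} : Finset (Fin n ⊕ Fin 3)) := by
    intro u h
    rw [ha, hb, hc] at h
    simp only [Finset.mem_insert, Finset.mem_singleton, reduceCtorEq, or_self] at h
  have hBcard : ({a, b, c} : Finset (Fin n ⊕ Fin 3)).card = 3 := Finset.card_eq_three.2
    ⟨a, b, c, hab, hac, hbc, rfl⟩
  have hRT := hGOD n G hG (Fin n ⊕ Fin 3) Function.Embedding.inl ∅ {a, b, c}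
    (fun x hx => absurd hx (Finset.notMem_empty _)) hBcard
    (fun x => ⟨fun h => absurd h (hBin x), fun h => absurd h (Finset.notMem_empty _)⟩)
  have hnL : ∀ i : Fin 3, (Sum.inr i : Fin n ⊕ Fin 3) ∉
      ((Finset.univ \ (∅ : Finset (Fin n))).map Function.Embedding.inl) := by
    intro i h
    obtain ⟨u, _, hu⟩ := Finset.mem_map.1 h
    exact absurd hu (by simp)
  have hmL : ∀ u : Fin n, (Sum.inl u : Fin n ⊕ Fin 3) ∈
      ((Finset.univ \ (∅ : Finset (Fin n))).map Function.Embedding.inl) := by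
    intro u
    exact Finset.mem_map.2 ⟨u, by simp, rfl⟩
  have hdis : Disjoint ({a, b, c} : Finset (Fin n ⊕ Fin 3))
      ((Finset.univ \ (∅ : Finset (Fin n))).map Function.Embedding.inl) := by
    rw [Finset.disjoint_left]
    intro x hx hx'
    rcases x with u | i
    · exact hBin u hx
    · exact hnL i hx'
  obtain ⟨E', hSeq, hE'⟩ := hCNV (Fin n ⊕ Fin 3) {a, b, c}
    ((Finset.univ \ (∅ : Finset (Fin n))).map Function.Embedding.inl) _ hRT hdis a b c hab hac hbc rfl
  have hd := fiaD_dst hw hW hM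
  obtain ⟨m, f, hf1, hf2⟩ := hMET (Fin n ⊕ Fin 3) (fiaD G w W) W a b c
    ((Finset.univ \ (∅ : Finset (Fin n))).map Function.Embedding.inl) E' hd hW hab hac hbc
    (by rw [ha, hb]; simp only [fiaD]; rw [if_neg (by decide)])
    (by rw [ha, hc]; simp only [fiaD]; rw [if_neg (by decide)])
    (by rw [hb, hc]; simp only [fiaD]; rw [if_neg (by decide)])
    (by rw [ha]; exact hnL _) (by rw [hb]; exact hnL _) (by rw [hc]; exact hnL _) hSeq
  have hsc : ∀ u v : Fin n, ∑ i, |D * f (Sum.inl u) i - D * f (Sum.inl v) i| =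
      D * ∑ i, |f (Sum.inl u) i - f (Sum.inl v) i| := by
    intro u v
    rw [Finset.mul_sum]
    refine Finset.sum_congr rfl (fun i _ => ?_)
    rw [← mul_sub, abs_mul, abs_of_pos hD]
  refine ⟨m, fun u i => D * f (Sum.inl u) i, ?_, ?_⟩
  · intro u v huv
    have hne : u ≠ v := huv.ne
    have hne' : (Sum.inl u : Fin n ⊕ Fin 3) ≠ Sum.inl v := fun h => hne (Sum.inl.inj h)
    have hdw : fiaD G w W (Sum.inl u) (Sum.inl v) ≤ w s(u, v) := by
      rw [fiaD_reach huv.reachable]; exact gd_adj hw huv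
    have key : ∑ i, |f (Sum.inl u) i - f (Sum.inl v) i| ≤ fiaD G w W (Sum.inl u) (Sum.inl v) := by
      rcases hE' (Sum.inl u) (Sum.inl v) hne' ⟨u, v, huv, rfl, rfl⟩ with h | h | h
      · exact absurd h.1 (hBin u)
      · exact hf1 _ _ h
      · have h1 := hf1 _ _ h
        rw [hd.comm (Sum.inl u) (Sum.inl v)]
        refine le_trans (le_of_eq ?_) h1
        exact Finset.sum_congr rfl (fun i _ => abs_sub_comm _ _)
    show ∑ i, |D * f (Sum.inl u) i - D * f (Sum.inl v) i| ≤ D * w s(u, v)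
    rw [hsc]
    exact mul_le_mul_of_nonneg_left (key.trans hdw) hD.le
  · intro u v huv
    obtain ⟨p, hp⟩ := exists_gd hw huv
    refine ⟨p, ?_⟩
    show (p.edges.map w).sum ≤ ∑ i, |D * f (Sum.inl u) i - D * f (Sum.inl v) i|
    rw [hsc]
    have h1 := hf2 (Sum.inl u) (hmL u) (Sum.inl v) (hmL v)
    rw [fiaD_reach huv, ← hp] at h1
    exact h1

end TW3
end
end

section
set_option linter.all false

/-!
# Module GOA: every graph in the closure is good
-/

noncomputable section

namespace TW3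

open KSum52 TwoSum

namespace GOAM

lemma isSum_symm {k a b N : ℕ} {G₁ : SimpleGraph (Fin a)} {G₂ : SimpleGraph (Fin b)}
    {φ₁ : Fin a ↪ Fin N} {φ₂ : Fin b ↪ Fin N} (h : IsSum k G₁ G₂ φ₁ φ₂) :
    IsSum k G₂ G₁ φ₂ φ₁ := by
  refine ⟨fun x => (h.cover x).symm, ?_, ?_⟩
  · rw [Set.inter_comm]
    exact h.card
  · intro x hx y hy hxy
    rw [Set.inter_comm] at hx hy
    exact (h.clique x hx y hy hxy).symm

lemma glue_left (hRTB : SpecRTB) (hGRF : SpecGRF) {a b N : ℕ} {G₁ : SimpleGraph (Fin a)}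
    {G₂ : SimpleGraph (Fin b)} {φ₁ : Fin a ↪ Fin N} {φ₂ : Fin b ↪ Fin N} (g₁ : Good G₁)
    (g₂ : Good G₂) (h : IsSum 3 G₁ G₂ φ₁ φ₂) (G : SimpleGraph (Fin N))
    (hle : ∀ x y, G.Adj x y → (G₁.map φ₁).Adj x y ∨ (G₂.map φ₂).Adj x y)
    (V : Type) [Fintype V] [DecidableEq V] (φ : Fin N ↪ V) (K : Finset (Fin N)) (B : Finset V)
    (hK : ∀ a ∈ K, ∀ b ∈ K, a ≠ b → G.Adj a b) (hB : B.card = 3) (hBK : ∀ a, φ a ∈ B ↔ a ∈ K)
    (hKR : ∀ x ∈ K, x ∈ Set.range φ₁) :
    RT B ((Finset.univ \ K).map φ) (mapAdj G φ) := by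
  classical
  -- the clique `K₁`
  set K₁ : Finset (Fin a) := Finset.univ.filter (fun x => φ₁ x ∈ K) with hK₁
  have mK₁ : ∀ x, x ∈ K₁ ↔ φ₁ x ∈ K := fun x => by simp [hK₁]
  have cK₁ : ∀ x ∈ K₁, ∀ y ∈ K₁, x ≠ y → G₁.Adj x y := by
    intro x hx y hy hxy
    have h1 := hK _ ((mK₁ x).1 hx) _ ((mK₁ y).1 hy) (fun hh => hxy (φ₁.injective hh))
    have h2 : (G₁.map φ₁).Adj (φ₁ x) (φ₁ y) := by
      rcases hle _ _ h1 with h2 | h2
      · exact h2
      · rw [SimpleGraph.map_adj] at h2
        obtain ⟨u, v, huv, hu, hv⟩ := h2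
        exact (h.clique (φ₁ x) ⟨⟨x, rfl⟩, ⟨u, hu⟩⟩ (φ₁ y) ⟨⟨y, rfl⟩, ⟨v, hv⟩⟩
          (fun hh => hxy (φ₁.injective hh))).1
    rw [SimpleGraph.map_adj] at h2
    obtain ⟨u, v, huv, hu, hv⟩ := h2
    rw [← φ₁.injective hu, ← φ₁.injective hv]
    exact huv
  have r₁ := g₁ V (φ₁.trans φ) K₁ B cK₁ hB (fun x => by
    rw [Function.Embedding.trans_apply, hBK, mK₁])
  set L : Finset V := (Finset.univ \ K₁).map (φ₁.trans φ) with hL
  have mL : ∀ z, z ∈ L ↔ ∃ x, φ₁ x ∉ K ∧ φ (φ₁ x) = z := by
    intro z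
    rw [hL, Finset.mem_map]
    constructor
    · rintro ⟨x, hx, rfl⟩
      rw [Finset.mem_sdiff, mK₁] at hx
      exact ⟨x, hx.2, rfl⟩
    · rintro ⟨x, hx, rfl⟩
      refine ⟨x, ?_, rfl⟩
      rw [Finset.mem_sdiff, mK₁]
      exact ⟨Finset.mem_univ _, hx⟩
  set K₀ : Finset (Fin N) := Finset.univ.filter
    (fun y => y ∈ Set.range φ₁ ∧ y ∈ Set.range φ₂) with hK₀
  have mK₀ : ∀ y, y ∈ K₀ ↔ y ∈ Set.range φ₁ ∧ y ∈ Set.range φ₂ := fun y => by simp [hK₀]
  set Q : Finset V := (Finset.univ.filter (fun y : Fin N => y ∉ Set.range φ₁)).map φ with hQ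
  have mQ : ∀ z, z ∈ Q ↔ ∃ y, y ∉ Set.range φ₁ ∧ φ y = z := by
    intro z
    rw [hQ, Finset.mem_map]
    constructor
    · rintro ⟨y, hy, rfl⟩
      exact ⟨y, (Finset.mem_filter.1 hy).2, rfl⟩
    · rintro ⟨y, hy, rfl⟩
      exact ⟨y, Finset.mem_filter.2 ⟨Finset.mem_univ _, hy⟩, rfl⟩
  have hBL : Disjoint B L := by
    rw [Finset.disjoint_left]
    intro z hzB hzL
    obtain ⟨x, hx, rfl⟩ := (mL z).1 hzL
    exact hx ((hBK _).1 hzB)
  have key := hGRF V B L (mapAdj G₁ (φ₁.trans φ)) hB hBL r₁ (K₀.map φ) Q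
    (mapAdj G₂ (φ₂.trans φ)) ?_ ?_ ?_ ?_ ?_
  · -- conclusion
    have hset : L ∪ Q = (Finset.univ \ K).map φ := by
      ext z
      rw [Finset.mem_union, mL, mQ, Finset.mem_map]
      constructor
      · rintro (⟨x, hx, rfl⟩ | ⟨y, hy, rfl⟩)
        · exact ⟨φ₁ x, Finset.mem_sdiff.2 ⟨Finset.mem_univ _, hx⟩, rfl⟩
        · exact ⟨y, Finset.mem_sdiff.2 ⟨Finset.mem_univ _, fun hh => hy (hKR y hh)⟩, rfl⟩
      · rintro ⟨y, hy, rfl⟩
        rw [Finset.mem_sdiff] at hy
        by_cases hy1 : y ∈ Set.range φ₁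
        · obtain ⟨x, rfl⟩ := hy1
          exact Or.inl ⟨x, hy.2, rfl⟩
        · exact Or.inr ⟨y, hy1, rfl⟩
    rw [hset] at key
    refine (hRTB V).1 _ _ _ _ key ?_
    rintro u v ⟨x, y, hxy, rfl, rfl⟩
    rcases hle _ _ hxy with h2 | h2
    · rw [SimpleGraph.map_adj] at h2
      obtain ⟨u, v, huv, rfl, rfl⟩ := h2
      exact Or.inl ⟨u, v, huv, rfl, rfl⟩
    · rw [SimpleGraph.map_adj] at h2
      obtain ⟨u, v, huv, rfl, rfl⟩ := h2
      exact Or.inr ⟨u, v, huv, rfl, rfl⟩
  · -- cardinality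
    rw [Finset.card_map]
    have h1 := h.card
    have h2 : (Set.range φ₁ ∩ Set.range φ₂) = (K₀ : Set (Fin N)) := by
      ext y
      rw [Finset.mem_coe, mK₀]
      rfl
    rw [h2, Set.ncard_coe_finset] at h1
    exact h1
  · -- subset
    intro z hz
    rw [Finset.mem_map] at hz
    obtain ⟨y, hy, rfl⟩ := hz
    obtain ⟨x, rfl⟩ := ((mK₀ y).1 hy).1
    rw [Finset.mem_union]
    by_cases hx : φ₁ x ∈ K
    · exact Or.inl ((hBK _).2 hx)
    · exact Or.inr ((mL _).2 ⟨x, hx, rfl⟩)
  · -- clique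
    intro u hu v hv huv
    rw [Finset.mem_map] at hu hv
    obtain ⟨y, hy, rfl⟩ := hu
    obtain ⟨y', hy', rfl⟩ := hv
    have h1 := (h.clique y ((mK₀ y).1 hy) y' ((mK₀ y').1 hy') (fun hh => huv (by rw [hh]))).1
    rw [SimpleGraph.map_adj] at h1
    obtain ⟨s, t, hst, rfl, rfl⟩ := h1
    exact Or.inl ⟨s, t, hst, rfl, rfl⟩
  · -- disjoint
    rw [Finset.disjoint_left]
    intro z hzQ hz
    obtain ⟨y, hy, rfl⟩ := (mQ z).1 hzQ
    rcases Finset.mem_union.1 hz with hz | hz
    · exact hy (hKR y ((hBK y).1 hz))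
    · obtain ⟨x, hx, hxy⟩ := (mL _).1 hz
      exact hy ⟨x, φ.injective hxy⟩
  · -- the second graph
    intro B' hB' hKB' hBQ'
    set K₂ : Finset (Fin b) := Finset.univ.filter (fun x => φ₂ x ∈ K₀) with hK₂
    have mK₂ : ∀ x, x ∈ K₂ ↔ φ₂ x ∈ K₀ := fun x => by simp [hK₂]
    have cK₂ : ∀ x ∈ K₂, ∀ y ∈ K₂, x ≠ y → G₂.Adj x y := by
      intro x hx y hy hxy
      have h1 := (h.clique (φ₂ x) ((mK₀ _).1 ((mK₂ x).1 hx)) (φ₂ y) ((mK₀ _).1 ((mK₂ y).1 hy))
        (fun hh => hxy (φ₂.injective hh))).2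
      rw [SimpleGraph.map_adj] at h1
      obtain ⟨u, v, huv, hu, hv⟩ := h1
      rw [← φ₂.injective hu, ← φ₂.injective hv]
      exact huv
    have r₂ := g₂ V (φ₂.trans φ) K₂ B' cK₂ hB' (fun x => by
      rw [Function.Embedding.trans_apply, mK₂]
      constructor
      · intro hx
        by_contra hcon
        rw [mK₀, not_and_or] at hcon
        rcases hcon with hcon | hcon
        · exact Finset.disjoint_left.1 hBQ' hx ((mQ _).2 ⟨φ₂ x, hcon, rfl⟩)
        · exact hcon ⟨x, rfl⟩
      · intro hx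
        exact hKB' (Finset.mem_map.2 ⟨φ₂ x, hx, rfl⟩))
    have hset : (Finset.univ \ K₂).map (φ₂.trans φ) = Q := by
      ext z
      rw [mQ, Finset.mem_map]
      constructor
      · rintro ⟨x, hx, rfl⟩
        rw [Finset.mem_sdiff, mK₂, mK₀] at hx
        exact ⟨φ₂ x, fun hh => hx.2 ⟨hh, ⟨x, rfl⟩⟩, rfl⟩
      · rintro ⟨y, hy, rfl⟩
        obtain ⟨x, rfl⟩ := (h.cover y).resolve_left hy
        refine ⟨x, ?_, rfl⟩
        rw [Finset.mem_sdiff, mK₂, mK₀]
        exact ⟨Finset.mem_univ _, fun hh => hy hh.1⟩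
    rw [hset] at r₂
    exact r₂

end GOAM

open GOAM in
theorem specGOA : SpecGOA := by
  intro hRTB hPIE hGRF n G hG
  induction hG with
  | @piece n G h =>
    intro V _ _ φ K B hK hB hBK
    have h4 : n ≤ 4 := h
    have r := hPIE V (Finset.univ.map φ) (K.map φ) B
      (Finset.map_subset_map.2 (Finset.subset_univ K))
      (by rw [Finset.card_map, Finset.card_univ, Fintype.card_fin]; exact h4) hB
      (by
        intro z hz
        obtain ⟨x, -, rfl⟩ := Finset.mem_map.1 hz
        rw [hBK, Finset.mem_map' φ])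
      (by
        intro z hz
        obtain ⟨x, hx, rfl⟩ := Finset.mem_map.1 hz
        exact (hBK x).2 hx)
    have hset : Finset.univ.map φ \ K.map φ = (Finset.univ \ K).map φ := by
      ext z
      rw [Finset.mem_sdiff, Finset.mem_map, Finset.mem_map, Finset.mem_map]
      constructor
      · rintro ⟨⟨x, -, rfl⟩, h2⟩
        exact ⟨x, Finset.mem_sdiff.2 ⟨Finset.mem_univ _, fun hx => h2 ⟨x, hx, rfl⟩⟩, rfl⟩
      · rintro ⟨x, hx, rfl⟩
        refine ⟨⟨x, Finset.mem_univ _, rfl⟩, ?_⟩
        rintro ⟨y, hy, hyx⟩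
        rw [Finset.mem_sdiff] at hx
        exact hx.2 (φ.injective hyx ▸ hy)
    rw [hset] at r
    refine (hRTB V).1 _ _ _ _ r ?_
    rintro u v ⟨x, y, hxy, rfl, rfl⟩
    exact ⟨Finset.mem_map_of_mem _ (Finset.mem_univ _), Finset.mem_map_of_mem _ (Finset.mem_univ _),
      fun hh => hxy.ne (φ.injective hh)⟩
  | @glue a b N G₁ G₂ φ₁ φ₂ h₁ h₂ h G hle hdel g₁ g₂ =>
    intro V _ _ φ K B hK hB hBK
    have hle' : ∀ x y, G.Adj x y → (G₁.map φ₁).Adj x y ∨ (G₂.map φ₂).Adj x y := by
      intro x y hxy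
      exact hle hxy
    by_cases h1 : ∀ x ∈ K, x ∈ Set.range φ₁
    · exact glue_left hRTB hGRF g₁ g₂ h G hle' V φ K B hK hB hBK h1
    · refine glue_left hRTB hGRF g₂ g₁ (isSum_symm h) G (fun x y hxy => (hle' x y hxy).symm) V φ K
        B hK hB hBK ?_
      push Not at h1
      obtain ⟨k, hk, hk1⟩ := h1
      intro x hx
      by_contra hx2
      have hkx : k ≠ x := by
        rintro rfl
        exact (h.cover k).elim hk1 hx2
      rcases hle' _ _ (hK k hk x hx hkx) with h2 | h2
      · rw [SimpleGraph.map_adj] at h2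
        obtain ⟨u, v, huv, hu, hv⟩ := h2
        exact hk1 ⟨u, hu⟩
      · rw [SimpleGraph.map_adj] at h2
        obtain ⟨u, v, huv, hu, hv⟩ := h2
        exact hx2 ⟨v, hv⟩

end TW3
end
end

section
set_option linter.all false

noncomputable section

namespace TW3

open KSum52 TwoSum

variable {V : Type} [DecidableEq V]

lemma RT.mono {B L : Finset V} {E F : V → V → Prop} (h : RT B L E)
    (hF : ∀ u v, F u v → E u v) : RT B L F := by
  cases h with
  | nil hE => exact RT.nil (fun u v huv => hE u v (hF u v huv))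
  | cons hx h hr d1 d2 d3 d4 d5 d6 hL hE =>
    exact RT.cons hx h hr d1 d2 d3 d4 d5 d6 hL (fun u v huv => hE u v (hF u v huv))

lemma RT.mem {B L : Finset V} {E : V → V → Prop} (h : RT B L E) :
    ∀ u v, E u v → u ∈ B ∪ L ∧ v ∈ B ∪ L := by
  induction h with
  | nil hE =>
    intro u v huv
    obtain ⟨h1, h2⟩ := hE u v huv
    exact ⟨Finset.mem_union_left _ h1, Finset.mem_union_left _ h2⟩
  | @cons B L E x f g Lr Er hx h hr d1 d2 d3 d4 d5 d6 hL hE ih ihr =>
    intro u v huv
    have hxL : x ∈ B ∪ L := by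
      rw [hL]; exact Finset.mem_union_right _ (Finset.mem_insert_self _ _)
    have hB : ∀ w, w ∈ B → w ∈ B ∪ L := fun w hw => Finset.mem_union_left _ hw
    have hLr : ∀ w, w ∈ B ∪ Lr → w ∈ B ∪ L := by
      intro w hw
      rcases Finset.mem_union.1 hw with h1 | h1
      · exact hB w h1
      · rw [hL]
        exact Finset.mem_union_right _ (Finset.mem_insert_of_mem (Finset.mem_union_right _ h1))
    have hf : ∀ i ∈ B, ∀ w, w ∈ insert x (B.erase i) ∪ f i → w ∈ B ∪ L := by
      intro i hi w hw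
      rcases Finset.mem_union.1 hw with h1 | h1
      · rcases Finset.mem_insert.1 h1 with h2 | h2
        · rw [h2]; exact hxL
        · exact hB w (Finset.mem_of_mem_erase h2)
      · rw [hL]
        exact Finset.mem_union_right _ (Finset.mem_insert_of_mem
          (Finset.mem_union_left _ (Finset.mem_biUnion.2 ⟨i, hi, h1⟩)))
    rcases hE u v huv with h1 | h1 | h1 | h1 | h1
    · exact ⟨hB _ h1.1, hB _ h1.2⟩
    · refine ⟨?_, hB _ h1.2⟩
      rw [h1.1]; exact hxL
    · refine ⟨hB _ h1.2, ?_⟩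
      rw [h1.1]; exact hxL
    · obtain ⟨i, hi, h2⟩ := h1
      obtain ⟨h3, h4⟩ := ih i hi u v h2
      exact ⟨hf i hi u h3, hf i hi v h4⟩
    · obtain ⟨h3, h4⟩ := ihr u v h1
      exact ⟨hLr u h3, hLr v h4⟩

lemma RT.addB {B L : Finset V} {E F : V → V → Prop} (h : RT B L E)
    (hF : ∀ u v, F u v → u ∈ B ∧ v ∈ B) : RT B L (fun u v => F u v ∨ E u v) := by
  cases h with
  | nil hE =>
    refine RT.nil (fun u v huv => ?_)
    rcases huv with h1 | h1
    · exact hF u v h1
    · exact hE u v h1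
  | cons hx h hr d1 d2 d3 d4 d5 d6 hL hE =>
    refine RT.cons hx h hr d1 d2 d3 d4 d5 d6 hL (fun u v huv => ?_)
    rcases huv with h1 | h1
    · exact Or.inl (hF u v h1)
    · exact hE u v h1

lemma RT.merge {B L : Finset V} {E : V → V → Prop} (h : RT B L E) :
    ∀ (M : Finset V) (F : V → V → Prop), RT B M F → Disjoint B L → Disjoint B M →
      Disjoint L M → RT B (L ∪ M) (fun u v => E u v ∨ F u v) := by
  induction h with
  | @nil B E hE =>
    intro M F hM _ _ _
    rw [Finset.empty_union]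
    exact hM.addB hE
  | @cons B L E x f g Lr Er hx h hr d1 d2 d3 d4 d5 d6 hL hE ih ihr =>
    intro M F hM hBL hBM hLM
    have hxL : x ∈ L := by rw [hL]; exact Finset.mem_insert_self _ _
    have hLrL : Lr ⊆ L := by
      intro w hw; rw [hL]
      exact Finset.mem_insert_of_mem (Finset.mem_union_right _ hw)
    have hfL : ∀ i ∈ B, f i ⊆ L := by
      intro i hi w hw; rw [hL]
      exact Finset.mem_insert_of_mem (Finset.mem_union_left _ (Finset.mem_biUnion.2 ⟨i, hi, hw⟩))
    have hxM : x ∉ M := fun h => Finset.disjoint_left.1 hLM hxL h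
    have hr' := ihr M F hM d6.symm hBM (Finset.disjoint_of_subset_left hLrL hLM)
    refine RT.cons hx h hr' d1 ?_ d3 ?_ d5 ?_ ?_ ?_
    · intro h1
      rcases Finset.mem_union.1 h1 with h2 | h2
      · exact d2 h2
      · exact hxM h2
    · intro i hi
      rw [Finset.disjoint_union_right]
      exact ⟨d4 i hi, Finset.disjoint_of_subset_left (hfL i hi) hLM⟩
    · rw [Finset.disjoint_union_left]
      exact ⟨d6, hBM.symm⟩
    · rw [hL, Finset.insert_union, Finset.union_assoc]
    · intro u v huv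
      rcases huv with h1 | h1
      · rcases hE u v h1 with h2 | h2 | h2 | h2 | h2
        · exact Or.inl h2
        · exact Or.inr (Or.inl h2)
        · exact Or.inr (Or.inr (Or.inl h2))
        · exact Or.inr (Or.inr (Or.inr (Or.inl h2)))
        · exact Or.inr (Or.inr (Or.inr (Or.inr (Or.inl h2))))
      · exact Or.inr (Or.inr (Or.inr (Or.inr (Or.inr h1))))

lemma RT.step {B L : Finset V} {E : V → V → Prop} {x i : V} (hi : i ∈ B) (hx : x ∉ B)
    (hxL : x ∉ L) (hBL : Disjoint B L) (h : RT (insert x (B.erase i)) L E) :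
    RT B (insert x L)
      (fun u v => E u v ∨ (u = x ∧ v ∈ B) ∨ (v = x ∧ u ∈ B) ∨ (u ∈ B ∧ v ∈ B)) := by
  have hr : RT B (∅ : Finset V) (fun _ _ => False) := RT.nil (fun u v h => h.elim)
  refine RT.cons (f := fun j => if j = i then L else ∅)
    (g := fun j => if j = i then E else fun _ _ => False) hx ?_ hr ?_ ?_ ?_ ?_ ?_ ?_ ?_ ?_
  · intro j hj
    by_cases hji : j = i
    · rw [if_pos hji, if_pos hji, hji]; exact h
    · rw [if_neg hji, if_neg hji]
      exact RT.nil (fun u v h => h.elim)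
  · intro j hj
    by_cases hji : j = i
    · rw [if_pos hji]; exact hxL
    · rw [if_neg hji]; exact Finset.notMem_empty _
  · exact Finset.notMem_empty _
  · intro j hj k hk hjk
    by_cases hji : j = i
    · have : k ≠ i := fun h => hjk (hji.trans h.symm)
      simp only [if_neg this]
      exact Finset.disjoint_empty_right _
    · simp only [if_neg hji]
      exact Finset.disjoint_empty_left _
  · intro j hj
    exact Finset.disjoint_empty_right _
  · intro j hj
    by_cases hji : j = i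
    · rw [if_pos hji]; exact hBL.symm
    · rw [if_neg hji]; exact Finset.disjoint_empty_left _
  · exact Finset.disjoint_empty_left _
  · congr 1
    rw [Finset.union_empty]
    ext w
    rw [Finset.mem_biUnion]
    constructor
    · intro hw
      exact ⟨i, hi, by rw [if_pos rfl]; exact hw⟩
    · rintro ⟨j, hj, hw⟩
      by_cases hji : j = i
      · rw [if_pos hji] at hw; exact hw
      · rw [if_neg hji] at hw; exact absurd hw (Finset.notMem_empty _)
  · intro u v huv
    rcases huv with h1 | h1 | h1 | h1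
    · refine Or.inr (Or.inr (Or.inr (Or.inl ⟨i, hi, ?_⟩)))
      rw [if_pos rfl]; exact h1
    · exact Or.inr (Or.inl h1)
    · exact Or.inr (Or.inr (Or.inl h1))
    · exact Or.inl h1

theorem specRTB : SpecRTB := by
  intro V _ _
  refine ⟨?_, ?_, ?_, ?_⟩
  · intro B L E F h hF
    exact h.mono hF
  · intro B L E h
    exact h.mem
  · intro B L M E F h1 h2 h3 h4 h5
    exact h1.merge M F h2 h3 h4 h5
  · intro B L E x i hi hx hxL hBL h
    exact RT.step hi hx hxL hBL h

end TW3
end
end

section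
set_option linter.all false

noncomputable section

namespace TW3

open KSum52 TwoSum

variable {V : Type} [DecidableEq V]

/-- Replace the `i`-th child of a step by a larger one. -/
lemma grf_rebuild {B L : Finset V} {E : V → V → Prop} {x : V} {f : V → Finset V}
    {g : V → V → V → Prop} {Lr : Finset V} {Er : V → V → Prop} (hx : x ∉ B)
    (h : ∀ i ∈ B, RT (insert x (B.erase i)) (f i) (g i)) (hr : RT B Lr Er)
    (d1 : ∀ i ∈ B, x ∉ f i) (d2 : x ∉ Lr) (d3 : ∀ i ∈ B, ∀ j ∈ B, i ≠ j → Disjoint (f i) (f j))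
    (d4 : ∀ i ∈ B, Disjoint (f i) Lr) (d5 : ∀ i ∈ B, Disjoint (f i) B) (d6 : Disjoint Lr B)
    (hL : L = insert x (B.biUnion f ∪ Lr))
    (hE : ∀ u v, E u v → (u ∈ B ∧ v ∈ B) ∨ (u = x ∧ v ∈ B) ∨ (v = x ∧ u ∈ B) ∨
      (∃ i ∈ B, g i u v) ∨ Er u v)
    {Q : Finset V} {F : V → V → Prop} (hQ : Disjoint Q (B ∪ L)) {i : V} (hi : i ∈ B)
    (hi' : RT (insert x (B.erase i)) (f i ∪ Q) (fun u v => g i u v ∨ F u v)) :
    RT B (L ∪ Q) (fun u v => E u v ∨ F u v) := by
  have hxL : x ∈ L := by rw [hL]; exact Finset.mem_insert_self _ _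
  have hLrL : Lr ⊆ L := by
    intro w hw; rw [hL]
    exact Finset.mem_insert_of_mem (Finset.mem_union_right _ hw)
  have hfL : ∀ i ∈ B, f i ⊆ L := by
    intro i hi w hw; rw [hL]
    exact Finset.mem_insert_of_mem (Finset.mem_union_left _ (Finset.mem_biUnion.2 ⟨i, hi, hw⟩))
  have hxQ : x ∉ Q := fun h1 => Finset.disjoint_left.1 hQ h1 (Finset.mem_union_right _ hxL)
  have hQB : Disjoint Q B := Finset.disjoint_of_subset_right Finset.subset_union_left hQ
  have hQL : Disjoint Q L := Finset.disjoint_of_subset_right Finset.subset_union_right hQ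
  refine RT.cons (f := fun j => if j = i then f i ∪ Q else f j)
    (g := fun j => if j = i then (fun u v => g i u v ∨ F u v) else g j) hx ?_ hr ?_ d2 ?_ ?_ ?_ d6 ?_ ?_
  · intro j hj
    by_cases hji : j = i
    · rw [if_pos hji, if_pos hji, hji]; exact hi'
    · rw [if_neg hji, if_neg hji]; exact h j hj
  · intro j hj
    by_cases hji : j = i
    · rw [if_pos hji]
      intro h1
      rcases Finset.mem_union.1 h1 with h2 | h2
      · exact d1 i hi h2
      · exact hxQ h2
    · rw [if_neg hji]; exact d1 j hj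
  · intro j hj k hk hjk
    by_cases hji : j = i
    · have hki : k ≠ i := fun h1 => hjk (hji.trans h1.symm)
      simp only [if_pos hji, if_neg hki]
      rw [Finset.disjoint_union_left]
      exact ⟨d3 i hi k hk (fun h1 => hki h1.symm),
        Finset.disjoint_of_subset_right (hfL k hk) hQL⟩
    · by_cases hki : k = i
      · simp only [if_neg hji, if_pos hki]
        rw [Finset.disjoint_union_right]
        exact ⟨d3 j hj i hi hji, (Finset.disjoint_of_subset_right (hfL j hj) hQL).symm⟩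
      · simp only [if_neg hji, if_neg hki]
        exact d3 j hj k hk hjk
  · intro j hj
    by_cases hji : j = i
    · rw [if_pos hji, Finset.disjoint_union_left]
      exact ⟨d4 i hi, Finset.disjoint_of_subset_right hLrL hQL⟩
    · rw [if_neg hji]; exact d4 j hj
  · intro j hj
    by_cases hji : j = i
    · rw [if_pos hji, Finset.disjoint_union_left]
      exact ⟨d5 i hi, hQB⟩
    · rw [if_neg hji]; exact d5 j hj
  · rw [hL]
    ext w
    simp only [Finset.mem_union, Finset.mem_insert, Finset.mem_biUnion]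
    constructor
    · rintro ((h1 | ⟨j, hj, h1⟩ | h1) | h1)
      · exact Or.inl h1
      · refine Or.inr (Or.inl ⟨j, hj, ?_⟩)
        by_cases hji : j = i
        · rw [if_pos hji]; rw [hji] at h1; exact Finset.mem_union_left _ h1
        · rw [if_neg hji]; exact h1
      · exact Or.inr (Or.inr h1)
      · refine Or.inr (Or.inl ⟨i, hi, ?_⟩)
        rw [if_pos rfl]; exact Finset.mem_union_right _ h1
    · rintro (h1 | ⟨j, hj, h1⟩ | h1)
      · exact Or.inl (Or.inl h1)
      · by_cases hji : j = i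
        · rw [if_pos hji] at h1
          rcases Finset.mem_union.1 h1 with h2 | h2
          · exact Or.inl (Or.inr (Or.inl ⟨i, hi, h2⟩))
          · exact Or.inr h2
        · rw [if_neg hji] at h1
          exact Or.inl (Or.inr (Or.inl ⟨j, hj, h1⟩))
      · exact Or.inl (Or.inr (Or.inr h1))
  · intro u v huv
    rcases huv with h1 | h1
    · rcases hE u v h1 with h2 | h2 | h2 | h2 | h2
      · exact Or.inl h2
      · exact Or.inr (Or.inl h2)
      · exact Or.inr (Or.inr (Or.inl h2))
      · obtain ⟨j, hj, h3⟩ := h2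
        refine Or.inr (Or.inr (Or.inr (Or.inl ⟨j, hj, ?_⟩)))
        by_cases hji : j = i
        · rw [if_pos hji]; rw [hji] at h3; exact Or.inl h3
        · rw [if_neg hji]; exact h3
      · exact Or.inr (Or.inr (Or.inr (Or.inr h2)))
    · refine Or.inr (Or.inr (Or.inr (Or.inl ⟨i, hi, ?_⟩)))
      rw [if_pos rfl]; exact Or.inr h1

/-- Replace the rest of a step by a larger one. -/
lemma grf_rebuild' {B L : Finset V} {E : V → V → Prop} {x : V} {f : V → Finset V}
    {g : V → V → V → Prop} {Lr : Finset V} {Er : V → V → Prop} (hx : x ∉ B)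
    (h : ∀ i ∈ B, RT (insert x (B.erase i)) (f i) (g i))
    (d1 : ∀ i ∈ B, x ∉ f i) (d2 : x ∉ Lr) (d3 : ∀ i ∈ B, ∀ j ∈ B, i ≠ j → Disjoint (f i) (f j))
    (d4 : ∀ i ∈ B, Disjoint (f i) Lr) (d5 : ∀ i ∈ B, Disjoint (f i) B) (d6 : Disjoint Lr B)
    (hL : L = insert x (B.biUnion f ∪ Lr))
    (hE : ∀ u v, E u v → (u ∈ B ∧ v ∈ B) ∨ (u = x ∧ v ∈ B) ∨ (v = x ∧ u ∈ B) ∨
      (∃ i ∈ B, g i u v) ∨ Er u v)
    {Q : Finset V} {F : V → V → Prop} (hQ : Disjoint Q (B ∪ L))
    (hr' : RT B (Lr ∪ Q) (fun u v => Er u v ∨ F u v)) :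
    RT B (L ∪ Q) (fun u v => E u v ∨ F u v) := by
  have hxL : x ∈ L := by rw [hL]; exact Finset.mem_insert_self _ _
  have hfL : ∀ i ∈ B, f i ⊆ L := by
    intro i hi w hw; rw [hL]
    exact Finset.mem_insert_of_mem (Finset.mem_union_left _ (Finset.mem_biUnion.2 ⟨i, hi, hw⟩))
  have hxQ : x ∉ Q := fun h1 => Finset.disjoint_left.1 hQ h1 (Finset.mem_union_right _ hxL)
  have hQB : Disjoint Q B := Finset.disjoint_of_subset_right Finset.subset_union_left hQ
  have hQL : Disjoint Q L := Finset.disjoint_of_subset_right Finset.subset_union_right hQ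
  refine RT.cons hx h hr' d1 ?_ d3 ?_ d5 ?_ ?_ ?_
  · intro h1
    rcases Finset.mem_union.1 h1 with h2 | h2
    · exact d2 h2
    · exact hxQ h2
  · intro j hj
    rw [Finset.disjoint_union_right]
    exact ⟨d4 j hj, (Finset.disjoint_of_subset_right (hfL j hj) hQL).symm⟩
  · rw [Finset.disjoint_union_left]
    exact ⟨d6, hQB⟩
  · rw [hL, Finset.insert_union, Finset.union_assoc]
  · intro u v huv
    rcases huv with h1 | h1
    · rcases hE u v h1 with h2 | h2 | h2 | h2 | h2
      · exact Or.inl h2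
      · exact Or.inr (Or.inl h2)
      · exact Or.inr (Or.inr (Or.inl h2))
      · exact Or.inr (Or.inr (Or.inr (Or.inl h2)))
      · exact Or.inr (Or.inr (Or.inr (Or.inr (Or.inl h2))))
    · exact Or.inr (Or.inr (Or.inr (Or.inr (Or.inr h1))))

lemma grf_main {B L : Finset V} {E : V → V → Prop} (hRT : RT B L E) :
    B.card = 3 → Disjoint B L →
    ∀ (K Q : Finset V) (F : V → V → Prop), K.card ≤ 3 → K ⊆ B ∪ L →
    (∀ u ∈ K, ∀ v ∈ K, u ≠ v → E u v ∨ E v u ∨ (u ∈ B ∧ v ∈ B)) → Disjoint Q (B ∪ L) →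
    (∀ B' : Finset V, B'.card = 3 → K ⊆ B' → Disjoint B' Q → RT B' Q F) →
    RT B (L ∪ Q) (fun u v => E u v ∨ F u v) := by
  induction hRT with
  | @nil B E hE =>
    intro hB hBL K Q F hK hKB hcl hQ hF
    rw [Finset.union_empty] at hKB hQ
    exact (RT.nil hE).merge Q F (hF B hB hKB hQ.symm) (Finset.disjoint_empty_right _) hQ.symm
      (Finset.disjoint_empty_left _)
  | @cons B L E x f g Lr Er hx h hr d1 d2 d3 d4 d5 d6 hL hE ih ihr =>
    intro hB hBL K Q F hK hKB hcl hQ hF
    have hQB : Disjoint Q B := Finset.disjoint_of_subset_right Finset.subset_union_left hQ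
    have hQL : Disjoint Q L := Finset.disjoint_of_subset_right Finset.subset_union_right hQ
    have hxL : x ∈ L := by rw [hL]; exact Finset.mem_insert_self _ _
    have hLrL : Lr ⊆ L := by
      intro w hw; rw [hL]
      exact Finset.mem_insert_of_mem (Finset.mem_union_right _ hw)
    have hfL : ∀ i ∈ B, f i ⊆ L := by
      intro i hi w hw; rw [hL]
      exact Finset.mem_insert_of_mem (Finset.mem_union_left _ (Finset.mem_biUnion.2 ⟨i, hi, hw⟩))
    have gmem : ∀ j ∈ B, ∀ u v, g j u v →
        u ∈ insert x (B.erase j) ∪ f j ∧ v ∈ insert x (B.erase j) ∪ f j :=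
      fun j hj => (h j hj).mem
    have rmem : ∀ u v, Er u v → u ∈ B ∪ Lr ∧ v ∈ B ∪ Lr := hr.mem
    by_cases hKB' : K ⊆ B
    · exact (RT.cons hx h hr d1 d2 d3 d4 d5 d6 hL hE).merge Q F (hF B hB hKB' hQB.symm) hBL
        hQB.symm hQL.symm
    -- the common last step for a child
    have step : ∀ i ∈ B, K ⊆ insert x (B.erase i) ∪ f i →
        (∀ u ∈ K, ∀ v ∈ K, u ≠ v → g i u v ∨ g i v u ∨
          (u ∈ insert x (B.erase i) ∧ v ∈ insert x (B.erase i))) →
        RT B (L ∪ Q) (fun u v => E u v ∨ F u v) := by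
      intro i hi h1 h2
      have hcard : (insert x (B.erase i)).card = 3 := by
        rw [Finset.card_insert_of_notMem (fun h3 => hx (Finset.mem_of_mem_erase h3)),
          Finset.card_erase_of_mem hi, hB]
      have hdis : Disjoint (insert x (B.erase i)) (f i) := by
        rw [Finset.disjoint_insert_left]
        exact ⟨d1 i hi, Finset.disjoint_of_subset_left (Finset.erase_subset _ _) (d5 i hi).symm⟩
      have hsub : insert x (B.erase i) ∪ f i ⊆ B ∪ L := by
        intro w hw
        rcases Finset.mem_union.1 hw with h3 | h3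
        · rcases Finset.mem_insert.1 h3 with h4 | h4
          · rw [h4]; exact Finset.mem_union_right _ hxL
          · exact Finset.mem_union_left _ (Finset.mem_of_mem_erase h4)
        · exact Finset.mem_union_right _ (hfL i hi h3)
      exact grf_rebuild hx h hr d1 d2 d3 d4 d5 d6 hL hE hQ hi
        (ih i hi hcard hdis K Q F hK h1 h2 (Finset.disjoint_of_subset_right hsub hQ) hF)
    -- membership facts
    have nfB : ∀ i ∈ B, ∀ w, w ∈ f i → w ∉ B := fun i hi w hw hw' =>
      Finset.disjoint_left.1 (d5 i hi) hw hw'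
    have nfLr : ∀ i ∈ B, ∀ w, w ∈ f i → w ∉ Lr := fun i hi w hw hw' =>
      Finset.disjoint_left.1 (d4 i hi) hw hw'
    have nfx : ∀ i ∈ B, ∀ w, w ∈ f i → w ≠ x := fun i hi w hw hw' =>
      d1 i hi (hw' ▸ hw)
    have nLrB : ∀ w, w ∈ Lr → w ∉ B := fun w hw hw' => Finset.disjoint_left.1 d6 hw hw'
    have nLrx : ∀ w, w ∈ Lr → w ≠ x := fun w hw hw' => d2 (hw' ▸ hw)
    -- an element of `f i` is only in the tree `i`
    have fiC : ∀ i ∈ B, ∀ w, w ∈ f i → ∀ j ∈ B, w ∈ insert x (B.erase j) ∪ f j → j = i := by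
      intro i hi w hw j hj h1
      rcases Finset.mem_union.1 h1 with h2 | h2
      · rcases Finset.mem_insert.1 h2 with h3 | h3
        · exact absurd h3 (nfx i hi w hw)
        · exact absurd (Finset.mem_of_mem_erase h3) (nfB i hi w hw)
      · by_contra hji
        exact Finset.disjoint_left.1 (d3 j hj i hi hji) h2 hw
    have fiR : ∀ i ∈ B, ∀ w, w ∈ f i → w ∉ B ∪ Lr := by
      intro i hi w hw h1
      rcases Finset.mem_union.1 h1 with h2 | h2
      · exact nfB i hi w hw h2
      · exact nfLr i hi w hw h2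
    have LrC : ∀ w, w ∈ Lr → ∀ j ∈ B, w ∉ insert x (B.erase j) ∪ f j := by
      intro w hw j hj h1
      rcases Finset.mem_union.1 h1 with h2 | h2
      · rcases Finset.mem_insert.1 h2 with h3 | h3
        · exact nLrx w hw h3
        · exact nLrB w hw (Finset.mem_of_mem_erase h3)
      · exact nfLr j hj w h2 hw
    by_cases hA : ∃ k ∈ K, ∃ i ∈ B, k ∈ f i
    · obtain ⟨k, hk, i, hi, hki⟩ := hA
      have hE1 : ∀ k', E k k' → k' ∈ insert x (B.erase i) ∪ f i := by
        intro k' h1
        rcases hE k k' h1 with h2 | h2 | h2 | h2 | h2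
        · exact absurd h2.1 (nfB i hi k hki)
        · exact absurd h2.1 (nfx i hi k hki)
        · exact absurd h2.2 (nfB i hi k hki)
        · obtain ⟨j, hj, h3⟩ := h2
          obtain ⟨h4, h5⟩ := gmem j hj k k' h3
          have := fiC i hi k hki j hj h4
          rw [this] at h5; exact h5
        · exact absurd (rmem k k' h2).1 (fiR i hi k hki)
      have hE2 : ∀ k', E k' k → k' ∈ insert x (B.erase i) ∪ f i := by
        intro k' h1
        rcases hE k' k h1 with h2 | h2 | h2 | h2 | h2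
        · exact absurd h2.2 (nfB i hi k hki)
        · exact absurd h2.2 (nfB i hi k hki)
        · exact absurd h2.1 (nfx i hi k hki)
        · obtain ⟨j, hj, h3⟩ := h2
          obtain ⟨h4, h5⟩ := gmem j hj k' k h3
          have := fiC i hi k hki j hj h5
          rw [this] at h4; exact h4
        · exact absurd (rmem k' k h2).2 (fiR i hi k hki)
      have hKi : K ⊆ insert x (B.erase i) ∪ f i := by
        intro k' hk'
        by_cases hkk : k = k'
        · rw [← hkk]; exact Finset.mem_union_right _ hki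
        · rcases hcl k hk k' hk' hkk with h1 | h1 | h1
          · exact hE1 k' h1
          · exact hE2 k' h1
          · exact absurd h1.1 (nfB i hi k hki)
      refine step i hi hKi ?_
      -- an element of `K` not in `f i` is in the bag
      have hC : ∀ w ∈ K, w ∉ f i → w ∈ insert x (B.erase i) := by
        intro w hw h1
        rcases Finset.mem_union.1 (hKi hw) with h2 | h2
        · exact h2
        · exact absurd h2 h1
      have hCB : ∀ w ∈ K, w ∈ B → w ∈ insert x (B.erase i) := fun w hw h1 =>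
        hC w hw (fun h2 => nfB i hi w h2 h1)
      have hcase : ∀ u ∈ K, ∀ v ∈ K, E u v → g i u v ∨
          (u ∈ insert x (B.erase i) ∧ v ∈ insert x (B.erase i)) := by
        intro u hu v hv h1
        rcases hE u v h1 with h2 | h2 | h2 | h2 | h2
        · exact Or.inr ⟨hCB u hu h2.1, hCB v hv h2.2⟩
        · refine Or.inr ⟨?_, hCB v hv h2.2⟩
          rw [h2.1]; exact Finset.mem_insert_self _ _
        · refine Or.inr ⟨hCB u hu h2.2, ?_⟩
          rw [h2.1]; exact Finset.mem_insert_self _ _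
        · obtain ⟨j, hj, h3⟩ := h2
          by_cases hji : j = i
          · rw [hji] at h3; exact Or.inl h3
          · obtain ⟨h4, h5⟩ := gmem j hj u v h3
            exact Or.inr ⟨hC u hu (fun h6 => hji (fiC i hi u h6 j hj h4)),
              hC v hv (fun h6 => hji (fiC i hi v h6 j hj h5))⟩
        · obtain ⟨h4, h5⟩ := rmem u v h2
          exact Or.inr ⟨hC u hu (fun h6 => fiR i hi u h6 h4), hC v hv (fun h6 => fiR i hi v h6 h5)⟩
      intro u hu v hv huv
      rcases hcl u hu v hv huv with h1 | h1 | h1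
      · rcases hcase u hu v hv h1 with h2 | h2
        · exact Or.inl h2
        · exact Or.inr (Or.inr h2)
      · rcases hcase v hv u hu h1 with h2 | h2
        · exact Or.inr (Or.inl h2)
        · exact Or.inr (Or.inr ⟨h2.2, h2.1⟩)
      · exact Or.inr (Or.inr ⟨hCB u hu h1.1, hCB v hv h1.2⟩)
    · by_cases hR : ∃ k ∈ K, k ∈ Lr
      · obtain ⟨k, hk, hkr⟩ := hR
        have hE1 : ∀ k', E k k' → k' ∈ B ∪ Lr := by
          intro k' h1
          rcases hE k k' h1 with h2 | h2 | h2 | h2 | h2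
          · exact absurd h2.1 (nLrB k hkr)
          · exact absurd h2.1 (nLrx k hkr)
          · exact absurd h2.2 (nLrB k hkr)
          · obtain ⟨j, hj, h3⟩ := h2
            exact absurd (gmem j hj k k' h3).1 (LrC k hkr j hj)
          · exact (rmem k k' h2).2
        have hE2 : ∀ k', E k' k → k' ∈ B ∪ Lr := by
          intro k' h1
          rcases hE k' k h1 with h2 | h2 | h2 | h2 | h2
          · exact absurd h2.2 (nLrB k hkr)
          · exact absurd h2.2 (nLrB k hkr)
          · exact absurd h2.1 (nLrx k hkr)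
          · obtain ⟨j, hj, h3⟩ := h2
            exact absurd (gmem j hj k' k h3).2 (LrC k hkr j hj)
          · exact (rmem k' k h2).1
        have hKr : K ⊆ B ∪ Lr := by
          intro k' hk'
          by_cases hkk : k = k'
          · rw [← hkk]; exact Finset.mem_union_right _ hkr
          · rcases hcl k hk k' hk' hkk with h1 | h1 | h1
            · exact hE1 k' h1
            · exact hE2 k' h1
            · exact absurd h1.1 (nLrB k hkr)
        have hxK : ∀ w ∈ K, w ≠ x := by
          intro w hw h1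
          rcases Finset.mem_union.1 (hKr hw) with h2 | h2
          · exact hx (h1 ▸ h2)
          · exact d2 (h1 ▸ h2)
        have hcase : ∀ u ∈ K, ∀ v ∈ K, E u v → Er u v ∨ (u ∈ B ∧ v ∈ B) := by
          intro u hu v hv h1
          rcases hE u v h1 with h2 | h2 | h2 | h2 | h2
          · exact Or.inr h2
          · exact absurd h2.1 (hxK u hu)
          · exact absurd h2.1 (hxK v hv)
          · obtain ⟨j, hj, h3⟩ := h2
            obtain ⟨h4, h5⟩ := gmem j hj u v h3
            refine Or.inr ⟨?_, ?_⟩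
            · rcases Finset.mem_union.1 (hKr hu) with h6 | h6
              · exact h6
              · exact absurd h4 (LrC u h6 j hj)
            · rcases Finset.mem_union.1 (hKr hv) with h6 | h6
              · exact h6
              · exact absurd h5 (LrC v h6 j hj)
          · exact Or.inl h2
        have hsub : B ∪ Lr ⊆ B ∪ L := Finset.union_subset_union_right hLrL
        refine grf_rebuild' hx h d1 d2 d3 d4 d5 d6 hL hE hQ
          (ihr hB d6.symm K Q F hK hKr ?_ (Finset.disjoint_of_subset_right hsub hQ) hF)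
        intro u hu v hv huv
        rcases hcl u hu v hv huv with h1 | h1 | h1
        · rcases hcase u hu v hv h1 with h2 | h2
          · exact Or.inl h2
          · exact Or.inr (Or.inr h2)
        · rcases hcase v hv u hu h1 with h2 | h2
          · exact Or.inr (Or.inl h2)
          · exact Or.inr (Or.inr ⟨h2.2, h2.1⟩)
        · exact Or.inr (Or.inr h1)
      · have hKx : K ⊆ insert x B := by
          intro w hw
          rcases Finset.mem_union.1 (hKB hw) with h1 | h1
          · exact Finset.mem_insert_of_mem h1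
          · rw [hL] at h1
            rcases Finset.mem_insert.1 h1 with h2 | h2
            · rw [h2]; exact Finset.mem_insert_self _ _
            · rcases Finset.mem_union.1 h2 with h3 | h3
              · obtain ⟨i, hi, h4⟩ := Finset.mem_biUnion.1 h3
                exact absurd ⟨w, hw, i, hi, h4⟩ hA
              · exact absurd ⟨w, hw, h3⟩ hR
        have hxK : x ∈ K := by
          by_contra h1
          exact hKB' (fun w hw => (Finset.mem_insert.1 (hKx hw)).resolve_left
            (fun h2 => h1 (h2 ▸ hw)))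
        have hi0 : ∃ i ∈ B, i ∉ K := by
          by_contra h1
          push Not at h1
          have h2 : insert x B ⊆ K := by
            intro w hw
            rcases Finset.mem_insert.1 hw with h3 | h3
            · rw [h3]; exact hxK
            · exact h1 w h3
          have h3 := Finset.card_le_card h2
          rw [Finset.card_insert_of_notMem hx, hB] at h3
          omega
        obtain ⟨i, hi, hiK⟩ := hi0
        have hKi : ∀ w ∈ K, w ∈ insert x (B.erase i) := by
          intro w hw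
          rcases Finset.mem_insert.1 (hKx hw) with h1 | h1
          · rw [h1]; exact Finset.mem_insert_self _ _
          · exact Finset.mem_insert_of_mem (Finset.mem_erase.2 ⟨fun h2 => hiK (h2 ▸ hw), h1⟩)
        exact step i hi (fun w hw => Finset.mem_union_left _ (hKi w hw))
          (fun u hu v hv _ => Or.inr (Or.inr ⟨hKi u hu, hKi v hv⟩))

theorem specGRF : SpecGRF := by
  intro V _ _ B L E hB hBL hRT K Q F hK hKB hcl hQ hF
  exact grf_main hRT hB hBL K Q F hK hKB hcl hQ hF

end TW3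
end
end

section
set_option linter.all false

/-!
# Treewidth three, module PIE (helper28)

A complete graph on at most four vertices.
-/

noncomputable section

namespace TW3

theorem specPIE (hRTB : SpecRTB) : SpecPIE := by
  intro V _ _ S K B
  obtain ⟨hmono, -, -, hstep⟩ := hRTB V
  induction hn : (S \ K).card using Nat.strong_induction_on generalizing K B with
  | _ n ih =>
  intro hKS hS hB hBK hKB
  rcases Finset.eq_empty_or_nonempty (S \ K) with h0 | ⟨y, hy⟩
  · rw [h0]
    refine RT.nil fun u v huv => ?_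
    have hSK : S ⊆ K := Finset.sdiff_eq_empty_iff_subset.mp h0
    exact ⟨hKB (hSK huv.1), hKB (hSK huv.2.1)⟩
  · obtain ⟨hyS, hyK⟩ := Finset.mem_sdiff.mp hy
    have hyB : y ∉ B := fun h => hyK ((hBK y hyS).mp h)
    have hKcard : K.card ≤ 3 := hB ▸ Finset.card_le_card hKB
    rcases hKcard.lt_or_eq with hlt | heq
    · -- at most two vertices in the clique
      obtain ⟨i, hi⟩ : ∃ i, i ∈ B \ K := by
        apply Finset.card_pos.mp
        have := Finset.le_card_sdiff K B
        omega
      obtain ⟨hiB, hiK⟩ := Finset.mem_sdiff.mp hi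
      have hiS : i ∉ S := fun h => hiK ((hBK i h).mp hiB)
      have hB1 : (insert y (B.erase i)).card = 3 := by
        rw [Finset.card_insert_of_notMem (fun h => hyB (Finset.mem_of_mem_erase h)),
          Finset.card_erase_of_mem hiB, hB]
      have hlt' : (S \ insert y K).card < n := by
        rw [← hn]
        apply Finset.card_lt_card
        refine ⟨Finset.sdiff_subset_sdiff (Finset.Subset.refl _) (Finset.subset_insert _ _), ?_⟩
        intro hsub
        have := hsub hy
        simp at this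
      have key := ih _ hlt' (insert y K) (insert y (B.erase i)) rfl
        (Finset.insert_subset hyS hKS) hS hB1 (by
          intro a ha
          have hai : a ≠ i := fun h => hiS (h ▸ ha)
          simp only [Finset.mem_insert, Finset.mem_erase, hBK a ha]
          constructor
          · rintro (h | ⟨_, h⟩)
            · exact Or.inl h
            · exact Or.inr h
          · rintro (h | h)
            · exact Or.inl h
            · exact Or.inr ⟨hai, h⟩) (by
          intro a ha
          rcases Finset.mem_insert.mp ha with h | h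
          · exact Finset.mem_insert.mpr (Or.inl h)
          · refine Finset.mem_insert.mpr (Or.inr (Finset.mem_erase.mpr ⟨?_, hKB h⟩))
            intro h'
            exact hiK (h' ▸ h))
      have h2 := hstep B (S \ insert y K) _ y i hiB hyB (by simp) (by
        rw [Finset.disjoint_left]
        intro a haB haS
        obtain ⟨haS, haK⟩ := Finset.mem_sdiff.mp haS
        exact haK (Finset.mem_insert_of_mem ((hBK a haS).mp haB))) key
      have h3 : insert y (S \ insert y K) = S \ K := by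
        ext a
        simp only [Finset.mem_insert, Finset.mem_sdiff, not_or]
        constructor
        · rintro (h | ⟨h1, _, h2⟩)
          · rw [h]
            exact ⟨hyS, hyK⟩
          · exact ⟨h1, h2⟩
        · rintro ⟨h1, h2⟩
          by_cases h : a = y
          · exact Or.inl h
          · exact Or.inr ⟨h1, h, h2⟩
      rw [h3] at h2
      exact hmono B (S \ K) _ _ h2 (fun u v huv => Or.inl huv)
    · -- the clique is the whole bag
      have hKB' : K = B := Finset.eq_of_subset_of_card_le hKB (by omega)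
      have hSeq : insert y K = S := by
        apply Finset.eq_of_subset_of_card_le (Finset.insert_subset hyS hKS)
        rw [Finset.card_insert_of_notMem hyK]
        omega
      obtain ⟨i, hiB⟩ : ∃ i, i ∈ B := by
        apply Finset.card_pos.mp
        omega
      have h2 := hstep B ∅ (fun u v => u ∈ insert y (B.erase i) ∧ v ∈ insert y (B.erase i)) y i
        hiB hyB (Finset.notMem_empty _) (Finset.disjoint_empty_right _)
        (RT.nil (fun u v huv => huv))
      have h3 : insert y (∅ : Finset V) = S \ K := by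
        rw [← hSeq]
        ext a
        simp only [Finset.mem_insert, Finset.mem_sdiff, Finset.notMem_empty, or_false]
        constructor
        · intro h
          rw [h]
          exact ⟨Or.inl rfl, hyK⟩
        · rintro ⟨h | h, h'⟩
          · exact h
          · exact absurd h h'
      rw [h3] at h2
      refine hmono B (S \ K) _ _ h2 (fun u v huv => ?_)
      obtain ⟨hu, hv, huv⟩ := huv
      rw [← hSeq, hKB'] at hu hv
      rcases Finset.mem_insert.mp hu with hu' | hu'
      · rcases Finset.mem_insert.mp hv with hv' | hv'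
        · exact absurd (hu'.trans hv'.symm) huv
        · exact Or.inr (Or.inl ⟨hu', hv'⟩)
      · rcases Finset.mem_insert.mp hv with hv' | hv'
        · exact Or.inr (Or.inr (Or.inl ⟨hv', hu'⟩))
        · exact Or.inr (Or.inr (Or.inr ⟨hu', hv'⟩))

end TW3
end
end

section
set_option linter.all false

/-! # Graphs of treewidth at most three, defined by tree decompositions -/

noncomputable section

namespace TW3

open KSum52 TwoSum

namespace TWDM

/-! ## Running intersection lists -/

variable {V W : Type}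

lemma ri_map (φ : V ↪ W) : ∀ {l : List (Finset V)}, RI l → RI (l.map (Finset.map φ))
  | [], _ => trivial
  | β :: l, ⟨h, h'⟩ => by
    refine ⟨ri_map φ h, ?_⟩
    rcases h' with h' | ⟨s, hs, h'⟩
    · left; rw [h']; rfl
    · right
      refine ⟨s.map φ, List.mem_map_of_mem hs, ?_⟩
      intro v hv hr
      obtain ⟨a, ha, rfl⟩ := Finset.mem_map.1 hv
      obtain ⟨r, hr, hvr⟩ := hr
      obtain ⟨r', hr', rfl⟩ := List.mem_map.1 hr
      rw [Finset.mem_map' φ] at hvr
      exact Finset.mem_map_of_mem φ (h' a ha ⟨r', hr', hvr⟩)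

lemma ri_snoc {s β : Finset V} : ∀ {m : List (Finset V)}, RI (m ++ [s]) →
    (∀ v ∈ β, (∃ r ∈ m ++ [s], v ∈ r) → v ∈ s) → RI (m ++ [s, β])
  | [], _, _ => by
    refine ⟨⟨trivial, Or.inl rfl⟩, Or.inr ⟨β, by simp, ?_⟩⟩
    rintro v _ ⟨r, hr, hv⟩
    rw [List.mem_singleton] at hr
    rw [← hr]; exact hv
  | γ :: m, h, hβ => by
    obtain ⟨h1, h2⟩ := h
    refine ⟨ri_snoc h1 fun v hv hr => hβ v hv ?_, ?_⟩
    · obtain ⟨r, hr, hvr⟩ := hr
      exact ⟨r, List.mem_cons_of_mem _ hr, hvr⟩
    · right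
      rcases h2 with h2 | ⟨p, hp, h2⟩
      · exact absurd h2 (by simp)
      change p ∈ m ++ [s] at hp
      change ∀ v ∈ γ, (∃ r ∈ m ++ [s], v ∈ r) → v ∈ p at h2
      refine ⟨p, ?_, ?_⟩
      · show p ∈ m ++ [s, β]
        rw [List.mem_append] at hp ⊢
        rcases hp with hp | hp
        · exact Or.inl hp
        · rw [List.mem_singleton] at hp
          right; rw [hp]; simp
      · rintro v hv ⟨r, hr, hvr⟩
        change r ∈ m ++ [s, β] at hr
        have hr' : r ∈ m ++ [s] ∨ r = β := by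
          simp only [List.mem_append, List.mem_cons, List.not_mem_nil, or_false] at hr ⊢
          tauto
        rcases hr' with hr' | rfl
        · exact h2 v hv ⟨r, hr', hvr⟩
        · refine h2 v hv ⟨s, by simp, ?_⟩
          exact hβ v hvr ⟨γ, by simp, hv⟩

lemma ri_reroot : ∀ {l : List (Finset V)}, RI l → ∀ r ∈ l, ∃ l' : List (Finset V),
    (l' ++ [r]).Perm l ∧ RI (l' ++ [r])
  | [], _, r, hr => absurd hr (by simp)
  | β :: l, ⟨h1, h2⟩, r, hr => by
    by_cases hrl : r ∈ l
    · obtain ⟨l', hp, hR⟩ := ri_reroot h1 r hrl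
      refine ⟨β :: l', by simpa using hp.cons β, hR, ?_⟩
      rcases h2 with h2 | ⟨s, hs, h2⟩
      · rw [h2] at hrl; simp at hrl
      · right
        refine ⟨s, hp.mem_iff.2 hs, ?_⟩
        rintro v hv ⟨q, hq, hvq⟩
        exact h2 v hv ⟨q, hp.mem_iff.1 hq, hvq⟩
    · have hrβ : r = β := by
        rcases List.mem_cons.1 hr with h | h
        · exact h
        · exact absurd h hrl
      subst hrβ
      rcases h2 with h2 | ⟨s, hs, h2⟩
      · subst h2
        exact ⟨[], by simp, trivial, Or.inl rfl⟩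
      · obtain ⟨l', hp, hR⟩ := ri_reroot h1 s hs
        refine ⟨l' ++ [s], ?_, ?_⟩
        · refine (List.perm_append_comm).trans ?_
          simpa using hp.cons r
        · rw [List.append_assoc]
          refine ri_snoc hR ?_
          rintro v hv ⟨q, hq, hvq⟩
          exact h2 v hv ⟨q, hp.mem_iff.1 hq, hvq⟩

/-- a clique is contained in a bag -/
lemma ri_clique {K : Finset V} (hK : K.Nonempty) : ∀ {l : List (Finset V)}, RI l →
    (∀ u ∈ K, ∃ β ∈ l, u ∈ β) → (∀ u ∈ K, ∀ v ∈ K, u ≠ v → ∃ β ∈ l, u ∈ β ∧ v ∈ β) →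
    ∃ β ∈ l, K ⊆ β
  | [], _, h, _ => by
    obtain ⟨u, hu⟩ := hK
    obtain ⟨β, hβ, _⟩ := h u hu
    simp at hβ
  | β :: l, ⟨h1, h2⟩, hc, hp => by
    classical
    by_cases hall : ∀ u ∈ K, ∃ γ ∈ l, u ∈ γ
    · have : ∃ γ ∈ l, K ⊆ γ := by
        refine ri_clique hK h1 hall ?_
        intro u hu v hv huv
        obtain ⟨γ, hγ, hu', hv'⟩ := hp u hu v hv huv
        rcases List.mem_cons.1 hγ with rfl | hγ
        · rcases h2 with h2 | ⟨s, hs, h2⟩
          · obtain ⟨δ, hδ, _⟩ := hall u hu
            rw [h2] at hδ; simp at hδ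
          · exact ⟨s, hs, h2 u hu' (hall u hu), h2 v hv' (hall v hv)⟩
        · exact ⟨γ, hγ, hu', hv'⟩
      obtain ⟨γ, hγ, h⟩ := this
      exact ⟨γ, List.mem_cons_of_mem _ hγ, h⟩
    · push Not at hall
      obtain ⟨k, hk, hkl⟩ := hall
      refine ⟨β, by simp, ?_⟩
      intro v hv
      by_cases hkv : k = v
      · subst hkv
        obtain ⟨γ, hγ, hu'⟩ := hc k hk
        rcases List.mem_cons.1 hγ with rfl | hγ
        · exact hu'
        · exact absurd hu' (hkl γ hγ)
      · obtain ⟨γ, hγ, hu', hv'⟩ := hp k hk v hv hkv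
        rcases List.mem_cons.1 hγ with rfl | hγ
        · exact hv'
        · exact absurd hu' (hkl γ hγ)

lemma ri_glue {l₁ : List (Finset V)} {b₁ b₂ K : Finset V} (h₁ : RI l₁) (hb₁ : b₁ ∈ l₁)
    (hK₁ : K ⊆ b₁) (hK₂ : K ⊆ b₂) : ∀ {m : List (Finset V)}, RI (m ++ [b₂]) →
    (∀ β ∈ m ++ [b₂], ∀ v ∈ β, (∃ r ∈ l₁, v ∈ r) → v ∈ K) → RI ((m ++ [b₂]) ++ l₁)
  | [], _, h => by
    refine ⟨h₁, Or.inr ⟨b₁, hb₁, ?_⟩⟩
    intro v hv hr
    exact hK₁ (h b₂ (by simp) v hv hr)
  | γ :: m, ⟨h2, h3⟩, h => by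
    refine ⟨ri_glue h₁ hb₁ hK₁ hK₂ h2 fun β hβ v hv hr =>
      h β (List.mem_cons_of_mem _ hβ) v hv hr, Or.inr ?_⟩
    rcases h3 with h3 | ⟨p, hp, h3⟩
    · exact absurd h3 (by simp)
    refine ⟨p, List.mem_append_left _ hp, ?_⟩
    rintro v hv ⟨r, hr, hvr⟩
    rcases List.mem_append.1 hr with hr | hr
    · exact h3 v hv ⟨r, hr, hvr⟩
    · exact h3 v hv ⟨b₂, by simp, hK₂ (h γ (by simp) v hv ⟨r, hr, hvr⟩)⟩

/-- treewidth is not increased by clique-sums -/
lemma tw_clos {k K : ℕ} {F : Family} (hF : ∀ n G, F n G → Tw k n G) :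
    ∀ {n : ℕ} {G : SimpleGraph (Fin n)}, Clos K F n G → Tw k n G := by
  classical
  intro n G h
  induction h with
  | piece h => exact hF _ _ h
  | @glue a b N G₁ G₂ φ₁ φ₂ h₁ h₂ hS G hle hdel ih₁ ih₂ =>
    obtain ⟨l₁, r₁, c₁, v₁, e₁⟩ := ih₁
    obtain ⟨l₂, r₂, c₂, v₂, e₂⟩ := ih₂
    set m₁ := l₁.map (Finset.map φ₁) with hm₁
    set m₂ := l₂.map (Finset.map φ₂) with hm₂
    have R₁ : RI m₁ := ri_map φ₁ r₁
    have R₂ : RI m₂ := ri_map φ₂ r₂
    have in₁ : ∀ β ∈ m₁, ∀ v ∈ β, v ∈ Set.range φ₁ := by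
      intro β hβ v hv
      obtain ⟨γ, _, rfl⟩ := List.mem_map.1 hβ
      obtain ⟨x, _, rfl⟩ := Finset.mem_map.1 hv
      exact ⟨x, rfl⟩
    have in₂ : ∀ β ∈ m₂, ∀ v ∈ β, v ∈ Set.range φ₂ := by
      intro β hβ v hv
      obtain ⟨γ, _, rfl⟩ := List.mem_map.1 hβ
      obtain ⟨x, _, rfl⟩ := Finset.mem_map.1 hv
      exact ⟨x, rfl⟩
    have C₁ : ∀ β ∈ m₁, β.card ≤ k + 1 := by
      intro β hβ
      obtain ⟨γ, hγ, rfl⟩ := List.mem_map.1 hβ
      rw [Finset.card_map]; exact c₁ γ hγ
    have C₂ : ∀ β ∈ m₂, β.card ≤ k + 1 := by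
      intro β hβ
      obtain ⟨γ, hγ, rfl⟩ := List.mem_map.1 hβ
      rw [Finset.card_map]; exact c₂ γ hγ
    have V₁ : ∀ v ∈ Set.range φ₁, ∃ β ∈ m₁, v ∈ β := by
      rintro _ ⟨x, rfl⟩
      obtain ⟨β, hβ, hx⟩ := v₁ x
      exact ⟨β.map φ₁, List.mem_map_of_mem hβ, Finset.mem_map_of_mem _ hx⟩
    have V₂ : ∀ v ∈ Set.range φ₂, ∃ β ∈ m₂, v ∈ β := by
      rintro _ ⟨x, rfl⟩
      obtain ⟨β, hβ, hx⟩ := v₂ x
      exact ⟨β.map φ₂, List.mem_map_of_mem hβ, Finset.mem_map_of_mem _ hx⟩
    have E₁ : ∀ u v, (G₁.map φ₁).Adj u v → ∃ β ∈ m₁, u ∈ β ∧ v ∈ β := by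
      intro u v h
      rw [SimpleGraph.map_adj] at h
      obtain ⟨x, y, hxy, rfl, rfl⟩ := h
      obtain ⟨β, hβ, hx, hy⟩ := e₁ x y hxy
      exact ⟨β.map φ₁, List.mem_map_of_mem hβ, Finset.mem_map_of_mem _ hx,
        Finset.mem_map_of_mem _ hy⟩
    have E₂ : ∀ u v, (G₂.map φ₂).Adj u v → ∃ β ∈ m₂, u ∈ β ∧ v ∈ β := by
      intro u v h
      rw [SimpleGraph.map_adj] at h
      obtain ⟨x, y, hxy, rfl, rfl⟩ := h
      obtain ⟨β, hβ, hx, hy⟩ := e₂ x y hxy
      exact ⟨β.map φ₂, List.mem_map_of_mem hβ, Finset.mem_map_of_mem _ hx,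
        Finset.mem_map_of_mem _ hy⟩
    -- it suffices to find a list which contains exactly the bags of the two lists
    suffices hsuf : ∃ l : List (Finset (Fin N)), RI l ∧ (∀ β ∈ l, β ∈ m₁ ∨ β ∈ m₂) ∧
        (∀ β ∈ m₁, β ∈ l) ∧ (∀ β ∈ m₂, β ∈ l) by
      obtain ⟨l, hl, ha, hb, hc⟩ := hsuf
      refine ⟨l, hl, ?_, ?_, ?_⟩
      · intro β hβ
        rcases ha β hβ with h | h
        · exact C₁ β h
        · exact C₂ β h
      · intro v
        rcases hS.cover v with h | h
        · obtain ⟨β, hβ, hv⟩ := V₁ v h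
          exact ⟨β, hb β hβ, hv⟩
        · obtain ⟨β, hβ, hv⟩ := V₂ v h
          exact ⟨β, hc β hβ, hv⟩
      · intro u v huv
        rcases hle huv with h | h
        · obtain ⟨β, hβ, hv⟩ := E₁ u v h
          exact ⟨β, hb β hβ, hv⟩
        · obtain ⟨β, hβ, hv⟩ := E₂ u v h
          exact ⟨β, hc β hβ, hv⟩
    by_cases hn1 : m₁ = []
    · exact ⟨m₂, R₂, fun β h => Or.inr h, fun β h => by rw [hn1] at h; simp at h, fun β h => h⟩
    by_cases hn2 : m₂ = []
    · exact ⟨m₁, R₁, fun β h => Or.inl h, fun β h => h, fun β h => by rw [hn2] at h; simp at h⟩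
    -- the common clique
    set Q : Finset (Fin N) := Finset.univ.filter fun v =>
      v ∈ Set.range φ₁ ∩ Set.range φ₂ with hQ
    have memQ : ∀ v, v ∈ Q ↔ v ∈ Set.range φ₁ ∩ Set.range φ₂ := by
      intro v; rw [hQ]; simp
    have hb₁ : ∃ β ∈ m₁, Q ⊆ β := by
      rcases Q.eq_empty_or_nonempty with h | h
      · obtain ⟨β, hβ⟩ := List.exists_mem_of_ne_nil _ hn1
        exact ⟨β, hβ, by rw [h]; exact Finset.empty_subset _⟩
      · refine ri_clique h R₁ (fun u hu => V₁ u ((memQ u).1 hu).1) ?_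
        intro u hu v hv huv
        exact E₁ u v (hS.clique u ((memQ u).1 hu) v ((memQ v).1 hv) huv).1
    have hb₂ : ∃ β ∈ m₂, Q ⊆ β := by
      rcases Q.eq_empty_or_nonempty with h | h
      · obtain ⟨β, hβ⟩ := List.exists_mem_of_ne_nil _ hn2
        exact ⟨β, hβ, by rw [h]; exact Finset.empty_subset _⟩
      · refine ri_clique h R₂ (fun u hu => V₂ u ((memQ u).1 hu).2) ?_
        intro u hu v hv huv
        exact E₂ u v (hS.clique u ((memQ u).1 hu) v ((memQ v).1 hv) huv).2
    obtain ⟨b₁, hb₁, hQ₁⟩ := hb₁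
    obtain ⟨b₂, hb₂, hQ₂⟩ := hb₂
    obtain ⟨m, hp, hR⟩ := ri_reroot R₂ b₂ hb₂
    refine ⟨(m ++ [b₂]) ++ m₁, ri_glue R₁ hb₁ hQ₁ hQ₂ hR ?_, ?_, ?_, ?_⟩
    · rintro β hβ v hv ⟨r, hr, hvr⟩
      exact (memQ v).2 ⟨in₁ r hr v hvr, in₂ β (hp.mem_iff.1 hβ) v hv⟩
    · intro β hβ
      rcases List.mem_append.1 hβ with h | h
      · exact Or.inr (hp.mem_iff.1 h)
      · exact Or.inl h
    · intro β hβ
      exact List.mem_append_right _ hβ
    · intro β hβ
      exact List.mem_append_left _ (hp.mem_iff.2 hβ)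

lemma tw_le4 {n : ℕ} {G : SimpleGraph (Fin n)} (h : Le4 n G) : Tw 3 n G := by
  refine ⟨[Finset.univ], ⟨trivial, Or.inl rfl⟩, ?_, ?_, ?_⟩
  · intro β hβ
    rw [List.mem_singleton] at hβ
    rw [hβ, Finset.card_univ, Fintype.card_fin]
    exact h
  · intro v
    exact ⟨Finset.univ, by simp, Finset.mem_univ _⟩
  · intro u v _
    exact ⟨Finset.univ, by simp, Finset.mem_univ _, Finset.mem_univ _⟩

/-! ## From tree decompositions to `RT` -/

lemma rt_of_tw (hB : SpecRTB) (hP : SpecPIE) (hG : SpecGRF) {n : ℕ} {G : SimpleGraph (Fin n)}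
    (h : Tw 3 n G) : RT (V := Fin n ⊕ Fin 3) {Sum.inr 0, Sum.inr 1, Sum.inr 2}
      (Finset.univ.map ⟨Sum.inl, Sum.inl_injective⟩) (mapAdj G ⟨Sum.inl, Sum.inl_injective⟩) := by
  classical
  obtain ⟨l, h0, h1, h2, h3⟩ := h
  set φ : Fin n ↪ Fin n ⊕ Fin 3 := ⟨Sum.inl, Sum.inl_injective⟩ with hφ
  set B : Finset (Fin n ⊕ Fin 3) := {Sum.inr 0, Sum.inr 1, Sum.inr 2} with hBd
  obtain ⟨b1, b2, b3, b4⟩ := hB (Fin n ⊕ Fin 3)
  have cB : B.card = 3 := by
    rw [hBd, Finset.card_insert_of_notMem (by simp), Finset.card_insert_of_notMem (by simp),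
      Finset.card_singleton]
  have nB : ∀ a : Fin n, φ a ∉ B := by
    intro a
    simp [hBd, hφ]
  have key : ∀ l : List (Finset (Fin n)), RI l → (∀ β ∈ l, β.card ≤ 3 + 1) → RT B
      ((Finset.univ.filter fun a => ∃ r ∈ l, a ∈ r).map φ)
      (fun u v => ∃ r ∈ l, ∃ a ∈ r, ∃ b ∈ r, a ≠ b ∧ φ a = u ∧ φ b = v) := by
    intro l
    induction l with
    | nil =>
      intro _ _
      have : (Finset.univ.filter fun a : Fin n => ∃ r ∈ ([] : List (Finset (Fin n))), a ∈ r) =
          ∅ := by
        simp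
      rw [this, Finset.map_empty]
      refine RT.nil ?_
      rintro u v ⟨r, hr, _⟩
      simp at hr
    | cons T l ih =>
      intro hRI hcard
      obtain ⟨hRI, hpar⟩ := hRI
      have ih' := ih hRI fun β hβ => hcard β (List.mem_cons_of_mem _ hβ)
      set St := Finset.univ.filter fun a : Fin n => ∃ r ∈ l, a ∈ r with hSt
      set Et : Fin n ⊕ Fin 3 → Fin n ⊕ Fin 3 → Prop := fun u v =>
        ∃ r ∈ l, ∃ a ∈ r, ∃ b ∈ r, a ≠ b ∧ φ a = u ∧ φ b = v with hEt
      have memSt : ∀ a, a ∈ St ↔ ∃ r ∈ l, a ∈ r := by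
        intro a; simp [hSt]
      have hS' : (Finset.univ.filter fun a : Fin n => ∃ r ∈ T :: l, a ∈ r) =
          St ∪ (T \ St) := by
        ext a
        simp only [Finset.mem_filter, Finset.mem_univ, true_and, Finset.mem_union,
          Finset.mem_sdiff, memSt]
        constructor
        · rintro ⟨r, hr, ha⟩
          by_cases h : ∃ r ∈ l, a ∈ r
          · exact Or.inl h
          · right
            refine ⟨?_, h⟩
            rcases List.mem_cons.1 hr with rfl | hr
            · exact ha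
            · exact absurd ⟨r, hr, ha⟩ h
        · rintro (⟨r, hr, ha⟩ | ⟨ha, _⟩)
          · exact ⟨r, List.mem_cons_of_mem _ hr, ha⟩
          · exact ⟨T, by simp, ha⟩
      set K := T ∩ St with hK
      have hcover : K = ∅ ∨ ∃ s ∈ l, K ⊆ s := by
        rcases hpar with h0 | ⟨s, hs, hs'⟩
        · left
          rw [hK, Finset.eq_empty_iff_forall_notMem]
          intro a ha
          rw [Finset.mem_inter, memSt] at ha
          obtain ⟨_, r, hr, _⟩ := ha
          rw [h0] at hr; simp at hr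
        · right
          refine ⟨s, hs, ?_⟩
          intro a ha
          rw [hK, Finset.mem_inter, memSt] at ha
          exact hs' a ha.1 ha.2
      by_cases hc : K.card ≤ 3
      · have hres := hG (Fin n ⊕ Fin 3) B (St.map φ) Et cB ?_ ih' (K.map φ)
          ((T \ St).map φ) (fun u v => u ∈ T.map φ ∧ v ∈ T.map φ ∧ u ≠ v) ?_ ?_ ?_ ?_ ?_
        · rw [hS', Finset.map_union]
          refine b1 _ _ _ _ hres ?_
          rintro u v ⟨r, hr, a, ha, b, hb, hab, rfl, rfl⟩
          rcases List.mem_cons.1 hr with rfl | hr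
          · right
            exact ⟨Finset.mem_map_of_mem _ ha, Finset.mem_map_of_mem _ hb,
              fun h => hab (φ.injective h)⟩
          · exact Or.inl ⟨r, hr, a, ha, b, hb, hab, rfl, rfl⟩
        · rw [Finset.disjoint_left]
          intro u hu hu'
          obtain ⟨a, _, rfl⟩ := Finset.mem_map.1 hu'
          exact nB a hu
        · rw [Finset.card_map]; exact hc
        · intro u hu
          obtain ⟨a, ha, rfl⟩ := Finset.mem_map.1 hu
          exact Finset.mem_union_right _ (Finset.mem_map_of_mem _ (Finset.mem_inter.1 ha).2)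
        · intro u hu v hv huv
          obtain ⟨a, ha, rfl⟩ := Finset.mem_map.1 hu
          obtain ⟨b, hb, rfl⟩ := Finset.mem_map.1 hv
          left
          rcases hcover with hs | ⟨s, hs, hKs⟩
          · rw [hs] at ha; simp at ha
          · exact ⟨s, hs, a, hKs ha, b, hKs hb, fun h => huv (by rw [h]), rfl, rfl⟩
        · rw [Finset.disjoint_left]
          intro u hu hu'
          obtain ⟨a, ha, rfl⟩ := Finset.mem_map.1 hu
          rw [Finset.mem_sdiff] at ha
          rcases Finset.mem_union.1 hu' with hu' | hu'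
          · exact nB a hu'
          · rw [Finset.mem_map' φ] at hu'
            exact ha.2 hu'
        · intro B' hB' hKB' hdis
          have hp := hP (Fin n ⊕ Fin 3) (T.map φ) (K.map φ) B' ?_ ?_ hB' ?_ hKB'
          · have : T.map φ \ K.map φ = (T \ St).map φ := by
              ext u
              simp only [Finset.mem_sdiff, Finset.mem_map]
              constructor
              · rintro ⟨⟨a, ha, rfl⟩, hn⟩
                refine ⟨a, ⟨ha, fun h => hn ⟨a, Finset.mem_inter.2 ⟨ha, h⟩, rfl⟩⟩, rfl⟩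
              · rintro ⟨a, ⟨ha, hna⟩, rfl⟩
                refine ⟨⟨a, ha, rfl⟩, ?_⟩
                rintro ⟨b, hb, hb'⟩
                rw [φ.injective hb'] at hb
                exact hna (Finset.mem_inter.1 hb).2
            rw [this] at hp
            exact hp
          · exact Finset.map_subset_map.2 Finset.inter_subset_left
          · rw [Finset.card_map]; exact hcard T (by simp)
          · intro u hu
            constructor
            · intro huB
              obtain ⟨a, ha, rfl⟩ := Finset.mem_map.1 hu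
              by_cases hst : a ∈ St
              · exact Finset.mem_map_of_mem _ (Finset.mem_inter.2 ⟨ha, hst⟩)
              · exact absurd (Finset.mem_map_of_mem φ (Finset.mem_sdiff.2 ⟨ha, hst⟩))
                  (Finset.disjoint_left.1 hdis huB)
            · intro h
              exact hKB' h
      · -- `T = K`
        push Not at hc
        have hKT : K = T := Finset.eq_of_subset_of_card_le Finset.inter_subset_left
          (by have := hcard T (by simp); omega)
        have hsd : T \ St = ∅ := by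
          rw [Finset.sdiff_eq_empty_iff_subset]
          rw [← hKT]
          exact Finset.inter_subset_right
        rw [hS', hsd, Finset.union_empty]
        refine b1 _ _ _ _ ih' ?_
        rintro u v ⟨r, hr, a, ha, b, hb, hab, rfl, rfl⟩
        rcases List.mem_cons.1 hr with hr | hr
        · rw [hr, ← hKT] at ha hb
          rcases hcover with hs | ⟨s, hs, hKs⟩
          · rw [hs] at ha; simp at ha
          · exact ⟨s, hs, a, hKs ha, b, hKs hb, hab, rfl, rfl⟩
        · exact ⟨r, hr, a, ha, b, hb, hab, rfl, rfl⟩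
  have hfin := key l h0 h1
  have hall : (Finset.univ.filter fun a : Fin n => ∃ r ∈ l, a ∈ r) = Finset.univ := by
    ext a
    simp only [Finset.mem_filter, Finset.mem_univ, true_and, iff_true]
    exact h2 a
  rw [hall] at hfin
  refine b1 _ _ _ _ hfin ?_
  rintro u v ⟨a, b, hab, rfl, rfl⟩
  obtain ⟨r, hr, ha, hb⟩ := h3 a b hab
  exact ⟨r, hr, a, ha, b, hb, hab.ne, rfl, rfl⟩

/-- every family whose graphs hang at a bag of three extra vertices embeds with bounded distortion -/
theorem embeds_of_RT (hCNV : SpecCNV) (hMET : SpecMET) {F : Family}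
    (hF : ∀ (n : ℕ) (G : SimpleGraph (Fin n)), F n G →
      RT (V := Fin n ⊕ Fin 3) {Sum.inr 0, Sum.inr 1, Sum.inr 2}
        (Finset.univ.map ⟨Sum.inl, Sum.inl_injective⟩)
        (mapAdj G ⟨Sum.inl, Sum.inl_injective⟩)) : ∃ D, Embeds F D := by
  classical
  obtain ⟨D, hD, hMET⟩ := hMET
  refine ⟨D, ?_⟩
  intro n G hG w hw0
  have hw : Pos G w := hw0
  obtain ⟨W, hW, hM⟩ := gd_bound hw
  obtain ⟨a, ha⟩ : ∃ a : Fin n ⊕ Fin 3, a = Sum.inr 0 := ⟨_, rfl⟩
  obtain ⟨b, hb⟩ : ∃ b : Fin n ⊕ Fin 3, b = Sum.inr 1 := ⟨_, rfl⟩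
  obtain ⟨c, hc⟩ : ∃ c : Fin n ⊕ Fin 3, c = Sum.inr 2 := ⟨_, rfl⟩
  have hab : a ≠ b := by rw [ha, hb]; intro h; exact absurd (Sum.inr.inj h) (by decide)
  have hac : a ≠ c := by rw [ha, hc]; intro h; exact absurd (Sum.inr.inj h) (by decide)
  have hbc : b ≠ c := by rw [hb, hc]; intro h; exact absurd (Sum.inr.inj h) (by decide)
  have hBin : ∀ u : Fin n, (Sum.inl u : Fin n ⊕ Fin 3) ∉ ({a, b, c} : Finset (Fin n ⊕ Fin 3)) := by
    intro u h
    rw [ha, hb, hc] at h
    simp only [Finset.mem_insert, Finset.mem_singleton, reduceCtorEq, or_self] at h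
  have hBcard : ({a, b, c} : Finset (Fin n ⊕ Fin 3)).card = 3 := Finset.card_eq_three.2
    ⟨a, b, c, hab, hac, hbc, rfl⟩
  have hRT : RT ({a, b, c} : Finset (Fin n ⊕ Fin 3))
      ((Finset.univ \ (∅ : Finset (Fin n))).map Function.Embedding.inl)
      (mapAdj G Function.Embedding.inl) := by
    have := hF n G hG
    rw [ha, hb, hc, Finset.sdiff_empty]
    exact this
  have hnL : ∀ i : Fin 3, (Sum.inr i : Fin n ⊕ Fin 3) ∉
      ((Finset.univ \ (∅ : Finset (Fin n))).map Function.Embedding.inl) := by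
    intro i h
    obtain ⟨u, _, hu⟩ := Finset.mem_map.1 h
    exact absurd hu (by simp)
  have hmL : ∀ u : Fin n, (Sum.inl u : Fin n ⊕ Fin 3) ∈
      ((Finset.univ \ (∅ : Finset (Fin n))).map Function.Embedding.inl) := by
    intro u
    exact Finset.mem_map.2 ⟨u, by simp, rfl⟩
  have hdis : Disjoint ({a, b, c} : Finset (Fin n ⊕ Fin 3))
      ((Finset.univ \ (∅ : Finset (Fin n))).map Function.Embedding.inl) := by
    rw [Finset.disjoint_left]
    intro x hx hx'
    rcases x with u | i
    · exact hBin u hx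
    · exact hnL i hx'
  obtain ⟨E', hSeq, hE'⟩ := hCNV (Fin n ⊕ Fin 3) {a, b, c}
    ((Finset.univ \ (∅ : Finset (Fin n))).map Function.Embedding.inl) _ hRT hdis a b c hab hac hbc rfl
  have hd := fiaD_dst hw hW hM
  obtain ⟨m, f, hf1, hf2⟩ := hMET (Fin n ⊕ Fin 3) (fiaD G w W) W a b c
    ((Finset.univ \ (∅ : Finset (Fin n))).map Function.Embedding.inl) E' hd hW hab hac hbc
    (by rw [ha, hb]; simp only [fiaD]; rw [if_neg (by decide)])
    (by rw [ha, hc]; simp only [fiaD]; rw [if_neg (by decide)])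
    (by rw [hb, hc]; simp only [fiaD]; rw [if_neg (by decide)])
    (by rw [ha]; exact hnL _) (by rw [hb]; exact hnL _) (by rw [hc]; exact hnL _) hSeq
  have hsc : ∀ u v : Fin n, ∑ i, |D * f (Sum.inl u) i - D * f (Sum.inl v) i| =
      D * ∑ i, |f (Sum.inl u) i - f (Sum.inl v) i| := by
    intro u v
    rw [Finset.mul_sum]
    refine Finset.sum_congr rfl (fun i _ => ?_)
    rw [← mul_sub, abs_mul, abs_of_pos hD]
  refine ⟨m, fun u i => D * f (Sum.inl u) i, ?_, ?_⟩
  · intro u v huv
    have hne : u ≠ v := huv.ne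
    have hne' : (Sum.inl u : Fin n ⊕ Fin 3) ≠ Sum.inl v := fun h => hne (Sum.inl.inj h)
    have hdw : fiaD G w W (Sum.inl u) (Sum.inl v) ≤ w s(u, v) := by
      rw [fiaD_reach huv.reachable]; exact gd_adj hw huv
    have key : ∑ i, |f (Sum.inl u) i - f (Sum.inl v) i| ≤ fiaD G w W (Sum.inl u) (Sum.inl v) := by
      rcases hE' (Sum.inl u) (Sum.inl v) hne' ⟨u, v, huv, rfl, rfl⟩ with h | h | h
      · exact absurd h.1 (hBin u)
      · exact hf1 _ _ h
      · have h1 := hf1 _ _ h
        rw [hd.comm (Sum.inl u) (Sum.inl v)]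
        refine le_trans (le_of_eq ?_) h1
        exact Finset.sum_congr rfl (fun i _ => abs_sub_comm _ _)
    show ∑ i, |D * f (Sum.inl u) i - D * f (Sum.inl v) i| ≤ D * w s(u, v)
    rw [hsc]
    exact mul_le_mul_of_nonneg_left (key.trans hdw) hD.le
  · intro u v huv
    obtain ⟨p, hp⟩ := exists_gd hw huv
    refine ⟨p, ?_⟩
    show (p.edges.map w).sum ≤ ∑ i, |D * f (Sum.inl u) i - D * f (Sum.inl v) i|
    rw [hsc]
    have h1 := hf2 (Sum.inl u) (hmL u) (Sum.inl v) (hmL v)
    rw [fiaD_reach huv, ← hp] at h1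
    exact h1


end TWDM

/-- graphs of treewidth at most three embed into `ℓ₁` with bounded distortion -/
theorem specTWD (hB : SpecRTB) (hP : SpecPIE) (hG : SpecGRF) (hCNV : SpecCNV) (hMET : SpecMET) :
    ∃ D, Embeds (Tw 3) D :=
  TWDM.embeds_of_RT hCNV hMET fun _ _ h => TWDM.rt_of_tw hB hP hG h

/-- the main theorem: all clique-sums of graphs of treewidth at most three -/
theorem twMain (h : ∃ D, Embeds (Tw 3) D) : ∃ D : ℝ, ∀ (k : ℕ) (F : Family),
    (∀ n G, F n G → Tw 3 n G) → Embeds (Clos k F) D := by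
  obtain ⟨D, hD⟩ := h
  exact ⟨D, fun k F hF n G hG => hD n G (TWDM.tw_clos hF hG)⟩

end TW3
end
end
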