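import Pool.Agent.Lib.MP_2eab14_co.TW3.SpecM

section
set_option linter.all false

/-!
# EXT: the integral with respect to the new measure
-/

noncomputable section

namespace TW3

namespace EXTM

variable {V : Type} [Fintype V] [DecidableEq V]

theorem sum_delta (T : V → Bool) (c : ℝ) (f : (V → Bool) → ℝ) :
    ∑ S' : V → Bool, c * (if S' = T then 1 else 0) * f S' = c * f T := by
  have h : ∀ S' : V → Bool, c * (if S' = T then 1 else 0) * f S' =
      if S' = T then c * f S' else 0 := by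
    intro S'
    split_ifs <;> ring
  simp only [h]
  rw [Finset.sum_ite_eq' Finset.univ T, if_pos (Finset.mem_univ T)]

theorem prb_nonneg {T₁ T₂ T₃ : ℝ} (h1 : 0 ≤ T₁) (h2 : 0 ≤ T₂) (h3 : 0 ≤ T₃) (S : V → Bool)
    (a b c : V) : 0 ≤ prb T₁ T₂ T₃ S a b c := by
  unfold prb
  split_ifs
  · exact h1
  · exact h2
  · exact h3
  · exact le_rfl

theorem prb_le_one {T₁ T₂ T₃ : ℝ} (h1 : 0 ≤ T₁) (h2 : 0 ≤ T₂) (h3 : 0 ≤ T₃)
    (hs : T₁ + T₂ + T₃ ≤ 1) (S : V → Bool) (a b c : V) : prb T₁ T₂ T₃ S a b c ≤ 1 := by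
  unfold prb
  split_ifs <;> linarith

end EXTM

open EXTM

theorem specEXT : SpecEXT := by
  intro V _ _ μ x a b c T₁ T₂ T₃ n
  refine ⟨?_, ?_⟩
  · intro f
    unfold II addV
    have h1 : ∀ S' : V → Bool,
        ((∑ S, μ S * (prb T₁ T₂ T₃ S a b c *
            (if S' = Function.update S x (!maj S a b c) then 1 else 0) +
          (1 - prb T₁ T₂ T₃ S a b c) *
            (if S' = Function.update S x (maj S a b c) then 1 else 0))) +
        n * (if S' = Function.update (fun _ => false) x true then 1 else 0)) * f S' =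
        (∑ S, (μ S * prb T₁ T₂ T₃ S a b c *
            (if S' = Function.update S x (!maj S a b c) then 1 else 0) * f S' +
          μ S * (1 - prb T₁ T₂ T₃ S a b c) *
            (if S' = Function.update S x (maj S a b c) then 1 else 0) * f S')) +
        n * (if S' = Function.update (fun _ => false) x true then 1 else 0) * f S' := by
      intro S'
      rw [add_mul, Finset.sum_mul]
      congr 1
      refine Finset.sum_congr rfl fun S _ => ?_
      ring
    simp only [h1]
    rw [Finset.sum_add_distrib, sum_delta, Finset.sum_comm]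
    congr 1
    refine Finset.sum_congr rfl fun S _ => ?_
    rw [Finset.sum_add_distrib, sum_delta, sum_delta]
    ring
  · intro hμ h1 h2 h3 hs hn S
    unfold addV
    refine add_nonneg (Finset.sum_nonneg fun S' _ => mul_nonneg (hμ S') (add_nonneg ?_ ?_)) ?_
    · refine mul_nonneg (prb_nonneg h1 h2 h3 _ _ _ _) ?_
      split_ifs <;> norm_num
    · refine mul_nonneg (sub_nonneg.2 (prb_le_one h1 h2 h3 hs _ _ _ _)) ?_
      split_ifs <;> norm_num
    · refine mul_nonneg hn ?_
      split_ifs <;> norm_num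

end TW3
end
end

section
set_option linter.all false

/-!
# Treewidth three: module FBD, the final bound on the level of measures
-/

noncomputable section

namespace TW3

namespace FBDM

variable {V : Type} [Fintype V] [DecidableEq V]

lemma first (hINI : SpecINI) (hIDS : SpecIDS) {d : V → V → ℝ} {μ : (V → Bool) → ℝ} {a b c : V}
    (hd : Dst d) (hμ : ∀ S, 0 ≤ μ S) (hN : NAt d μ a b c) {M K k : ℝ} (hM : 10000000 ≤ M)
    (hK : K = 100000 * M) (hk : 0 < k) (hkK : 1000 * (k * K) ≤ 1) {o : V}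
    (hF : FAt M K k d μ o a b c) : k * d o a ≤ 5 * sep μ o a := by
  obtain ⟨i1, i2, i3, i4, i5, i6, i7, i8, i9, i10, i11⟩ := hIDS V μ hμ
  have dab : |d o a - d o b| ≤ d a b := by
    rw [abs_le]
    have h1 := hd.tri o a b
    have h2 := hd.tri o b a
    rw [hd.comm b a] at h2
    constructor <;> linarith
  have dac : |d o a - d o c| ≤ d a c := by
    rw [abs_le]
    have h1 := hd.tri o a c
    have h2 := hd.tri o c a
    rw [hd.comm c a] at h2
    constructor <;> linarith
  have dbc : |d o b - d o c| ≤ d b c := by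
    rw [abs_le]
    have h1 := hd.tri o b c
    have h2 := hd.tri o c b
    rw [hd.comm c b] at h2
    constructor <;> linarith
  have l1 := i4 a b c
  have l2 := i4 b a c
  have l3 := i4 c a b
  obtain ⟨b1, c1, o1⟩ := i5 o a b c
  obtain ⟨b2, c2, -⟩ := i5 o b a c
  obtain ⟨b3, c3, -⟩ := i5 o c a b
  have e1 := hN.B.lb1
  have e2 := hN.B.lb2
  have e3 := hN.B.lb3
  have hO : Org M K k (out μ o a b c) (leg μ a b c) (leg μ b a c) (leg μ c a b)
      (bet μ o a b c) (bet μ o b a c) (bet μ o c a b) (d o a) (d o b) (d o c) := by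
    refine ⟨by linarith, by linarith, hk, hkK, o1, b1, b2, b3, c1, c2, c3, ?_, ?_, ?_⟩
    · refine dbc.trans ?_
      have := mul_le_mul_of_nonneg_right hM (add_nonneg l2 l3)
      linarith
    · refine dac.trans ?_
      have := mul_le_mul_of_nonneg_right hM (add_nonneg l1 l3)
      linarith
    · refine dab.trans ?_
      have := mul_le_mul_of_nonneg_right hM (add_nonneg l1 l2)
      linarith
  have := hINI.2.2 _ _ _ _ _ _ _ _ _ _ _ _ _ hO hF
  rw [i7 o a b c]
  linarith

end FBDM

open FBDM in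
theorem specFBD (hINI : SpecINI) (hIDS : SpecIDS) (hSYM : SpecSYM) : SpecFBD := by
  intro V _ _ d μ a b c hd hμ hN M K k hM hK hk hkK
  obtain ⟨s1, s2, s3, s4⟩ := hSYM V μ d hμ hd.comm
  refine ⟨fun o hF => ⟨?_, ?_, ?_⟩, fun o ha hb hc => ?_⟩
  · exact first hINI hIDS hd hμ hN hM hK hk hkK hF
  · exact first hINI hIDS hd hμ (s1 _ _ _ hN) hM hK hk hkK (s3 _ _ _ _ _ _ _ hF)
  · exact first hINI hIDS hd hμ (s1 _ _ _ (s2 _ _ _ hN)) hM hK hk hkK
      (s3 _ _ _ _ _ _ _ (s4 _ _ _ _ _ _ _ hF))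
  · obtain ⟨i1, i2, i3, i4, i5, i6, i7, i8, i9, i10, i11⟩ := hIDS V μ hμ
    obtain ⟨b1, c1, o1⟩ := i5 o a b c
    obtain ⟨b2, c2, -⟩ := i5 o b a c
    obtain ⟨b3, c3, -⟩ := i5 o c a b
    have l1 := i4 a b c
    have l2 := i4 b a c
    have l3 := i4 c a b
    have e1 := i7 o a b c
    have e2 := i7 o b a c
    have e3 := i7 o c a b
    have f1 : out μ o b a c = out μ o a b c := (i3 o b a c).1
    have f2 : out μ o c a b = out μ o a b c := by
      rw [(i3 o c a b).1, (i3 o a c b).2]
    have f3 : bet μ o c b a = bet μ o c a b := i2 o c b a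
    have f4 : bet μ o a c b = bet μ o a b c := i2 o a c b
    have f5 : bet μ o b c a = bet μ o b a c := i2 o b c a
    have f6 : leg μ b c a = leg μ b a c := i1 b c a
    have f7 : leg μ c b a = leg μ c a b := i1 c b a
    refine hINI.2.1 _ _ _ _ _ _ _ _ _ _ _ _ _ (by linarith) (by linarith) hk ?_ o1 b1 b2 b3
      c1 c2 c3 ?_ ?_ ?_
    · have : k * (2 * M + K) ≤ k * (2 * K) := mul_le_mul_of_nonneg_left (by linarith) hk.le
      nlinarith
    · rw [e1] at ha
      exact ha
    · rw [e2, f1, f3] at hb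
      exact hb
    · rw [e3, f2, f4, f5] at hc
      exact hc

end TW3
end
end

section
set_option linter.all false

/-!
# Treewidth three: the module IDS (identities of a cut measure)
-/

noncomputable section

namespace TW3

namespace IDSM

variable {V : Type} [Fintype V] [DecidableEq V]

theorem II_congr {μ f g : (V → Bool) → ℝ} (h : ∀ S, f S = g S) : II μ f = II μ g := by
  unfold II
  exact Finset.sum_congr rfl fun S _ => by rw [h S]

theorem II_nonneg {μ f : (V → Bool) → ℝ} (hμ : ∀ S, 0 ≤ μ S) (h : ∀ S, 0 ≤ f S) : 0 ≤ II μ f :=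
  Finset.sum_nonneg fun S _ => mul_nonneg (hμ S) (h S)

theorem II_mono {μ f g : (V → Bool) → ℝ} (hμ : ∀ S, 0 ≤ μ S) (h : ∀ S, f S ≤ g S) :
    II μ f ≤ II μ g :=
  Finset.sum_le_sum fun S _ => mul_le_mul_of_nonneg_left (h S) (hμ S)

theorem II_zero {μ f : (V → Bool) → ℝ} (h : ∀ S, f S = 0) : II μ f = 0 := by
  unfold II
  exact Finset.sum_eq_zero fun S _ => by rw [h S, mul_zero]

theorem II_add (μ f g : (V → Bool) → ℝ) : II μ f + II μ g = II μ fun S => f S + g S := by
  unfold II
  rw [← Finset.sum_add_distrib]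
  exact Finset.sum_congr rfl fun S _ => by ring

theorem II_sub (μ f g : (V → Bool) → ℝ) : II μ f - II μ g = II μ fun S => f S - g S := by
  unfold II
  rw [← Finset.sum_sub_distrib]
  exact Finset.sum_congr rfl fun S _ => by ring

end IDSM

open IDSM in
theorem specIDS : SpecIDS := by
  intro V _ _ μ hμ
  have hite : ∀ (p : Prop) [Decidable p], (0 : ℝ) ≤ if p then 1 else 0 := by
    intro p _
    split_ifs <;> norm_num
  refine ⟨?_, ?_, ?_, ?_, ?_, ?_, ?_, ?_, ?_, ?_, ?_⟩
  · intro a b c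
    refine II_congr fun S => ?_
    cases S a <;> cases S b <;> cases S c <;> simp
  · intro o a b c
    refine II_congr fun S => ?_
    cases S a <;> cases S b <;> cases S c <;> cases S o <;> simp
  · intro o a b c
    constructor
    · refine II_congr fun S => ?_
      cases S a <;> cases S b <;> cases S c <;> cases S o <;> simp
    · refine II_congr fun S => ?_
      cases S a <;> cases S b <;> cases S c <;> cases S o <;> simp
  · intro a b c
    exact II_nonneg hμ fun S => hite _
  · intro o a b c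
    refine ⟨II_nonneg hμ fun S => hite _, II_mono hμ fun S => ?_, II_nonneg hμ fun S => hite _⟩
    cases S a <;> cases S b <;> cases S c <;> cases S o <;> simp
  · intro a b c
    unfold sep leg
    rw [II_add]
    refine II_congr fun S => ?_
    cases S a <;> cases S b <;> cases S c <;> simp
  · intro o a b c
    unfold sep out bet leg
    rw [II_sub, II_add, II_add, II_add]
    refine II_congr fun S => ?_
    cases S a <;> cases S b <;> cases S c <;> cases S o <;> simp
  · intro a b c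
    refine ⟨II_zero fun S => ?_, II_congr fun S => ?_, II_zero fun S => ?_, II_zero fun S => ?_⟩
    · cases S a <;> cases S b <;> cases S c <;> simp
    · cases S a <;> cases S b <;> cases S c <;> simp
    · cases S a <;> cases S b <;> cases S c <;> simp
    · cases S a <;> cases S b <;> cases S c <;> simp
  · intro u v
    refine II_congr fun S => ?_
    cases S u <;> cases S v <;> simp
  · intro u
    exact II_zero fun S => by simp
  · refine ⟨Fintype.card (V → Bool),
      fun u i => μ ((Fintype.equivFin (V → Bool)).symm i) *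
        (if (Fintype.equivFin (V → Bool)).symm i u then 1 else 0), fun u v => ?_⟩
    unfold sep II
    rw [← (Fintype.equivFin (V → Bool)).symm.sum_comp]
    refine Finset.sum_congr rfl fun i _ => ?_
    have key : ∀ S : V → Bool, (μ S * if S u = S v then (0 : ℝ) else 1) =
        |μ S * (if S u then 1 else 0) - μ S * (if S v then 1 else 0)| := by
      intro S
      cases S u <;> cases S v <;> simp [abs_of_nonneg (hμ S)]
    exact key _

end TW3
end
end

section
set_option linter.all false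

/-! # Module ONA -/

noncomputable section

namespace TW3

/-! ## the constants -/

lemma M1_le : 10000000 ≤ M₁ := le_rfl

lemma k1_val : k₁ = 1 / 1000000000000000 := by
  unfold k₁ K₁ M₁; norm_num

lemma k1_pos : 0 < k₁ := by rw [k1_val]; norm_num

lemma k1_ok : 1000 * (k₁ * K₁) ≤ 1 := by
  rw [k1_val]; unfold K₁ M₁; norm_num

lemma M2_val : M₂ = 5000000000000000 := by
  unfold M₂; rw [k1_val]; norm_num

lemma M2_le : 10000000 ≤ M₂ := by rw [M2_val]; norm_num

lemma k2_pos : 0 < k₂ := by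
  unfold k₂ K₂; rw [M2_val]; norm_num

lemma k2_ok : 1000 * (k₂ * K₂) ≤ 1 := by
  unfold k₂ K₂; rw [M2_val]; norm_num

namespace ONAM

variable {V : Type} [Fintype V] [DecidableEq V]

lemma tri3 {d : V → V → ℝ} (hd : Dst d) {w u v : V} (h1 : w ≠ u) (h2 : w ≠ v) (h3 : u ≠ v) :
    Tri3 (d u v) (d w u) (d w v) := by
  have c1 := hd.comm u w
  have c2 := hd.comm v w
  have c3 := hd.comm v u
  refine ⟨hd.pos _ _ h3, hd.pos _ _ h1, hd.pos _ _ h2, ?_, ?_, ?_⟩
  · have := hd.tri u w v; linarith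
  · have := hd.tri w v u; linarith
  · have := hd.tri w u v; linarith

lemma tri4 {d : V → V → ℝ} (hd : Dst d) {x a b c : V} (xa : x ≠ a) (xb : x ≠ b) (xc : x ≠ c)
    (ab : a ≠ b) (ac : a ≠ c) (bc : b ≠ c) :
    Tri4 (d b c) (d a c) (d a b) (d x a) (d x b) (d x c) :=
  ⟨(tri3 hd ab ac bc).swap23, tri3 hd xb xc bc, tri3 hd xa xc ac, tri3 hd xa xb ab⟩

lemma vs_sub {d : V → V → ℝ} {μ : (V → Bool) → ℝ} {A : Finset V} :
    ∀ {st : List (V × V × V)}, Stk d μ A st → vs st ⊆ A
  | [], _ => by simp [vs]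
  | (a, b, c) :: st, h => by
    obtain ⟨hb, _, hs⟩ := h
    intro o ho
    simp only [vs, Finset.mem_union, Finset.mem_insert, Finset.mem_singleton] at ho
    rcases ho with (rfl | rfl | rfl) | ho
    · exact hb.ha
    · exact hb.hb
    · exact hb.hc
    · exact vs_sub hs ho

end ONAM

open ONAM in
theorem specONA : SpecONA := by
  intro hNL hU hI hS hF V _ _ d μ A E st x a b c hd hSt hx
  obtain ⟨nn, up, lo, hst⟩ := hSt
  obtain ⟨hbag, hl1, hst'⟩ := hst
  have hne : ∀ o ∈ A, o ≠ x := fun o ho h => hx (h ▸ ho)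
  have xa : x ≠ a := (hne _ hbag.ha).symm
  have xb : x ≠ b := (hne _ hbag.hb).symm
  have xc : x ≠ c := (hne _ hbag.hc).symm
  obtain ⟨T₁, T₂, T₃, n, hstep⟩ := hNL _ _ _ _ _ _ _ _ _ hbag.near
    (tri4 hd xa xb xc hbag.ab hbag.ac hbag.bc)
  obtain ⟨nn', ⟨n1, n2, n3, n4⟩, far, dist⟩ := hS V d μ x a b c T₁ T₂ T₃ n hd nn xa xb xc
    hbag.ab hbag.ac hbag.bc hbag.near hstep
  obtain ⟨_, _, hsep, hleg, hbet, hout, _⟩ := hU V μ x a b c T₁ T₂ T₃ n xa xb xc
  set μ' := addV μ x a b c T₁ T₂ T₃ n with hμ'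
  obtain ⟨far1, far1a, far1b, far1c⟩ := far M₁ K₁ k₁ M1_le rfl k1_pos k1_ok
  obtain ⟨far2, far2a, far2b, far2c⟩ := far M₂ K₂ k₂ M2_le rfl k2_pos k2_ok
  obtain ⟨_, _, _, _, _, _, _, _, hsc, hss, _⟩ := hI V μ' nn'
  -- unchanged invariants
  have hNe : ∀ u v w, u ≠ x → v ≠ x → w ≠ x → NAt d μ u v w → NAt d μ' u v w := by
    intro u v w h1 h2 h3 h
    unfold NAt at h ⊢
    rw [hleg u v w h1 h2 h3, hleg v u w h2 h1 h3, hleg w u v h3 h1 h2]
    exact h
  have hFe : ∀ (M K k : ℝ) (o u v w : V), o ≠ x → u ≠ x → v ≠ x → w ≠ x →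
      FAt M K k d μ o u v w → FAt M K k d μ' o u v w := by
    intro M K k o u v w h0 h1 h2 h3 h
    unfold FAt at h ⊢
    rw [hleg u v w h1 h2 h3, hleg v u w h2 h1 h3, hleg w u v h3 h1 h2,
      hbet o u v w h0 h1 h2 h3, hbet o v u w h0 h2 h1 h3, hbet o w u v h0 h3 h1 h2,
      hout o u v w h0 h1 h2 h3]
    exact h
  have hvsub : vs ((a, b, c) :: st) ⊆ A := vs_sub (d := d) (μ := μ) ⟨hbag, hl1, hst'⟩
  -- level 1 of the old origins at the new bags
  have hlev1 : ∀ o ∈ vs ((a, b, c) :: st), FAt M₁ K₁ k₁ d μ' o x b c ∧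
      FAt M₁ K₁ k₁ d μ' o a x c ∧ FAt M₁ K₁ k₁ d μ' o a b x := fun o ho =>
    far1 o (hne o (hvsub ho)) (hl1 o ho)
  have hlev2 : ∀ o ∈ A, FAt M₂ K₂ k₂ d μ' o x b c ∧
      FAt M₂ K₂ k₂ d μ' o a x c ∧ FAt M₂ K₂ k₂ d μ' o a b x := fun o ho =>
    far2 o (hne o ho) (hbag.far o ho)
  -- distances of `x` to the vertices of the stack
  have hxg : ∀ g ∈ vs ((a, b, c) :: st), d x g ≤ M₂ * sep μ' x g := by
    intro g hg
    have h := ((hF V d μ' x b c hd nn' n1 M₁ K₁ k₁ M1_le rfl k1_pos k1_ok).1 g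
      (hlev1 g hg).1).1
    rw [hd.comm g x, hsc g x] at h
    unfold M₂
    rw [div_mul_eq_mul_div, le_div_iff₀ k1_pos]
    linarith
  -- old stacks
  have hstk : ∀ st' : List (V × V × V), Stk d μ A st' →
      (∀ g ∈ vs st', d x g ≤ M₂ * sep μ' x g) → Stk d μ' (insert x A) st' := by
    intro st'
    induction st' with
    | nil => intro _ _; trivial
    | cons B st' ih =>
      obtain ⟨a', b', c'⟩ := B
      intro h hg
      have hsub := vs_sub h
      obtain ⟨hb, h1, h2⟩ := h
      have na := hne _ hb.ha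
      have nb := hne _ hb.hb
      have nc := hne _ hb.hc
      have hN' := hNe a' b' c' na nb nc hb.near
      refine ⟨⟨Finset.mem_insert_of_mem hb.ha, Finset.mem_insert_of_mem hb.hb,
        Finset.mem_insert_of_mem hb.hc, hb.ab, hb.ac, hb.bc, hN', ?_⟩, ?_, ?_⟩
      · intro o ho
        rcases Finset.mem_insert.1 ho with rfl | ho
        · refine (hF V d μ' a' b' c' hd nn' hN' M₂ K₂ k₂ M2_le rfl k2_pos k2_ok).2 _ ?_ ?_ ?_
          · exact hg a' (by simp [vs])
          · exact hg b' (by simp [vs])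
          · exact hg c' (by simp [vs])
        · exact hFe _ _ _ _ _ _ _ (hne _ ho) na nb nc (hb.far o ho)
      · intro o ho
        exact hFe _ _ _ _ _ _ _ (hne _ (hsub ho)) na nb nc (h1 o ho)
      · exact ih h2 fun g hg' => hg g (by
          simp only [vs, Finset.mem_union]
          exact Or.inr hg')
  have hA : ∀ {o : V}, o ∈ A → o ∈ insert x A := fun h => Finset.mem_insert_of_mem h
  have hxA : x ∈ insert x A := Finset.mem_insert_self _ _
  refine ⟨μ', nn', ?_, ?_, ?_⟩
  · -- upper bounds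
    intro u v h
    rcases h with h | ⟨rfl, h⟩
    · obtain ⟨hu, hv, hle⟩ := up u v h
      refine ⟨hA hu, hA hv, ?_⟩
      rw [hsep u v (hne _ hu) (hne _ hv)]
      exact hle
    · refine ⟨hxA, ?_, (dist v h).1⟩
      rcases h with rfl | rfl | rfl
      · exact hA hbag.ha
      · exact hA hbag.hb
      · exact hA hbag.hc
  · -- lower bounds
    have key : ∀ u ∈ A, k₂ * d u x ≤ 5 * sep μ' u x := fun u hu =>
      ((hF V d μ' x b c hd nn' n1 M₂ K₂ k₂ M2_le rfl k2_pos k2_ok).1 u (hlev2 u hu).1).1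
    intro u hu v hv
    rcases Finset.mem_insert.1 hu with hux | huA
    · rcases Finset.mem_insert.1 hv with hvx | hvA
      · rw [hux, hvx, hd.self, hss]; simp
      · rw [hux, hd.comm, hsc]; exact key v hvA
    · rcases Finset.mem_insert.1 hv with hvx | hvA
      · rw [hvx]; exact key u huA
      · rw [hsep u v (hne _ huA) (hne _ hvA)]
        exact lo u huA v hvA
  · -- the stack
    have memvs : ∀ o, o ∈ vs ((x, b, c) :: (a, x, c) :: (a, b, x) :: (a, b, c) :: st) →
        o = x ∨ o ∈ vs ((a, b, c) :: st) := by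
      intro o ho
      simp only [vs, Finset.mem_union, Finset.mem_insert, Finset.mem_singleton] at ho ⊢
      tauto
    have memvs2 : ∀ o, o ∈ vs ((a, x, c) :: (a, b, x) :: (a, b, c) :: st) →
        o = x ∨ o ∈ vs ((a, b, c) :: st) := by
      intro o ho
      simp only [vs, Finset.mem_union, Finset.mem_insert, Finset.mem_singleton] at ho ⊢
      tauto
    have memvs3 : ∀ o, o ∈ vs ((a, b, x) :: (a, b, c) :: st) →
        o = x ∨ o ∈ vs ((a, b, c) :: st) := by
      intro o ho
      simp only [vs, Finset.mem_union, Finset.mem_insert, Finset.mem_singleton] at ho ⊢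
      tauto
    refine ⟨⟨hxA, hA hbag.hb, hA hbag.hc, xb, xc, hbag.bc, n1, ?_⟩, ?_,
      ⟨hA hbag.ha, hxA, hA hbag.hc, xa.symm, hbag.ac, xc, n2, ?_⟩, ?_,
      ⟨hA hbag.ha, hA hbag.hb, hxA, hbag.ab, xa.symm, xb.symm, n3, ?_⟩, ?_,
      hstk _ ⟨hbag, hl1, hst'⟩ hxg⟩
    · intro o ho
      rcases Finset.mem_insert.1 ho with rfl | ho
      · exact far2a
      · exact (hlev2 o ho).1
    · intro o ho
      rcases memvs o ho with rfl | ho
      · exact far1a
      · exact (hlev1 o ho).1
    · intro o ho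
      rcases Finset.mem_insert.1 ho with rfl | ho
      · exact far2b
      · exact (hlev2 o ho).2.1
    · intro o ho
      rcases memvs2 o ho with rfl | ho
      · exact far1b
      · exact (hlev1 o ho).2.1
    · intro o ho
      rcases Finset.mem_insert.1 ho with rfl | ho
      · exact far2c
      · exact (hlev2 o ho).2.2
    · intro o ho
      rcases memvs3 o ho with rfl | ho
      · exact far1c
      · exact (hlev1 o ho).2.2

end TW3
end
end

section
set_option linter.all false

/-! # Module MEA -/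

noncomputable section

namespace TW3

namespace MEAM

variable {V : Type} [Fintype V] [DecidableEq V]

lemma mono {d : V → V → ℝ} {μ : (V → Bool) → ℝ} {A A' : Finset V} {E E' : V → V → Prop}
    {st : List (V × V × V)} (h : Sta d μ A E st) (hA : A' = A) (hE : ∀ u v, E' u v → E u v) :
    Sta d μ A' E' st := by
  subst hA
  exact ⟨h.nn, fun u v huv => h.up u v (hE u v huv), h.lo, h.stk⟩

lemma ind (h1 : SpecONE) {d : V → V → ℝ} (hd : Dst d) {st : List (V × V × V)} {L : Finset V}
    {E : V → V → Prop} (hs : Seq st L E) : ∀ (μ : (V → Bool) → ℝ) (A : Finset V)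
    (E₀ : V → V → Prop), Sta d μ A E₀ st → Disjoint A L →
    ∃ μ' : (V → Bool) → ℝ, Sta d μ' (A ∪ L) (fun u v => E₀ u v ∨ E u v) [] := by
  induction hs with
  | nil st =>
    intro μ A E₀ h _
    exact ⟨μ, h.nn, fun u v huv => by
      rcases huv with huv | huv
      · obtain ⟨a, b, c⟩ := h.up u v huv
        exact ⟨Finset.mem_union_left _ a, Finset.mem_union_left _ b, c⟩
      · exact huv.elim, by simpa using h.lo, trivial⟩
  | @skip B st L E h ih =>
    intro μ A E₀ hS hA
    obtain ⟨a, b, c⟩ := B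
    exact ih μ A E₀ ⟨hS.nn, hS.up, hS.lo, hS.stk.2.2⟩ hA
  | @add a b c x st L E hx h ih =>
    intro μ A E₀ hS hA
    have hxA : x ∉ A := fun hh =>
      (Finset.disjoint_left.1 hA hh) (Finset.mem_insert_self _ _)
    obtain ⟨μ₁, hμ₁⟩ := h1 V d μ A E₀ st x a b c hd hS hxA
    have hdis : Disjoint (insert x A) L := by
      rw [Finset.disjoint_insert_left]
      exact ⟨hx, Finset.disjoint_of_subset_right (Finset.subset_insert _ _) hA⟩
    obtain ⟨μ', hμ'⟩ := ih μ₁ (insert x A) _ hμ₁ hdis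
    refine ⟨μ', mono hμ' ?_ ?_⟩
    · ext y
      simp only [Finset.mem_union, Finset.mem_insert]
      tauto
    · intro u v huv
      tauto

/-- the cut `{a}` -/
def ct (a : V) : V → Bool := Function.update (fun _ => false) a true

lemma ct_self (a : V) : ct a a = true := by simp [ct]

lemma ct_ne {a b : V} (h : b ≠ a) : ct a b = false := by simp [ct, Function.update_of_ne h]

/-- the initial measure -/
def mu0 (W : ℝ) (a b c : V) : (V → Bool) → ℝ := fun S =>
  (if S = ct a then W / 4 else 0) + (if S = ct b then W / 4 else 0) +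
    (if S = ct c then W / 4 else 0)

lemma II_mu0 (W : ℝ) (a b c : V) (f : (V → Bool) → ℝ) :
    II (mu0 W a b c) f = W / 4 * f (ct a) + W / 4 * f (ct b) + W / 4 * f (ct c) := by
  unfold II mu0
  simp only [add_mul, ite_mul, zero_mul, Finset.sum_add_distrib, Finset.sum_ite_eq',
    Finset.mem_univ, if_true]

lemma nn_mu0 {W : ℝ} (hW : 0 < W) (a b c : V) (S : V → Bool) : 0 ≤ mu0 W a b c S := by
  unfold mu0
  have : 0 ≤ W / 4 := by linarith
  split_ifs <;> linarith

lemma leg_mu0 (W : ℝ) {a b c : V} (ab : a ≠ b) (ac : a ≠ c) (bc : b ≠ c) :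
    leg (mu0 W a b c) a b c = W / 4 ∧ leg (mu0 W a b c) b a c = W / 4 ∧
      leg (mu0 W a b c) c a b = W / 4 := by
  unfold leg
  simp only [II_mu0, ct_self, ct_ne ab, ct_ne ac, ct_ne bc, ct_ne ab.symm, ct_ne ac.symm,
    ct_ne bc.symm]
  refine ⟨?_, ?_, ?_⟩ <;> simp

end MEAM

open MEAM in
theorem specMEA : SpecMEA := by
  intro hO _ hI _ hF
  refine ⟨5 / k₂, div_pos (by norm_num) k2_pos, ?_⟩
  intro V _ _ d W a b c L E hd hW ab ac bc dab dac dbc haL hbL hcL hseq
  have nn := nn_mu0 hW a b c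
  obtain ⟨l1, l2, l3⟩ := leg_mu0 W ab ac bc
  obtain ⟨i1, _, _, _, _, i6, _, _, i9, i10, _⟩ := hI V (mu0 W a b c) nn
  have sab : sep (mu0 W a b c) a b = W / 2 := by
    rw [i6 a b c, l1, l2]; ring
  have sac : sep (mu0 W a b c) a c = W / 2 := by
    rw [i6 a c b, i1 a c b, l1, l3]; ring
  have sbc : sep (mu0 W a b c) b c = W / 2 := by
    rw [i6 b c a, i1 b c a, l2, i1 c b a, l3]; ring
  have hN : NAt d (mu0 W a b c) a b c := by
    unfold NAt
    rw [l1, l2, l3, dab, dac, dbc]
    have k1 := SS_le1 (W / 4) (W / 4) (W / 4)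
    refine ⟨⟨by linarith, by linarith, by linarith, by linarith, by linarith, by linarith,
      by linarith, by linarith, by linarith⟩, ⟨Or.inl (by linarith), Or.inl (by linarith),
      Or.inl (by linarith)⟩, ⟨Or.inl (by linarith), Or.inl (by linarith),
      Or.inl (by linarith)⟩⟩
  -- the distances on the root bag
  have hdist : ∀ o ∈ ({a, b, c} : Finset V), ∀ g ∈ ({a, b, c} : Finset V),
      d o g ≤ 2 * sep (mu0 W a b c) o g := by
    intro o ho g hg
    simp only [Finset.mem_insert, Finset.mem_singleton] at ho hg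
    rcases ho with rfl | rfl | rfl <;> rcases hg with rfl | rfl | rfl
    · rw [hd.self, i10]; simp
    · rw [dab, sab]; linarith
    · rw [dac, sac]; linarith
    · rw [hd.comm, i9, dab, sab]; linarith
    · rw [hd.self, i10]; simp
    · rw [dbc, sbc]; linarith
    · rw [hd.comm, i9, dac, sac]; linarith
    · rw [hd.comm, i9, dbc, sbc]; linarith
    · rw [hd.self, i10]; simp
  have hnon : ∀ u v, 0 ≤ sep (mu0 W a b c) u v := by
    intro u v
    unfold sep II
    apply Finset.sum_nonneg
    intro S _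
    apply mul_nonneg (nn S)
    show (0 : ℝ) ≤ if S u = S v then 0 else 1
    split_ifs <;> norm_num
  have hfar : ∀ M K k : ℝ, 10000000 ≤ M → K = 100000 * M → 0 < k → 1000 * (k * K) ≤ 1 →
      ∀ o ∈ ({a, b, c} : Finset V), FAt M K k d (mu0 W a b c) o a b c := by
    intro M K k hM hK hk hkK o ho
    have key : ∀ g ∈ ({a, b, c} : Finset V), d o g ≤ M * sep (mu0 W a b c) o g := by
      intro g hg
      refine (hdist o ho g hg).trans ?_
      exact mul_le_mul_of_nonneg_right (by linarith) (hnon _ _)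
    exact (hF V d (mu0 W a b c) a b c hd nn hN M K k hM hK hk hkK).2 o (key a (by simp))
      (key b (by simp)) (key c (by simp))
  have hk2 : k₂ ≤ 1 := by
    unfold k₂ K₂; rw [M2_val]; norm_num
  have hSta : Sta d (mu0 W a b c) {a, b, c} (fun _ _ => False) [(a, b, c)] := by
    refine ⟨nn, fun _ _ h => h.elim, ?_, ⟨⟨by simp, by simp, by simp, ab, ac, bc, hN,
      hfar _ _ _ M2_le rfl k2_pos k2_ok⟩, ?_, trivial⟩⟩
    · intro u hu v hv
      have h1 := hdist u hu v hv
      have h2 := hnon u v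
      have h3 : 0 ≤ d u v := by
        by_cases h : u = v
        · rw [h, hd.self]
        · exact (hd.pos _ _ h).le
      have h4 : k₂ * d u v ≤ 1 * d u v := mul_le_mul_of_nonneg_right hk2 h3
      linarith
    · intro o ho
      apply hfar _ _ _ M1_le rfl k1_pos k1_ok o
      simpa [vs] using ho
  have hdisj : Disjoint ({a, b, c} : Finset V) L := by
    rw [Finset.disjoint_left]
    intro y hy
    simp only [Finset.mem_insert, Finset.mem_singleton] at hy
    rcases hy with rfl | rfl | rfl <;> assumption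
  obtain ⟨μ', hμ'⟩ := ind hO hd hseq _ _ _ hSta hdisj
  obtain ⟨_, _, _, _, _, _, _, _, _, _, m, f, hf⟩ := hI V μ' hμ'.nn
  refine ⟨m, f, ?_, ?_⟩
  · intro u v huv
    rw [← hf]
    exact (hμ'.up u v (Or.inr huv)).2.2
  · intro u hu v hv
    rw [← hf, div_mul_eq_mul_div, le_div_iff₀ k2_pos]
    have := hμ'.lo u (Finset.mem_union_right _ hu) v (Finset.mem_union_right _ hv)
    linarith

end TW3
end
end

section
set_option linter.all false

/-!
# Module STA: one step, one origin
-/

noncomputable section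

namespace TW3

namespace STAM

lemma stepOK_swap12 {m₁ m₂ m₃ l₁ l₂ l₃ d₁ d₂ d₃ T₁ T₂ T₃ n : ℝ}
    (h : StepOK m₁ m₂ m₃ l₁ l₂ l₃ d₁ d₂ d₃ T₁ T₂ T₃ n) :
    StepOK m₂ m₁ m₃ l₂ l₁ l₃ d₂ d₁ d₃ T₂ T₁ T₃ n :=
  ⟨h.T2, h.T1, h.T3, by linarith [h.sum], h.n0, h.S.swap12⟩

lemma stepOK_swap23 {m₁ m₂ m₃ l₁ l₂ l₃ d₁ d₂ d₃ T₁ T₂ T₃ n : ℝ}
    (h : StepOK m₁ m₂ m₃ l₁ l₂ l₃ d₁ d₂ d₃ T₁ T₂ T₃ n) :
    StepOK m₁ m₃ m₂ l₁ l₃ l₂ d₁ d₃ d₂ T₁ T₃ T₂ n :=
  ⟨h.T1, h.T3, h.T2, by linarith [h.sum], h.n0, h.S.swap23⟩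

lemma dst_nonneg {V : Type} {d : V → V → ℝ} (hd : Dst d) (x y : V) : 0 ≤ d x y := by
  by_cases h : x = y
  · rw [h, hd.self]
  · exact (hd.pos x y h).le

lemma dst_abs {V : Type} {d : V → V → ℝ} (hd : Dst d) (o x y : V) : |d o x - d o y| ≤ d x y := by
  rw [abs_le]
  constructor
  · have := hd.tri o x y
    linarith
  · have := hd.tri o y x
    rw [hd.comm y x] at this
    linarith

variable {V : Type} [Fintype V] [DecidableEq V]

lemma good_swap12 (hIDS : SpecIDS) {d : V → V → ℝ} {μ : (V → Bool) → ℝ} {x a b c : V}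
    {T₁ T₂ T₃ n : ℝ} (hd : Dst d) (hμ : ∀ S, 0 ≤ μ S) (h : GoodStep d μ x a b c T₁ T₂ T₃ n) :
    GoodStep d μ x b a c T₂ T₁ T₃ n := by
  unfold GoodStep at h ⊢
  rw [(hIDS V μ hμ).1 c b a, hd.comm b a]
  exact stepOK_swap12 h

lemma good_swap23 (hIDS : SpecIDS) {d : V → V → ℝ} {μ : (V → Bool) → ℝ} {x a b c : V}
    {T₁ T₂ T₃ n : ℝ} (hd : Dst d) (hμ : ∀ S, 0 ≤ μ S) (h : GoodStep d μ x a b c T₁ T₂ T₃ n) :
    GoodStep d μ x a c b T₁ T₃ T₂ n := by
  unfold GoodStep at h ⊢
  rw [(hIDS V μ hμ).1 a c b, hd.comm c b]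
  exact stepOK_swap23 h

/-- the bag `(x, b, c)` -/
lemma main_bag (hCLO : SpecCLO) (hINI : SpecINI) (hUPD : SpecUPD) (hIDS : SpecIDS)
    {d : V → V → ℝ} {μ : (V → Bool) → ℝ} {x a b c : V} {T₁ T₂ T₃ n : ℝ} (hd : Dst d)
    (hμ : ∀ S, 0 ≤ μ S) (hμ' : ∀ S, 0 ≤ addV μ x a b c T₁ T₂ T₃ n S) (xa : x ≠ a) (xb : x ≠ b)
    (xc : x ≠ c) (hN : NAt d μ a b c) (h : GoodStep d μ x a b c T₁ T₂ T₃ n) :
    NAt d (addV μ x a b c T₁ T₂ T₃ n) x b c ∧
    ∀ M K k : ℝ, 10000000 ≤ M → K = 100000 * M → 0 < k → 1000 * (k * K) ≤ 1 →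
      (∀ o, o ≠ x → FAt M K k d μ o a b c → FAt M K k d (addV μ x a b c T₁ T₂ T₃ n) o x b c) ∧
      FAt M K k d (addV μ x a b c T₁ T₂ T₃ n) x x b c := by
  obtain ⟨-, -, -, -, -, -, e1, e2, e3, e4⟩ := hUPD V μ x a b c T₁ T₂ T₃ n xa xb xc
  have hI := hIDS V μ hμ
  have hI' := hIDS V _ hμ'
  have g : StepOK (leg μ a b c) (leg μ b a c) (leg μ c a b) (d b c) (d a c) (d a b) (d x a)
    (d x b) (d x c) T₁ T₂ T₃ n := h
  have hNN : NAt d (addV μ x a b c T₁ T₂ T₃ n) x b c := by
    unfold NAt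
    rw [e1, e2, e3]
    exact g.S.b1
  refine ⟨hNN, ?_⟩
  intro M K k hM hK hk hkK
  have hM0 : 0 < M := by linarith
  have hK0 : 0 < K := by rw [hK]; positivity
  refine ⟨?_, ?_⟩
  · intro o ho hF
    obtain ⟨f1, f2, f3, f4⟩ := e4 o ho
    unfold FAt at hF ⊢
    rw [f1, f2, f3, f4, e1, e2, e3]
    have hN' : NInv (leg μ a b c) (leg μ b a c) (leg μ c a b) (d b c) (d a c) (d a b) := hN
    have lip : ∀ y z m, d y z / 10000000 ≤ m → |d o y - d o z| ≤ M * m := by
      intro y z m hm
      refine (dst_abs hd o y z).trans ?_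
      have h0 := dst_nonneg hd y z
      have h1 : 0 ≤ m := le_trans (by positivity) hm
      have h2 : 10000000 * m ≤ M * m := mul_le_mul_of_nonneg_right hM h1
      linarith
    have b1 := hI.2.2.2.2.1 o a b c
    have b2 := hI.2.2.2.2.1 o b a c
    have b3 := hI.2.2.2.2.1 o c a b
    have hOrg : Org M K k (out μ o a b c) (leg μ a b c) (leg μ b a c) (leg μ c a b)
        (bet μ o a b c) (bet μ o b a c) (bet μ o c a b) (d o a) (d o b) (d o c) := by
      refine ⟨hM0, by rw [hK]; linarith, hk, hkK, b1.2.2, b1.1, b2.1, b3.1, b1.2.1, b2.2.1,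
        b3.2.1, ?_, ?_, ?_⟩
      · exact lip b c _ hN'.B.lb1
      · exact lip a c _ hN'.B.lb2
      · exact lip a b _ hN'.B.lb3
    have mulM : ∀ dd w : ℝ, 0 ≤ dd → dd / 10000000 ≤ w → dd ≤ M * w := by
      intro dd w h0 hw
      have h1 : 0 ≤ w := le_trans (by positivity) hw
      have h2 : 10000000 * w ≤ M * w := mul_le_mul_of_nonneg_right hM h1
      linarith
    have mulC : ∀ mg dg s1 s23 : ℝ, 0 ≤ dg → mg + dg / 10000000 ≤ s1 + 100000 * s23 →
        M * mg + dg ≤ M * s1 + K * s23 := by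
      intro mg dg s1 s23 h0 hw
      have h1 : M * (mg + dg / 10000000) ≤ M * (s1 + 100000 * s23) :=
        mul_le_mul_of_nonneg_left hw hM0.le
      have h2 : dg ≤ M * (dg / 10000000) := mulM dg _ h0 le_rfl
      rw [hK]
      linarith
    have xd1 := dst_nonneg hd x a
    have xd2 := dst_nonneg hd x b
    have xd3 := dst_nonneg hd x c
    have hStp : Stp M K (leg μ a b c) (leg μ b a c) (leg μ c a b) T₁ T₂ T₃ n (d o a) (d o b)
        (d o c) (d o x) (d x a) (d x b) (d x c) := by
      refine ⟨g.T1, g.T2, g.T3, g.sum, g.n0, ?_, ?_, ?_, ?_, ?_⟩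
      · rw [hd.comm x a]; exact hd.tri o a x
      · rw [hd.comm x b]; exact hd.tri o b x
      · rw [hd.comm x c]; exact hd.tri o c x
      · exact mulM _ _ xd1 g.S.v1
      · rcases g.S.c1 with h1 | h1 | h1
        · exact Or.inl (mulC _ _ _ _ xd1 h1)
        · exact Or.inr (Or.inl (mulC _ _ _ _ xd2 h1))
        · exact Or.inr (Or.inr (mulC _ _ _ _ xd3 h1))
    exact hCLO M K k _ _ _ _ _ _ _ _ _ _ T₁ T₂ T₃ n _ _ _ _ hOrg hF hStp
  · unfold FAt
    obtain ⟨i1, i2, i3, i4⟩ := hI'.2.2.2.2.2.2.2.1 x b c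
    rw [i1, i2, i3, i4, hd.self]
    exact hINI.1 M K k _ _ _ _ _ hM0 hK0 hk (by
      have : 0 < k * K := by positivity
      linarith) (hI'.2.2.2.1 x b c) (hI'.2.2.2.1 b x c) (hI'.2.2.2.1 c x b)

end STAM

open STAM in
theorem specSTA : SpecSTA := by
  intro hCLO hINI hEXT hUPD hIDS hSYM V _ _ d μ x a b c T₁ T₂ T₃ n hd hμ xa xb xc ab ac bc hN h
  have g : StepOK (leg μ a b c) (leg μ b a c) (leg μ c a b) (d b c) (d a c) (d a b) (d x a)
    (d x b) (d x c) T₁ T₂ T₃ n := h
  have hμ' : ∀ S, 0 ≤ addV μ x a b c T₁ T₂ T₃ n S :=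
    (hEXT V μ x a b c T₁ T₂ T₃ n).2 hμ g.T1 g.T2 g.T3 g.sum g.n0
  have hU := hUPD V μ x a b c T₁ T₂ T₃ n xa xb xc
  -- permutations of the measure
  have p12 : addV μ x a b c T₁ T₂ T₃ n = addV μ x b a c T₂ T₁ T₃ n := hU.1
  have p23 : addV μ x a b c T₁ T₂ T₃ n = addV μ x a c b T₁ T₃ T₂ n := hU.2.1
  have p13 : addV μ x a b c T₁ T₂ T₃ n = addV μ x c a b T₃ T₁ T₂ n := by
    rw [p23]
    exact (hUPD V μ x a c b T₁ T₃ T₂ n xa xc xb).1
  have hS := hSYM V μ d hμ hd.comm
  have hS' := hSYM V _ d hμ' hd.comm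
  have g12 := good_swap12 hIDS hd hμ h
  have g13 := good_swap12 hIDS hd hμ (good_swap23 hIDS hd hμ h)
  have N12 : NAt d μ b a c := hS.1 a b c hN
  have N13 : NAt d μ c a b := hS.1 a c b (hS.2.1 a b c hN)
  obtain ⟨n1, q1⟩ := main_bag hCLO hINI hUPD hIDS hd hμ hμ' xa xb xc hN h
  obtain ⟨n2, q2⟩ := main_bag hCLO hINI hUPD hIDS hd hμ (by rw [← p12]; exact hμ') xb xa xc
    N12 g12
  obtain ⟨n3, q3⟩ := main_bag hCLO hINI hUPD hIDS hd hμ (by rw [← p13]; exact hμ') xc xa xb
    N13 g13
  rw [← p12] at n2 q2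
  rw [← p13] at n3 q3
  have hI' := hIDS V _ hμ'
  refine ⟨hμ', ⟨n1, hS'.1 _ _ _ n2, hS'.2.1 _ _ _ (hS'.1 _ _ _ n3), ?_⟩, ?_, ?_⟩
  · unfold NAt
    rw [hU.2.2.2.1 a b c xa.symm xb.symm xc.symm, hU.2.2.2.1 b a c xb.symm xa.symm xc.symm,
      hU.2.2.2.1 c a b xc.symm xa.symm xb.symm]
    exact hN
  · intro M K k hM hK hk hkK
    obtain ⟨r1, s1⟩ := q1 M K k hM hK hk hkK
    obtain ⟨r2, s2⟩ := q2 M K k hM hK hk hkK
    obtain ⟨r3, s3⟩ := q3 M K k hM hK hk hkK
    refine ⟨?_, s1, ?_, ?_⟩
    · intro o ho hF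
      refine ⟨r1 o ho hF, ?_, ?_⟩
      · exact hS'.2.2.1 M K k _ _ _ _ (r2 o ho (hS.2.2.1 M K k _ _ _ _ hF))
      · exact hS'.2.2.2 M K k _ _ _ _ (hS'.2.2.1 M K k _ _ _ _ (r3 o ho
          (hS.2.2.1 M K k _ _ _ _ (hS.2.2.2 M K k _ _ _ _ hF))))
    · exact hS'.2.2.1 M K k _ _ _ _ s2
    · exact hS'.2.2.2 M K k _ _ _ _ (hS'.2.2.1 M K k _ _ _ _ s3)
  · have hsep := hI'.2.2.2.2.2.1
    have n1' : NInv _ _ _ _ _ _ := n1
    have n2' : NInv _ _ _ _ _ _ := n2
    rintro y (rfl | rfl | rfl)
    · rw [hsep x y c]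
      exact ⟨n2'.B.ub3, n2'.B.lb3⟩
    · rw [hsep x y c]
      exact ⟨n1'.B.ub3, n1'.B.lb3⟩
    · rw [hsep x y b, hI'.1 x y b]
      exact ⟨n1'.B.ub2, n1'.B.lb2⟩

end TW3
end
end

section
set_option linter.all false

noncomputable section

namespace TW3

/-- [SYM] permutations of a bag -/
theorem specSYM (hPER : SpecPER) (hIDS : SpecIDS) : SpecSYM := by
  intro V _ _ μ d hμ hd
  obtain ⟨i1, i2, i3, -⟩ := hIDS V μ hμ
  refine ⟨?_, ?_, ?_, ?_⟩
  · intro a b c h
    unfold NAt at h ⊢
    have := h.swap12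
    rw [i1 c b a, hd b a]
    exact this
  · intro a b c h
    unfold NAt at h ⊢
    have := h.swap23
    rw [i1 a c b, hd c b]
    exact this
  · intro M K k o a b c h
    unfold FAt at h ⊢
    have := hPER.1 _ _ _ _ _ _ _ _ _ _ _ _ _ h
    rw [i1 c b a, i2 o c b a, (i3 o b a c).1]
    exact this
  · intro M K k o a b c h
    unfold FAt at h ⊢
    have := hPER.2 _ _ _ _ _ _ _ _ _ _ _ _ _ h
    rw [i1 a c b, i2 o a c b, (i3 o a c b).2]
    exact this

end TW3
end
end

section
set_option linter.all false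

/-!
# Treewidth three: the module UPD (the new measure)
-/

noncomputable section

namespace TW3

namespace UPDM

variable {V : Type} [Fintype V] [DecidableEq V]

theorem II_lin (μ f g h : (V → Bool) → ℝ) (r s t : ℝ) :
    r * II μ f + s * II μ g + t * II μ h = ∑ S, μ S * (r * f S + s * g S + t * h S) := by
  unfold II
  rw [Finset.mul_sum, Finset.mul_sum, Finset.mul_sum, ← Finset.sum_add_distrib,
    ← Finset.sum_add_distrib]
  exact Finset.sum_congr rfl fun S _ => by ring

theorem prb_swap12 (T₁ T₂ T₃ : ℝ) (S : V → Bool) (a b c : V) :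
    prb T₁ T₂ T₃ S a b c = prb T₂ T₁ T₃ S b a c := by
  unfold prb
  cases S a <;> cases S b <;> cases S c <;> simp

theorem prb_swap23 (T₁ T₂ T₃ : ℝ) (S : V → Bool) (a b c : V) :
    prb T₁ T₂ T₃ S a b c = prb T₁ T₃ T₂ S a c b := by
  unfold prb
  cases S a <;> cases S b <;> cases S c <;> simp

theorem maj_swap12 (S : V → Bool) (a b c : V) : maj S a b c = maj S b a c := by
  unfold maj
  cases S a <;> cases S b <;> cases S c <;> rfl

theorem maj_swap23 (S : V → Bool) (a b c : V) : maj S a b c = maj S a c b := by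
  unfold maj
  cases S a <;> cases S b <;> cases S c <;> rfl

/-- the main tool: a function `f` of the new cut, with the value `F S t` on the extension of `S`
by `t` at `x` -/
theorem upd_tool (hEXT : SpecEXT) (μ : (V → Bool) → ℝ) (x a b c : V) (T₁ T₂ T₃ n : ℝ)
    (f g h k : (V → Bool) → ℝ) (r s t m : ℝ)
    (hf : ∀ S, prb T₁ T₂ T₃ S a b c * f (Function.update S x (!maj S a b c)) +
      (1 - prb T₁ T₂ T₃ S a b c) * f (Function.update S x (maj S a b c)) =
      r * g S + s * h S + t * k S)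
    (hm : f (Function.update (fun _ => false) x true) = m) :
    II (addV μ x a b c T₁ T₂ T₃ n) f = r * II μ g + s * II μ h + t * II μ k + n * m := by
  rw [(hEXT V μ x a b c T₁ T₂ T₃ n).1 f, hm, II_lin]
  congr 1
  exact Finset.sum_congr rfl fun S _ => by rw [hf S]

end UPDM

open UPDM in
theorem specUPD (hEXT : SpecEXT) : SpecUPD := by
  intro V _ _ μ x a b c T₁ T₂ T₃ n hxa hxb hxc
  have hax : a ≠ x := hxa.symm
  have hbx : b ≠ x := hxb.symm
  have hcx : c ≠ x := hxc.symm
  refine ⟨?_, ?_, ?_, ?_, ?_, ?_, ?_, ?_, ?_, ?_⟩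
  · funext S'
    unfold addV
    simp only [prb_swap12 T₁ T₂ T₃ _ a b c, maj_swap12 _ a b c]
  · funext S'
    unfold addV
    simp only [prb_swap23 T₁ T₂ T₃ _ a b c, maj_swap23 _ a b c]
  · intro u v hu hv
    unfold sep
    have h := upd_tool hEXT μ x a b c T₁ T₂ T₃ n (fun S => if S u = S v then (0 : ℝ) else 1)
      (fun S => if S u = S v then 0 else 1) (fun _ => 0) (fun _ => 0) 1 0 0 0
      (fun S => by
        simp only [Function.update_of_ne hu, Function.update_of_ne hv]
        ring)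
      (by simp [Function.update_of_ne hu, Function.update_of_ne hv])
    rw [h]
    ring
  · intro u v w hu hv hw
    unfold leg
    have h := upd_tool hEXT μ x a b c T₁ T₂ T₃ n
      (fun S => if S u ≠ S v ∧ S v = S w then (1 : ℝ) else 0)
      (fun S => if S u ≠ S v ∧ S v = S w then 1 else 0) (fun _ => 0) (fun _ => 0) 1 0 0 0
      (fun S => by
        simp only [Function.update_of_ne hu, Function.update_of_ne hv, Function.update_of_ne hw]
        ring)
      (by simp [Function.update_of_ne hu, Function.update_of_ne hv, Function.update_of_ne hw])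
    rw [h]
    ring
  · intro o u v w ho hu hv hw
    unfold bet
    have h := upd_tool hEXT μ x a b c T₁ T₂ T₃ n
      (fun S => if S u ≠ S v ∧ S v = S w ∧ S o = S u then (1 : ℝ) else 0)
      (fun S => if S u ≠ S v ∧ S v = S w ∧ S o = S u then 1 else 0)
      (fun _ => 0) (fun _ => 0) 1 0 0 0
      (fun S => by
        simp only [Function.update_of_ne ho, Function.update_of_ne hu, Function.update_of_ne hv,
          Function.update_of_ne hw]
        ring)
      (by simp [Function.update_of_ne ho, Function.update_of_ne hu, Function.update_of_ne hv,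
          Function.update_of_ne hw])
    rw [h]
    ring
  · intro o u v w ho hu hv hw
    unfold out
    have h := upd_tool hEXT μ x a b c T₁ T₂ T₃ n
      (fun S => if S u = S v ∧ S v = S w ∧ S o ≠ S u then (1 : ℝ) else 0)
      (fun S => if S u = S v ∧ S v = S w ∧ S o ≠ S u then 1 else 0)
      (fun _ => 0) (fun _ => 0) 1 0 0 0
      (fun S => by
        simp only [Function.update_of_ne ho, Function.update_of_ne hu, Function.update_of_ne hv,
          Function.update_of_ne hw]
        ring)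
      (by simp [Function.update_of_ne ho, Function.update_of_ne hu, Function.update_of_ne hv,
          Function.update_of_ne hw])
    rw [h]
    ring
  · have h := upd_tool hEXT μ x a b c T₁ T₂ T₃ n
      (fun S => if S x ≠ S b ∧ S b = S c then (1 : ℝ) else 0)
      (fun S => if S a ≠ S b ∧ S b = S c then 1 else 0) (fun _ => 0) (fun _ => 0) T₁ 0 0 1
      (fun S => by
        simp only [Function.update_self, Function.update_of_ne hbx, Function.update_of_ne hcx]
        unfold prb maj
        cases S a <;> cases S b <;> cases S c <;> simp)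
      (by simp [Function.update_of_ne hbx, Function.update_of_ne hcx])
    unfold leg
    rw [h]
    ring
  · have h := upd_tool hEXT μ x a b c T₁ T₂ T₃ n
      (fun S => if S b ≠ S x ∧ S x = S c then (1 : ℝ) else 0)
      (fun S => if S b ≠ S a ∧ S a = S c then 1 else 0)
      (fun S => if S c ≠ S a ∧ S a = S b then 1 else 0) (fun _ => 0) (1 - T₂) T₃ 0 0
      (fun S => by
        simp only [Function.update_self, Function.update_of_ne hbx, Function.update_of_ne hcx]
        unfold prb maj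
        cases S a <;> cases S b <;> cases S c <;> simp)
      (by simp [Function.update_of_ne hbx, Function.update_of_ne hcx])
    unfold leg
    rw [h]
    ring
  · have h := upd_tool hEXT μ x a b c T₁ T₂ T₃ n
      (fun S => if S c ≠ S x ∧ S x = S b then (1 : ℝ) else 0)
      (fun S => if S c ≠ S a ∧ S a = S b then 1 else 0)
      (fun S => if S b ≠ S a ∧ S a = S c then 1 else 0) (fun _ => 0) (1 - T₃) T₂ 0 0
      (fun S => by
        simp only [Function.update_self, Function.update_of_ne hbx, Function.update_of_ne hcx]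
        unfold prb maj
        cases S a <;> cases S b <;> cases S c <;> simp)
      (by simp [Function.update_of_ne hbx, Function.update_of_ne hcx])
    unfold leg
    rw [h]
    ring
  · intro o ho
    refine ⟨?_, ?_, ?_, ?_⟩
    · have h := upd_tool hEXT μ x a b c T₁ T₂ T₃ n
        (fun S => if S x = S b ∧ S b = S c ∧ S o ≠ S x then (1 : ℝ) else 0)
        (fun S => if S a = S b ∧ S b = S c ∧ S o ≠ S a then 1 else 0)
        (fun S => if S a ≠ S b ∧ S b = S c ∧ S o = S a then 1 else 0) (fun _ => 0) 1 (1 - T₁) 0 0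
        (fun S => by
          simp only [Function.update_self, Function.update_of_ne hbx, Function.update_of_ne hcx,
            Function.update_of_ne ho]
          unfold prb maj
          cases S a <;> cases S b <;> cases S c <;> cases S o <;> simp)
        (by simp [Function.update_of_ne hbx, Function.update_of_ne hcx,
            Function.update_of_ne ho])
      unfold out bet
      rw [h]
      ring
    · have h := upd_tool hEXT μ x a b c T₁ T₂ T₃ n
        (fun S => if S x ≠ S b ∧ S b = S c ∧ S o = S x then (1 : ℝ) else 0)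
        (fun S => if S a ≠ S b ∧ S b = S c ∧ S o = S a then 1 else 0)
        (fun _ => 0) (fun _ => 0) T₁ 0 0 0
        (fun S => by
          simp only [Function.update_self, Function.update_of_ne hbx, Function.update_of_ne hcx,
            Function.update_of_ne ho]
          unfold prb maj
          cases S a <;> cases S b <;> cases S c <;> cases S o <;> simp)
        (by simp [Function.update_of_ne hbx, Function.update_of_ne hcx,
            Function.update_of_ne ho])
      unfold bet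
      rw [h]
      ring
    · have h := upd_tool hEXT μ x a b c T₁ T₂ T₃ n
        (fun S => if S b ≠ S x ∧ S x = S c ∧ S o = S b then (1 : ℝ) else 0)
        (fun S => if S b ≠ S a ∧ S a = S c ∧ S o = S b then 1 else 0)
        (fun S => if S c ≠ S a ∧ S a = S b then 1 else 0)
        (fun S => if S c ≠ S a ∧ S a = S b ∧ S o = S c then 1 else 0) (1 - T₂) T₃ (-T₃) 0
        (fun S => by
          simp only [Function.update_self, Function.update_of_ne hbx, Function.update_of_ne hcx,
            Function.update_of_ne ho]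
          unfold prb maj
          cases S a <;> cases S b <;> cases S c <;> cases S o <;> simp)
        (by simp [Function.update_of_ne hbx, Function.update_of_ne hcx,
            Function.update_of_ne ho])
      unfold bet leg
      rw [h]
      ring
    · have h := upd_tool hEXT μ x a b c T₁ T₂ T₃ n
        (fun S => if S c ≠ S x ∧ S x = S b ∧ S o = S c then (1 : ℝ) else 0)
        (fun S => if S c ≠ S a ∧ S a = S b ∧ S o = S c then 1 else 0)
        (fun S => if S b ≠ S a ∧ S a = S c then 1 else 0)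
        (fun S => if S b ≠ S a ∧ S a = S c ∧ S o = S b then 1 else 0) (1 - T₃) T₂ (-T₂) 0
        (fun S => by
          simp only [Function.update_self, Function.update_of_ne hbx, Function.update_of_ne hcx,
            Function.update_of_ne ho]
          unfold prb maj
          cases S a <;> cases S b <;> cases S c <;> cases S o <;> simp)
        (by simp [Function.update_of_ne hbx, Function.update_of_ne hcx,
            Function.update_of_ne ho])
      unfold bet leg
      rw [h]
      ring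

end TW3
end
end
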