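import Pool.Agent.Lib.MP_2eab14_co.TW3.SpecR

section
set_option linter.all false

/-!
# Treewidth three, module CH1 (helper28)

`2` is the nearest vertex, the edge `12` is long and nearly collapsed, `3` is not of type P and the
chord `23` is tight. Step `T = (0, 1 - t, t)`, `n = G / 2`. All products with `t` are introduced as
new variables; the rest is linear.
-/

noncomputable section

namespace TW3

namespace CH1M

set_option maxHeartbeats 4000000 in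
/-- The linear part: `p1, p2, p3 = t m₁, t m₂, t m₃`, `q2, q3 = t l₂, t l₃`, `t l₁ = d₂ - G`. -/
theorem core {m₁ m₂ m₃ l₁ l₂ l₃ d₁ d₂ d₃ G p1 p2 p3 q2 q3 : ℝ}
    (hB : NB m₁ m₂ m₃ l₁ l₂ l₃) (hT : Tri4 l₁ l₂ l₃ d₁ d₂ d₃)
    (h21 : d₂ ≤ d₁) (h23 : d₂ ≤ d₃) (hD1 : 100 * (m₁ + m₂) < l₃) (hD2 : 100 * d₂ ≤ l₃)
    (hR : d₂ / 20 ≤ m₂ + m₃) (h3 : d₃ - l₁ ≤ d₂ / 5)
    (hs : (l₁ - m₂ - m₃) / 100 < l₁ / 10000000)
    (hG : 2 * G = d₂ + d₃ - l₁)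
    (k1 : 0 ≤ p1) (k2 : 0 ≤ p2) (k3 : 0 ≤ p3) (k1' : 2 * p1 ≤ m₁) (k2' : 2 * p2 ≤ m₂)
    (k3' : 2 * p3 ≤ m₃)
    -- `0 ≤ t σ ≤ σ / 2`
    (e1 : p2 + p3 ≤ d₂ - G) (e2 : 2 * (d₂ - G - p2 - p3) ≤ l₁ - m₂ - m₃)
    -- `t σ ≤ t l₁ / 10^5`, `(1-t) σ ≤ (1-t) l₁ / 10^5`
    (e3 : (d₂ - G - p2 - p3) ≤ (d₂ - G) / 100000)
    (e4 : (l₁ - m₂ - m₃) - (d₂ - G - p2 - p3) ≤ (l₁ - (d₂ - G)) / 100000)
    -- the products of `lb2`, `lb3`
    (f1 : q2 / 10000000 ≤ p1 + p3) (f2 : (l₃ - q3) / 10000000 ≤ m₁ + m₂ - p1 - p2)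
    -- the alternatives of `z1`
    (g : ((l₂ + 2 * l₁) / 10000000 ≤ m₁ + m₂ + (l₁ - m₂ - m₃) / 100 ∧
        (l₂ - q2 + 2 * (l₁ - (d₂ - G))) / 10000000 ≤
          m₁ + m₂ - p1 - p2 + ((l₁ - m₂ - m₃) - (d₂ - G - p2 - p3)) / 100) ∨
      ((l₃ + 2 * l₁) / 10000000 ≤ m₁ + m₃ + (l₁ - m₂ - m₃) / 100 ∧
        (q3 + 2 * (d₂ - G)) / 10000000 ≤ p1 + p3 + (d₂ - G - p2 - p3) / 100))
    -- `t (4 m₃ - m₂)`
    (hc : 4 * m₃ < m₂ ∨ p2 ≤ 4 * p3) :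
    StepS m₁ m₂ m₃ l₁ l₂ l₃ d₁ d₂ d₃ 0 (m₂ - p2) p3 (G / 2) := by
  obtain ⟨m1, m2, m3, ub1, ub2, ub3, lb1, lb2, lb3⟩ := hB
  obtain ⟨⟨pl1, pl2, pl3, tl1, tl2, tl3⟩, ⟨_, pd2, pd3, t11, t12, t13⟩,
    ⟨_, pd1, _, t21, t22, t23⟩, ⟨_, _, _, t31, t32, t33⟩⟩ := hT
  have G0 : 0 ≤ G := by linarith
  have G1 : 5 * G ≤ 3 * d₂ := by linarith
  have L1 : 4 * d₂ ≤ 5 * l₁ := by linarith
  have R1 : 999 * l₁ ≤ 1000 * (m₂ + m₃) := by linarith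
  -- the bounds of `ρ(x,1)`
  have hr : p2 + p3 ≤ d₂ := by linarith
  have u1 : G / 2 + m₁ - 0 + (m₂ - p2) + p3 ≤ l₃ / 50 := by linarith
  have hd1 : 99 * l₃ ≤ 100 * d₁ := by linarith
  have v1 : d₁ / 10000000 ≤ G / 2 + m₁ - 0 + (m₂ - p2) + p3 := by
    rcases g with ⟨_, g2⟩ | ⟨_, g2⟩
    · linarith
    · linarith
  have u2 : G / 2 + p2 + p3 ≤ d₂ := by linarith
  have u3 : G / 2 + m₃ + (m₂ - p2) - p3 ≤ d₃ := by linarith
  have v2 : d₂ / 10 ≤ G / 2 + p2 + p3 := by linarith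
  have v3 : d₃ / 10 ≤ G / 2 + m₃ + (m₂ - p2) - p3 := by linarith
  refine ⟨by linarith, by linarith, by linarith, v1, by linarith, by linarith,
    Or.inr (Or.inl (by linarith)), ?_, Or.inr (Or.inl (by linarith)), ⟨?_, ?_, ?_⟩, ⟨?_, ?_, ?_⟩,
    ⟨?_, ?_, ?_⟩⟩
  · rcases hc with hc | hc
    · exact Or.inr (Or.inr (by linarith))
    · exact Or.inr (Or.inl (by linarith))
  -- b1
  · exact ⟨by linarith, by linarith, by linarith, by linarith, by linarith, by linarith,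
      by linarith, by linarith, by linarith⟩
  · refine ⟨Zc.of_len (by linarith) (by linarith) (by linarith) (by linarith) (by linarith),
      Zc.of_len (by linarith) (by linarith) (by linarith) (by linarith) (by linarith),
      Or.inr (Or.inl (by linarith))⟩
  · exact A3.of_two1 (by linarith) (by linarith) (by linarith) (by linarith)
  -- b2
  · exact ⟨by linarith, by linarith, by linarith, by linarith, by linarith, by linarith,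
      by linarith, by linarith, by linarith⟩
  · refine ⟨?_, ?_, Zc.of_slack (by linarith)⟩
    · rcases g with ⟨g1, g2⟩ | ⟨g1, g2⟩
      · exact Or.inr (Or.inl (by linarith))
      · exact Or.inr (Or.inr (by linarith))
    · rcases le_total l₃ (1000000 * (m₂ + m₃)) with h | h
      · exact Or.inr (Or.inr (by linarith))
      · exact Zc.of_slack (by linarith)
  · exact A3.of_edge12 (by linarith) (by linarith) (by linarith) (by linarith)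
      (Or.inl le_rfl) (by linarith)
  -- b3
  · exact ⟨by linarith, by linarith, by linarith, by linarith, by linarith, by linarith,
      by linarith, by linarith, by linarith⟩
  · refine ⟨?_, Zc.of_slack (by linarith), Zc.of_slack (by linarith)⟩
    rcases g with ⟨g1, g2⟩ | ⟨g1, g2⟩
    · exact Or.inr (Or.inl (by linarith))
    · exact Or.inr (Or.inr (by linarith))
  · exact A3.of_edge13 (by linarith) (by linarith) (by linarith) (by linarith)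
      (Or.inr le_rfl) (by linarith)

end CH1M

set_option maxHeartbeats 4000000 in
theorem specCH1 : SpecCH1 := by
  intro m₁ m₂ m₃ l₁ l₂ l₃ d₁ d₂ d₃ hN hT h21 h23 hD1 hD2 hn hR h3 hs
  obtain ⟨hB, hZ, hA⟩ := hN
  have hL : 0 < l₁ := hT.base.p1
  have hd2 : 0 < d₂ := hT.f1.p2
  have m1 := hB.m1
  have m2 := hB.m2
  have m3 := hB.m3
  set G : ℝ := (d₂ + d₃ - l₁) / 2 with hGdef
  have hG : 2 * G = d₂ + d₃ - l₁ := by rw [hGdef]; ring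
  have hG0 : 0 ≤ G := by
    have := hT.f1.t1
    linarith
  have hGd : 5 * G ≤ 3 * d₂ := by linarith
  set t : ℝ := (d₂ - G) / l₁ with htdef
  have htL : t * l₁ = d₂ - G := div_mul_cancel₀ _ hL.ne'
  have ht0 : 0 < t := div_pos (by linarith) hL
  have ht1 : t ≤ 1 / 2 := by
    rw [htdef, div_le_iff₀ hL]
    linarith
  have ht1' : 0 ≤ 1 - t := by linarith
  have hhalf : ∀ y : ℝ, 0 ≤ y → 0 ≤ t * y ∧ 2 * (t * y) ≤ y := by
    intro y hy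
    have h1 : t * y ≤ 1 / 2 * y := mul_le_mul_of_nonneg_right ht1 hy
    exact ⟨mul_nonneg ht0.le hy, by linarith⟩
  obtain ⟨k1, k1'⟩ := hhalf m₁ m1
  obtain ⟨k2, k2'⟩ := hhalf m₂ m2
  obtain ⟨k3, k3'⟩ := hhalf m₃ m3
  obtain ⟨es1, es2⟩ := hhalf (l₁ - m₂ - m₃) (by linarith [hB.ub1])
  have hs' : 0 ≤ l₁ / 100000 - (l₁ - m₂ - m₃) := by linarith
  have e3 := mul_nonneg ht0.le hs'
  have e4 := mul_nonneg ht1' hs'
  have hlb2 : 0 ≤ m₁ + m₃ - l₂ / 10000000 := by linarith [hB.lb2]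
  have hlb3 : 0 ≤ m₁ + m₂ - l₃ / 10000000 := by linarith [hB.lb3]
  have f1 := mul_nonneg ht0.le hlb2
  have f2 := mul_nonneg ht1' hlb3
  refine HasStep.of (s₁ := 0) (s₂ := m₂ - t * m₂) (s₃ := t * m₃) (n := G / 2) (T₁ := 0)
    (T₂ := 1 - t) (T₃ := t) (zero_mul _) (by ring) rfl le_rfl ht1' ht0.le (by linarith)
    (by linarith) ?_
  refine CH1M.core (p1 := t * m₁) (q2 := t * l₂) (q3 := t * l₃) hB hT h21 h23 hD1 hD2 hR h3 hs hG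
    k1 k2 k3 k1' k2' k3' (by linarith) (by linarith) (by linarith) (by linarith) (by linarith)
    (by linarith) ?_ ?_
  · rcases hZ.z1 with h | h | h
    · exact absurd h (not_le.mpr hs)
    · left
      refine ⟨h, ?_⟩
      have h' : 0 ≤ m₁ + m₂ + (l₁ - m₂ - m₃) / 100 - (l₂ + 2 * l₁) / 10000000 := by linarith
      have := mul_nonneg ht1' h'
      linarith
    · right
      refine ⟨h, ?_⟩
      have h' : 0 ≤ m₁ + m₃ + (l₁ - m₂ - m₃) / 100 - (l₃ + 2 * l₁) / 10000000 := by linarith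
      have := mul_nonneg ht0.le h'
      linarith
  · rcases lt_or_ge (4 * m₃) m₂ with h | h
    · exact Or.inl h
    · right
      have := mul_le_mul_of_nonneg_left h ht0.le
      linarith

end TW3
end
end

section
set_option linter.all false

/-!
# Treewidth three, module CH3 (helper28)

As CH1, but the chord `23` has a slack. Step `T = (0, 1 - t, t)`, `n = 4 d₂ / 10⁷`,
`t = t₀ + n / R`. All products are introduced as new variables; the rest is linear.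
-/

noncomputable section

namespace TW3

namespace CH3M

set_option maxHeartbeats 4000000 in
/-- The linear part: `p1, p2, p3 = t m₁, t m₂, t m₃`, `q2, q3, x = t l₂, t l₃, t l₁`,
`w = t₀ (m₂ + m₃)`, `t₀ l₁ = d₂ - G`. -/
theorem core {m₁ m₂ m₃ l₁ l₂ l₃ d₁ d₂ d₃ G n w x p1 p2 p3 q2 q3 : ℝ}
    (hB : NB m₁ m₂ m₃ l₁ l₂ l₃) (hT : Tri4 l₁ l₂ l₃ d₁ d₂ d₃)
    (h21 : d₂ ≤ d₁) (h23 : d₂ ≤ d₃) (hD1 : 100 * (m₁ + m₂) < l₃) (hD2 : 100 * d₂ ≤ l₃)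
    (hR : d₂ / 20 ≤ m₂ + m₃) (h3 : d₃ - l₁ ≤ d₂ / 5)
    (hs : l₁ / 10000000 ≤ (l₁ - m₂ - m₃) / 100)
    (hG : 2 * G = d₂ + d₃ - l₁) (hn : n = 4 * d₂ / 10000000)
    (hL : l₁ ≤ 2000 * (m₂ + m₃))
    (k1 : 0 ≤ p1) (k2 : 0 ≤ p2) (k3 : 0 ≤ p3) (k1' : 100 * p1 ≤ 51 * m₁)
    (k2' : 100 * p2 ≤ 51 * m₂) (k3' : 100 * p3 ≤ 51 * m₃)
    (hw : p2 + p3 = w + n) (w0 : 0 ≤ w) (w1 : 2 * w ≤ m₂ + m₃)
    -- `t₀ l₁ / 10^5 ≤ t₀ σ`, `(1-t₀) l₁ / 10^5 ≤ (1-t₀) σ`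
    (e3 : (d₂ - G) / 100000 ≤ d₂ - G - w)
    (e4 : (l₁ - (d₂ - G)) / 100000 ≤ (l₁ - m₂ - m₃) - (d₂ - G - w))
    (e5 : x ≤ d₂ - G + 2000 * n) (e6 : q3 ≤ q2 + x)
    -- the products of `lb2`, `lb3`
    (f1 : q2 / 10000000 ≤ p1 + p3) (f2 : (l₃ - q3) / 10000000 ≤ m₁ + m₂ - p1 - p2)
    -- `t (4 m₃ - m₂)`
    (hc : 4 * m₃ < m₂ ∨ p2 ≤ 4 * p3) :
    StepS m₁ m₂ m₃ l₁ l₂ l₃ d₁ d₂ d₃ 0 (m₂ - p2) p3 n := by
  obtain ⟨m1, m2, m3, ub1, ub2, ub3, lb1, lb2, lb3⟩ := hB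
  obtain ⟨⟨pl1, pl2, pl3, tl1, tl2, tl3⟩, ⟨_, pd2, pd3, t11, t12, t13⟩,
    ⟨_, pd1, _, t21, t22, t23⟩, ⟨_, _, _, t31, t32, t33⟩⟩ := hT
  have G0 : 0 ≤ G := by linarith
  have G1 : 5 * G ≤ 3 * d₂ := by linarith
  have L1 : 4 * d₂ ≤ 5 * l₁ := by linarith
  have n0 : 0 < n := by linarith
  -- the bounds of `ρ(x,1)`
  have hr : p2 + p3 ≤ d₂ := by linarith
  have u1 : n + m₁ - 0 + (m₂ - p2) + p3 ≤ l₃ / 50 := by linarith
  have hd1 : 99 * l₃ ≤ 100 * d₁ := by linarith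
  have hx : (l₃ + 29 / 10 * d₂) / 10000000 ≤ n + m₁ - 0 + (m₂ - p2) + p3 := by linarith
  have u2 : n + p2 + p3 + 20 * n ≤ d₂ := by linarith
  have u3 : n + m₃ + (m₂ - p2) - p3 + 10 * n ≤ d₃ := by linarith
  have v3 : (m₂ + m₃) / 2 ≤ n + m₃ + (m₂ - p2) - p3 := by linarith
  have hd3 : d₃ ≤ 2004 * (m₂ + m₃) := by linarith
  refine ⟨by linarith, by linarith, by linarith, by linarith, by linarith, by linarith,
    Or.inr (Or.inl (by linarith)), ?_, Or.inr (Or.inl (by linarith)), ⟨?_, ?_, ?_⟩, ⟨?_, ?_, ?_⟩,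
    ⟨?_, ?_, ?_⟩⟩
  · rcases hc with hc | hc
    · exact Or.inr (Or.inr (by linarith))
    · exact Or.inr (Or.inl (by linarith))
  -- b1
  · exact ⟨by linarith, by linarith, by linarith, by linarith, by linarith, by linarith,
      by linarith, by linarith, by linarith⟩
  · refine ⟨Or.inl (by linarith),
      Zc.of_len (by linarith) (by linarith) (by linarith) (by linarith) (by linarith),
      Or.inr (Or.inl (by linarith))⟩
  · exact A3.of_two1 (by linarith) (by linarith) (by linarith) (by linarith)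
  -- b2
  · exact ⟨by linarith, by linarith, by linarith, by linarith, by linarith, by linarith,
      by linarith, by linarith, by linarith⟩
  · refine ⟨Or.inl (by linarith), ?_, Zc.of_slack (by linarith)⟩
    rcases le_total l₃ (1000000 * (m₂ + m₃)) with h | h
    · exact Or.inr (Or.inr (by linarith))
    · exact Zc.of_slack (by linarith)
  · exact A3.of_edge12 (by linarith) (by linarith) (by linarith) (by linarith)
      (Or.inl le_rfl) (by linarith)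
  -- b3
  · exact ⟨by linarith, by linarith, by linarith, by linarith, by linarith, by linarith,
      by linarith, by linarith, by linarith⟩
  · exact ⟨Or.inr (Or.inr (by linarith)), Zc.of_slack (by linarith), Zc.of_slack (by linarith)⟩
  · exact A3.of_edge13 (by linarith) (by linarith) (by linarith) (by linarith)
      (Or.inr le_rfl) (by linarith)

end CH3M

set_option maxHeartbeats 4000000 in
theorem specCH3 : SpecCH3 := by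
  intro m₁ m₂ m₃ l₁ l₂ l₃ d₁ d₂ d₃ hN hT h21 h23 hD1 hD2 hn' hR h3 hs
  obtain ⟨hB, hZ, hA⟩ := hN
  have hL : 0 < l₁ := hT.base.p1
  have hd2 : 0 < d₂ := hT.f1.p2
  have m1 := hB.m1
  have m2 := hB.m2
  have m3 := hB.m3
  have hRpos : 0 < m₂ + m₃ := by linarith
  have hL2 : l₁ ≤ 2000 * (m₂ + m₃) := by
    rcases hn' with h | h
    · linarith
    · linarith
  set G : ℝ := (d₂ + d₃ - l₁) / 2 with hGdef
  have hG : 2 * G = d₂ + d₃ - l₁ := by rw [hGdef]; ring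
  have hG0 : 0 ≤ G := by
    have := hT.f1.t1
    linarith
  have hGd : 5 * G ≤ 3 * d₂ := by linarith
  set n : ℝ := 4 * d₂ / 10000000 with hn
  have hn0 : 0 < n := by linarith
  set t₀ : ℝ := (d₂ - G) / l₁ with ht₀def
  have htL : t₀ * l₁ = d₂ - G := div_mul_cancel₀ _ hL.ne'
  have ht₀0 : 0 < t₀ := div_pos (by linarith) hL
  have ht₀1 : t₀ ≤ 1 / 2 := by
    rw [ht₀def, div_le_iff₀ hL]
    linarith
  have ht₀1' : 0 ≤ 1 - t₀ := by linarith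
  set δ : ℝ := n / (m₂ + m₃) with hδdef
  have hδR : δ * (m₂ + m₃) = n := div_mul_cancel₀ _ hRpos.ne'
  have hδ0 : 0 < δ := div_pos hn0 hRpos
  have hδ1 : δ ≤ 1 / 100 := by
    rw [hδdef, div_le_iff₀ hRpos]
    linarith
  have hδL : δ * l₁ ≤ 2000 * n := by
    have h1 := mul_le_mul_of_nonneg_left hL2 hδ0.le
    linarith
  obtain ⟨t, ht⟩ : ∃ t, t = t₀ + δ := ⟨_, rfl⟩
  have ht0 : 0 < t := by linarith
  have ht1 : t ≤ 51 / 100 := by linarith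
  have ht1' : 0 ≤ 1 - t := by linarith
  have hhalf : ∀ y : ℝ, 0 ≤ y → 0 ≤ t * y ∧ 100 * (t * y) ≤ 51 * y := by
    intro y hy
    have h1 : t * y ≤ 51 / 100 * y := mul_le_mul_of_nonneg_right ht1 hy
    exact ⟨mul_nonneg ht0.le hy, by linarith⟩
  obtain ⟨k1, k1'⟩ := hhalf m₁ m1
  obtain ⟨k2, k2'⟩ := hhalf m₂ m2
  obtain ⟨k3, k3'⟩ := hhalf m₃ m3
  have hw : t * m₂ + t * m₃ = t₀ * (m₂ + m₃) + n := by
    rw [← hδR, ht]
    ring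
  have w0 : 0 ≤ t₀ * (m₂ + m₃) := mul_nonneg ht₀0.le hRpos.le
  have w1 : t₀ * (m₂ + m₃) ≤ 1 / 2 * (m₂ + m₃) := mul_le_mul_of_nonneg_right ht₀1 hRpos.le
  have hs' : 0 ≤ (l₁ - m₂ - m₃) - l₁ / 100000 := by linarith
  have e3 := mul_nonneg ht₀0.le hs'
  have e4 := mul_nonneg ht₀1' hs'
  have htl : t * l₁ ≤ d₂ - G + 2000 * n := by
    rw [ht, add_mul, htL]
    linarith
  have e6 : t * l₃ ≤ t * l₂ + t * l₁ := by
    have := mul_le_mul_of_nonneg_left hT.base.t3 ht0.le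
    linarith
  have hlb2 : 0 ≤ m₁ + m₃ - l₂ / 10000000 := by linarith [hB.lb2]
  have hlb3 : 0 ≤ m₁ + m₂ - l₃ / 10000000 := by linarith [hB.lb3]
  have f1 := mul_nonneg ht0.le hlb2
  have f2 := mul_nonneg ht1' hlb3
  refine HasStep.of (s₁ := 0) (s₂ := m₂ - t * m₂) (s₃ := t * m₃) (n := n) (T₁ := 0)
    (T₂ := 1 - t) (T₃ := t) (zero_mul _) (by ring) rfl le_rfl ht1' ht0.le (by linarith)
    hn0.le ?_
  refine CH3M.core (p1 := t * m₁) (q2 := t * l₂) (q3 := t * l₃) (x := t * l₁)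
    (w := t₀ * (m₂ + m₃)) hB hT h21 h23 hD1 hD2 hR h3 hs hG hn hL2
    k1 k2 k3 k1' k2' k3' hw w0 (by linarith) (by linarith) (by linarith) htl e6
    (by linarith) (by linarith) ?_
  rcases lt_or_ge (4 * m₃) m₂ with h | h
  · exact Or.inl h
  · right
    have := mul_le_mul_of_nonneg_left h ht0.le
    linarith

end TW3
end
end

section
set_option linter.all false

/-!
# CLA: assembly of one step of the far level
-/

noncomputable section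

namespace TW3

namespace CLAM

theorem Lmin_swap (M K m₁ m₂ m₃ r₁ r₂ r₃ y₁ y₂ y₃ : ℝ) :
    Lmin M K m₁ m₃ m₂ r₁ r₃ r₂ y₁ y₃ y₂ = Lmin M K m₁ m₂ m₃ r₁ r₂ r₃ y₁ y₂ y₃ := by
  unfold Lmin
  have hS : y₁ * m₁ + y₃ * m₃ + y₂ * m₂ = y₁ * m₁ + y₂ * m₂ + y₃ * m₃ := by ring
  have hR : Rc M m₁ m₃ m₂ r₁ r₃ r₂ = Rc M m₁ m₂ m₃ r₁ r₂ r₃ := by
    unfold Rc
    rw [max_comm (r₃ - M * m₃)]
  rw [hS, hR, min_min_min_comm]

theorem phi_swap (ν m₁ m₂ m₃ β₁ β₂ β₃ y₁ y₂ y₃ : ℝ) :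
    phi ν m₁ m₃ m₂ β₁ β₃ β₂ y₁ y₃ y₂ = phi ν m₁ m₂ m₃ β₁ β₂ β₃ y₁ y₂ y₃ := by
  unfold phi
  ring

theorem Org_swap {M K c ν m₁ m₂ m₃ β₁ β₂ β₃ r₁ r₂ r₃ : ℝ}
    (h : Org M K c ν m₁ m₂ m₃ β₁ β₂ β₃ r₁ r₂ r₃) : Org M K c ν m₁ m₃ m₂ β₁ β₃ β₂ r₁ r₃ r₂ where
  M0 := h.M0
  K0 := h.K0
  c0 := h.c0
  c1 := h.c1
  ν0 := h.ν0
  β1 := h.β1
  β2 := h.β3
  β3 := h.β2
  μ1 := h.μ1
  μ2 := h.μ3
  μ3 := h.μ2
  lip1 := by
    rw [abs_sub_comm, add_comm]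
    exact h.lip1
  lip2 := h.lip3
  lip3 := h.lip2

theorem Stp_swap {M K m₁ m₂ m₃ T₁ T₂ T₃ n r₁ r₂ r₃ r d₁ d₂ d₃ : ℝ}
    (h : Stp M K m₁ m₂ m₃ T₁ T₂ T₃ n r₁ r₂ r₃ r d₁ d₂ d₃) :
    Stp M K m₁ m₃ m₂ T₁ T₃ T₂ n r₁ r₃ r₂ r d₁ d₃ d₂ where
  T1 := h.T1
  T2 := h.T3
  T3 := h.T2
  sum := by linarith [h.sum]
  n0 := h.n0
  r1 := h.r1
  r2 := h.r3
  r3 := h.r2
  v1 := by
    have e : M * (n + m₁ - T₁ * m₁ + T₃ * m₃ + T₂ * m₂) =
        M * (n + m₁ - T₁ * m₁ + T₂ * m₂ + T₃ * m₃) := by ring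
    rw [e]
    exact h.v1
  c1 := by
    have e : M * (T₁ * m₁ + n) + K * (T₃ * m₃ + T₂ * m₂) =
        M * (T₁ * m₁ + n) + K * (T₂ * m₂ + T₃ * m₃) := by ring
    rw [e]
    rcases h.c1 with h1 | h1 | h1
    · exact Or.inl h1
    · exact Or.inr (Or.inr h1)
    · exact Or.inr (Or.inl h1)

end CLAM

open CLAM

theorem specCLA : SpecCLA := by
  intro hPER hWJ hWX M K c ν m₁ m₂ m₃ β₁ β₂ β₃ r₁ r₂ r₃ T₁ T₂ T₃ n r d₁ d₂ d₃ hO hI hS
  intro y₁ y₂ y₃ h1 h2 h3 hs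
  refine ⟨?_, ?_, ?_⟩
  · rintro rfl
    exact hWX M K c ν m₁ m₂ m₃ β₁ β₂ β₃ r₁ r₂ r₃ T₁ T₂ T₃ n r d₁ d₂ d₃ hO hI hS y₂ y₃ h2 h3
      (by linarith)
  · rintro rfl
    exact hWJ M K c ν m₁ m₂ m₃ β₁ β₂ β₃ r₁ r₂ r₃ T₁ T₂ T₃ n r d₁ d₂ d₃ hO hI hS y₁ y₃ h1 h3
      (by linarith)
  · rintro rfl
    have h := hWJ M K c ν m₁ m₃ m₂ β₁ β₃ β₂ r₁ r₃ r₂ T₁ T₃ T₂ n r d₁ d₃ d₂ (Org_swap hO)
      (hPER.2 _ _ _ _ _ _ _ _ _ _ _ _ _ hI) (Stp_swap hS) y₁ y₂ h1 h2 (by linarith)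
    rw [Lmin_swap, phi_swap] at h
    exact h

end TW3
end
end

section
set_option linter.all false

noncomputable section

namespace TW3

namespace INIM

lemma mulm {c K s : ℝ} (h : c * K ≤ 1) (hs : 0 ≤ s) : c * (K * s) ≤ s := by
  have := mul_le_mul_of_nonneg_right h hs
  linarith [mul_assoc c K s]

/-- part (1) -/
lemma part1 (M K c m₁ m₂ m₃ r₂ r₃ : ℝ) (hM : 0 < M) (hK : 0 < K) (hc : 0 < c) (hcK : c * K ≤ 1)
    (h1 : 0 ≤ m₁) (h2 : 0 ≤ m₂) (h3 : 0 ≤ m₃) : Inv4 M K c 0 m₁ m₂ m₃ m₁ 0 0 0 r₂ r₃ := by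
  intro y₁ y₂ y₃ q1 q2 q3 hs
  have e1 : 0 ≤ (1 - y₁) * m₁ := mul_nonneg (by linarith) h1
  have e2 : 0 ≤ y₂ * m₂ := mul_nonneg q2 h2
  have e3 : 0 ≤ y₃ * m₃ := mul_nonneg q3 h3
  have key : c * Lmin M K m₁ m₂ m₃ 0 r₂ r₃ y₁ y₂ y₃ ≤ (1 - y₁) * m₁ + y₂ * m₂ + y₃ * m₃ := by
    have : Lmin M K m₁ m₂ m₃ 0 r₂ r₃ y₁ y₂ y₃ ≤
        Lg K 0 m₁ (y₁ * m₁ + y₂ * m₂ + y₃ * m₃) y₁ :=
      (min_le_left _ _).trans (min_le_left _ _)
    have h := mul_le_mul_of_nonneg_left this hc.le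
    refine h.trans ?_
    have e : Lg K 0 m₁ (y₁ * m₁ + y₂ * m₂ + y₃ * m₃) y₁ =
        K * ((1 - y₁) * m₁ + y₂ * m₂ + y₃ * m₃) := by
      unfold Lg; ring
    rw [e]
    exact mulm hcK (by linarith)
  refine ⟨?_, ?_, ?_⟩
  · intro hy
    subst hy
    refine key.trans (le_of_eq ?_)
    unfold phi
    ring
  · intro hy
    subst hy
    refine key.trans ?_
    have : phi 0 m₁ m₂ m₃ m₁ 0 0 y₁ 0 y₃ - 4 * 0 = 5 * ((1 - y₁) * m₁) + y₃ * m₃ := by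
      unfold phi; ring
    rw [this]
    linarith
  · intro hy
    subst hy
    refine key.trans ?_
    have : phi 0 m₁ m₂ m₃ m₁ 0 0 y₁ y₂ 0 - 4 * 0 = 5 * ((1 - y₁) * m₁) + y₂ * m₂ := by
      unfold phi; ring
    rw [this]
    linarith

/-- the bound of `Lmin` by `(2M+K) P` -/
lemma bnd (M K ν m₁ m₂ m₃ β₁ β₂ β₃ r₁ r₂ r₃ y₁ y₂ y₃ : ℝ) (hM : 0 < M) (hK : 0 < K)
    (hν : 0 ≤ ν) (b1 : 0 ≤ β₁) (b2 : 0 ≤ β₂) (b3 : 0 ≤ β₃) (c1 : β₁ ≤ m₁) (c2 : β₂ ≤ m₂)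
    (c3 : β₃ ≤ m₃)
    (hr1 : r₁ ≤ M * (ν + β₂ + β₃ + (m₁ - β₁))) (hr2 : r₂ ≤ M * (ν + β₁ + β₃ + (m₂ - β₂)))
    (hr3 : r₃ ≤ M * (ν + β₁ + β₂ + (m₃ - β₃)))
    (q1 : 0 ≤ y₁) (q2 : 0 ≤ y₂) (q3 : 0 ≤ y₃) (hs : y₁ + y₂ + y₃ ≤ 1) :
    Lmin M K m₁ m₂ m₃ r₁ r₂ r₃ y₁ y₂ y₃ ≤ (2 * M + K) *
      (ν + (β₁ * (1 - y₁) + (m₁ - β₁) * y₁) + (β₂ * (1 - y₂) + (m₂ - β₂) * y₂) +
        (β₃ * (1 - y₃) + (m₃ - β₃) * y₃)) := by
  have n1 : ∀ m β y : ℝ, 0 ≤ β → β ≤ m → 0 ≤ y → y ≤ 1 / 2 → y * m ≤ β * (1 - y) + (m - β) * y := by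
    intro m β y h1 h2 h3 h4
    nlinarith [mul_nonneg h1 (by linarith : (0:ℝ) ≤ 1 - 2 * y)]
  have n2 : ∀ m β y : ℝ, 0 ≤ β → β ≤ m → 1 / 2 ≤ y → (1 - y) * m ≤ β * (1 - y) + (m - β) * y := by
    intro m β y h1 h2 h3
    nlinarith [mul_nonneg (by linarith : (0:ℝ) ≤ m - β) (by linarith : (0:ℝ) ≤ 2 * y - 1)]
  have n3 : ∀ m β y : ℝ, 0 ≤ β → β ≤ m → 0 ≤ y → y ≤ 1 → 0 ≤ β * (1 - y) + (m - β) * y := by
    intro m β y h1 h2 h3 h4
    have := mul_nonneg h1 (by linarith : (0:ℝ) ≤ 1 - y)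
    have := mul_nonneg (by linarith : (0:ℝ) ≤ m - β) h3
    linarith
  have n4 : ∀ m β y : ℝ, 0 ≤ β → β ≤ m → 0 ≤ y → y ≤ 1 → β ≤ (β * (1 - y) + (m - β) * y) + y * m := by
    intro m β y h1 h2 h3 h4
    nlinarith [mul_nonneg (by linarith : (0:ℝ) ≤ m - β) h3]
  have n5 : ∀ m β y : ℝ, 0 ≤ β → β ≤ m → 0 ≤ y → y ≤ 1 →
      m - β ≤ (β * (1 - y) + (m - β) * y) + (1 - y) * m := by
    intro m β y h1 h2 h3 h4
    nlinarith [mul_nonneg h1 (by linarith : (0:ℝ) ≤ 1 - y)]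
  set P₁ := β₁ * (1 - y₁) + (m₁ - β₁) * y₁ with hP1
  set P₂ := β₂ * (1 - y₂) + (m₂ - β₂) * y₂ with hP2
  set P₃ := β₃ * (1 - y₃) + (m₃ - β₃) * y₃ with hP3
  have p1 : 0 ≤ P₁ := n3 m₁ β₁ y₁ b1 c1 q1 (by linarith)
  have p2 : 0 ≤ P₂ := n3 m₂ β₂ y₂ b2 c2 q2 (by linarith)
  have p3 : 0 ≤ P₃ := n3 m₃ β₃ y₃ b3 c3 q3 (by linarith)
  have k1 : β₁ ≤ P₁ + y₁ * m₁ := n4 m₁ β₁ y₁ b1 c1 q1 (by linarith)
  have k2 : β₂ ≤ P₂ + y₂ * m₂ := n4 m₂ β₂ y₂ b2 c2 q2 (by linarith)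
  have k3 : β₃ ≤ P₃ + y₃ * m₃ := n4 m₃ β₃ y₃ b3 c3 q3 (by linarith)
  have j1 : m₁ - β₁ ≤ P₁ + (1 - y₁) * m₁ := n5 m₁ β₁ y₁ b1 c1 q1 (by linarith)
  have j2 : m₂ - β₂ ≤ P₂ + (1 - y₂) * m₂ := n5 m₂ β₂ y₂ b2 c2 q2 (by linarith)
  have j3 : m₃ - β₃ ≤ P₃ + (1 - y₃) * m₃ := n5 m₃ β₃ y₃ b3 c3 q3 (by linarith)
  rcases le_or_gt y₁ (1 / 2) with g1 | g1
  · rcases le_or_gt y₂ (1 / 2) with g2 | g2
    · rcases le_or_gt y₃ (1 / 2) with g3 | g3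
      · -- gate c
        have s1 := n1 m₁ β₁ y₁ b1 c1 q1 g1
        have s2 := n1 m₂ β₂ y₂ b2 c2 q2 g2
        have s3 := n1 m₃ β₃ y₃ b3 c3 q3 g3
        rw [← hP1] at s1
        rw [← hP2] at s2
        rw [← hP3] at s3
        have h : Lmin M K m₁ m₂ m₃ r₁ r₂ r₃ y₁ y₂ y₃ ≤
            Rc M m₁ m₂ m₃ r₁ r₂ r₃ + K * (y₁ * m₁ + y₂ * m₂ + y₃ * m₃) :=
          (min_le_right _ _).trans (min_le_right _ _)
        have hR : Rc M m₁ m₂ m₃ r₁ r₂ r₃ ≤ M * (ν + β₁ + β₂ + β₃) := by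
          unfold Rc
          have t1 := mul_nonneg hM.le b1
          have t2 := mul_nonneg hM.le b2
          have t3 := mul_nonneg hM.le b3
          refine max_le ?_ (max_le ?_ ?_)
          · linarith [mul_add M (ν + β₂ + β₃) (m₁ - β₁)]
          · linarith [mul_add M (ν + β₂ + β₃) (m₁ - β₁)]
          · linarith [mul_add M (ν + β₂ + β₃) (m₁ - β₁)]
        have a1 : M * (ν + β₁ + β₂ + β₃) ≤ M * (2 * (ν + P₁ + P₂ + P₃)) :=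
          mul_le_mul_of_nonneg_left (by linarith) hM.le
        have a2 : K * (y₁ * m₁ + y₂ * m₂ + y₃ * m₃) ≤ K * (ν + P₁ + P₂ + P₃) :=
          mul_le_mul_of_nonneg_left (by linarith) hK.le
        linarith
      · -- gate 3
        have s3 := n2 m₃ β₃ y₃ b3 c3 g3.le
        have s1 := n1 m₁ β₁ y₁ b1 c1 q1 g1
        have s2 := n1 m₂ β₂ y₂ b2 c2 q2 g2
        rw [← hP1] at s1
        rw [← hP2] at s2
        rw [← hP3] at s3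
        have h : Lmin M K m₁ m₂ m₃ r₁ r₂ r₃ y₁ y₂ y₃ ≤
            Lg K r₃ m₃ (y₁ * m₁ + y₂ * m₂ + y₃ * m₃) y₃ :=
          (min_le_right _ _).trans (min_le_left _ _)
        have e : Lg K r₃ m₃ (y₁ * m₁ + y₂ * m₂ + y₃ * m₃) y₃ =
            r₃ + K * (y₁ * m₁ + y₂ * m₂ + (1 - y₃) * m₃) := by unfold Lg; ring
        rw [e] at h
        have a1 : M * (ν + β₁ + β₂ + (m₃ - β₃)) ≤ M * (2 * (ν + P₁ + P₂ + P₃)) :=
          mul_le_mul_of_nonneg_left (by linarith) hM.le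
        have a2 : K * (y₁ * m₁ + y₂ * m₂ + (1 - y₃) * m₃) ≤ K * (ν + P₁ + P₂ + P₃) :=
          mul_le_mul_of_nonneg_left (by linarith) hK.le
        linarith
    · -- gate 2
      have s2 := n2 m₂ β₂ y₂ b2 c2 g2.le
      have s1 := n1 m₁ β₁ y₁ b1 c1 q1 g1
      have s3 := n1 m₃ β₃ y₃ b3 c3 q3 (by linarith)
      rw [← hP1] at s1
      rw [← hP2] at s2
      rw [← hP3] at s3
      have h : Lmin M K m₁ m₂ m₃ r₁ r₂ r₃ y₁ y₂ y₃ ≤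
          Lg K r₂ m₂ (y₁ * m₁ + y₂ * m₂ + y₃ * m₃) y₂ :=
        (min_le_left _ _).trans (min_le_right _ _)
      have e : Lg K r₂ m₂ (y₁ * m₁ + y₂ * m₂ + y₃ * m₃) y₂ =
          r₂ + K * (y₁ * m₁ + (1 - y₂) * m₂ + y₃ * m₃) := by unfold Lg; ring
      rw [e] at h
      have a1 : M * (ν + β₁ + β₃ + (m₂ - β₂)) ≤ M * (2 * (ν + P₁ + P₂ + P₃)) :=
        mul_le_mul_of_nonneg_left (by linarith) hM.le
      have a2 : K * (y₁ * m₁ + (1 - y₂) * m₂ + y₃ * m₃) ≤ K * (ν + P₁ + P₂ + P₃) :=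
        mul_le_mul_of_nonneg_left (by linarith) hK.le
      linarith
  · -- gate 1
    have s1 := n2 m₁ β₁ y₁ b1 c1 g1.le
    have s2 := n1 m₂ β₂ y₂ b2 c2 q2 (by linarith)
    have s3 := n1 m₃ β₃ y₃ b3 c3 q3 (by linarith)
    rw [← hP1] at s1
    rw [← hP2] at s2
    rw [← hP3] at s3
    have h : Lmin M K m₁ m₂ m₃ r₁ r₂ r₃ y₁ y₂ y₃ ≤
        Lg K r₁ m₁ (y₁ * m₁ + y₂ * m₂ + y₃ * m₃) y₁ :=
      (min_le_left _ _).trans (min_le_left _ _)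
    have e : Lg K r₁ m₁ (y₁ * m₁ + y₂ * m₂ + y₃ * m₃) y₁ =
        r₁ + K * ((1 - y₁) * m₁ + y₂ * m₂ + y₃ * m₃) := by unfold Lg; ring
    rw [e] at h
    have a1 : M * (ν + β₂ + β₃ + (m₁ - β₁)) ≤ M * (2 * (ν + P₁ + P₂ + P₃)) :=
      mul_le_mul_of_nonneg_left (by linarith) hM.le
    have a2 : K * ((1 - y₁) * m₁ + y₂ * m₂ + y₃ * m₃) ≤ K * (ν + P₁ + P₂ + P₃) :=
      mul_le_mul_of_nonneg_left (by linarith) hK.le
    linarith

/-- part (2) -/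
lemma part2 (M K c ν m₁ m₂ m₃ β₁ β₂ β₃ r₁ r₂ r₃ : ℝ) (hM : 0 < M) (hK : 0 < K) (hc : 0 < c)
    (hcK : c * (2 * M + K) ≤ 1)
    (hν : 0 ≤ ν) (b1 : 0 ≤ β₁) (b2 : 0 ≤ β₂) (b3 : 0 ≤ β₃) (c1 : β₁ ≤ m₁) (c2 : β₂ ≤ m₂)
    (c3 : β₃ ≤ m₃)
    (hr1 : r₁ ≤ M * (ν + β₂ + β₃ + (m₁ - β₁))) (hr2 : r₂ ≤ M * (ν + β₁ + β₃ + (m₂ - β₂)))
    (hr3 : r₃ ≤ M * (ν + β₁ + β₂ + (m₃ - β₃))) :
    Inv4 M K c ν m₁ m₂ m₃ β₁ β₂ β₃ r₁ r₂ r₃ := by
  intro y₁ y₂ y₃ q1 q2 q3 hs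
  have n3 : ∀ m β y : ℝ, 0 ≤ β → β ≤ m → 0 ≤ y → y ≤ 1 → 0 ≤ β * (1 - y) + (m - β) * y := by
    intro m β y h1 h2 h3 h4
    have := mul_nonneg h1 (by linarith : (0:ℝ) ≤ 1 - y)
    have := mul_nonneg (by linarith : (0:ℝ) ≤ m - β) h3
    linarith
  have p1 := n3 m₁ β₁ y₁ b1 c1 q1 (by linarith)
  have p2 := n3 m₂ β₂ y₂ b2 c2 q2 (by linarith)
  have p3 := n3 m₃ β₃ y₃ b3 c3 q3 (by linarith)
  have u1 : 0 ≤ β₁ * (1 - y₁) := mul_nonneg b1 (by linarith)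
  have u2 : 0 ≤ β₂ * (1 - y₂) := mul_nonneg b2 (by linarith)
  have u3 : 0 ≤ β₃ * (1 - y₃) := mul_nonneg b3 (by linarith)
  have h := mul_le_mul_of_nonneg_left (bnd M K ν m₁ m₂ m₃ β₁ β₂ β₃ r₁ r₂ r₃ y₁ y₂ y₃ hM hK hν b1 b2
    b3 c1 c2 c3 hr1 hr2 hr3 q1 q2 q3 hs) hc.le
  have h2 := h.trans (mulm hcK (by linarith))
  refine ⟨?_, ?_, ?_⟩
  · intro hy
    subst hy
    refine h2.trans ?_
    have : phi ν m₁ m₂ m₃ β₁ β₂ β₃ 0 y₂ y₃ - 4 * β₁ =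
      (ν + (β₁ * (1 - 0) + (m₁ - β₁) * 0) + (β₂ * (1 - y₂) + (m₂ - β₂) * y₂) +
        (β₃ * (1 - y₃) + (m₃ - β₃) * y₃)) + 4 * ν + 4 * (β₂ * (1 - y₂)) + 4 * (β₃ * (1 - y₃)) := by
      unfold phi; ring
    linarith
  · intro hy
    subst hy
    refine h2.trans ?_
    have : phi ν m₁ m₂ m₃ β₁ β₂ β₃ y₁ 0 y₃ - 4 * β₂ =
      (ν + (β₁ * (1 - y₁) + (m₁ - β₁) * y₁) + (β₂ * (1 - 0) + (m₂ - β₂) * 0) +
        (β₃ * (1 - y₃) + (m₃ - β₃) * y₃)) + 4 * ν + 4 * (β₁ * (1 - y₁)) + 4 * (β₃ * (1 - y₃)) := by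
      unfold phi; ring
    linarith
  · intro hy
    subst hy
    refine h2.trans ?_
    have : phi ν m₁ m₂ m₃ β₁ β₂ β₃ y₁ y₂ 0 - 4 * β₃ =
      (ν + (β₁ * (1 - y₁) + (m₁ - β₁) * y₁) + (β₂ * (1 - y₂) + (m₂ - β₂) * y₂) +
        (β₃ * (1 - 0) + (m₃ - β₃) * 0)) + 4 * ν + 4 * (β₁ * (1 - y₁)) + 4 * (β₂ * (1 - y₂)) := by
      unfold phi; ring
    linarith

/-- part (3) -/
lemma part3 (M K c ν m₁ m₂ m₃ β₁ β₂ β₃ r₁ r₂ r₃ : ℝ)
    (hO : Org M K c ν m₁ m₂ m₃ β₁ β₂ β₃ r₁ r₂ r₃)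
    (hI : Inv4 M K c ν m₁ m₂ m₃ β₁ β₂ β₃ r₁ r₂ r₃) :
    c * r₁ ≤ 5 * (ν + β₂ + β₃ + (m₁ - β₁)) := by
  have h := (hI 1 0 0 zero_le_one le_rfl le_rfl (by norm_num)).2.1 rfl
  have hM := hO.M0
  have hK : M ≤ K := by linarith [hO.K0]
  have m1 : 0 ≤ m₁ := hO.β1.trans hO.μ1
  have m2 : 0 ≤ m₂ := hO.β2.trans hO.μ2
  have m3 : 0 ≤ m₃ := hO.β3.trans hO.μ3
  have l2 := (le_abs_self _).trans hO.lip3
  have l3 := (le_abs_self _).trans hO.lip2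
  have k2 : M * (m₁ + m₂) ≤ K * (m₁ + m₂) := mul_le_mul_of_nonneg_right hK (by linarith)
  have k3 : M * (m₁ + m₃) ≤ K * (m₁ + m₃) := mul_le_mul_of_nonneg_right hK (by linarith)
  have k1 : M * m₁ ≤ K * m₁ := mul_le_mul_of_nonneg_right hK m1
  have key : r₁ ≤ Lmin M K m₁ m₂ m₃ r₁ r₂ r₃ 1 0 0 := by
    unfold Lmin Lg
    refine le_min (le_min ?_ ?_) (le_min ?_ ?_)
    · exact le_of_eq (by ring)
    · have : r₂ + K * (1 * m₁ + 0 * m₂ + 0 * m₃ + m₂ * (1 - 2 * 0)) = r₂ + K * (m₁ + m₂) := by ring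
      rw [this]; linarith
    · have : r₃ + K * (1 * m₁ + 0 * m₂ + 0 * m₃ + m₃ * (1 - 2 * 0)) = r₃ + K * (m₁ + m₃) := by ring
      rw [this]; linarith
    · have : r₁ - M * m₁ ≤ Rc M m₁ m₂ m₃ r₁ r₂ r₃ := le_max_left _ _
      have e : K * (1 * m₁ + 0 * m₂ + 0 * m₃) = K * m₁ := by ring
      rw [e]; linarith
  have h' := (mul_le_mul_of_nonneg_left key hO.c0.le).trans h
  have e : phi ν m₁ m₂ m₃ β₁ β₂ β₃ 1 0 0 - 4 * β₂ =
      5 * (ν + β₂ + β₃ + (m₁ - β₁)) - 4 * (m₁ - β₁) - 4 * β₂ := by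
    unfold phi; ring
  rw [e] at h'
  linarith [hO.μ1, hO.β2]

end INIM

/-- [INI] -/
theorem specINI : SpecINI :=
  ⟨INIM.part1, INIM.part2, INIM.part3⟩

end TW3
end
end

section
set_option linter.all false

/-!
# Treewidth three: LEG
-/

noncomputable section

namespace TW3

theorem specLEG : SpecLEG := by
  intro m₁ m₂ m₃ l₁ l₂ l₃ d₁ d₂ d₃ Δ hN hT hΔ h1 h2 h3 hm hd2 hd3 hg2 hg3 hor
  have p1 := hN.B.m1
  have p2 := hN.B.m2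
  have p3 := hN.B.m3
  have w1 := hN.B.ub1
  have w2 := hN.B.ub2
  have w3 := hN.B.ub3
  have f3 := hT.f3.t1
  have f2 := hT.f2.t1
  have hb2 : l₃ - m₁ - m₂ ≤ d₂ - m₂ - (m₁ - d₁) := by linarith
  have hb3 : l₂ - m₁ - m₃ ≤ d₃ - m₃ - (m₁ - d₁) := by linarith
  refine HasStep.of2 (s₁ := m₁ - d₁) (s₂ := 0) (n := 0) (t₁ := 1) (t₂ := 0) p1 p2
    (by linarith) le_rfl (by norm_num) le_rfl (by linarith) (by linarith) (by norm_num) le_rfl ?_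
  have c1 : m₁ + d₁ / 10000000 ≤ m₁ - d₁ + 0 + 100000 * (0 + 0) ∨
      m₂ + d₂ / 10000000 ≤ m₁ - d₁ + 0 + 100000 * (0 + 0) ∨
      m₃ + d₃ / 10000000 ≤ m₁ - d₁ + 0 + 100000 * (0 + 0) := by
    rcases hor with h | h
    · exact Or.inr (Or.inl (by linarith))
    · exact Or.inr (Or.inr (by linarith))
  have c2 : m₁ + d₁ / 10000000 ≤ 0 + 0 + 100000 * (m₁ - d₁ + 0) ∨
      m₂ + d₂ / 10000000 ≤ 0 + 0 + 100000 * (m₁ - d₁ + 0) ∨
      m₃ + d₃ / 10000000 ≤ 0 + 0 + 100000 * (m₁ - d₁ + 0) := by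
    rcases hor with h | h
    · exact Or.inr (Or.inl (by linarith))
    · exact Or.inr (Or.inr (by linarith))
  refine StepS.auto hN hT (by linarith) le_rfl le_rfl le_rfl (by linarith) p2 p3
    (by linarith) (by linarith) (by linarith) (by linarith) (by linarith) (by linarith)
    c1 c2 c2 ?_ ?_ ?_
  · rw [show m₁ - d₁ + 0 = m₁ - d₁ by ring, show m₂ - 0 + 0 = m₂ by ring,
      show m₃ - 0 + 0 = m₃ by ring]
    have hS : SS (m₁ - d₁) m₂ m₃ ≤ SS m₁ m₂ m₃ := SS_mono (by linarith) le_rfl le_rfl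
    have e2 : min (m₁ - d₁) m₃ ≤ min m₁ m₃ := min_le_min (by linarith) le_rfl
    have e3 : min (m₁ - d₁) m₂ ≤ min m₁ m₂ := min_le_min (by linarith) le_rfl
    refine ⟨?_, ?_, ?_⟩
    · rcases hN.A.a1 with h | h
      · exact Or.inl (by linarith)
      · exact Or.inr (by linarith)
    · rcases hN.A.a2 with h | h
      · exact Or.inl (by linarith)
      · exact Or.inr (by linarith)
    · rcases hN.A.a3 with h | h
      · exact Or.inl (by linarith)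
      · exact Or.inr (by linarith)
  · exact A3.of_zero2 (by linarith) (by linarith) (by linarith) (by linarith)
  · exact A3.of_zero3 (by linarith) (by linarith) (by linarith) (by linarith)

end TW3
end
end

section
set_option linter.all false

noncomputable section

namespace TW3

namespace LGM

variable {M K c ν m₁ m₂ m₃ β₁ β₂ β₃ r₁ r₂ r₃ : ℝ}

lemma lmin1 (y₁ y₂ y₃ : ℝ) : Lmin M K m₁ m₂ m₃ r₁ r₂ r₃ y₁ y₂ y₃ ≤
    Lg K r₁ m₁ (y₁ * m₁ + y₂ * m₂ + y₃ * m₃) y₁ :=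
  (min_le_left _ _).trans (min_le_left _ _)

lemma lmin2 (y₁ y₂ y₃ : ℝ) : Lmin M K m₁ m₂ m₃ r₁ r₂ r₃ y₁ y₂ y₃ ≤
    Lg K r₂ m₂ (y₁ * m₁ + y₂ * m₂ + y₃ * m₃) y₂ :=
  (min_le_left _ _).trans (min_le_right _ _)

lemma lmin3 (y₁ y₂ y₃ : ℝ) : Lmin M K m₁ m₂ m₃ r₁ r₂ r₃ y₁ y₂ y₃ ≤
    Lg K r₃ m₃ (y₁ * m₁ + y₂ * m₂ + y₃ * m₃) y₃ :=
  (min_le_right _ _).trans (min_le_left _ _)

lemma lminc (y₁ y₂ y₃ : ℝ) : Lmin M K m₁ m₂ m₃ r₁ r₂ r₃ y₁ y₂ y₃ ≤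
    Rc M m₁ m₂ m₃ r₁ r₂ r₃ + K * (y₁ * m₁ + y₂ * m₂ + y₃ * m₃) :=
  (min_le_right _ _).trans (min_le_right _ _)

lemma lmin_cases (y₁ y₂ y₃ : ℝ) :
    Lmin M K m₁ m₂ m₃ r₁ r₂ r₃ y₁ y₂ y₃ = Lg K r₁ m₁ (y₁ * m₁ + y₂ * m₂ + y₃ * m₃) y₁ ∨
    Lmin M K m₁ m₂ m₃ r₁ r₂ r₃ y₁ y₂ y₃ = Lg K r₂ m₂ (y₁ * m₁ + y₂ * m₂ + y₃ * m₃) y₂ ∨
    Lmin M K m₁ m₂ m₃ r₁ r₂ r₃ y₁ y₂ y₃ = Lg K r₃ m₃ (y₁ * m₁ + y₂ * m₂ + y₃ * m₃) y₃ ∨
    Lmin M K m₁ m₂ m₃ r₁ r₂ r₃ y₁ y₂ y₃ =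
      Rc M m₁ m₂ m₃ r₁ r₂ r₃ + K * (y₁ * m₁ + y₂ * m₂ + y₃ * m₃) := by
  unfold Lmin
  rcases min_choice (min (Lg K r₁ m₁ (y₁ * m₁ + y₂ * m₂ + y₃ * m₃) y₁)
      (Lg K r₂ m₂ (y₁ * m₁ + y₂ * m₂ + y₃ * m₃) y₂))
    (min (Lg K r₃ m₃ (y₁ * m₁ + y₂ * m₂ + y₃ * m₃) y₃)
      (Rc M m₁ m₂ m₃ r₁ r₂ r₃ + K * (y₁ * m₁ + y₂ * m₂ + y₃ * m₃))) with h | h
  · rw [h]
    rcases min_choice (Lg K r₁ m₁ (y₁ * m₁ + y₂ * m₂ + y₃ * m₃) y₁)
      (Lg K r₂ m₂ (y₁ * m₁ + y₂ * m₂ + y₃ * m₃) y₂) with h' | h'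
    · left; exact h'
    · right; left; exact h'
  · rw [h]
    rcases min_choice (Lg K r₃ m₃ (y₁ * m₁ + y₂ * m₂ + y₃ * m₃) y₃)
      (Rc M m₁ m₂ m₃ r₁ r₂ r₃ + K * (y₁ * m₁ + y₂ * m₂ + y₃ * m₃)) with h' | h'
    · right; right; left; exact h'
    · right; right; right; exact h'

/-- the basic facts on the centre -/
lemma Rfacts (hO : Org M K c ν m₁ m₂ m₃ β₁ β₂ β₃ r₁ r₂ r₃) :
    r₁ - M * m₁ ≤ Rc M m₁ m₂ m₃ r₁ r₂ r₃ ∧ r₂ - M * m₂ ≤ Rc M m₁ m₂ m₃ r₁ r₂ r₃ ∧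
    r₃ - M * m₃ ≤ Rc M m₁ m₂ m₃ r₁ r₂ r₃ ∧ Rc M m₁ m₂ m₃ r₁ r₂ r₃ ≤ r₁ + M * m₁ ∧
    Rc M m₁ m₂ m₃ r₁ r₂ r₃ ≤ r₂ + M * m₂ ∧ Rc M m₁ m₂ m₃ r₁ r₂ r₃ ≤ r₃ + M * m₃ := by
  have hM := hO.M0
  have m1 : 0 ≤ m₁ := hO.β1.trans hO.μ1
  have m2 : 0 ≤ m₂ := hO.β2.trans hO.μ2
  have m3 : 0 ≤ m₃ := hO.β3.trans hO.μ3
  have a1 := mul_nonneg hM.le m1
  have a2 := mul_nonneg hM.le m2
  have a3 := mul_nonneg hM.le m3
  obtain ⟨l1, l1'⟩ := abs_le.1 hO.lip1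
  obtain ⟨l2, l2'⟩ := abs_le.1 hO.lip2
  obtain ⟨l3, l3'⟩ := abs_le.1 hO.lip3
  rw [mul_add] at l1 l1' l2 l2' l3 l3'
  refine ⟨le_max_left _ _, (le_max_left _ _).trans (le_max_right _ _),
    (le_max_right _ _).trans (le_max_right _ _), ?_, ?_, ?_⟩ <;>
  · refine max_le ?_ (max_le ?_ ?_) <;> linarith

/-- fact (3) for the gate `c` -/
lemma lt58c {m r y S R : ℝ} (hM : 0 < M) (hK : 4 * M ≤ K) (hm : 0 ≤ m) (hR : r - M * m ≤ R)
    (h : R + K * S < Lg K r m S y) : y < 5 / 8 := by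
  by_contra hy
  push Not at hy
  have h1 : K * (1 - 2 * y) + M ≤ 0 := by
    have : K * (1 - 2 * y) ≤ K * (-(1 / 4)) := mul_le_mul_of_nonneg_left (by linarith) (by linarith)
    linarith
  have h2 : m * (K * (1 - 2 * y) + M) ≤ 0 := mul_nonpos_of_nonneg_of_nonpos hm h1
  unfold Lg at h
  have e : r + K * (S + m * (1 - 2 * y)) = r - M * m + K * S + m * (K * (1 - 2 * y) + M) := by ring
  rw [e] at h
  linarith

/-- fact (3) for another gate -/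
lemma lt58g {m r y m' r' y' S : ℝ} (hM : 0 < M) (hK : 4 * M ≤ K) (hm : 0 ≤ m) (hm' : 0 ≤ m')
    (hr : r ≤ r' + M * (m + m')) (hy1 : 0 ≤ y') (hyy : y + y' ≤ 1)
    (h : Lg K r' m' S y' < Lg K r m S y) : y < 5 / 8 := by
  by_contra hy
  push Not at hy
  have h1 : K * (1 - 2 * y) + M ≤ 0 := by
    have : K * (1 - 2 * y) ≤ K * (-(1 / 4)) := mul_le_mul_of_nonneg_left (by linarith) (by linarith)
    linarith
  have h1' : 0 ≤ K * (1 - 2 * y') - M := by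
    have : K * (1 / 4) ≤ K * (1 - 2 * y') := mul_le_mul_of_nonneg_left (by linarith) (by linarith)
    linarith
  have h2 : m * (K * (1 - 2 * y) + M) ≤ 0 := mul_nonpos_of_nonneg_of_nonpos hm h1
  have h3 : 0 ≤ m' * (K * (1 - 2 * y') - M) := mul_nonneg hm' h1'
  unfold Lg at h
  have e : r + K * (S + m * (1 - 2 * y)) = r - M * (m + m') + K * S + m * (K * (1 - 2 * y) + M) +
    M * m' := by ring
  have e' : r' + K * (S + m' * (1 - 2 * y')) = r' + K * S + m' * (K * (1 - 2 * y') - M) +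
    M * m' := by ring
  rw [e, e'] at h
  linarith

/-- fact (2) for a gate below the centre -/
lemma gt38 {m r y S R : ℝ} (hM : 0 < M) (hK : 4 * M ≤ K) (hm : 0 ≤ m) (hR : R ≤ r + M * m)
    (h : Lg K r m S y < R + K * S) : 3 / 8 < y := by
  by_contra hy
  push Not at hy
  have h1 : 0 ≤ K * (1 - 2 * y) - M := by
    have : K * (1 / 4) ≤ K * (1 - 2 * y) := mul_le_mul_of_nonneg_left (by linarith) (by linarith)
    linarith
  have h2 : 0 ≤ m * (K * (1 - 2 * y) - M) := mul_nonneg hm h1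
  unfold Lg at h
  have e : r + K * (S + m * (1 - 2 * y)) = r + M * m + K * S + m * (K * (1 - 2 * y) - M) := by ring
  rw [e] at h
  linarith

/-- convexity step -/
lemma conv {lam y₁ P Q Ft Fd E ρ L F : ℝ} (hc : 0 < c) (hl : 0 ≤ lam) (hy : 0 ≤ y₁)
    (hP : c * P ≤ Ft) (hQ : Q ≤ r₁ + (M + K) * ρ) (hFd : c * r₁ + E ≤ Fd)
    (hL : L = lam * P + y₁ * Q) (hF : F = lam * Ft + y₁ * Fd) :
    c * L + y₁ * (E - c * ((M + K) * ρ)) ≤ F := by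
  have h1 := mul_le_mul_of_nonneg_left hP hl
  have h2 := mul_le_mul_of_nonneg_left hFd hy
  have h3 := mul_le_mul_of_nonneg_left (mul_le_mul_of_nonneg_left hQ hc.le) hy
  rw [hL, hF]
  have e1 : c * (lam * P + y₁ * Q) = lam * (c * P) + y₁ * (c * Q) := by ring
  have e2 : y₁ * (c * (r₁ + (M + K) * ρ)) = y₁ * (c * r₁) + y₁ * (c * ((M + K) * ρ)) := by ring
  have e3 : y₁ * (c * r₁ + E) = y₁ * (c * r₁) + y₁ * E := by ring
  have e4 : y₁ * (E - c * ((M + K) * ρ)) = y₁ * E - y₁ * (c * ((M + K) * ρ)) := by ring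
  rw [e1, e4]
  rw [e3] at h2
  rw [e2] at h3
  linarith

end LGM

open LGM in
/-- [LG] -/
theorem specLG : SpecLG := by
  intro M K c ν m₁ m₂ m₃ β₁ β₂ β₃ r₁ r₂ r₃ hO hI y₁ y₂ y₃ q1 q2 q3 qs
  have hM := hO.M0
  have hK0 := hO.K0
  have hK : M ≤ K := by linarith
  have hKp : 0 < K := by linarith
  have hc := hO.c0
  have hcK := hO.c1
  have hcKp : 0 < c * K := mul_pos hc hKp
  have b1 := hO.β1
  have b2 := hO.β2
  have b3 := hO.β3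
  have m1 : 0 ≤ m₁ := hO.β1.trans hO.μ1
  have m2 : 0 ≤ m₂ := hO.β2.trans hO.μ2
  have m3 : 0 ≤ m₃ := hO.β3.trans hO.μ3
  obtain ⟨R1, R2, R3, R1', R2', R3'⟩ := Rfacts hO
  have hcM : c * M ≤ c * K / 4 := by
    have := mul_le_mul_of_nonneg_left hK0 hc.le
    linarith [mul_left_comm c 4 M]
  have ym1 : 0 ≤ y₁ * m₁ := mul_nonneg q1 m1
  have ym2 : 0 ≤ y₂ * m₂ := mul_nonneg q2 m2
  have ym3 : 0 ≤ y₃ * m₃ := mul_nonneg q3 m3
  rcases le_or_gt ((1 / 10 + c * K) * m₁) (5 * m₁ - 6 * β₁) with hg | hb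
  · -- the good case
    have h0 := (hI 0 y₂ y₃ le_rfl q2 q3 (by linarith)).1 rfl
    have hL : Lmin M K m₁ m₂ m₃ r₁ r₂ r₃ y₁ y₂ y₃ ≤
        Lmin M K m₁ m₂ m₃ r₁ r₂ r₃ 0 y₂ y₃ + K * (y₁ * m₁) := by
      have k1 := lmin1 (M := M) (K := K) (m₁ := m₁) (m₂ := m₂) (m₃ := m₃) (r₁ := r₁) (r₂ := r₂)
        (r₃ := r₃) y₁ y₂ y₃
      have k2 := lmin2 (M := M) (K := K) (m₁ := m₁) (m₂ := m₂) (m₃ := m₃) (r₁ := r₁) (r₂ := r₂)
        (r₃ := r₃) y₁ y₂ y₃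
      have k3 := lmin3 (M := M) (K := K) (m₁ := m₁) (m₂ := m₂) (m₃ := m₃) (r₁ := r₁) (r₂ := r₂)
        (r₃ := r₃) y₁ y₂ y₃
      have k4 := lminc (M := M) (K := K) (m₁ := m₁) (m₂ := m₂) (m₃ := m₃) (r₁ := r₁) (r₂ := r₂)
        (r₃ := r₃) y₁ y₂ y₃
      have hKy : 0 ≤ K * (y₁ * m₁) := mul_nonneg hKp.le ym1
      rcases lmin_cases (M := M) (K := K) (m₁ := m₁) (m₂ := m₂) (m₃ := m₃) (r₁ := r₁) (r₂ := r₂)
        (r₃ := r₃) 0 y₂ y₃ with h | h | h | h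
      · rw [h]
        refine k1.trans ?_
        have e : Lg K r₁ m₁ (y₁ * m₁ + y₂ * m₂ + y₃ * m₃) y₁ =
          Lg K r₁ m₁ (0 * m₁ + y₂ * m₂ + y₃ * m₃) 0 - K * (y₁ * m₁) := by unfold Lg; ring
        linarith
      · rw [h]
        refine k2.trans (le_of_eq ?_)
        unfold Lg; ring
      · rw [h]
        refine k3.trans (le_of_eq ?_)
        unfold Lg; ring
      · rw [h]
        refine k4.trans (le_of_eq ?_)
        ring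
    have hL' := mul_le_mul_of_nonneg_left hL hc.le
    have e1 : phi ν m₁ m₂ m₃ β₁ β₂ β₃ y₁ y₂ y₃ - 4 * β₁ + 4 * m₁ * y₁ =
        phi ν m₁ m₂ m₃ β₁ β₂ β₃ 0 y₂ y₃ - 4 * β₁ + y₁ * (5 * m₁ - 6 * β₁) := by
      unfold phi; ring
    have h1 := mul_le_mul_of_nonneg_left hg q1
    have e2 : y₁ * ((1 / 10 + c * K) * m₁) = y₁ * m₁ / 10 + c * (K * (y₁ * m₁)) := by ring
    rw [e2] at h1
    rw [e1]
    rw [mul_add] at hL'
    constructor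
    · linarith
    · intro _; linarith
  · -- the bad case
    have s2 := (hI 1 0 0 zero_le_one le_rfl le_rfl (by norm_num)).2.1 rfl
    have s3 := (hI 1 0 0 zero_le_one le_rfl le_rfl (by norm_num)).2.2 rfl
    obtain ⟨l3, l3'⟩ := abs_le.1 hO.lip3
    obtain ⟨l2, l2'⟩ := abs_le.1 hO.lip2
    have hd : r₁ ≤ Lmin M K m₁ m₂ m₃ r₁ r₂ r₃ 1 0 0 := by
      have hKm2 : M * (m₁ + m₂) ≤ K * (m₁ + m₂) := mul_le_mul_of_nonneg_right hK (by linarith)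
      have hKm3 : M * (m₁ + m₃) ≤ K * (m₁ + m₃) := mul_le_mul_of_nonneg_right hK (by linarith)
      have hKm1 : M * m₁ ≤ K * m₁ := mul_le_mul_of_nonneg_right hK m1
      rcases lmin_cases (M := M) (K := K) (m₁ := m₁) (m₂ := m₂) (m₃ := m₃) (r₁ := r₁) (r₂ := r₂)
        (r₃ := r₃) 1 0 0 with h | h | h | h
      · rw [h]
        refine le_of_eq ?_
        unfold Lg; ring
      · rw [h]
        have e : Lg K r₂ m₂ (1 * m₁ + 0 * m₂ + 0 * m₃) 0 = r₂ + K * (m₁ + m₂) := by unfold Lg; ring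
        rw [e]; linarith
      · rw [h]
        have e : Lg K r₃ m₃ (1 * m₁ + 0 * m₂ + 0 * m₃) 0 = r₃ + K * (m₁ + m₃) := by unfold Lg; ring
        rw [e]; linarith
      · rw [h]
        have e : K * (1 * m₁ + 0 * m₂ + 0 * m₃) = K * m₁ := by ring
        rw [e]; linarith
    have hd' := mul_le_mul_of_nonneg_left hd hc.le
    obtain ⟨E, hE⟩ : ∃ E, E = phi ν m₁ m₂ m₃ β₁ β₂ β₃ 1 0 0 - c * r₁ := ⟨_, rfl⟩
    have E2 : 4 * β₂ ≤ E := by rw [hE]; linarith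
    have E3 : 4 * β₃ ≤ E := by rw [hE]; linarith
    have E0 : 0 ≤ E := by linarith
    have star : phi ν m₁ m₂ m₃ β₁ β₂ β₃ y₁ y₂ y₃ - 4 * β₁ + 4 * m₁ * y₁ =
        c * Lg K r₁ m₁ (y₁ * m₁ + y₂ * m₂ + y₃ * m₃) y₁ + E + (1 - y₁) * (6 * β₁ - 5 * m₁) +
          4 * (m₁ - β₁) + y₂ * (m₂ - 6 * β₂) + y₃ * (m₃ - 6 * β₃) -
          c * K * ((1 - y₁) * m₁ + y₂ * m₂ + y₃ * m₃) := by
      rw [hE]; unfold phi Lg; ring
    have hy1 : 0 ≤ 1 - y₁ := by linarith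
    obtain ⟨F, hF⟩ : ∃ F, F = phi ν m₁ m₂ m₃ β₁ β₂ β₃ y₁ y₂ y₃ - 4 * β₁ + 4 * m₁ * y₁ := ⟨_, rfl⟩
    obtain ⟨A, hA⟩ : ∃ A, A = Lg K r₁ m₁ (y₁ * m₁ + y₂ * m₂ + y₃ * m₃) y₁ := ⟨_, rfl⟩
    obtain ⟨L, hL⟩ : ∃ L, L = Lmin M K m₁ m₂ m₃ r₁ r₂ r₃ y₁ y₂ y₃ := ⟨_, rfl⟩
    rw [← hF, ← hA] at star
    rw [← hF, ← hA, ← hL]
    have hLA : L ≤ A := by rw [hL, hA]; exact lmin1 _ _ _
    have cLA := mul_le_mul_of_nonneg_left hLA hc.le
    -- the estimate (*)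
    have st : c * A + E - 3 / 2 * E * (y₂ + y₃) + 63 / 100 * ((1 - y₁) * m₁) +
        999 / 1000 * (y₂ * m₂ + y₃ * m₃) ≤ F := by
      have h2 := mul_le_mul_of_nonneg_left E2 q2
      have h3 := mul_le_mul_of_nonneg_left E3 q3
      have h4 : (1 - y₁) * (m₁ - β₁) ≤ m₁ - β₁ := by
        have : 0 ≤ y₁ * (m₁ - β₁) := mul_nonneg q1 (by linarith [hO.μ1])
        linarith [sub_mul 1 y₁ (m₁ - β₁)]
      have hb' : (2 - (1 / 10 + c * K)) / 3 * m₁ ≤ 2 * β₁ - m₁ := by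
        have e : (2 - (1 / 10 + c * K)) / 3 * m₁ = (2 * m₁ - (1 / 10 + c * K) * m₁) / 3 := by ring
        rw [e]; linarith
      have h5 := mul_le_mul_of_nonneg_left hb' hy1
      have h6 : 0 ≤ (1 - y₁) * m₁ := mul_nonneg hy1 m1
      have h7 : c * K * ((1 - y₁) * m₁) ≤ 1 / 1000 * ((1 - y₁) * m₁) :=
        mul_le_mul_of_nonneg_right (by linarith) h6
      have h8 : c * K * (y₂ * m₂) ≤ 1 / 1000 * (y₂ * m₂) :=
        mul_le_mul_of_nonneg_right (by linarith) ym2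
      have h9 : c * K * (y₃ * m₃) ≤ 1 / 1000 * (y₃ * m₃) :=
        mul_le_mul_of_nonneg_right (by linarith) ym3
      have e1 : (1 - y₁) * ((2 - (1 / 10 + c * K)) / 3 * m₁) =
        19 / 30 * ((1 - y₁) * m₁) - c * K * ((1 - y₁) * m₁) / 3 := by ring
      have e2 : (1 - y₁) * (2 * β₁ - m₁) = (1 - y₁) * (6 * β₁ - 5 * m₁) + 4 * ((1 - y₁) * (m₁ - β₁)) := by
        ring
      rw [e1, e2] at h5
      have e3 : c * K * ((1 - y₁) * m₁ + y₂ * m₂ + y₃ * m₃) = c * K * ((1 - y₁) * m₁) +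
        c * K * (y₂ * m₂) + c * K * (y₃ * m₃) := by ring
      rw [star, e3]
      have e4 : y₂ * (m₂ - 6 * β₂) = y₂ * m₂ - 3 / 2 * (y₂ * (4 * β₂)) := by ring
      have e5 : y₃ * (m₃ - 6 * β₃) = y₃ * m₃ - 3 / 2 * (y₃ * (4 * β₃)) := by ring
      have e6 : 3 / 2 * E * (y₂ + y₃) = 3 / 2 * (y₂ * E) + 3 / 2 * (y₃ * E) := by ring
      rw [e4, e5, e6]
      linarith
    rcases le_or_gt (y₂ + y₃) (2 / 3) with hY | hY
    · have h1 : 3 / 2 * E * (y₂ + y₃) ≤ E := by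
        have := mul_le_mul_of_nonneg_left hY (by linarith : 0 ≤ 3 / 2 * E)
        linarith
      have h2 : 0 ≤ (1 - y₁) * m₁ := mul_nonneg hy1 m1
      refine ⟨by linarith, fun hlt => ?_⟩
      have hy58 : y₁ < 5 / 8 := by
        rw [hL, hA] at hlt
        rcases lmin_cases (M := M) (K := K) (m₁ := m₁) (m₂ := m₂) (m₃ := m₃) (r₁ := r₁) (r₂ := r₂)
          (r₃ := r₃) y₁ y₂ y₃ with h | h | h | h
        · rw [h] at hlt; exact absurd hlt (lt_irrefl _)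
        · rw [h] at hlt
          exact lt58g hM hK0 m1 m2 (by linarith) q2 (by linarith) hlt
        · rw [h] at hlt
          exact lt58g hM hK0 m1 m3 (by linarith) q3 (by linarith) hlt
        · rw [h] at hlt
          exact lt58c hM hK0 m1 R1 hlt
      have h3 : y₁ * m₁ ≤ 5 / 8 * m₁ := mul_le_mul_of_nonneg_right hy58.le m1
      have h4 : 3 / 8 * m₁ ≤ (1 - y₁) * m₁ := mul_le_mul_of_nonneg_right (by linarith) m1
      linarith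
    · -- `Y > 2/3`
      have hy13 : y₁ < 1 / 3 := by linarith
      obtain ⟨lam, hlam⟩ : ∃ lam, lam = 1 - y₁ := ⟨_, rfl⟩
      have hlp : 0 < lam := by linarith
      obtain ⟨u₂, hu2⟩ : ∃ u, u = y₂ / lam := ⟨_, rfl⟩
      obtain ⟨u₃, hu3⟩ : ∃ u, u = y₃ / lam := ⟨_, rfl⟩
      have lu2 : y₂ = lam * u₂ := by rw [hu2]; field_simp
      have lu3 : y₃ = lam * u₃ := by rw [hu3]; field_simp
      have u2 : 0 ≤ u₂ := by rw [hu2]; exact div_nonneg q2 hlp.le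
      have u3 : 0 ≤ u₃ := by rw [hu3]; exact div_nonneg q3 hlp.le
      have us : 0 + u₂ + u₃ ≤ 1 := by
        rw [hu2, hu3, zero_add, ← add_div, div_le_one hlp]; linarith
      have hyl : y₁ = 1 - lam := by linarith
      have ht := (hI 0 u₂ u₃ le_rfl u2 u3 us).1 rfl
      -- the final argument for a gate
      have fin : ∀ ρ P Q X w : ℝ, c * P ≤ phi ν m₁ m₂ m₃ β₁ β₂ β₃ 0 u₂ u₃ - 4 * β₁ →
          Q ≤ r₁ + (M + K) * ρ → X = lam * P + y₁ * Q → L ≤ X → ρ = m₁ + w → 0 ≤ w →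
          w / 4 ≤ y₂ * m₂ + y₃ * m₃ →
          c * L + y₁ * m₁ / 10 ≤ F := by
        intro ρ P Q X w hP hQ hX hLX hρ hw hw4
        have hFd : c * r₁ + E ≤ phi ν m₁ m₂ m₃ β₁ β₂ β₃ 1 0 0 - 4 * β₁ + 4 * m₁ := by
          rw [hE]; linarith [hO.μ1]
        have key := conv (M := M) (K := K) (r₁ := r₁) hc hlp.le q1 hP hQ hFd hX (F := F) (by
          rw [hF, lu2, lu3, hyl]; unfold phi; ring)
        have cLX := mul_le_mul_of_nonneg_left hLX hc.le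
        rcases le_or_gt (c * ((M + K) * ρ) + m₁ / 10) E with hcase | hcase
        · have := mul_le_mul_of_nonneg_left (by linarith : m₁ / 10 ≤ E - c * ((M + K) * ρ)) q1
          linarith
        · have hρ0 : 0 ≤ ρ := by linarith
          have h1 : c * ((M + K) * ρ) ≤ 1 / 800 * ρ := by
            have : (c * M + c * K) * ρ ≤ 1 / 800 * ρ :=
              mul_le_mul_of_nonneg_right (by linarith) hρ0
            linarith [(by ring : (c * M + c * K) * ρ = c * ((M + K) * ρ))]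
          have h2 : 3 / 2 * E * (y₂ + y₃) ≤ 3 / 2 * E := by
            have := mul_le_mul_of_nonneg_left (by linarith : y₂ + y₃ ≤ 1)
              (by linarith : 0 ≤ 3 / 2 * E)
            linarith
          have h3 : 2 / 3 * m₁ ≤ (1 - y₁) * m₁ := mul_le_mul_of_nonneg_right (by linarith) m1
          have h4 : y₁ * m₁ ≤ 1 / 3 * m₁ := mul_le_mul_of_nonneg_right hy13.le m1
          linarith
      have goal2 : c * L + y₁ * m₁ / 10 ≤ F := by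
        have caseC : c * (Rc M m₁ m₂ m₃ r₁ r₂ r₃ + K * (0 * m₁ + u₂ * m₂ + u₃ * m₃)) ≤
            phi ν m₁ m₂ m₃ β₁ β₂ β₃ 0 u₂ u₃ - 4 * β₁ → c * L + y₁ * m₁ / 10 ≤ F := by
          intro hP
          refine fin m₁ _ (Rc M m₁ m₂ m₃ r₁ r₂ r₃ + K * m₁) _ 0 hP ?_ rfl ?_ (by ring) le_rfl
            (by linarith)
          · linarith [add_mul M K m₁]
          · rw [hL]
            refine (lminc _ _ _).trans (le_of_eq ?_)
            rw [lu2, lu3, hyl]; ring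
        rcases lmin_cases (M := M) (K := K) (m₁ := m₁) (m₂ := m₂) (m₃ := m₃) (r₁ := r₁) (r₂ := r₂)
          (r₃ := r₃) 0 u₂ u₃ with h | h | h | h
        · -- gate 1
          rw [h] at ht
          refine caseC (le_trans (mul_le_mul_of_nonneg_left ?_ hc.le) ht)
          have e : Lg K r₁ m₁ (0 * m₁ + u₂ * m₂ + u₃ * m₃) 0 =
            r₁ + K * m₁ + K * (0 * m₁ + u₂ * m₂ + u₃ * m₃) := by unfold Lg; ring
          rw [e]
          have := mul_le_mul_of_nonneg_right hK m1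
          linarith
        · -- gate 2
          rcases lt_or_ge (Lg K r₂ m₂ (0 * m₁ + u₂ * m₂ + u₃ * m₃) u₂)
            (Rc M m₁ m₂ m₃ r₁ r₂ r₃ + K * (0 * m₁ + u₂ * m₂ + u₃ * m₃)) with hlt | hge
          · rw [h] at ht
            have h38 := gt38 hM hK0 m2 R2' hlt
            refine fin (m₁ + m₂) _ (Lg K r₂ m₂ m₁ 0) _ m₂ ht ?_ rfl ?_ rfl m2 ?_
            · have e : Lg K r₂ m₂ m₁ 0 = r₂ + K * (m₁ + m₂) := by unfold Lg; ring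
              rw [e]; linarith [add_mul M K (m₁ + m₂)]
            · rw [hL]
              refine (lmin2 _ _ _).trans (le_of_eq ?_)
              rw [lu2, lu3, hyl]; unfold Lg; ring
            · have h14 : 1 / 4 ≤ y₂ := by
                rw [lu2]
                have := mul_le_mul (by linarith : 2 / 3 ≤ lam) h38.le (by norm_num) hlp.le
                linarith
              have := mul_le_mul_of_nonneg_right h14 m2
              linarith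
          · rw [h] at ht
            exact caseC (le_trans (mul_le_mul_of_nonneg_left hge hc.le) ht)
        · -- gate 3
          rcases lt_or_ge (Lg K r₃ m₃ (0 * m₁ + u₂ * m₂ + u₃ * m₃) u₃)
            (Rc M m₁ m₂ m₃ r₁ r₂ r₃ + K * (0 * m₁ + u₂ * m₂ + u₃ * m₃)) with hlt | hge
          · rw [h] at ht
            have h38 := gt38 hM hK0 m3 R3' hlt
            refine fin (m₁ + m₃) _ (Lg K r₃ m₃ m₁ 0) _ m₃ ht ?_ rfl ?_ rfl m3 ?_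
            · have e : Lg K r₃ m₃ m₁ 0 = r₃ + K * (m₁ + m₃) := by unfold Lg; ring
              rw [e]; linarith [add_mul M K (m₁ + m₃)]
            · rw [hL]
              refine (lmin3 _ _ _).trans (le_of_eq ?_)
              rw [lu2, lu3, hyl]; unfold Lg; ring
            · have h14 : 1 / 4 ≤ y₃ := by
                rw [lu3]
                have := mul_le_mul (by linarith : 2 / 3 ≤ lam) h38.le (by norm_num) hlp.le
                linarith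
              have := mul_le_mul_of_nonneg_right h14 m3
              linarith
          · rw [h] at ht
            exact caseC (le_trans (mul_le_mul_of_nonneg_left hge hc.le) ht)
        · rw [h] at ht
          exact caseC ht
      exact ⟨by linarith, fun _ => goal2⟩

end TW3
end
end

section
set_option linter.all false

/-! # Module NLA -/

noncomputable section

namespace TW3

namespace NLAM

lemma swap13 {m₁ m₂ m₃ l₁ l₂ l₃ d₁ d₂ d₃ : ℝ} (h : HasStep m₁ m₂ m₃ l₁ l₂ l₃ d₁ d₂ d₃) :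
    HasStep m₃ m₂ m₁ l₃ l₂ l₁ d₃ d₂ d₁ := h.swap12.swap23.swap12

lemma tswap13 {l₁ l₂ l₃ d₁ d₂ d₃ : ℝ} (h : Tri4 l₁ l₂ l₃ d₁ d₂ d₃) :
    Tri4 l₃ l₂ l₁ d₃ d₂ d₁ := h.swap12.swap23.swap12

/-- `x` on the leg `1` -/
lemma t2all (h21 : SpecT21) (hleg : SpecLEG) (h20 : SpecT20) {m₁ m₂ m₃ l₁ l₂ l₃ d₁ d₂ d₃ Δ : ℝ}
    (hN : NInv m₁ m₂ m₃ l₁ l₂ l₃) (hT : Tri4 l₁ l₂ l₃ d₁ d₂ d₃) (hΔ : 0 < Δ) (h1 : Δ ≤ d₁)
    (h2 : Δ ≤ d₂) (h3 : Δ ≤ d₃) (hd : d₁ < m₁) (b2 : d₂ ≤ 101 * Δ + 100 * (m₁ - d₁ + m₂))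
    (b3 : d₃ ≤ 101 * Δ + 100 * (m₁ - d₁ + m₃)) : HasStep m₁ m₂ m₃ l₁ l₂ l₃ d₁ d₂ d₃ := by
  have hN' := hN.swap23
  have hT' := hT.swap23
  have p2 := hN.B.m2
  have p3 := hN.B.m3
  by_cases he : m₁ - d₁ ≤ 3 * Δ / 1000
  · by_cases t3 : m₃ ≤ Δ / 1000
    · exact h21 _ _ _ _ _ _ _ _ _ Δ hN hT hΔ h1 h2 h3 hd b2 b3 t3 he
    by_cases t2 : m₂ ≤ Δ / 1000
    · exact (h21 _ _ _ _ _ _ _ _ _ Δ hN' hT' hΔ h1 h3 h2 hd b3 b2 t2 he).swap23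
    push Not at t2 t3
    by_cases c2 : 2 * (m₂ + d₂ / 10000000) ≤ m₁ - d₁
    · exact hleg _ _ _ _ _ _ _ _ _ Δ hN hT hΔ h1 h2 h3 hd b2 b3 (by linarith) (by linarith)
        (Or.inl c2)
    by_cases c3 : 2 * (m₃ + d₃ / 10000000) ≤ m₁ - d₁
    · exact hleg _ _ _ _ _ _ _ _ _ Δ hN hT hΔ h1 h2 h3 hd b2 b3 (by linarith) (by linarith)
        (Or.inr c3)
    push Not at c2 c3
    rcases le_total (d₂ - m₂) (d₃ - m₃) with h | h
    · exact h20 _ _ _ _ _ _ _ _ _ Δ hN hT hΔ h1 h2 h3 hd b2 b3 t2 t3 c2 c3 h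
    · exact (h20 _ _ _ _ _ _ _ _ _ Δ hN' hT' hΔ h1 h3 h2 hd b3 b2 t3 t2 c3 c2 h).swap23
  · push Not at he
    by_cases c2 : 2 * (m₂ + d₂ / 10000000) ≤ m₁ - d₁
    · exact hleg _ _ _ _ _ _ _ _ _ Δ hN hT hΔ h1 h2 h3 hd b2 b3 (by linarith) (by linarith)
        (Or.inl c2)
    by_cases c3 : 2 * (m₃ + d₃ / 10000000) ≤ m₁ - d₁
    · exact hleg _ _ _ _ _ _ _ _ _ Δ hN hT hΔ h1 h2 h3 hd b2 b3 (by linarith) (by linarith)
        (Or.inr c3)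
    push Not at c2 c3
    have t2 : Δ / 1000 < m₂ := by linarith
    have t3 : Δ / 1000 < m₃ := by linarith
    rcases le_total (d₂ - m₂) (d₃ - m₃) with h | h
    · exact h20 _ _ _ _ _ _ _ _ _ Δ hN hT hΔ h1 h2 h3 hd b2 b3 t2 t3 c2 c3 h
    · exact (h20 _ _ _ _ _ _ _ _ _ Δ hN' hT' hΔ h1 h3 h2 hd b3 b2 t3 t2 c3 c2 h).swap23

/-- `D₁` holds -/
lemma dcase (hpend : SpecPEND) (hch1 : SpecCH1) (hch3 : SpecCH3)
    {m₁ m₂ m₃ l₁ l₂ l₃ d₁ d₂ d₃ : ℝ}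
    (hN : NInv m₁ m₂ m₃ l₁ l₂ l₃) (hT : Tri4 l₁ l₂ l₃ d₁ d₂ d₃) (h1 : d₂ ≤ d₁) (h3 : d₂ ≤ d₃)
    (hd : 100 * (m₁ + m₂) < l₃) (hd' : 100 * d₂ ≤ l₃) :
    HasStep m₁ m₂ m₃ l₁ l₂ l₃ d₁ d₂ d₃ := by
  by_cases hP : (100 * (m₂ + m₃) < l₁ ∧ 100 * d₂ ≤ l₁) ∨ m₂ + m₃ < d₂ / 20 ∨ d₂ / 5 < d₃ - l₁
  · exact hpend _ _ _ _ _ _ _ _ _ hN hT h1 h3 hd hd' hP
  · push Not at hP
    obtain ⟨q1, q2, q3⟩ := hP
    have q1' : l₁ < 100 * d₂ ∨ l₁ ≤ 100 * (m₂ + m₃) := by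
      by_cases h : 100 * (m₂ + m₃) < l₁
      · exact Or.inl (q1 h)
      · exact Or.inr (not_lt.1 h)
    by_cases hs : (l₁ - m₂ - m₃) / 100 < l₁ / 10000000
    · exact hch1 _ _ _ _ _ _ _ _ _ hN hT h1 h3 hd hd' q1' q2 q3 hs
    · exact hch3 _ _ _ _ _ _ _ _ _ hN hT h1 h3 hd hd' q1' q2 q3 (not_lt.1 hs)

/-- `2` is the nearest vertex -/
lemma near2 (hpend : SpecPEND) (hch1 : SpecCH1) (hch3 : SpecCH3) (ht1 : SpecT1)
    (h21 : SpecT21) (hleg : SpecLEG) (h20 : SpecT20) {m₁ m₂ m₃ l₁ l₂ l₃ d₁ d₂ d₃ : ℝ}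
    (hN : NInv m₁ m₂ m₃ l₁ l₂ l₃) (hT : Tri4 l₁ l₂ l₃ d₁ d₂ d₃) (h1 : d₂ ≤ d₁) (h3 : d₂ ≤ d₃) :
    HasStep m₁ m₂ m₃ l₁ l₂ l₃ d₁ d₂ d₃ := by
  by_cases hD1 : 100 * (m₁ + m₂) < l₃ ∧ 100 * d₂ ≤ l₃
  · exact dcase hpend hch1 hch3 hN hT h1 h3 hD1.1 hD1.2
  by_cases hD3 : 100 * (m₂ + m₃) < l₁ ∧ 100 * d₂ ≤ l₁
  · refine swap13 (dcase hpend hch1 hch3 hN.swap13 (tswap13 hT) h3 h1 ?_ hD3.2)
    rw [add_comm m₃ m₂]
    exact hD3.1
  have e1 : l₃ < 100 * d₂ ∨ l₃ ≤ 100 * (m₁ + m₂) := by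
    by_cases h : 100 * (m₁ + m₂) < l₃
    · exact Or.inl (not_le.1 fun h' => hD1 ⟨h, h'⟩)
    · exact Or.inr (not_lt.1 h)
  have e3 : l₁ < 100 * d₂ ∨ l₁ ≤ 100 * (m₂ + m₃) := by
    by_cases h : 100 * (m₂ + m₃) < l₁
    · exact Or.inl (not_le.1 fun h' => hD3 ⟨h, h'⟩)
    · exact Or.inr (not_lt.1 h)
  have p1 := hN.B.m1
  have p2 := hN.B.m2
  have p3 := hN.B.m3
  have u1 := hN.B.ub1
  have u2 := hN.B.ub2
  have u3 := hN.B.ub3
  have f1 := hT.f1.t1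
  have f2 := hT.f1.t2
  have f3 := hT.f1.t3
  have g1 := hT.f2.t1
  have g2 := hT.f2.t2
  have g3 := hT.f2.t3
  have k1 := hT.f3.t1
  have k2 := hT.f3.t2
  have k3 := hT.f3.t3
  have pd : 0 < d₂ := hT.f1.p2
  by_cases a2 : d₂ < m₂
  · -- `x` on the leg of the nearest vertex
    refine (t2all h21 hleg h20 (Δ := d₂) hN.swap12 hT.swap12 pd le_rfl h1 h3 a2 ?_ ?_).swap12
    · rcases e1 with h | h <;> linarith
    · rcases e3 with h | h <;> linarith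
  by_cases a1 : d₁ < m₁
  · refine t2all h21 hleg h20 (Δ := d₂) hN hT pd h1 le_rfl h3 a1 ?_ ?_
    · linarith
    · rcases e3 with h | h <;> linarith
  by_cases a3 : d₃ < m₃
  · refine swap13 (t2all h21 hleg h20 (Δ := d₂) hN.swap13 (tswap13 hT) pd h3 le_rfl h1 a3 ?_ ?_)
    · linarith
    · rcases e1 with h | h <;> linarith
  push Not at a1 a2 a3
  refine ht1 _ _ _ _ _ _ _ _ _ d₂ hN hT pd h1 le_rfl h3 a1 a2 a3 ?_ ?_ ?_
  · rcases e1 with h | h <;> linarith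
  · linarith
  · rcases e3 with h | h <;> linarith

end NLAM

theorem specNLA : SpecNLA := by
  intro hpend hch1 hch3 ht1 h21 hleg h20 m₁ m₂ m₃ l₁ l₂ l₃ d₁ d₂ d₃ hN hT
  rcases le_total d₂ d₁ with h1 | h1
  · rcases le_total d₂ d₃ with h3 | h3
    · exact NLAM.near2 hpend hch1 hch3 ht1 h21 hleg h20 hN hT h1 h3
    · -- `3` is the nearest vertex
      exact (NLAM.near2 hpend hch1 hch3 ht1 h21 hleg h20 hN.swap23 hT.swap23 (h3.trans h1)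
        h3).swap23
  · rcases le_total d₁ d₃ with h3 | h3
    · exact (NLAM.near2 hpend hch1 hch3 ht1 h21 hleg h20 hN.swap12 hT.swap12 h1 h3).swap12
    · exact (NLAM.near2 hpend hch1 hch3 ht1 h21 hleg h20 hN.swap23 hT.swap23 h3
        (h3.trans h1)).swap23

end TW3
end
end

section
set_option linter.all false

/-!
# Module PEND: the pendant step
-/

noncomputable section

namespace TW3

theorem specPEND : SpecPEND := by
  intro m₁ m₂ m₃ l₁ l₂ l₃ d₁ d₂ d₃ hN hT h21 h23 hD1 hD2 hP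
  have p1 := hN.B.m1
  have p2 := hN.B.m2
  have p3 := hN.B.m3
  have w1 := hN.B.ub1
  have w2 := hN.B.ub2
  have w3 := hN.B.ub3
  have x1 := hN.B.lb1
  have x2 := hN.B.lb2
  have x3 := hN.B.lb3
  have q1 := hT.f2.p2
  have q2 := hT.f1.p2
  have q3 := hT.f1.p3
  have r1 := hT.base.p1
  have r2 := hT.base.p2
  have r3 := hT.base.p3
  have a1 := hT.f1.t1
  have a2 := hT.f1.t2
  have a3 := hT.f1.t3
  have a4 := hT.f2.t1
  have a5 := hT.f2.t2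
  have a6 := hT.f2.t3
  have a7 := hT.f3.t1
  have a8 := hT.f3.t2
  have a9 := hT.f3.t3
  have u3 : d₂ / 80 + (m₂ + m₃) ≤ d₃ := by
    rcases hP with h | h | h
    · linarith [h.1]
    · linarith
    · linarith
  have hA : Ac 0 0 0 0 0 0 := Or.inl (by norm_num)
  refine HasStep.of (T₁ := 0) (T₂ := 1) (T₃ := 0) (s₁ := 0) (s₂ := m₂) (s₃ := 0) (n := d₂ / 80)
    (by ring) (by ring) (by ring) le_rfl (by norm_num) le_rfl (by norm_num) (by linarith) ?_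
  refine ⟨by linarith, by linarith, by linarith, by linarith, by linarith, by linarith,
    Or.inr (Or.inl (by linarith)), Or.inr (Or.inl (by linarith)), Or.inr (Or.inl (by linarith)),
    ?_, ?_, ?_⟩
  · refine ⟨⟨by linarith, by linarith, by linarith, by linarith, by linarith, by linarith,
      by linarith, by linarith, by linarith⟩, ⟨?_, ?_, ?_⟩, ?_⟩
    · exact Or.inr (Or.inr (by linarith))
    · exact Zc.of_len (by linarith) (by linarith) (by linarith) (by linarith) (by linarith)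
    · exact Zc.of_slack (by linarith)
    · exact A3.of_zero2 (by linarith) (by linarith) (by linarith) (by linarith)
  · refine ⟨⟨by linarith, by linarith, by linarith, by linarith, by linarith, by linarith,
      by linarith, by linarith, by linarith⟩, ⟨?_, ?_, ?_⟩, ?_⟩
    · rcases hP with h | h | h
      · exact Zc.of_slack (by linarith [h.1, h.2])
      · exact Zc.of_slack (by linarith)
      · rcases hN.Z.z1 with hz | hz | hz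
        · exact Or.inl (by linarith)
        · exact Or.inr (Or.inl (by linarith))
        · exact Or.inr (Or.inr (by linarith))
    · rcases hN.Z.z2 with hz | hz | hz
      · exact Or.inl (by linarith)
      · exact Or.inr (Or.inl (by linarith))
      · exact Or.inr (Or.inr (by linarith))
    · exact Zc.of_slack (by linarith)
    · exact A3.of_edge12 (t := m₁) (by linarith) (by linarith) (by linarith) (by linarith)
        (Or.inl (by linarith)) (by linarith)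
  · refine ⟨⟨by linarith, by linarith, by linarith, by linarith, by linarith, by linarith,
      by linarith, by linarith, by linarith⟩, ⟨?_, ?_, ?_⟩, ?_⟩
    · exact Zc.of_slack (by linarith)
    · exact Zc.of_len (by linarith) (by linarith) (by linarith) (by linarith) (by linarith)
    · exact Or.inr (Or.inl (by linarith))
    · exact A3.of_zero2 (by linarith) (by linarith) (by linarith) (by linarith)

end TW3
end
end

section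
set_option autoImplicit false

/-! Module PER: permutations of the invariant (helper94). -/

namespace TW3

namespace PERM

theorem Rc12 (M m₁ m₂ m₃ r₁ r₂ r₃ : ℝ) : Rc M m₂ m₁ m₃ r₂ r₁ r₃ = Rc M m₁ m₂ m₃ r₁ r₂ r₃ := by
  unfold Rc
  exact max_left_comm _ _ _

theorem Rc23 (M m₁ m₂ m₃ r₁ r₂ r₃ : ℝ) : Rc M m₁ m₃ m₂ r₁ r₃ r₂ = Rc M m₁ m₂ m₃ r₁ r₂ r₃ := by
  unfold Rc
  rw [max_comm (r₃ - M * m₃)]

theorem Lmin12 (M K m₁ m₂ m₃ r₁ r₂ r₃ y₁ y₂ y₃ : ℝ) :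
    Lmin M K m₂ m₁ m₃ r₂ r₁ r₃ y₂ y₁ y₃ = Lmin M K m₁ m₂ m₃ r₁ r₂ r₃ y₁ y₂ y₃ := by
  unfold Lmin
  rw [Rc12, add_comm (y₂ * m₂) (y₁ * m₁), min_comm (Lg K r₂ m₂ _ y₂)]

theorem Lmin23 (M K m₁ m₂ m₃ r₁ r₂ r₃ y₁ y₂ y₃ : ℝ) :
    Lmin M K m₁ m₃ m₂ r₁ r₃ r₂ y₁ y₃ y₂ = Lmin M K m₁ m₂ m₃ r₁ r₂ r₃ y₁ y₂ y₃ := by
  unfold Lmin
  rw [Rc23, add_right_comm (y₁ * m₁) (y₃ * m₃) (y₂ * m₂)]
  exact min_min_min_comm _ _ _ _

theorem phi12 (ν m₁ m₂ m₃ β₁ β₂ β₃ y₁ y₂ y₃ : ℝ) :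
    phi ν m₂ m₁ m₃ β₂ β₁ β₃ y₂ y₁ y₃ = phi ν m₁ m₂ m₃ β₁ β₂ β₃ y₁ y₂ y₃ := by
  unfold phi
  ring

theorem phi23 (ν m₁ m₂ m₃ β₁ β₂ β₃ y₁ y₂ y₃ : ℝ) :
    phi ν m₁ m₃ m₂ β₁ β₃ β₂ y₁ y₃ y₂ = phi ν m₁ m₂ m₃ β₁ β₂ β₃ y₁ y₂ y₃ := by
  unfold phi
  ring

end PERM

open PERM in
theorem specPER : SpecPER := by
  refine ⟨?_, ?_⟩
  · intro M K c ν m₁ m₂ m₃ β₁ β₂ β₃ r₁ r₂ r₃ h y₁ y₂ y₃ h1 h2 h3 hs
    obtain ⟨a, b, d⟩ := h y₂ y₁ y₃ h2 h1 h3 (by linarith)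
    rw [Lmin12, phi12]
    exact ⟨b, a, d⟩
  · intro M K c ν m₁ m₂ m₃ β₁ β₂ β₃ r₁ r₂ r₃ h y₁ y₂ y₃ h1 h2 h3 hs
    obtain ⟨a, b, d⟩ := h y₁ y₃ y₂ h1 h3 h2 (by linarith)
    rw [Lmin23, phi23]
    exact ⟨a, d, b⟩

end TW3
end

section
set_option linter.all false

/-!
# Module T1: the new vertex is not below the centre of any leg
-/

noncomputable section

namespace TW3

namespace T1M

/-- the hypotheses of `T1` -/
structure H (m₁ m₂ m₃ l₁ l₂ l₃ d₁ d₂ d₃ Δ : ℝ) : Prop where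
  N : NInv m₁ m₂ m₃ l₁ l₂ l₃
  T : Tri4 l₁ l₂ l₃ d₁ d₂ d₃
  pos : 0 < Δ
  D1 : Δ ≤ d₁
  D2 : Δ ≤ d₂
  D3 : Δ ≤ d₃
  a1 : m₁ ≤ d₁
  a2 : m₂ ≤ d₂
  a3 : m₃ ≤ d₃
  b1 : d₁ ≤ 101 * Δ + 100 * m₁
  b2 : d₂ ≤ 101 * Δ + 100 * m₂
  b3 : d₃ ≤ 101 * Δ + 100 * m₃

variable {m₁ m₂ m₃ l₁ l₂ l₃ d₁ d₂ d₃ Δ : ℝ}

lemma H.swap12 (h : H m₁ m₂ m₃ l₁ l₂ l₃ d₁ d₂ d₃ Δ) : H m₂ m₁ m₃ l₂ l₁ l₃ d₂ d₁ d₃ Δ :=
  ⟨h.N.swap12, h.T.swap12, h.pos, h.D2, h.D1, h.D3, h.a2, h.a1, h.a3, h.b2, h.b1, h.b3⟩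

lemma H.swap23 (h : H m₁ m₂ m₃ l₁ l₂ l₃ d₁ d₂ d₃ Δ) : H m₁ m₃ m₂ l₁ l₃ l₂ d₁ d₃ d₂ Δ :=
  ⟨h.N.swap23, h.T.swap23, h.pos, h.D1, h.D3, h.D2, h.a1, h.a3, h.a2, h.b1, h.b3, h.b2⟩

lemma TS {s : ℝ} (h : H m₁ m₂ m₃ l₁ l₂ l₃ d₁ d₂ d₃ Δ) (hs : 0 < s) (h1 : 2 * s ≤ m₁)
    (h2 : 2 * s ≤ m₂) (h3 : 16 * s ≤ d₃ - m₃) (v1 : 5 * d₁ / 10000000 ≤ m₁)
    (v2 : 5 * d₂ / 10000000 ≤ m₂) (v3 : 5 * d₃ / 10000000 ≤ m₃ + 2 * s)
    (hg : m₁ + d₁ / 10000000 ≤ 100000 * s ∨ m₂ + d₂ / 10000000 ≤ 100000 * s ∨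
      m₃ + d₃ / 10000000 ≤ 100000 * s) : HasStep m₁ m₂ m₃ l₁ l₂ l₃ d₁ d₂ d₃ := by
  have M1 := h.N.B.m1
  have M2 := h.N.B.m2
  have M3 := h.N.B.m3
  have U1 := h.N.B.ub1
  have U2 := h.N.B.ub2
  have U3 := h.N.B.ub3
  have A1 := h.a1
  have A2 := h.a2
  have A3' := h.a3
  refine HasStep.of2 (s₁ := s) (s₂ := s) (n := 0) (t₁ := 1 / 2) (t₂ := 1 / 2) M1 M2 hs.le hs.le
    (by norm_num) (by norm_num) (by linarith) (by linarith) (by norm_num) le_rfl ?_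
  refine StepS.auto h.N h.T hs.le hs.le le_rfl le_rfl (by linarith) (by linarith) M3
    (by linarith) (by linarith) (by linarith) (by linarith) (by linarith) (by linarith)
    ?_ ?_ ?_ ?_ ?_ ?_
  · rcases hg with hg | hg | hg
    · exact Or.inl (by linarith)
    · exact Or.inr (Or.inl (by linarith))
    · exact Or.inr (Or.inr (by linarith))
  · rcases hg with hg | hg | hg
    · exact Or.inl (by linarith)
    · exact Or.inr (Or.inl (by linarith))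
    · exact Or.inr (Or.inr (by linarith))
  · rcases hg with hg | hg | hg
    · exact Or.inl (by linarith)
    · exact Or.inr (Or.inl (by linarith))
    · exact Or.inr (Or.inr (by linarith))
  · exact A3.of_edge13 (t := s) (by linarith) (by linarith) (by linarith) (by linarith)
      (Or.inl (by linarith)) (by linarith)
  · exact A3.of_edge23 (t := s) (by linarith) (by linarith) (by linarith) (by linarith)
      (Or.inl (by linarith)) (by linarith)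
  · exact A3.of_zero3 (by linarith) (by linarith) (by linarith) (by linarith)

lemma min3 (a b c : ℝ) : ∃ s, s ≤ a ∧ s ≤ b ∧ s ≤ c ∧ (s = a ∨ s = b ∨ s = c) := by
  rcases le_total a b with h1 | h1
  · rcases le_total a c with h2 | h2
    · exact ⟨a, le_rfl, h1, h2, Or.inl rfl⟩
    · exact ⟨c, h2, h2.trans h1, le_rfl, Or.inr (Or.inr rfl)⟩
  · rcases le_total b c with h2 | h2
    · exact ⟨b, h1, le_rfl, h2, Or.inr (Or.inl rfl)⟩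
    · exact ⟨c, h2.trans h1, h2, le_rfl, Or.inr (Or.inr rfl)⟩

/-- case 1 with the largest `a₃` -/
lemma case1 (h : H m₁ m₂ m₃ l₁ l₂ l₃ d₁ d₂ d₃ Δ) (h1 : Δ / 1000 < m₁) (h2 : Δ / 1000 < m₂)
    (h3 : Δ / 1000 < m₃) (g1 : d₁ - m₁ ≤ d₃ - m₃) (g2 : d₂ - m₂ ≤ d₃ - m₃) :
    HasStep m₁ m₂ m₃ l₁ l₂ l₃ d₁ d₂ d₃ := by
  have hpos := h.pos
  have b1 := h.b1
  have b2 := h.b2
  have b3 := h.b3
  have A1 := h.a1
  have A2 := h.a2
  have A3' := h.a3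
  have f1 := h.T.f1.t1
  have f2 := h.T.f2.t1
  have f3 := h.T.f3.t1
  have M1 := h.N.B.m1
  have M2 := h.N.B.m2
  have M3 := h.N.B.m3
  have hSS : SS m₁ m₂ m₃ / 100 ≤ 4 * (d₃ - m₃) := by
    rcases h.N.A.a3 with ha | ha
    · linarith
    · have : 0 ≤ min m₁ m₂ := le_min M1 M2
      linarith
  -- the smallest leg
  obtain ⟨μ, k1, k2, k3, k4⟩ := min3 m₁ m₂ m₃
  have hμ : 0 < μ := by
    rcases k4 with k | k | k <;> rw [k] <;> linarith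
  have hSSμ := le_SS hμ.le k1 k2 k3
  have hμd : m₁ + d₁ / 10000000 ≤ 2 * μ ∨ m₂ + d₂ / 10000000 ≤ 2 * μ ∨
      m₃ + d₃ / 10000000 ≤ 2 * μ := by
    rcases k4 with k | k | k
    · exact Or.inl (by rw [k]; linarith)
    · exact Or.inr (Or.inl (by rw [k]; linarith))
    · exact Or.inr (Or.inr (by rw [k]; linarith))
  obtain ⟨s, s1, s2, s3, s4⟩ := min3 ((d₃ - m₃) / 16) (m₁ / 2) (m₂ / 2)
  have hs : 0 < s := by
    rcases s4 with k | k | k <;> rw [k] <;> linarith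
  refine TS h hs (by linarith) (by linarith) (by linarith) (by linarith) (by linarith)
    (by linarith) ?_
  rcases s4 with k | k | k
  · rcases hμd with hh | hh | hh
    · exact Or.inl (by linarith)
    · exact Or.inr (Or.inl (by linarith))
    · exact Or.inr (Or.inr (by linarith))
  · exact Or.inl (by rw [k]; linarith)
  · exact Or.inr (Or.inl (by rw [k]; linarith))

/-- case 2b: the leg `3` is tiny, `a₁` is small -/
lemma case2b (h : H m₁ m₂ m₃ l₁ l₂ l₃ d₁ d₂ d₃ Δ) (h3 : m₃ ≤ Δ / 1000)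
    (g1 : d₁ - m₁ < Δ / 2) : HasStep m₁ m₂ m₃ l₁ l₂ l₃ d₁ d₂ d₃ := by
  have hpos := h.pos
  have b1 := h.b1
  have b2 := h.b2
  have b3 := h.b3
  have A1 := h.a1
  have A2 := h.a2
  have A3' := h.a3
  have D1 := h.D1
  have D2 := h.D2
  have D3 := h.D3
  have M1 := h.N.B.m1
  have M2 := h.N.B.m2
  have M3 := h.N.B.m3
  have U1 := h.N.B.ub1
  have U2 := h.N.B.ub2
  have U3 := h.N.B.ub3
  rcases lt_or_ge (Δ / 1000) m₂ with h2 | h2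
  · obtain ⟨s, s1, s2, s3, s4⟩ := min3 (Δ / 32) (m₁ / 2) (m₂ / 2)
    have hs : Δ / 2000 ≤ s := by
      rcases s4 with k | k | k <;> rw [k] <;> linarith
    refine TS h (by linarith) (by linarith) (by linarith) (by linarith) (by linarith)
      (by linarith) (by linarith) ?_
    exact Or.inr (Or.inr (by linarith))
  · refine HasStep.of2 (s₁ := Δ / 20) (s₂ := 0) (n := 0) (t₁ := 1) (t₂ := 0) M1 M2 (by linarith)
      le_rfl (by norm_num) (by norm_num) (by linarith) (by linarith) (by norm_num) le_rfl ?_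
    refine StepS.auto h.N h.T (by linarith) le_rfl le_rfl le_rfl (by linarith) M2 M3
      (by linarith) (by linarith) (by linarith) (by linarith) (by linarith) (by linarith)
      (Or.inr (Or.inr (by linarith))) (Or.inr (Or.inr (by linarith)))
      (Or.inr (Or.inr (by linarith))) ?_ ?_ ?_
    · exact A3.of_edge12 (t := Δ / 1000) (by linarith) (by linarith) (by linarith) (by linarith)
        (Or.inr (by linarith)) (by linarith)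
    · exact A3.of_zero2 (by linarith) (by linarith) (by linarith) (by linarith)
    · exact A3.of_zero3 (by linarith) (by linarith) (by linarith) (by linarith)

/-- case 2: the leg `3` is tiny -/
lemma case2 (h : H m₁ m₂ m₃ l₁ l₂ l₃ d₁ d₂ d₃ Δ) (h3 : m₃ ≤ Δ / 1000) :
    HasStep m₁ m₂ m₃ l₁ l₂ l₃ d₁ d₂ d₃ := by
  rcases lt_or_ge (d₁ - m₁) (Δ / 2) with g1 | g1
  · exact case2b h h3 g1
  rcases lt_or_ge (d₂ - m₂) (Δ / 2) with g2 | g2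
  · exact (case2b h.swap12 h3 g2).swap12
  have hpos := h.pos
  have b1 := h.b1
  have b2 := h.b2
  have b3 := h.b3
  have D3 := h.D3
  have M1 := h.N.B.m1
  have M2 := h.N.B.m2
  have M3 := h.N.B.m3
  have U1 := h.N.B.ub1
  have U2 := h.N.B.ub2
  have U3 := h.N.B.ub3
  refine HasStep.of2 (s₁ := 0) (s₂ := 0) (n := Δ / 80) (t₁ := 0) (t₂ := 0) M1 M2 le_rfl
    le_rfl le_rfl le_rfl (by linarith) (by linarith) (by norm_num) (by linarith) ?_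
  refine StepS.auto h.N h.T le_rfl le_rfl le_rfl (by linarith) M1 M2 M3
    (by linarith) (by linarith) (by linarith) (by linarith) (by linarith) (by linarith)
    (Or.inr (Or.inr (by linarith))) (Or.inr (Or.inr (by linarith)))
    (Or.inr (Or.inr (by linarith))) ?_ ?_ ?_
  · exact A3.of_edge12 (t := Δ / 80) (by linarith) (by linarith) (by linarith) (by linarith)
      (Or.inl (by linarith)) (by linarith)
  · exact A3.of_edge12 (t := Δ / 80) (by linarith) (by linarith) (by linarith) (by linarith)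
      (Or.inr (by linarith)) (by linarith)
  · exact A3.of_edge13 (t := Δ / 80) (by linarith) (by linarith) (by linarith) (by linarith)
      (Or.inr (by linarith)) (by linarith)

end T1M

open T1M in
theorem specT1 : SpecT1 := by
  intro m₁ m₂ m₃ l₁ l₂ l₃ d₁ d₂ d₃ Δ N T pos D1 D2 D3 a1 a2 a3 b1 b2 b3
  have h : H m₁ m₂ m₃ l₁ l₂ l₃ d₁ d₂ d₃ Δ := ⟨N, T, pos, D1, D2, D3, a1, a2, a3, b1, b2, b3⟩
  rcases lt_or_ge (Δ / 1000) m₃ with h3 | h3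
  · rcases lt_or_ge (Δ / 1000) m₂ with h2 | h2
    · rcases lt_or_ge (Δ / 1000) m₁ with h1 | h1
      · rcases le_total (d₁ - m₁) (d₂ - m₂) with g | g
        · rcases le_total (d₂ - m₂) (d₃ - m₃) with g' | g'
          · exact case1 h h1 h2 h3 (g.trans g') g'
          · exact (case1 h.swap23 h1 h3 h2 g g').swap23
        · rcases le_total (d₁ - m₁) (d₃ - m₃) with g' | g'
          · exact case1 h h1 h2 h3 g' (g.trans g')
          · exact (case1 h.swap12.swap23 h2 h3 h1 g g').swap23.swap12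
      · exact (case2 h.swap12.swap23 h1).swap23.swap12
    · exact (case2 h.swap23 h2).swap23
  · exact case2 h h3

end TW3
end
end

section
set_option linter.all false

/-!
# Module T20: a point on a leg near the centre
-/

noncomputable section

namespace TW3

namespace T20M

/-- the gain of the potential -/
lemma SS_gain {m₁ m₂ m₃ d₁ e ω : ℝ} (he : 0 ≤ e) (hm : m₁ = d₁ + e) (hd : 0 ≤ d₁)
    (h1 : ω ≤ d₁) (h2 : ω ≤ m₂) (h3 : ω ≤ m₃) (h4 : e ≤ 3 * m₂) (h5 : e ≤ 3 * m₃) :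
    SS e m₂ m₃ + ω ≤ SS m₁ m₂ m₃ := by
  unfold SS
  have k1 : e + ω ≤ min m₁ (4 * min m₂ m₃) := by
    refine le_min (by linarith) ?_
    rcases le_total m₂ m₃ with h | h
    · rw [min_eq_left h]; linarith
    · rw [min_eq_right h]; linarith
  have k2 : min e (4 * min m₂ m₃) ≤ e := min_le_left _ _
  have k3 : min m₂ (4 * min e m₃) ≤ min m₂ (4 * min m₁ m₃) :=
    min_le_min le_rfl (mul_le_mul_of_nonneg_left (min_le_min (by linarith) le_rfl) (by norm_num))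
  have k4 : min m₃ (4 * min e m₂) ≤ min m₃ (4 * min m₁ m₂) :=
    min_le_min le_rfl (mul_le_mul_of_nonneg_left (min_le_min (by linarith) le_rfl) (by norm_num))
  linarith

lemma min_grow {a b a' b' s : ℝ} (h1 : a' ≤ a + s) (h2 : b' ≤ b + s) :
    min a' b' ≤ min a b + s := by
  rcases le_total a b with h | h
  · rw [min_eq_left h]; exact (min_le_left _ _).trans h1
  · rw [min_eq_right h]; exact (min_le_right _ _).trans h2

end T20M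

open T20M in
theorem specT20 : SpecT20 := by
  intro m₁ m₂ m₃ l₁ l₂ l₃ d₁ d₂ d₃ Δ hN hT hΔ hd1 hd2 hd3 hlt hu2 hu3 hm2 hm3 he2 he3 hb
  have p1 := hN.B.m1
  have p2 := hN.B.m2
  have p3 := hN.B.m3
  have w1 := hN.B.ub1
  have w2 := hN.B.ub2
  have w3 := hN.B.ub3
  have a1 := hT.f1.t1
  have a4 := hT.f2.t1
  have a7 := hT.f3.t1
  obtain ⟨e, he⟩ : ∃ e, e = m₁ - d₁ := ⟨_, rfl⟩
  have hm1 : m₁ = d₁ + e := by linarith
  have he0 : 0 < e := by linarith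
  rw [← he] at hu2 hu3 he2 he3
  have g2 : e ≤ 2.05 * m₂ := by linarith
  have g3 : e ≤ 2.05 * m₃ := by linarith
  obtain ⟨ω, hω⟩ : ∃ ω, ω = min d₁ (min m₂ m₃) := ⟨_, rfl⟩
  have o1 : ω ≤ d₁ := by rw [hω]; exact min_le_left _ _
  have o2 : ω ≤ m₂ := by rw [hω]; exact (min_le_right _ _).trans (min_le_left _ _)
  have o3 : ω ≤ m₃ := by rw [hω]; exact (min_le_right _ _).trans (min_le_right _ _)
  have o0 : 0 < ω := by
    rw [hω]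
    exact lt_min (by linarith) (lt_min (by linarith) (by linarith))
  have ocase : ω = d₁ ∨ ω = m₂ ∨ ω = m₃ := by
    rw [hω]
    rcases le_total d₁ (min m₂ m₃) with h | h
    · exact Or.inl (min_eq_left h)
    · rw [min_eq_right h]
      rcases le_total m₂ m₃ with h' | h'
      · exact Or.inr (Or.inl (min_eq_left h'))
      · exact Or.inr (Or.inr (min_eq_right h'))
  obtain ⟨s, hs⟩ : ∃ s, s = ω / 10000 := ⟨_, rfl⟩
  have hs' : ω = 10000 * s := by linarith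
  have s0 : 0 < s := by linarith
  have hS3 := le_SS o0.le (by linarith : ω ≤ m₁) o2 o3
  have hb3 : 20 * s ≤ d₃ - m₃ - e := by
    rcases hN.A.a1 with h | h
    · linarith
    · have hmin : ω ≤ min m₂ m₃ := le_min o2 o3
      have hmin2 : e ≤ 2.05 * min m₂ m₃ := by
        rcases le_total m₂ m₃ with h' | h'
        · rw [min_eq_left h']; exact g2
        · rw [min_eq_right h']; exact g3
      linarith
  have hgain := SS_gain he0.le hm1 (by linarith : 0 ≤ d₁) o1 o2 o3 (by linarith : e ≤ 3 * m₂)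
    (by linarith : e ≤ 3 * m₃)
  have hSS : SS (e + s) (m₂ - s) (m₃ + s) ≤ SS m₁ m₂ m₃ - 9988 * s := by
    have h1 := SS_mono (le_refl (e + s)) (by linarith : m₂ - s ≤ m₂ + s) (le_refl (m₃ + s))
    have h2 := SS_add (m₁ := e) (m₂ := m₂) (m₃ := m₃) s0.le
    linarith
  have m1pos : 0 < m₁ := by linarith
  have m2pos : 0 < m₂ := by linarith
  refine HasStep.of (T₁ := (e + s) / m₁) (T₂ := s / m₂) (T₃ := 0) (s₁ := e + s) (s₂ := s)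
    (s₃ := 0) (n := 0) (div_mul_cancel₀ _ m1pos.ne') (div_mul_cancel₀ _ m2pos.ne') (by ring)
    (div_nonneg (by linarith) m1pos.le) (div_nonneg s0.le m2pos.le) le_rfl ?_ le_rfl ?_
  · rw [add_zero, div_add_div _ _ m1pos.ne' m2pos.ne', div_le_one (mul_pos m1pos m2pos)]
    have k1 : s * d₁ ≤ (m₂ / 10000) * d₁ := mul_le_mul_of_nonneg_right (by linarith) (by linarith)
    have k2 : s * e ≤ (d₁ / 10000) * (2.05 * m₂) :=
      mul_le_mul (by linarith) g2 he0.le (by linarith)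
    have k3 : s * m₂ ≤ (d₁ / 10000) * m₂ := mul_le_mul_of_nonneg_right (by linarith) m2pos.le
    have k4 : 0 ≤ d₁ * m₂ := mul_nonneg (by linarith) m2pos.le
    rw [hm1]
    nlinarith
  · refine StepS.auto hN hT (by linarith) s0.le le_rfl le_rfl (by linarith) (by linarith) p3
      (by linarith) (by linarith) (by linarith) (by linarith) (by linarith) (by linarith)
      ?_ ?_ ?_ ?_ ?_ ?_
    · rcases ocase with h | h | h
      · exact Or.inl (by linarith)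
      · exact Or.inr (Or.inl (by linarith))
      · exact Or.inr (Or.inr (by linarith))
    · rcases ocase with h | h | h
      · exact Or.inl (by linarith)
      · exact Or.inr (Or.inl (by linarith))
      · exact Or.inr (Or.inr (by linarith))
    · rcases ocase with h | h | h
      · exact Or.inl (by linarith)
      · exact Or.inr (Or.inl (by linarith))
      · exact Or.inr (Or.inr (by linarith))
    · have e1 : e + s + 0 = e + s := by ring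
      have e2 : m₂ - s + 0 = m₂ - s := by ring
      have e3 : m₃ - 0 + s = m₃ + s := by ring
      rw [e1, e2, e3]
      refine ⟨?_, ?_, ?_⟩
      · rcases hN.A.a1 with h | h
        · exact Or.inl (by linarith)
        · have := min_grow (a := m₂) (b := m₃) (a' := m₂ - s) (b' := m₃ + s) (s := s)
            (by linarith) (by linarith)
          exact Or.inr (by linarith)
      · rcases hN.A.a2 with h | h
        · exact Or.inl (by linarith)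
        · have := min_grow (a := m₁) (b := m₃) (a' := e + s) (b' := m₃ + s) (s := s)
            (by linarith) (by linarith)
          exact Or.inr (by linarith)
      · rcases hN.A.a3 with h | h
        · exact Or.inl (by linarith)
        · have := min_grow (a := m₁) (b := m₂) (a' := e + s) (b' := m₂ - s) (s := s)
            (by linarith) (by linarith)
          exact Or.inr (by linarith)
    · exact A3.of_edge23 (t := s) (by linarith) (by linarith) (by linarith) (by linarith)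
        (Or.inl (by linarith)) (by linarith)
    · exact A3.of_zero3 (by linarith) (by linarith) (by linarith) (by linarith)

end TW3
end
end

section
set_option linter.all false

/-!
# Treewidth three: T21
-/

noncomputable section

namespace TW3

theorem specT21 : SpecT21 := by
  intro m₁ m₂ m₃ l₁ l₂ l₃ d₁ d₂ d₃ Δ hN hT hΔ h1 h2 h3 hm hd2 hd3 hm3 he
  have p1 := hN.B.m1
  have p2 := hN.B.m2
  have p3 := hN.B.m3
  have w1 := hN.B.ub1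
  have w2 := hN.B.ub2
  have w3 := hN.B.ub3
  have f3 := hT.f3.t1
  have f2 := hT.f2.t1
  have hb2 : 0 ≤ d₂ - m₂ - (m₁ - d₁) := by linarith
  have hb3 : 996 * Δ / 1000 ≤ d₃ - m₃ - (m₁ - d₁) := by linarith
  by_cases hc : Δ / 2 ≤ d₂ - m₂ - (m₁ - d₁)
  · refine HasStep.of2 (s₁ := m₁ - d₁ + Δ / 10) (s₂ := 0) (n := 0) (t₁ := 1) (t₂ := 0) p1 p2
      (by linarith) le_rfl (by norm_num) le_rfl (by linarith) (by linarith) (by norm_num) le_rfl ?_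
    refine StepS.auto hN hT (by linarith) le_rfl le_rfl le_rfl (by linarith) p2 p3
      (by linarith) (by linarith) (by linarith) (by linarith) (by linarith) (by linarith)
      (Or.inr (Or.inr (by linarith))) (Or.inr (Or.inr (by linarith)))
      (Or.inr (Or.inr (by linarith))) ?_ ?_ ?_
    · exact A3.of_edge13 (t := Δ / 1000) (by linarith) (by linarith) (by linarith) (by linarith)
        (Or.inr (by linarith)) (by linarith)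
    · exact A3.of_zero2 (by linarith) (by linarith) (by linarith) (by linarith)
    · exact A3.of_zero3 (by linarith) (by linarith) (by linarith) (by linarith)
  · push Not at hc
    refine HasStep.of2 (s₁ := m₁ - d₁ + Δ / 50) (s₂ := Δ / 50) (n := 0) (t₁ := 1 / 2)
      (t₂ := 1 / 2) p1 p2 (by linarith) (by linarith) (by norm_num) (by norm_num) (by linarith)
      (by linarith) (by norm_num) le_rfl ?_
    refine StepS.auto hN hT (by linarith) (by linarith) le_rfl le_rfl (by linarith) (by linarith) p3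
      (by linarith) (by linarith) (by linarith) (by linarith) (by linarith) (by linarith)
      (Or.inr (Or.inr (by linarith))) (Or.inr (Or.inr (by linarith)))
      (Or.inr (Or.inr (by linarith))) ?_ ?_ ?_
    · exact A3.of_edge13 (t := 21 * Δ / 1000) (by linarith) (by linarith) (by linarith)
        (by linarith) (Or.inr (by linarith)) (by linarith)
    · exact A3.of_edge23 (t := Δ / 50) (by linarith) (by linarith) (by linarith) (by linarith)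
        (Or.inl (by linarith)) (by linarith)
    · exact A3.of_zero3 (by linarith) (by linarith) (by linarith) (by linarith)

end TW3
end
end

section
set_option linter.all false

noncomputable section

namespace TW3

namespace WXM

lemma Org.swap12 {M K c ν m₁ m₂ m₃ β₁ β₂ β₃ r₁ r₂ r₃ : ℝ}
    (h : Org M K c ν m₁ m₂ m₃ β₁ β₂ β₃ r₁ r₂ r₃) : Org M K c ν m₂ m₁ m₃ β₂ β₁ β₃ r₂ r₁ r₃ :=
  ⟨h.M0, h.K0, h.c0, h.c1, h.ν0, h.β2, h.β1, h.β3, h.μ2, h.μ1, h.μ3, h.lip2, h.lip1, by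
    rw [abs_sub_comm, add_comm m₂ m₁]; exact h.lip3⟩

lemma Org.swap23 {M K c ν m₁ m₂ m₃ β₁ β₂ β₃ r₁ r₂ r₃ : ℝ}
    (h : Org M K c ν m₁ m₂ m₃ β₁ β₂ β₃ r₁ r₂ r₃) : Org M K c ν m₁ m₃ m₂ β₁ β₃ β₂ r₁ r₃ r₂ :=
  ⟨h.M0, h.K0, h.c0, h.c1, h.ν0, h.β1, h.β3, h.β2, h.μ1, h.μ3, h.μ2, by
    rw [abs_sub_comm, add_comm m₃ m₂]; exact h.lip1, h.lip3, h.lip2⟩

lemma Rc12 (M m₁ m₂ m₃ r₁ r₂ r₃ : ℝ) : Rc M m₂ m₁ m₃ r₂ r₁ r₃ = Rc M m₁ m₂ m₃ r₁ r₂ r₃ := by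
  unfold Rc; exact max_left_comm _ _ _

lemma Rc23 (M m₁ m₂ m₃ r₁ r₂ r₃ : ℝ) : Rc M m₁ m₃ m₂ r₁ r₃ r₂ = Rc M m₁ m₂ m₃ r₁ r₂ r₃ := by
  unfold Rc; rw [max_comm (r₃ - M * m₃)]

lemma Lmin12 (M K m₁ m₂ m₃ r₁ r₂ r₃ y₁ y₂ y₃ : ℝ) :
    Lmin M K m₂ m₁ m₃ r₂ r₁ r₃ y₂ y₁ y₃ = Lmin M K m₁ m₂ m₃ r₁ r₂ r₃ y₁ y₂ y₃ := by
  unfold Lmin
  rw [Rc12, add_comm (y₂ * m₂) (y₁ * m₁), min_comm (Lg K r₂ m₂ _ _)]

lemma Lmin23 (M K m₁ m₂ m₃ r₁ r₂ r₃ y₁ y₂ y₃ : ℝ) :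
    Lmin M K m₁ m₃ m₂ r₁ r₃ r₂ y₁ y₃ y₂ = Lmin M K m₁ m₂ m₃ r₁ r₂ r₃ y₁ y₂ y₃ := by
  unfold Lmin
  rw [Rc23, add_right_comm (y₁ * m₁) (y₃ * m₃) (y₂ * m₂), min_min_min_comm]

lemma phi12 (ν m₁ m₂ m₃ β₁ β₂ β₃ y₁ y₂ y₃ : ℝ) :
    phi ν m₂ m₁ m₃ β₂ β₁ β₃ y₂ y₁ y₃ = phi ν m₁ m₂ m₃ β₁ β₂ β₃ y₁ y₂ y₃ := by
  unfold phi; ring

lemma phi23 (ν m₁ m₂ m₃ β₁ β₂ β₃ y₁ y₂ y₃ : ℝ) :
    phi ν m₁ m₃ m₂ β₁ β₃ β₂ y₁ y₃ y₂ = phi ν m₁ m₂ m₃ β₁ β₂ β₃ y₁ y₂ y₃ := by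
  unfold phi; ring

/-- Lemma G for the index 2 -/
lemma LG2 (hPER : SpecPER) (hLG : SpecLG) (M K c ν m₁ m₂ m₃ β₁ β₂ β₃ r₁ r₂ r₃ : ℝ)
    (hO : Org M K c ν m₁ m₂ m₃ β₁ β₂ β₃ r₁ r₂ r₃) (hI : Inv4 M K c ν m₁ m₂ m₃ β₁ β₂ β₃ r₁ r₂ r₃)
    (y₁ y₂ y₃ : ℝ) (q1 : 0 ≤ y₁) (q2 : 0 ≤ y₂) (q3 : 0 ≤ y₃) (hs : y₁ + y₂ + y₃ ≤ 1) :
    c * Lmin M K m₁ m₂ m₃ r₁ r₂ r₃ y₁ y₂ y₃ ≤
      phi ν m₁ m₂ m₃ β₁ β₂ β₃ y₁ y₂ y₃ - 4 * β₂ + 4 * m₂ * y₂ ∧
    (Lmin M K m₁ m₂ m₃ r₁ r₂ r₃ y₁ y₂ y₃ <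
        Lg K r₂ m₂ (y₁ * m₁ + y₂ * m₂ + y₃ * m₃) y₂ →
      c * Lmin M K m₁ m₂ m₃ r₁ r₂ r₃ y₁ y₂ y₃ + y₂ * m₂ / 10 ≤
        phi ν m₁ m₂ m₃ β₁ β₂ β₃ y₁ y₂ y₃ - 4 * β₂ + 4 * m₂ * y₂) := by
  have h := hLG M K c ν m₂ m₁ m₃ β₂ β₁ β₃ r₂ r₁ r₃ (Org.swap12 hO)
    (hPER.1 _ _ _ _ _ _ _ _ _ _ _ _ _ hI) y₂ y₁ y₃ q2 q1 q3 (by linarith)
  rw [Lmin12, phi12, add_comm (y₂ * m₂) (y₁ * m₁)] at h
  exact h

/-- Lemma G for the index 3 -/
lemma LG3 (hPER : SpecPER) (hLG : SpecLG) (M K c ν m₁ m₂ m₃ β₁ β₂ β₃ r₁ r₂ r₃ : ℝ)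
    (hO : Org M K c ν m₁ m₂ m₃ β₁ β₂ β₃ r₁ r₂ r₃) (hI : Inv4 M K c ν m₁ m₂ m₃ β₁ β₂ β₃ r₁ r₂ r₃)
    (y₁ y₂ y₃ : ℝ) (q1 : 0 ≤ y₁) (q2 : 0 ≤ y₂) (q3 : 0 ≤ y₃) (hs : y₁ + y₂ + y₃ ≤ 1) :
    c * Lmin M K m₁ m₂ m₃ r₁ r₂ r₃ y₁ y₂ y₃ ≤
      phi ν m₁ m₂ m₃ β₁ β₂ β₃ y₁ y₂ y₃ - 4 * β₃ + 4 * m₃ * y₃ ∧
    (Lmin M K m₁ m₂ m₃ r₁ r₂ r₃ y₁ y₂ y₃ <
        Lg K r₃ m₃ (y₁ * m₁ + y₂ * m₂ + y₃ * m₃) y₃ →
      c * Lmin M K m₁ m₂ m₃ r₁ r₂ r₃ y₁ y₂ y₃ + y₃ * m₃ / 10 ≤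
        phi ν m₁ m₂ m₃ β₁ β₂ β₃ y₁ y₂ y₃ - 4 * β₃ + 4 * m₃ * y₃) := by
  have h := LG2 hPER hLG M K c ν m₁ m₃ m₂ β₁ β₃ β₂ r₁ r₃ r₂ (Org.swap23 hO)
    (hPER.2 _ _ _ _ _ _ _ _ _ _ _ _ _ hI) y₁ y₃ y₂ q1 q3 q2 (by linarith)
  rw [Lmin23, phi23, add_right_comm (y₁ * m₁) (y₃ * m₃) (y₂ * m₂)] at h
  exact h

/-- the centre is the minimal gate: `y_h < 5/8` -/
lemma lt58 {M K m r y S R : ℝ} (hM : 0 < M) (hK : 4 * M ≤ K) (hm : 0 ≤ m) (hR : r - M * m ≤ R)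
    (h : R + K * S < Lg K r m S y) : y < 5 / 8 := by
  by_contra hy
  push Not at hy
  have h1 : K * (1 - 2 * y) + M ≤ 0 := by
    have : K * (1 - 2 * y) ≤ K * (-(1 / 4)) := mul_le_mul_of_nonneg_left (by linarith) (by linarith)
    linarith
  have h2 : m * (K * (1 - 2 * y) + M) ≤ 0 := mul_nonpos_of_nonneg_of_nonpos hm h1
  unfold Lg at h
  have e : r + K * (S + m * (1 - 2 * y)) = r - M * m + K * S + m * (K * (1 - 2 * y) + M) := by ring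
  rw [e] at h
  linarith

end WXM

open WXM in
/-- [WX] -/
theorem specWX (hPER : SpecPER) (hLG : SpecLG) : SpecWX := by
  intro M K c ν m₁ m₂ m₃ β₁ β₂ β₃ r₁ r₂ r₃ T₁ T₂ T₃ n r d₁ d₂ d₃ hO hI hS p q hp hq hpq
  have hM := hO.M0
  have hK0 := hO.K0
  have hK : M ≤ K := by linarith
  have hKp : 0 < K := by linarith
  have hc := hO.c0
  have hcK := hO.c1
  have m1 : 0 ≤ m₁ := hO.β1.trans hO.μ1
  have m2 : 0 ≤ m₂ := hO.β2.trans hO.μ2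
  have m3 : 0 ≤ m₃ := hO.β3.trans hO.μ3
  have T1 := hS.T1
  have T2 := hS.T2
  have T3 := hS.T3
  have Ts := hS.sum
  have n0 := hS.n0
  obtain ⟨a, ha⟩ : ∃ a, a = 1 - p - q := ⟨_, rfl⟩
  have ha0 : 0 ≤ a := by linarith
  obtain ⟨y₂, hy2⟩ : ∃ y, y = p + T₂ * a := ⟨_, rfl⟩
  obtain ⟨y₃, hy3⟩ : ∃ y, y = q + T₃ * a := ⟨_, rfl⟩
  have ta2 : 0 ≤ T₂ * a := mul_nonneg T2 ha0
  have ta3 : 0 ≤ T₃ * a := mul_nonneg T3 ha0
  have tas : T₂ * a + T₃ * a ≤ a := by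
    have := mul_le_mul_of_nonneg_right (by linarith : T₂ + T₃ ≤ 1) ha0
    linarith
  have q2 : 0 ≤ y₂ := by linarith
  have q3 : 0 ≤ y₃ := by linarith
  have qs : (0:ℝ) + y₂ + y₃ ≤ 1 := by linarith
  -- the values
  have F1 := (hI 0 y₂ y₃ le_rfl q2 q3 qs).1 rfl
  obtain ⟨F2, G2⟩ := LG2 hPER hLG M K c ν m₁ m₂ m₃ β₁ β₂ β₃ r₁ r₂ r₃ hO hI 0 y₂ y₃ le_rfl q2 q3 qs
  obtain ⟨F3, G3⟩ := LG3 hPER hLG M K c ν m₁ m₂ m₃ β₁ β₂ β₃ r₁ r₂ r₃ hO hI 0 y₂ y₃ le_rfl q2 q3 qs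
  have F0 : c * Lmin M K m₁ m₂ m₃ r₁ r₂ r₃ 0 y₂ y₃ ≤ phi ν m₁ m₂ m₃ β₁ β₂ β₃ 0 y₂ y₃ := by
    linarith [hO.β1]
  have iden : phi (ν + (1 - T₁) * β₁) (T₁ * m₁ + n) (m₂ - T₂ * m₂ + T₃ * m₃) (m₃ - T₃ * m₃ + T₂ * m₂)
        (T₁ * β₁) ((1 - T₂) * β₂ + T₃ * (m₃ - β₃)) ((1 - T₃) * β₃ + T₂ * (m₂ - β₂)) 0 p q -
      4 * (T₁ * β₁) = (1 - T₁ - T₂ - T₃) * phi ν m₁ m₂ m₃ β₁ β₂ β₃ 0 y₂ y₃ +
        T₁ * (phi ν m₁ m₂ m₃ β₁ β₂ β₃ 0 y₂ y₃ - 4 * β₁) +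
        T₂ * (phi ν m₁ m₂ m₃ β₁ β₂ β₃ 0 y₂ y₃ - 4 * β₂ + 4 * m₂ * y₂) +
        T₃ * (phi ν m₁ m₂ m₃ β₁ β₂ β₃ 0 y₂ y₃ - 4 * β₃ + 4 * m₃ * y₃) +
        4 * a * (T₂ * (1 - T₂) * m₂ + T₃ * (1 - T₃) * m₃) := by
    subst hy2 hy3 ha
    unfold phi
    ring
  rw [iden]
  obtain ⟨L, hL⟩ : ∃ L, L = Lmin M K m₁ m₂ m₃ r₁ r₂ r₃ 0 y₂ y₃ := ⟨_, rfl⟩
  rw [← hL] at F0 F1 F2 F3 G2 G3
  obtain ⟨f, hf⟩ : ∃ f, f = phi ν m₁ m₂ m₃ β₁ β₂ β₃ 0 y₂ y₃ := ⟨_, rfl⟩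
  rw [← hf] at F0 F1 F2 F3 G2 G3 ⊢
  have e0 : 0 ≤ T₂ * (1 - T₂) * m₂ := mul_nonneg (mul_nonneg T2 (by linarith)) m2
  have e0' : 0 ≤ T₃ * (1 - T₃) * m₃ := mul_nonneg (mul_nonneg T3 (by linarith)) m3
  have e1 : 0 ≤ 4 * a * (T₂ * (1 - T₂) * m₂ + T₃ * (1 - T₃) * m₃) :=
    mul_nonneg (by linarith) (by linarith)
  have w0 := mul_le_mul_of_nonneg_left F0 (by linarith : (0:ℝ) ≤ 1 - T₁ - T₂ - T₃)
  have w1 := mul_le_mul_of_nonneg_left F1 T1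
  have w2 := mul_le_mul_of_nonneg_left F2 T2
  have w3 := mul_le_mul_of_nonneg_left F3 T3
  -- the gates at the new point
  obtain ⟨S, hSd⟩ : ∃ S, S = 0 * m₁ + y₂ * m₂ + y₃ * m₃ := ⟨_, rfl⟩
  have N2 : Lmin M K (T₁ * m₁ + n) (m₂ - T₂ * m₂ + T₃ * m₃) (m₃ - T₃ * m₃ + T₂ * m₂) r r₂ r₃ 0 p q ≤
      Lg K r₂ m₂ S y₂ := by
    refine ((min_le_left _ _).trans (min_le_right _ _)).trans (le_of_eq ?_)
    subst hSd hy2 hy3 ha
    unfold Lg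
    ring
  have N3 : Lmin M K (T₁ * m₁ + n) (m₂ - T₂ * m₂ + T₃ * m₃) (m₃ - T₃ * m₃ + T₂ * m₂) r r₂ r₃ 0 p q ≤
      Lg K r₃ m₃ S y₃ := by
    refine ((min_le_right _ _).trans (min_le_left _ _)).trans (le_of_eq ?_)
    subst hSd hy2 hy3 ha
    unfold Lg
    ring
  rcases le_or_gt (Lg K r₂ m₂ S y₂) L with g2 | g2
  · have := mul_le_mul_of_nonneg_left (N2.trans g2) hc.le
    linarith
  rcases le_or_gt (Lg K r₃ m₃ S y₃) L with g3 | g3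
  · have := mul_le_mul_of_nonneg_left (N3.trans g3) hc.le
    linarith
  -- the gate `c` is minimal
  obtain ⟨R, hR⟩ : ∃ R, R = Rc M m₁ m₂ m₃ r₁ r₂ r₃ := ⟨_, rfl⟩
  have R1 : r₁ - M * m₁ ≤ R := by rw [hR]; exact le_max_left _ _
  have R2 : r₂ - M * m₂ ≤ R := by rw [hR]; exact (le_max_left _ _).trans (le_max_right _ _)
  have R3 : r₃ - M * m₃ ≤ R := by rw [hR]; exact (le_max_right _ _).trans (le_max_right _ _)
  have R1' : R ≤ r₁ + M * m₁ := by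
    rw [hR]
    have l2 := (neg_abs_le _).trans' (neg_le_neg hO.lip3)
    have l3 := (neg_abs_le _).trans' (neg_le_neg hO.lip2)
    have := mul_nonneg hM.le m1
    refine max_le (by linarith) (max_le ?_ ?_) <;> linarith [mul_add M m₁ m₂, mul_add M m₁ m₃]
  have hLc : R + K * S ≤ L := by
    have hL' : L = min (min (Lg K r₁ m₁ S 0) (Lg K r₂ m₂ S y₂))
        (min (Lg K r₃ m₃ S y₃) (R + K * S)) := by
      rw [hL, hR, hSd]; rfl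
    have h1 : R + K * S ≤ Lg K r₁ m₁ S 0 := by
      have e : Lg K r₁ m₁ S 0 = r₁ + K * m₁ + K * S := by unfold Lg; ring
      rw [e]
      have := mul_le_mul_of_nonneg_right hK m1
      linarith
    rcases le_total (R + K * S) L with h | h
    · exact h
    · have h2 : R + K * S ≤ Lg K r₁ m₁ S 0 := h1
      rw [hL'] at g2 g3 ⊢
      rcases min_lt_iff.1 g2 with h' | h'
      · rcases min_lt_iff.1 h' with h'' | h''
        · -- gate 1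
          by_contra hcon
          push Not at hcon
          have hh : min (min (Lg K r₁ m₁ S 0) (Lg K r₂ m₂ S y₂))
              (min (Lg K r₃ m₃ S y₃) (R + K * S)) = min (Lg K r₁ m₁ S 0)
                (min (Lg K r₂ m₂ S y₂) (min (Lg K r₃ m₃ S y₃) (R + K * S))) := min_assoc _ _ _
          rcases min_choice (Lg K r₁ m₁ S 0)
            (min (Lg K r₂ m₂ S y₂) (min (Lg K r₃ m₃ S y₃) (R + K * S))) with k | k
          · rw [hh, k] at hcon; linarith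
          · rw [hh, k] at hcon g2 g3
            rcases min_choice (Lg K r₂ m₂ S y₂) (min (Lg K r₃ m₃ S y₃) (R + K * S)) with k' | k'
            · rw [k'] at g2; exact lt_irrefl _ g2
            · rw [k'] at hcon g3
              rcases min_choice (Lg K r₃ m₃ S y₃) (R + K * S) with k'' | k''
              · rw [k''] at g3; exact lt_irrefl _ g3
              · rw [k''] at hcon; exact lt_irrefl _ hcon
        · exact absurd h'' (lt_irrefl _)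
      · by_contra hcon
        push Not at hcon
        have hh : min (min (Lg K r₁ m₁ S 0) (Lg K r₂ m₂ S y₂))
            (min (Lg K r₃ m₃ S y₃) (R + K * S)) = min (Lg K r₁ m₁ S 0)
              (min (Lg K r₂ m₂ S y₂) (min (Lg K r₃ m₃ S y₃) (R + K * S))) := min_assoc _ _ _
        rcases min_choice (Lg K r₁ m₁ S 0)
          (min (Lg K r₂ m₂ S y₂) (min (Lg K r₃ m₃ S y₃) (R + K * S))) with k | k
        · rw [hh, k] at hcon; linarith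
        · rw [hh, k] at hcon g2 g3
          rcases min_choice (Lg K r₂ m₂ S y₂) (min (Lg K r₃ m₃ S y₃) (R + K * S)) with k' | k'
          · rw [k'] at g2; exact lt_irrefl _ g2
          · rw [k'] at hcon g3
            rcases min_choice (Lg K r₃ m₃ S y₃) (R + K * S) with k'' | k''
            · rw [k''] at g3; exact lt_irrefl _ g3
            · rw [k''] at hcon; exact lt_irrefl _ hcon
  have z2 : y₂ < 5 / 8 := lt58 hM hK0 m2 R2 (lt_of_le_of_lt hLc g2)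
  have z3 : y₃ < 5 / 8 := lt58 hM hK0 m3 R3 (lt_of_le_of_lt hLc g3)
  have G2' := G2 (by rw [← hSd]; exact g2)
  have G3' := G3 (by rw [← hSd]; exact g3)
  have w2' := mul_le_mul_of_nonneg_left G2' T2
  have w3' := mul_le_mul_of_nonneg_left G3' T3
  obtain ⟨s₂, hs2⟩ : ∃ s, s = T₂ * m₂ := ⟨_, rfl⟩
  obtain ⟨s₃, hs3⟩ : ∃ s, s = T₃ * m₃ := ⟨_, rfl⟩
  have s2 : 0 ≤ s₂ := by rw [hs2]; exact mul_nonneg T2 m2
  have s3 : 0 ≤ s₃ := by rw [hs3]; exact mul_nonneg T3 m3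
  -- the new centre
  have Rn : Rc M (T₁ * m₁ + n) (m₂ - s₂ + s₃) (m₃ - s₃ + s₂) r r₂ r₃ ≤ R + K * (s₂ + s₃) := by
    have hc1 := hS.c1
    have hr1 := hS.r1
    have hr2 := hS.r2
    have hr3 := hS.r3
    rw [← hs2, ← hs3] at hc1
    have a2 := mul_le_mul_of_nonneg_right hK s2
    have a3 := mul_le_mul_of_nonneg_right hK s3
    have b2 := mul_nonneg hM.le s2
    have b3 := mul_nonneg hM.le s3
    have b2' := mul_nonneg hKp.le s2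
    have b3' := mul_nonneg hKp.le s3
    refine max_le ?_ (max_le ?_ ?_)
    · rcases hc1 with h | h | h <;> linarith
    · have : M * (m₂ - s₂ + s₃) = M * m₂ - M * s₂ + M * s₃ := by ring
      rw [this]; linarith [mul_add K s₂ s₃]
    · have : M * (m₃ - s₃ + s₂) = M * m₃ - M * s₃ + M * s₂ := by ring
      rw [this]; linarith [mul_add K s₂ s₃]
  have Nc : Lmin M K (T₁ * m₁ + n) (m₂ - T₂ * m₂ + T₃ * m₃) (m₃ - T₃ * m₃ + T₂ * m₂) r r₂ r₃ 0 p q ≤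
      L + 2 * K * (s₂ + s₃) := by
    refine ((min_le_right _ _).trans (min_le_right _ _)).trans ?_
    rw [← hs2, ← hs3]
    have e : K * (0 * (T₁ * m₁ + n) + p * (m₂ - s₂ + s₃) + q * (m₃ - s₃ + s₂)) =
        K * S + K * ((2 * q - 1) * s₂ + (2 * p - 1) * s₃) := by
      subst hs2 hs3 hSd hy2 hy3 ha
      ring
    rw [e]
    have h1 : K * ((2 * q - 1) * s₂ + (2 * p - 1) * s₃) ≤ K * (s₂ + s₃) := by
      refine mul_le_mul_of_nonneg_left ?_ hKp.le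
      have := mul_le_mul_of_nonneg_right (by linarith : 2 * q - 1 ≤ 1) s2
      have := mul_le_mul_of_nonneg_right (by linarith : 2 * p - 1 ≤ 1) s3
      linarith
    linarith
  have Nc' := mul_le_mul_of_nonneg_left Nc hc.le
  -- the gains
  have gain2 : 3 / 80 * s₂ ≤ T₂ * (y₂ * m₂ / 10) + 4 * a * (T₂ * (1 - T₂) * m₂) := by
    have e : T₂ * (y₂ * m₂ / 10) + 4 * a * (T₂ * (1 - T₂) * m₂) =
        s₂ * (y₂ / 10 + 4 * (a * (1 - T₂))) := by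
      subst hs2; ring
    rw [e]
    have h1 : 0 ≤ a * (1 - T₂) := mul_nonneg ha0 (by linarith)
    have h2 : 3 / 80 ≤ y₂ / 10 + 4 * (a * (1 - T₂)) := by
      have : y₂ + a * (1 - T₂) = 1 - q := by rw [hy2, ha]; ring
      linarith
    have := mul_le_mul_of_nonneg_left h2 s2
    linarith
  have gain3 : 3 / 80 * s₃ ≤ T₃ * (y₃ * m₃ / 10) + 4 * a * (T₃ * (1 - T₃) * m₃) := by
    have e : T₃ * (y₃ * m₃ / 10) + 4 * a * (T₃ * (1 - T₃) * m₃) =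
        s₃ * (y₃ / 10 + 4 * (a * (1 - T₃))) := by
      subst hs3; ring
    rw [e]
    have h1 : 0 ≤ a * (1 - T₃) := mul_nonneg ha0 (by linarith)
    have h2 : 3 / 80 ≤ y₃ / 10 + 4 * (a * (1 - T₃)) := by
      have : y₃ + a * (1 - T₃) = 1 - p := by rw [hy3, ha]; ring
      linarith
    have := mul_le_mul_of_nonneg_left h2 s3
    linarith
  have cost : c * (2 * K * (s₂ + s₃)) ≤ (s₂ + s₃) / 500 := by
    have := mul_le_mul_of_nonneg_right hcK (by linarith : 0 ≤ s₂ + s₃)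
    linarith [mul_assoc 1000 (c * K) (s₂ + s₃)]
  have ex2 : T₂ * (c * L + y₂ * m₂ / 10) = T₂ * (c * L) + T₂ * (y₂ * m₂ / 10) := by ring
  have ex3 : T₃ * (c * L + y₃ * m₃ / 10) = T₃ * (c * L) + T₃ * (y₃ * m₃ / 10) := by ring
  have ex : 4 * a * (T₂ * (1 - T₂) * m₂ + T₃ * (1 - T₃) * m₃) =
      4 * a * (T₂ * (1 - T₂) * m₂) + 4 * a * (T₃ * (1 - T₃) * m₃) := by ring
  rw [ex2] at w2'
  rw [ex3] at w3'
  rw [ex]
  rw [mul_add] at Nc'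
  linarith

end TW3
end
end

section
set_option linter.all false

noncomputable section

namespace TW3

open LGM in
/-- [WJ] -/
theorem specWJ (hPER : SpecPER) (hLG : SpecLG) : SpecWJ := by
  intro M K c ν m₁ m₂ m₃ β₁ β₂ β₃ r₁ r₂ r₃ T₁ T₂ T₃ n r d₁ d₂ d₃ hO hI hS p q hp hq hpq
  have hM := hO.M0
  have hK0 := hO.K0
  have hK : M ≤ K := by linarith
  have hKp : 0 < K := by linarith
  have hc := hO.c0
  have hcK := hO.c1
  have hcKp : 0 < c * K := mul_pos hc hKp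
  have m1 : 0 ≤ m₁ := hO.β1.trans hO.μ1
  have m2 : 0 ≤ m₂ := hO.β2.trans hO.μ2
  have m3 : 0 ≤ m₃ := hO.β3.trans hO.μ3
  obtain ⟨R1, R2, R3, R1', R2', R3'⟩ := Rfacts hO
  have T1 := hS.T1
  have T2 := hS.T2
  have T3 := hS.T3
  have Ts := hS.sum
  have n0 := hS.n0
  have hcM : c * M ≤ c * K / 4 := by
    have := mul_le_mul_of_nonneg_left hK0 hc.le
    linarith [mul_left_comm c 4 M]
  have hq1 : 0 ≤ 1 - q := by linarith
  obtain ⟨y₁, hy1⟩ : ∃ y, y = p * T₁ := ⟨_, rfl⟩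
  obtain ⟨y₂, hy2⟩ : ∃ y, y = (1 - q) * T₂ := ⟨_, rfl⟩
  obtain ⟨y₃, hy3⟩ : ∃ y, y = q + (1 - q) * T₃ := ⟨_, rfl⟩
  have q1 : 0 ≤ y₁ := by rw [hy1]; exact mul_nonneg hp T1
  have q2 : 0 ≤ y₂ := by rw [hy2]; exact mul_nonneg hq1 T2
  have q3' : 0 ≤ (1 - q) * T₃ := mul_nonneg hq1 T3
  have q3 : 0 ≤ y₃ := by rw [hy3]; linarith
  have qs : y₁ + y₂ + y₃ ≤ 1 := by
    have h1 : p * T₁ ≤ (1 - q) * T₁ := mul_le_mul_of_nonneg_right (by linarith) T1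
    have h2 : (1 - q) * (T₁ + T₂ + T₃) ≤ (1 - q) * 1 := mul_le_mul_of_nonneg_left Ts hq1
    rw [hy1, hy2, hy3]
    linarith [(by ring : (1 - q) * (T₁ + T₂ + T₃) = (1 - q) * T₁ + (1 - q) * T₂ + (1 - q) * T₃)]
  obtain ⟨F2, G2⟩ := WXM.LG2 hPER hLG M K c ν m₁ m₂ m₃ β₁ β₂ β₃ r₁ r₂ r₃ hO hI y₁ y₂ y₃ q1 q2 q3 qs
  have iden : phi (ν + (1 - T₁) * β₁) (T₁ * m₁ + n) (m₂ - T₂ * m₂ + T₃ * m₃)
        (m₃ - T₃ * m₃ + T₂ * m₂)
        (T₁ * β₁) ((1 - T₂) * β₂ + T₃ * (m₃ - β₃)) ((1 - T₃) * β₃ + T₂ * (m₂ - β₂)) p 0 q -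
      4 * ((1 - T₂) * β₂ + T₃ * (m₃ - β₃)) =
      phi ν m₁ m₂ m₃ β₁ β₂ β₃ y₁ y₂ y₃ - 4 * β₂ + 4 * m₂ * y₂ + p * n := by
    rw [hy1, hy2, hy3]; unfold phi; ring
  rw [iden]
  obtain ⟨F, hF⟩ : ∃ F, F = phi ν m₁ m₂ m₃ β₁ β₂ β₃ y₁ y₂ y₃ - 4 * β₂ + 4 * m₂ * y₂ := ⟨_, rfl⟩
  obtain ⟨L, hL⟩ : ∃ L, L = Lmin M K m₁ m₂ m₃ r₁ r₂ r₃ y₁ y₂ y₃ := ⟨_, rfl⟩
  rw [← hF, ← hL] at F2 G2
  rw [← hF]
  obtain ⟨S, hSd⟩ : ∃ S, S = y₁ * m₁ + y₂ * m₂ + y₃ * m₃ := ⟨_, rfl⟩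
  rw [← hSd] at G2
  obtain ⟨R, hR⟩ : ∃ R, R = Rc M m₁ m₂ m₃ r₁ r₂ r₃ := ⟨_, rfl⟩
  rw [← hR] at R1 R2 R3 R1' R2' R3'
  have pn : 0 ≤ p * n := mul_nonneg hp n0
  have pnK : c * (K * (p * n)) ≤ 1 / 1000 * (p * n) := by
    have := mul_le_mul_of_nonneg_right (by linarith : c * K ≤ 1 / 1000) pn
    linarith [mul_assoc c K (p * n)]
  obtain ⟨L', hL'⟩ : ∃ L', L' = Lmin M K (T₁ * m₁ + n) (m₂ - T₂ * m₂ + T₃ * m₃)
    (m₃ - T₃ * m₃ + T₂ * m₂) r r₂ r₃ p 0 q := ⟨_, rfl⟩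
  have N1 := lmin1 (M := M) (K := K) (m₁ := T₁ * m₁ + n) (m₂ := m₂ - T₂ * m₂ + T₃ * m₃)
    (m₃ := m₃ - T₃ * m₃ + T₂ * m₂) (r₁ := r) (r₂ := r₂) (r₃ := r₃) p 0 q
  have N2 := lmin2 (M := M) (K := K) (m₁ := T₁ * m₁ + n) (m₂ := m₂ - T₂ * m₂ + T₃ * m₃)
    (m₃ := m₃ - T₃ * m₃ + T₂ * m₂) (r₁ := r) (r₂ := r₂) (r₃ := r₃) p 0 q
  have N3 := lmin3 (M := M) (K := K) (m₁ := T₁ * m₁ + n) (m₂ := m₂ - T₂ * m₂ + T₃ * m₃)
    (m₃ := m₃ - T₃ * m₃ + T₂ * m₂) (r₁ := r) (r₂ := r₂) (r₃ := r₃) p 0 q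
  have Nc := lminc (M := M) (K := K) (m₁ := T₁ * m₁ + n) (m₂ := m₂ - T₂ * m₂ + T₃ * m₃)
    (m₃ := m₃ - T₃ * m₃ + T₂ * m₂) (r₁ := r) (r₂ := r₂) (r₃ := r₃) p 0 q
  rw [← hL'] at N1 N2 N3 Nc ⊢
  have N2' : L' ≤ Lg K r₂ m₂ S y₂ + K * (p * n) := by
    refine N2.trans (le_of_eq ?_)
    rw [hSd, hy1, hy2, hy3]; unfold Lg; ring
  have N3' : L' ≤ Lg K r₃ m₃ S y₃ + K * (p * n) := by
    refine N3.trans (le_of_eq ?_)
    rw [hSd, hy1, hy2, hy3]; unfold Lg; ring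
  rcases le_or_gt (Lg K r₂ m₂ S y₂) L with g2 | g2
  · have := mul_le_mul_of_nonneg_left (N2'.trans (add_le_add_left g2 _)) hc.le
    rw [mul_add] at this
    linarith
  rcases le_or_gt (Lg K r₃ m₃ S y₃) L with g3 | g3
  · have := mul_le_mul_of_nonneg_left (N3'.trans (add_le_add_left g3 _)) hc.le
    rw [mul_add] at this
    linarith
  have G2' := G2 g2
  obtain ⟨s₁, hs1⟩ : ∃ s, s = T₁ * m₁ := ⟨_, rfl⟩
  obtain ⟨s₂, hs2⟩ : ∃ s, s = T₂ * m₂ := ⟨_, rfl⟩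
  obtain ⟨s₃, hs3⟩ : ∃ s, s = T₃ * m₃ := ⟨_, rfl⟩
  have s1 : 0 ≤ s₁ := by rw [hs1]; exact mul_nonneg T1 m1
  have s2 : 0 ≤ s₂ := by rw [hs2]; exact mul_nonneg T2 m2
  have s3 : 0 ≤ s₃ := by rw [hs3]; exact mul_nonneg T3 m3
  have ym2 : y₂ * m₂ = (1 - q) * s₂ := by rw [hy2, hs2]; ring
  rw [ym2] at G2'
  -- either the centre or the gate 1 is minimal
  have hcase : R + K * S ≤ L ∨ (Lg K r₁ m₁ S y₁ ≤ L ∧ Lg K r₁ m₁ S y₁ < R + K * S) := by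
    rcases le_or_gt (R + K * S) L with h | h
    · exact Or.inl h
    · right
      rcases lmin_cases (M := M) (K := K) (m₁ := m₁) (m₂ := m₂) (m₃ := m₃) (r₁ := r₁) (r₂ := r₂)
        (r₃ := r₃) y₁ y₂ y₃ with h' | h' | h' | h'
      · rw [← hL, ← hSd] at h'
        exact ⟨h'.ge, h' ▸ h⟩
      · rw [← hL, ← hSd] at h'
        rw [← h'] at g2; exact absurd g2 (lt_irrefl _)
      · rw [← hL, ← hSd] at h'
        rw [← h'] at g3; exact absurd g3 (lt_irrefl _)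
      · rw [← hL, ← hSd, ← hR] at h'
        rw [← h'] at h; exact absurd h (lt_irrefl _)
  rcases hcase with hcen | ⟨hg1, hg1'⟩
  · -- the centre
    have z3 : y₃ < 5 / 8 := lt58c hM hK0 m3 R3 (lt_of_le_of_lt hcen g3)
    have hq58 : q < 5 / 8 := by linarith
    have Rn : Rc M (T₁ * m₁ + n) (m₂ - T₂ * m₂ + T₃ * m₃) (m₃ - T₃ * m₃ + T₂ * m₂) r r₂ r₃ ≤
        R + K * (s₂ + s₃) := by
      have hc1 := hS.c1
      have hr1 := hS.r1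
      have hr2 := hS.r2
      have hr3 := hS.r3
      rw [← hs1, ← hs2, ← hs3] at hc1 ⊢
      have a2 := mul_le_mul_of_nonneg_right hK s2
      have a3 := mul_le_mul_of_nonneg_right hK s3
      have b2 := mul_nonneg hM.le s2
      have b3 := mul_nonneg hM.le s3
      have b2' := mul_nonneg hKp.le s2
      have b3' := mul_nonneg hKp.le s3
      refine max_le ?_ (max_le ?_ ?_)
      · rcases hc1 with h | h | h <;> linarith
      · have : M * (m₂ - s₂ + s₃) = M * m₂ - M * s₂ + M * s₃ := by ring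
        rw [this]; linarith [mul_add K s₂ s₃]
      · have : M * (m₃ - s₃ + s₂) = M * m₃ - M * s₃ + M * s₂ := by ring
        rw [this]; linarith [mul_add K s₂ s₃]
    have e1 : K * (p * (T₁ * m₁ + n) + 0 * (m₂ - T₂ * m₂ + T₃ * m₃) +
        q * (m₃ - T₃ * m₃ + T₂ * m₂)) = K * S + K * (p * n) + K * (2 * q * s₂) - K * (s₂ + s₃) := by
      rw [hSd, hy1, hy2, hy3, hs2, hs3]; ring
    rw [e1] at Nc
    have Nc' : L' ≤ L + K * (p * n) + K * (2 * q * s₂) := by linarith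
    have Nc'' := mul_le_mul_of_nonneg_left Nc' hc.le
    have h1 : q * s₂ ≤ 5 / 8 * s₂ := mul_le_mul_of_nonneg_right hq58.le s2
    have h2 : 3 / 8 * s₂ ≤ (1 - q) * s₂ := mul_le_mul_of_nonneg_right (by linarith) s2
    have h3 : 0 ≤ q * s₂ := mul_nonneg hq s2
    have h4 : c * (K * (2 * q * s₂)) ≤ 2 / 1000 * (q * s₂) := by
      have := mul_le_mul_of_nonneg_right (by linarith : c * K ≤ 1 / 1000) h3
      linarith [(by ring : c * (K * (2 * q * s₂)) = 2 * (c * K * (q * s₂)))]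
    rw [mul_add, mul_add] at Nc''
    linarith
  · -- the gate 1
    have h38 := gt38 hM hK0 m1 R1' hg1'
    have hp38 : 3 / 8 < p := by
      rw [hy1] at h38
      have := mul_le_mul_of_nonneg_left (by linarith : T₁ ≤ 1) hp
      linarith
    have hq58 : q < 5 / 8 := by linarith
    have hr := hS.r1
    have hv := hS.v1
    rw [← hs1, ← hs2, ← hs3] at hv
    have m1s : 0 ≤ m₁ - s₁ := by
      rw [hs1]
      have := mul_le_mul_of_nonneg_right (by linarith : T₁ ≤ 1) m1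
      linarith
    have e1 : Lg K r (T₁ * m₁ + n) (p * (T₁ * m₁ + n) + 0 * (m₂ - T₂ * m₂ + T₃ * m₃) +
        q * (m₃ - T₃ * m₃ + T₂ * m₂)) p = Lg K r₁ m₁ S y₁ + (r - r₁) + K * (1 - p) * n -
          K * (m₁ - s₁) - K * s₃ + K * (2 * q - 1) * s₂ := by
      rw [hSd, hy1, hy2, hy3, hs1, hs2, hs3]; unfold Lg; ring
    rw [e1] at N1
    have e2 : M * (n + m₁ - s₁ + s₂ + s₃) = M * n + M * (m₁ - s₁) + M * s₂ + M * s₃ := by ring
    rw [e2] at hv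
    have h1 := mul_le_mul_of_nonneg_right hK m1s
    have h2 := mul_le_mul_of_nonneg_right hK s3
    have h3 : K * (1 - p) * n ≤ K * n := by
      have := mul_le_mul_of_nonneg_left (by linarith : 1 - p ≤ 1) hKp.le
      have := mul_le_mul_of_nonneg_right this n0
      linarith
    have h4 : K * (2 * q - 1) * s₂ ≤ K / 4 * s₂ := by
      refine mul_le_mul_of_nonneg_right ?_ s2
      have := mul_le_mul_of_nonneg_left (by linarith : 2 * q - 1 ≤ 1 / 4) hKp.le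
      linarith
    have h5 : M * s₂ ≤ K / 4 * s₂ := mul_le_mul_of_nonneg_right (by linarith) s2
    have h6 : M * n ≤ K / 4 * n := mul_le_mul_of_nonneg_right (by linarith) n0
    have N1' : L' ≤ L + 5 / 4 * (K * n) + 1 / 2 * (K * s₂) := by linarith
    have N1'' := mul_le_mul_of_nonneg_left N1' hc.le
    have k1 : c * (5 / 4 * (K * n)) ≤ 5 / 4000 * n := by
      have := mul_le_mul_of_nonneg_right (by linarith : c * K ≤ 1 / 1000) n0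
      linarith [(by ring : c * (5 / 4 * (K * n)) = 5 / 4 * (c * K * n))]
    have k2 : c * (1 / 2 * (K * s₂)) ≤ 1 / 2000 * s₂ := by
      have := mul_le_mul_of_nonneg_right (by linarith : c * K ≤ 1 / 1000) s2
      linarith [(by ring : c * (1 / 2 * (K * s₂)) = 1 / 2 * (c * K * s₂))]
    have k3 : 3 / 8 * n ≤ p * n := mul_le_mul_of_nonneg_right hp38.le n0
    have k4 : 3 / 8 * s₂ ≤ (1 - q) * s₂ := mul_le_mul_of_nonneg_right (by linarith) s2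
    rw [mul_add, mul_add] at N1''
    linarith

end TW3
end
end
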